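import Mathlib

/-!
# Spectra and rudimentary sets: basic definitions

Shared definitions for the hand-ins on the problem `Rudimentary sets versus spectra`.
-/

set_option autoImplicit false

namespace Pool.Agent.Helper20.Spectra

open FirstOrder

/-- The spectrum of a first-order sentence `φ`: the set of all `n ≥ 1` such that `φ` has a model
with exactly `n` elements. -/
def spec {L : FirstOrder.Language.{0, 0}} (φ : L.Sentence) : Set ℕ :=
  {n : ℕ | 1 ≤ n ∧ ∃ (M : Type) (_ : L.Structure M) (_ : Fintype M),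
    Fintype.card M = n ∧ φ.Realize M}

/-- `A` is a first-order spectrum: the spectrum of a first-order sentence in a finite vocabulary
(finitely many function symbols and finitely many relation symbols, of any arities). -/
def IsSpectrum (A : Set ℕ) : Prop :=
  ∃ (L : FirstOrder.Language.{0, 0}) (_ : Finite (Σ l, L.Functions l))
    (_ : Finite (Σ l, L.Relations l)) (φ : L.Sentence), A = spec φ

/-- `A` is rudimentary: `{v | v 0 ∈ A}` belongs to the least family of relations on `ℕ` which
contains all relations `p(v) = q(v)` (`p`, `q` polynomials with coefficients in `ℕ`, that is, terms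
of the language of `+` and `·`), and which is closed under complement, intersection and bounded
quantification `∃ x ≤ p(v)`.  This is definability by a bounded formula of `(ℕ, ≤, +, ·)`; the
rendering is the one of the frozen statement `S14319`. -/
def IsRudimentary (A : Set ℕ) : Prop :=
  ∀ D : (k : ℕ) → Set (Set (Fin k → ℕ)),
    (∀ (k : ℕ) (p q : MvPolynomial (Fin k) ℕ),
        {v : Fin k → ℕ | MvPolynomial.eval v p = MvPolynomial.eval v q} ∈ D k) →
    (∀ (k : ℕ) (S : Set (Fin k → ℕ)), S ∈ D k → Sᶜ ∈ D k) →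
    (∀ (k : ℕ) (S T : Set (Fin k → ℕ)), S ∈ D k → T ∈ D k → S ∩ T ∈ D k) →
    (∀ (k : ℕ) (p : MvPolynomial (Fin k) ℕ) (S : Set (Fin (k + 1) → ℕ)),
        S ∈ D (k + 1) →
        {v : Fin k → ℕ | ∃ x : ℕ, x ≤ MvPolynomial.eval v p ∧
            (Fin.cons x v : Fin (k + 1) → ℕ) ∈ S} ∈ D k) →
    {v : Fin 1 → ℕ | v 0 ∈ A} ∈ D 1

/-- For a finite set `Θ` of `2 × 2` blocks of natural numbers (a block is listed in the order
lower left, lower right, upper left, upper right), `squareSizes Θ` is the set of all `n ≥ 1` such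
that there is an `n × n` array of nonzero numbers (in the cells `(x, y)` with `1 ≤ x, y ≤ n`)
which, when it is surrounded by zeros, has all its `2 × 2` blocks in `Θ`. -/
def squareSizes (Θ : Finset (ℕ × ℕ × ℕ × ℕ)) : Set ℕ :=
  {n : ℕ | 1 ≤ n ∧ ∃ a : ℕ → ℕ → ℕ,
    (∀ x y, a x y ≠ 0 ↔ (1 ≤ x ∧ x ≤ n) ∧ (1 ≤ y ∧ y ≤ n)) ∧
    ∀ x y, x ≤ n → y ≤ n →
      (a x y, a (x + 1) y, a x (y + 1), a (x + 1) (y + 1)) ∈ Θ}

/-! ## Working form of rudimentary relations -/

/-- Rudimentary relations, as an inductive predicate. -/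
inductive Rud : (k : ℕ) → Set (Fin k → ℕ) → Prop
  | atom (k : ℕ) (p q : MvPolynomial (Fin k) ℕ) :
      Rud k {v : Fin k → ℕ | MvPolynomial.eval v p = MvPolynomial.eval v q}
  | compl (k : ℕ) (S : Set (Fin k → ℕ)) : Rud k S → Rud k Sᶜ
  | inter (k : ℕ) (S T : Set (Fin k → ℕ)) : Rud k S → Rud k T → Rud k (S ∩ T)
  | bex (k : ℕ) (p : MvPolynomial (Fin k) ℕ) (S : Set (Fin (k + 1) → ℕ)) : Rud (k + 1) S →
      Rud k {v : Fin k → ℕ | ∃ x : ℕ, x ≤ MvPolynomial.eval v p ∧
            (Fin.cons x v : Fin (k + 1) → ℕ) ∈ S}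

lemma isRudimentary_iff (A : Set ℕ) : IsRudimentary A ↔ Rud 1 {v : Fin 1 → ℕ | v 0 ∈ A} := by
  constructor
  · intro h
    exact h (fun k => {S | Rud k S}) (fun k p q => Rud.atom k p q)
      (fun k S hS => Rud.compl k S hS) (fun k S T hS hT => Rud.inter k S T hS hT)
      (fun k p S hS => Rud.bex k p S hS)
  · intro h D h1 h2 h3 h4
    have key : ∀ (k : ℕ) (S : Set (Fin k → ℕ)), Rud k S → S ∈ D k := by
      intro k S hS
      induction hS with
      | atom k p q => exact h1 k p q
      | compl k S _ ih => exact h2 k S ih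
      | inter k S T _ _ ih1 ih2 => exact h3 k S T ih1 ih2
      | bex k p S _ ih => exact h4 k p S ih
    exact key 1 _ h

namespace Rud

lemma congr {k : ℕ} {S T : Set (Fin k → ℕ)} (h : Rud k S) (hST : S = T) : Rud k T := hST ▸ h

/-- Substitution of polynomials into a rudimentary relation. -/
lemma subst {k : ℕ} {S : Set (Fin k → ℕ)} (h : Rud k S) : ∀ (m : ℕ)
    (q : Fin k → MvPolynomial (Fin m) ℕ),
    Rud m {v : Fin m → ℕ | (fun i => MvPolynomial.eval v (q i)) ∈ S} := by
  induction h with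
  | atom k p p' =>
    intro m q
    refine (Rud.atom m (MvPolynomial.bind₁ q p) (MvPolynomial.bind₁ q p')).congr ?_
    ext v
    simp only [Set.mem_ofPred_eq, MvPolynomial.eval, MvPolynomial.eval₂Hom_bind₁]
  | compl k S _ ih =>
    intro m q
    exact (Rud.compl m _ (ih m q)).congr (by ext v; simp)
  | inter k S T _ _ ih1 ih2 =>
    intro m q
    exact (Rud.inter m _ _ (ih1 m q) (ih2 m q)).congr (by ext v; simp)
  | bex k p S _ ih =>
    intro m q
    have h1 := ih (m + 1) (Fin.cons (MvPolynomial.X 0)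
      (fun i => MvPolynomial.rename Fin.succ (q i)))
    refine (Rud.bex m (MvPolynomial.bind₁ q p) _ h1).congr ?_
    ext v
    simp only [Set.mem_ofPred_eq]
    have e1 : MvPolynomial.eval v (MvPolynomial.bind₁ q p) =
        MvPolynomial.eval (fun i => MvPolynomial.eval v (q i)) p := by
      simp only [MvPolynomial.eval, MvPolynomial.eval₂Hom_bind₁]
    rw [e1]
    apply exists_congr
    intro x
    have e2 : (fun i => MvPolynomial.eval (Fin.cons x v : Fin (m + 1) → ℕ)
        ((Fin.cons (MvPolynomial.X 0) (fun i => MvPolynomial.rename Fin.succ (q i)) :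
          Fin (k + 1) → MvPolynomial (Fin (m + 1)) ℕ) i)) =
        (Fin.cons x (fun i => MvPolynomial.eval v (q i)) : Fin (k + 1) → ℕ) := by
      funext i
      refine Fin.cases ?_ (fun j => ?_) i
      · simp
      · simp only [Fin.cons_succ, MvPolynomial.eval_rename]
        rfl
    rw [e2]

lemma union {k : ℕ} {S T : Set (Fin k → ℕ)} (hS : Rud k S) (hT : Rud k T) : Rud k (S ∪ T) :=
  (Rud.compl k _ (Rud.inter k _ _ (Rud.compl k _ hS) (Rud.compl k _ hT))).congr (by
    ext v; simp; tauto)

/-- bounded universal quantification -/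
lemma ball {k : ℕ} (p : MvPolynomial (Fin k) ℕ) {S : Set (Fin (k + 1) → ℕ)} (hS : Rud (k + 1) S) :
    Rud k {v : Fin k → ℕ | ∀ x : ℕ, x ≤ MvPolynomial.eval v p →
            (Fin.cons x v : Fin (k + 1) → ℕ) ∈ S} :=
  (Rud.compl k _ (Rud.bex k p _ (Rud.compl _ _ hS))).congr (by
    ext v; simp)

lemma le {k : ℕ} (p q : MvPolynomial (Fin k) ℕ) :
    Rud k {v : Fin k → ℕ | MvPolynomial.eval v p ≤ MvPolynomial.eval v q} := by
  refine (Rud.bex k q _ (Rud.atom (k + 1)
    (MvPolynomial.rename Fin.succ p + MvPolynomial.X 0) (MvPolynomial.rename Fin.succ q))).congr ?_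
  ext v
  simp only [Set.mem_ofPred_eq, map_add, MvPolynomial.eval_rename, MvPolynomial.eval_X,
    Fin.cons_zero]
  have e : ∀ x : ℕ, ((Fin.cons x v : Fin (k + 1) → ℕ) ∘ Fin.succ) = v := by
    intro x; funext i; simp
  simp only [e]
  constructor
  · rintro ⟨x, _, h⟩; omega
  · intro h; exact ⟨MvPolynomial.eval v q - MvPolynomial.eval v p, by omega, by omega⟩

end Rud

/-- preimage of a rudimentary set under a polynomial, restricted to positive integers -/
lemma IsRudimentary.preimage {A : Set ℕ} (hA : IsRudimentary A) (q : Polynomial ℕ) :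
    IsRudimentary {n : ℕ | 1 ≤ n ∧ q.eval n ∈ A} := by
  rw [isRudimentary_iff] at hA ⊢
  have h1 := hA.subst 1 (fun _ => Polynomial.eval₂ (MvPolynomial.C) (MvPolynomial.X 0) q)
  have h2 := Rud.le (k := 1) 1 (MvPolynomial.X 0)
  refine (Rud.inter 1 _ _ h2 h1).congr ?_
  ext v
  simp only [Set.mem_inter_iff, Set.mem_ofPred_eq, map_one, MvPolynomial.eval_X]
  have e : MvPolynomial.eval v (Polynomial.eval₂ (MvPolynomial.C) (MvPolynomial.X 0) q) =
      q.eval (v 0) := by
    have e0 : (MvPolynomial.eval v).comp (MvPolynomial.C) = RingHom.id ℕ := by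
      ext; simp
    rw [Polynomial.hom_eval₂, e0, MvPolynomial.eval_X]
    rfl
  rw [e]

end Pool.Agent.Helper20.Spectra
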