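import Pool.Agent.Helper20.Spectra.RudTools

/-!
# Sets of square sizes are spectra
-/

set_option autoImplicit false

namespace Pool.Agent.Helper20.Spectra

/-- the condition that the colour classes `X c` describe a good colouring -/
def SqCond (Θ : Finset (ℕ × ℕ × ℕ × ℕ)) (C : ℕ) (X : SOA (fun _ : Fin (C + 1) => 2)) (n : ℕ) :
    Prop :=
  1 ≤ n ∧ (∀ x, x ≤ n + 1 → ∀ y, y ≤ n + 1 →
    (∃ c : Fin (C + 1), X c ![x, y] ∧ ∀ c', X c' ![x, y] → c' = c) ∧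
    (X 0 ![x, y] ↔ ¬ ((1 ≤ x ∧ x ≤ n) ∧ (1 ≤ y ∧ y ≤ n)))) ∧
  ∀ x, x ≤ n → ∀ y, y ≤ n → ∃ θ ∈ Θ, ∃ c : Fin 4 → Fin (C + 1),
    θ = ((c 0 : ℕ), (c 1 : ℕ), (c 2 : ℕ), (c 3 : ℕ)) ∧
    (X (c 0) ![x, y] ∧ X (c 1) ![x + 1, y] ∧ X (c 2) ![x, y + 1] ∧ X (c 3) ![x + 1, y + 1])

lemma X2_rudX {C k : ℕ} (c : Fin (C + 1)) {s t : (Fin k → ℕ) → ℕ} (hs : IsPoly k s)
    (ht : IsPoly k t) : RudX (fun _ : Fin (C + 1) => 2) k (fun X v => X c ![s v, t v]) := by
  refine (RudX.so' (a := fun _ : Fin (C + 1) => 2) c (t := ![s, t]) ?_).congr ?_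
  · intro j
    change Fin 2 at j
    fin_cases j
    · exact hs
    · exact ht
  · intro X v
    refine Iff.of_eq (congrArg _ ?_)
    funext j
    change Fin 2 at j
    fin_cases j <;> rfl

lemma SqCond_rudX (Θ : Finset (ℕ × ℕ × ℕ × ℕ)) (C : ℕ) {k : ℕ} {t : (Fin k → ℕ) → ℕ}
    (ht : IsPoly k t) : RudX (fun _ : Fin (C + 1) => 2) k (fun X v => SqCond Θ C X (t v)) := by
  unfold SqCond
  have one : ∀ {k : ℕ}, IsPoly k (fun _ => 1) := IsPoly.const 1
  refine (RudX.le one ht).and' (RudX.and' ?_ ?_)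
  · refine RudX.all (ht.add one) (RudX.all (ht.tail.add one) ?_)
    have x1 : IsPoly (k + 1 + 1) (fun w => Fin.tail w 0) := IsPoly.var 1
    have y0 : IsPoly (k + 1 + 1) (fun w => w 0) := IsPoly.var 0
    have n1 : IsPoly (k + 1 + 1) (fun w => t (Fin.tail (Fin.tail w))) := ht.tail.tail
    refine RudX.and' (RudX.ex_fin (fun c => RudX.and' (X2_rudX c x1 y0)
      (RudX.all_fin (fun c' => RudX.imp (X2_rudX c' x1 y0) (RudX.const _))))) ?_
    exact RudX.iff (X2_rudX 0 x1 y0) (RudX.not' (RudX.and' (RudX.and' (RudX.le one x1)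
      (RudX.le x1 n1)) (RudX.and' (RudX.le one y0) (RudX.le y0 n1))))
  · refine RudX.all ht (RudX.all ht.tail ?_)
    have x1 : IsPoly (k + 1 + 1) (fun w => Fin.tail w 0) := IsPoly.var 1
    have y0 : IsPoly (k + 1 + 1) (fun w => w 0) := IsPoly.var 0
    refine RudX.ex_finset _ (fun θ _ => RudX.ex_fin (fun c => RudX.and' (RudX.const _) ?_))
    exact (X2_rudX _ x1 y0).and' ((X2_rudX _ (x1.add one) y0).and'
      ((X2_rudX _ x1 (y0.add one)).and' (X2_rudX _ (x1.add one) (y0.add one))))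

lemma exists_SqCond (Θ : Finset (ℕ × ℕ × ℕ × ℕ)) :
    ∃ C : ℕ, ∀ n, n ∈ squareSizes Θ ↔ ∃ X, SqCond Θ C X n := by
  obtain ⟨C, hC⟩ : ∃ C : ℕ, ∀ θ ∈ Θ, θ.1 ≤ C ∧ θ.2.1 ≤ C ∧ θ.2.2.1 ≤ C ∧ θ.2.2.2 ≤ C := by
    refine ⟨Θ.sup (fun θ => θ.1 + θ.2.1 + θ.2.2.1 + θ.2.2.2), fun θ hθ => ?_⟩
    have := Finset.le_sup (f := fun θ : ℕ × ℕ × ℕ × ℕ => θ.1 + θ.2.1 + θ.2.2.1 + θ.2.2.2) hθ
    beta_reduce at this
    omega
  refine ⟨C, fun n => ?_⟩
  constructor
  · rintro ⟨hn, a, h1, h2⟩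
    have hbd : ∀ x y, x ≤ n + 1 → y ≤ n + 1 → a x y ≤ C := by
      intro x y hx hy
      by_cases h : x ≤ n ∧ y ≤ n
      · exact (hC _ (h2 x y h.1 h.2)).1
      · have : a x y = 0 := by
          by_contra h3
          have := (h1 x y).1 h3
          omega
        omega
    refine ⟨fun c w => a (w 0) (w 1) = c, hn, ?_, ?_⟩
    · intro x hx y hy
      refine ⟨⟨⟨a x y, by have := hbd x y hx hy; omega⟩, rfl, ?_⟩, ?_⟩
      · intro c' hc'
        exact Fin.ext hc'.symm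
      · show a x y = 0 ↔ _
        rw [← h1 x y]
        tauto
    · intro x hx y hy
      have h3 : a x y ≤ C ∧ a (x + 1) y ≤ C ∧ a x (y + 1) ≤ C ∧ a (x + 1) (y + 1) ≤ C :=
        hC _ (h2 x y hx hy)
      refine ⟨_, h2 x y hx hy, ![⟨a x y, by omega⟩, ⟨a (x + 1) y, by omega⟩,
        ⟨a x (y + 1), by omega⟩, ⟨a (x + 1) (y + 1), by omega⟩], rfl, rfl, rfl, rfl, rfl⟩
  · rintro ⟨X, hn, h1, h2⟩
    have h3 : ∀ x y, ∃ c : ℕ, (x ≤ n + 1 → y ≤ n + 1 → ∃ c' : Fin (C + 1), (c' : ℕ) = c ∧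
        X c' ![x, y] ∧ ∀ c'', X c'' ![x, y] → c'' = c') ∧
        (¬ (x ≤ n + 1 ∧ y ≤ n + 1) → c = 0) := by
      intro x y
      by_cases h : x ≤ n + 1 ∧ y ≤ n + 1
      · obtain ⟨c, hc, hc'⟩ := (h1 x h.1 y h.2).1
        exact ⟨c, fun _ _ => ⟨c, rfl, hc, hc'⟩, fun h' => absurd h h'⟩
      · exact ⟨0, fun h1 h2 => absurd ⟨h1, h2⟩ h, fun _ => rfl⟩
    choose a ha ha' using h3
    refine ⟨hn, a, ?_, ?_⟩
    · intro x y
      by_cases h : x ≤ n + 1 ∧ y ≤ n + 1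
      · obtain ⟨c, hc, hXc, hc'⟩ := ha x y h.1 h.2
        have h0 := (h1 x h.1 y h.2).2
        constructor
        · intro h4
          by_contra h5
          have h6 := hc' 0 (h0.2 h5)
          apply h4
          rw [← hc, ← h6]
          rfl
        · intro h4 h5
          have h6 : c = 0 := Fin.ext (hc.trans h5)
          rw [h6] at hXc
          exact h0.1 hXc h4
      · rw [ha' x y h]
        constructor
        · intro h4; exact absurd rfl h4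
        · intro h4; omega
    · intro x y hx hy
      obtain ⟨θ, hθ, c, hc, hc0, hc1, hc2, hc3⟩ := h2 x hx y hy
      have key : ∀ x y (d : Fin (C + 1)), x ≤ n + 1 → y ≤ n + 1 → X d ![x, y] →
          a x y = d := by
        intro x y d hx hy hd
        obtain ⟨c, hc, _, hc'⟩ := ha x y hx hy
        rw [← hc, hc' d hd]
      rw [key x y _ (by omega) (by omega) hc0, key (x + 1) y _ (by omega) (by omega) hc1,
        key x (y + 1) _ (by omega) (by omega) hc2,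
        key (x + 1) (y + 1) _ (by omega) (by omega) hc3, ← hc]
      exact hθ

/-- preimages of `squareSizes Θ` under polynomials are spectra -/
lemma squareSizes_preimage_isSpectrum (Θ : Finset (ℕ × ℕ × ℕ × ℕ)) (q : Polynomial ℕ) :
    IsSpectrum {n : ℕ | 1 ≤ n ∧ q.eval n ∈ squareSizes Θ} := by
  obtain ⟨C, hC⟩ := exists_SqCond Θ
  have h1 := (SqCond_rudX Θ C (IsPoly.polyEval q (IsPoly.var (0 : Fin 1)))).isSpectrum
  simpa only [hC] using h1

lemma squareSizes_isSpectrum (Θ : Finset (ℕ × ℕ × ℕ × ℕ)) : IsSpectrum (squareSizes Θ) := by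
  have h := squareSizes_preimage_isSpectrum Θ Polynomial.X
  simp only [Polynomial.eval_X] at h
  convert h using 1
  ext n
  exact ⟨fun h => ⟨h.1, h⟩, fun h => h.2⟩

end Pool.Agent.Helper20.Spectra
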