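import Pool.Agent.Helper20.Spectra.UnivSem
import Pool.Agent.Helper20.Spectra.SqSpec

/-!
# A universal finite set of blocks
-/

set_option autoImplicit false

namespace Pool.Agent.Helper20.Spectra

lemma IsSpectrum.zero_notMem {A : Set ℕ} (h : IsSpectrum A) : 0 ∉ A := by
  obtain ⟨L, _, _, φ, rfl⟩ := h
  intro h0
  exact absurd h0.1 (by omega)

lemma IsSpectrum.pos {A : Set ℕ} (h : IsSpectrum A) {n : ℕ} (hn : n ∈ A) : 1 ≤ n := by
  by_contra h0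
  have : n = 0 := by omega
  exact h.zero_notMem (this ▸ hn)

theorem exists_universal_blocks :
    ∃ Θ₀ : Finset (ℕ × ℕ × ℕ × ℕ), ∀ A : Set ℕ, IsSpectrum A →
        ∃ q : Polynomial ℕ, A = {n : ℕ | 1 ≤ n ∧ q.eval n ∈ squareSizes Θ₀} := by
  obtain ⟨k₀, Θ₀, hΘ₀⟩ := spectrum_blocks univSizes_spectrum
  refine ⟨Θ₀, ?_⟩
  intro A hA
  obtain ⟨k, Θ, hΘ⟩ := spectrum_blocks hA
  obtain ⟨t, rfl⟩ := exists_blk Θ
  refine ⟨((Polynomial.X ^ (k + 1) + Polynomial.C (2 + t)) ^ 2 + Polynomial.C t) ^ (k₀ + 1), ?_⟩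
  ext n
  have hpos : ∀ n ∈ A, 1 ≤ n := fun n hn => hA.pos hn
  have hev : ∀ n : ℕ, (((Polynomial.X ^ (k + 1) + Polynomial.C (2 + t)) ^ 2 +
      Polynomial.C t) ^ (k₀ + 1) : Polynomial ℕ).eval n =
      ((n ^ (k + 1) + 2 + t) ^ 2 + t) ^ (k₀ + 1) := by
    intro n
    simp [add_assoc]
  simp only [Set.mem_ofPred_eq, hev]
  constructor
  · intro hn
    have h1 := hpos n hn
    refine ⟨h1, ?_⟩
    rw [← hΘ₀ _ (by
      have : 1 ≤ (n ^ (k + 1) + 2 + t) ^ 2 := Nat.one_le_pow _ _ (by omega)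
      omega), mem_univSizes, ← hΘ n h1]
    exact hn
  · rintro ⟨h1, h2⟩
    rw [← hΘ₀ _ (by
      have : 1 ≤ (n ^ (k + 1) + 2 + t) ^ 2 := Nat.one_le_pow _ _ (by omega)
      omega), mem_univSizes, ← hΘ n h1] at h2
    exact h2

end Pool.Agent.Helper20.Spectra
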