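import Pool.Agent.Helper20.Spectra.FD

/-!
# Grids coded by two orders: definitions and definability
-/

set_option autoImplicit false

namespace Pool.Agent.Helper20.Spectra

section Defs

variable {M : Type}

/-- immediate successor -/
def ImSuc (r : M → M → Prop) (x y : M) : Prop := r x y ∧ ∀ z, ¬ (r x z ∧ r z y)

/-- iterated successor -/
def SucIt (r : M → M → Prop) : ℕ → M → M → Prop
  | 0 => fun x y => x = y
  | n + 1 => fun x y => ∃ z, SucIt r n x z ∧ ImSuc r z y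

/-- strict linear orders -/
structure SLin (r : M → M → Prop) : Prop where
  irrefl : ∀ x, ¬ r x x
  trans : ∀ x y z, r x y → r y z → r x z
  total : ∀ x y, r x y ∨ x = y ∨ r y x

/-- first points of blocks -/
def Bpt (r1 r2 : M → M → Prop) (p : M) : Prop := (∀ q, ¬ r1 q p) ∨ ∃ q, ImSuc r1 q p ∧ r2 p q

/-- the shift -/
def Shf (r1 r2 : M → M → Prop) (s : ℕ) (p q : M) : Prop :=
  ∃ t, SucIt r1 (s - 1) p t ∧ ImSuc r2 t q

/-- block `p` has colour `k` -/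
def ColK (r1 r2 : M → M → Prop) (k : ℕ) (p : M) : Prop :=
  (∃ x y, SucIt r1 k p x ∧ ImSuc r1 x y ∧ ¬ ImSuc r2 x y) ∧
  ∀ k' : Fin k, ∀ x y, SucIt r1 k' p x → ImSuc r1 x y → ImSuc r2 x y

/-- the block axioms -/
structure BlkAx (s : ℕ) (r1 r2 : M → M → Prop) : Prop where
  lin1 : SLin r1
  lin2 : SLin r2
  blk : ∀ p, Bpt r1 r2 p → ∀ j : Fin (s - 1), ∃ q, SucIt r1 (j + 1) p q ∧ ¬ Bpt r1 r2 q
  nxt : ∀ p q, Bpt r1 r2 p → SucIt r1 s p q → Bpt r1 r2 q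

/-- colours of cells: a number, and flags for the first column, the last column and the
diagonal -/
abbrev Gam (T : ℕ) : Type := Fin (T + 1) × Bool × Bool × Bool

/-- the number -/
def Gam.t {T : ℕ} (γ : Gam T) : ℕ := γ.1
/-- first column -/
def Gam.fl {T : ℕ} (γ : Gam T) : Bool := γ.2.1
/-- last column -/
def Gam.fr {T : ℕ} (γ : Gam T) : Bool := γ.2.2.1
/-- diagonal -/
def Gam.fd {T : ℕ} (γ : Gam T) : Bool := γ.2.2.2

/-- the cell axioms -/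
structure CellAx (Θ : Finset (ℕ × ℕ × ℕ × ℕ)) (T : ℕ) (D : M → Prop) (N F : M → M → Prop)
    (K : Gam T → M → Prop) : Prop where
  col : ∀ p, D p → ∃ γ, K γ p ∧ ∀ γ', K γ' p → γ' = γ
  a1 : ∀ p, D p → (∀ q, D q → ¬ N q p) → (∀ γ, K γ p → γ.fl = true ∧ γ.fd = true) ∧
    ∃ q, D q ∧ F p q
  a3 : ∀ p q p' q', D p → D q → D p' → D q' → F p q → N p p' → N q q' → F p' q'
  a4 : ∀ p p' q', D p → D p' → D q' → N p p' → F p' q' → ∃ q, D q ∧ N q q' ∧ F p q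
  a5 : ∀ p q q', D p → D q → D q' → F p q → F p q' → q = q'
  a6 : ∀ p, D p → ¬ F p p
  b1 : ∀ p, D p → (∀ q, D q → ¬ N p q) → ∀ γ, K γ p → γ.fr = true
  b2 : ∀ p q, D p → D q → N p q → ∀ γ δ, K γ p → K δ q → γ.fr = δ.fl
  b3 : ∀ p q, D p → D q → F p q → ∀ γ δ, K γ p → K δ q → γ.fl = δ.fl ∧ γ.fr = δ.fr
  b4 : ∀ p, D p → (∃ q, D q ∧ N q p) → (∀ q, D q → ¬ F q p) → ∀ γ, K γ p → γ.fl = false
  d1 : ∀ p, D p → ∀ γ, K γ p → γ.fd = true → γ.fr = false →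
    ∃ q q', D q ∧ D q' ∧ F p q ∧ N q q' ∧ ∀ δ, K δ q' → δ.fd = true
  d2 : ∀ p, D p → ∀ γ, K γ p → γ.fd = true → γ.fr = true → ∀ q, D q → ¬ F p q
  e0 : ∀ p, D p → ∀ γ, K γ p → (γ.t = 0 ↔ (∀ q, D q → ¬ F q p) ∨ (∀ q, D q → ¬ F p q) ∨
    (γ.fl = true ∨ γ.fr = true))
  e1 : ∀ p p' q q', D p → D p' → D q → D q' → N p p' → F p q → N q q' →
    ∀ γ γ' δ δ', K γ p → K γ' p' → K δ q → K δ' q' → γ.fr = false →
      (γ.t, γ'.t, δ.t, δ'.t) ∈ Θ

end Defs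

section Definability

variable {S : Type} {ar : S → ℕ}

/-- definable binary relations -/
def BFD (r : ∀ (M : Type), Interp S ar M → M → M → Prop) : Prop :=
  ∀ (α : Type) (e e' : ∀ (M : Type), (α → M) → M), El α e → El α e' →
    FD S ar α (fun M R v => r M R (e M v) (e' M v))

/-- definable unary relations -/
def UFD (u : ∀ (M : Type), Interp S ar M → M → Prop) : Prop :=
  ∀ (α : Type) (e : ∀ (M : Type), (α → M) → M), El α e →
    FD S ar α (fun M R v => u M R (e M v))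

lemma El.inl {α β : Type} {e : ∀ (M : Type), (α → M) → M} (h : El α e) :
    El (α ⊕ β) (fun M v => e M (v ∘ Sum.inl)) := by
  obtain ⟨a, ha⟩ := h
  exact ⟨Sum.inl a, fun M v => by beta_reduce; rw [ha]; rfl⟩

lemma El.inr {α : Type} : El (α ⊕ Unit) (fun M v => v (Sum.inr ())) := El.var _

variable {r r' r1 r2 : ∀ (M : Type), Interp S ar M → M → M → Prop}

lemma BFD.suc (h : BFD r) : BFD (fun M R => ImSuc (r M R)) := by
  intro α e e' he he'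
  unfold ImSuc
  exact FD.and (h α _ _ he he') (FD.all1 (FD.not (FD.and (h _ _ _ he.inl El.inr)
    (h _ _ _ El.inr he'.inl))))

lemma BFD.sucIt (h : BFD r) (n : ℕ) : BFD (fun M R => SucIt (r M R) n) := by
  induction n with
  | zero =>
    intro α e e' he he'
    exact FD.eq he he'
  | succ n ih =>
    intro α e e' he he'
    exact FD.ex1 (FD.and (ih _ _ _ he.inl El.inr) (h.suc _ _ _ El.inr he'.inl))

lemma BFD.bpt (h1 : BFD r1) (h2 : BFD r2) : UFD (fun M R => Bpt (r1 M R) (r2 M R)) := by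
  intro α e he
  exact FD.or (FD.all1 (FD.not (h1 _ _ _ El.inr he.inl)))
    (FD.ex1 (FD.and (h1.suc _ _ _ El.inr he.inl) (h2 _ _ _ he.inl El.inr)))

lemma BFD.shf (h1 : BFD r1) (h2 : BFD r2) (s : ℕ) :
    BFD (fun M R => Shf (r1 M R) (r2 M R) s) := by
  intro α e e' he he'
  exact FD.ex1 (FD.and (h1.sucIt (s - 1) _ _ _ he.inl El.inr) (h2.suc _ _ _ El.inr he'.inl))

lemma BFD.colK (h1 : BFD r1) (h2 : BFD r2) (k : ℕ) :
    UFD (fun M R => ColK (r1 M R) (r2 M R) k) := by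
  intro α e he
  refine FD.and (FD.ex1 (FD.ex1 (FD.and (h1.sucIt k _ _ _ he.inl.inl El.inr.inl)
    (FD.and (h1.suc _ _ _ El.inr.inl El.inr) (FD.not (h2.suc _ _ _ El.inr.inl El.inr)))))) ?_
  exact FD.all_fin (fun k' => FD.all1 (FD.all1 (FD.imp
    (h1.sucIt (k' : ℕ) _ _ _ he.inl.inl El.inr.inl) (FD.imp (h1.suc _ _ _ El.inr.inl El.inr)
      (h2.suc _ _ _ El.inr.inl El.inr)))))

lemma BFD.slin (h : BFD r) {α : Type} : FD S ar α (fun M R _ => SLin (r M R)) := by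
  have h1 : FD S ar α (fun M R _ => ∀ x : M, ¬ r M R x x) :=
    FD.all1 (FD.not (h _ _ _ El.inr El.inr))
  have h2 : FD S ar α (fun M R _ => ∀ x y z : M, r M R x y → r M R y z → r M R x z) :=
    FD.all1 (FD.all1 (FD.all1 (FD.imp (h _ _ _ El.inr.inl.inl El.inr.inl)
      (FD.imp (h _ _ _ El.inr.inl El.inr) (h _ _ _ El.inr.inl.inl El.inr)))))
  have h3 : FD S ar α (fun M R _ => ∀ x y : M, r M R x y ∨ x = y ∨ r M R y x) :=
    FD.all1 (FD.all1 (FD.or (h _ _ _ El.inr.inl El.inr) (FD.or (FD.eq El.inr.inl El.inr)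
      (h _ _ _ El.inr El.inr.inl))))
  refine (h1.and (h2.and h3)).congr (fun M R v => ?_)
  exact ⟨fun h => ⟨h.1, h.2, h.3⟩, fun h => ⟨h.1, h.2.1, h.2.2⟩⟩

lemma BFD.blkAx (h1 : BFD r1) (h2 : BFD r2) (s : ℕ) {α : Type} :
    FD S ar α (fun M R _ => BlkAx s (r1 M R) (r2 M R)) := by
  have h3 : FD S ar α (fun M R _ => ∀ p : M, Bpt (r1 M R) (r2 M R) p → ∀ j : Fin (s - 1),
      ∃ q, SucIt (r1 M R) (j + 1) p q ∧ ¬ Bpt (r1 M R) (r2 M R) q) :=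
    FD.all1 (FD.imp (h1.bpt h2 _ _ El.inr) (FD.all_fin (fun j => FD.ex1 (FD.and
      (h1.sucIt (j + 1) _ _ _ El.inr.inl El.inr) (FD.not (h1.bpt h2 _ _ El.inr))))))
  have h4 : FD S ar α (fun M R _ => ∀ p q : M, Bpt (r1 M R) (r2 M R) p →
      SucIt (r1 M R) s p q → Bpt (r1 M R) (r2 M R) q) :=
    FD.all1 (FD.all1 (FD.imp (h1.bpt h2 _ _ El.inr.inl) (FD.imp
      (h1.sucIt s _ _ _ El.inr.inl El.inr) (h1.bpt h2 _ _ El.inr))))
  refine (h1.slin.and (h2.slin.and (h3.and h4))).congr (fun M R v => ?_)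
  exact ⟨fun h => ⟨h.1, h.2, h.3, h.4⟩, fun h => ⟨h.1, h.2.1, h.2.2.1, h.2.2.2⟩⟩

lemma cellAx_FD {Θ : Finset (ℕ × ℕ × ℕ × ℕ)} {T : ℕ}
    {D : ∀ (M : Type), Interp S ar M → M → Prop}
    {N F : ∀ (M : Type), Interp S ar M → M → M → Prop}
    {K : Gam T → ∀ (M : Type), Interp S ar M → M → Prop}
    (hD : UFD D) (hN : BFD N) (hF : BFD F) (hK : ∀ γ, UFD (K γ)) {α : Type} :
    FD S ar α (fun M R _ => CellAx Θ T (D M R) (N M R) (F M R) (fun γ => K γ M R)) := by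
  have v0 : ∀ {α : Type}, El (α ⊕ Unit) (fun M v => v (Sum.inr ())) := El.inr
  have hcol : FD S ar α (fun M R _ => ∀ p : M, D M R p → ∃ γ, K γ M R p ∧
      ∀ γ', K γ' M R p → γ' = γ) :=
    FD.all1 (FD.imp (hD _ _ v0) (FD.ex_fin (fun γ => FD.and (hK γ _ _ v0)
      (FD.all_fin (fun γ' => FD.imp (hK γ' _ _ v0) (FD.const _))))))
  have a1 : FD S ar α (fun M R _ => ∀ p : M, D M R p → (∀ q, D M R q → ¬ N M R q p) →
      (∀ γ, K γ M R p → γ.fl = true ∧ γ.fd = true) ∧ ∃ q, D M R q ∧ F M R p q) :=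
    FD.all1 (FD.imp (hD _ _ v0) (FD.imp (FD.all1 (FD.imp (hD _ _ v0)
      (FD.not (hN _ _ _ v0 v0.inl)))) (FD.and (FD.all_fin (fun γ => FD.imp (hK γ _ _ v0)
        (FD.const _))) (FD.ex1 (FD.and (hD _ _ v0) (hF _ _ _ v0.inl v0))))))
  have a3 : FD S ar α (fun M R _ => ∀ p q p' q' : M, D M R p → D M R q → D M R p' →
      D M R q' → F M R p q → N M R p p' → N M R q q' → F M R p' q') :=
    FD.all1 (FD.all1 (FD.all1 (FD.all1 (FD.imp (hD _ _ v0.inl.inl.inl)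
      (FD.imp (hD _ _ v0.inl.inl) (FD.imp (hD _ _ v0.inl) (FD.imp (hD _ _ v0)
      (FD.imp (hF _ _ _ v0.inl.inl.inl v0.inl.inl) (FD.imp (hN _ _ _ v0.inl.inl.inl v0.inl)
      (FD.imp (hN _ _ _ v0.inl.inl v0) (hF _ _ _ v0.inl v0)))))))))))
  have a4 : FD S ar α (fun M R _ => ∀ p p' q' : M, D M R p → D M R p' → D M R q' →
      N M R p p' → F M R p' q' → ∃ q, D M R q ∧ N M R q q' ∧ F M R p q) :=
    FD.all1 (FD.all1 (FD.all1 (FD.imp (hD _ _ v0.inl.inl) (FD.imp (hD _ _ v0.inl)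
      (FD.imp (hD _ _ v0) (FD.imp (hN _ _ _ v0.inl.inl v0.inl) (FD.imp (hF _ _ _ v0.inl v0)
      (FD.ex1 (FD.and (hD _ _ v0) (FD.and (hN _ _ _ v0 v0.inl)
        (hF _ _ _ v0.inl.inl.inl v0)))))))))))
  have a5 : FD S ar α (fun M R _ => ∀ p q q' : M, D M R p → D M R q → D M R q' →
      F M R p q → F M R p q' → q = q') :=
    FD.all1 (FD.all1 (FD.all1 (FD.imp (hD _ _ v0.inl.inl) (FD.imp (hD _ _ v0.inl)
      (FD.imp (hD _ _ v0) (FD.imp (hF _ _ _ v0.inl.inl v0.inl)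
      (FD.imp (hF _ _ _ v0.inl.inl v0) (FD.eq v0.inl v0))))))))
  have a6 : FD S ar α (fun M R _ => ∀ p : M, D M R p → ¬ F M R p p) :=
    FD.all1 (FD.imp (hD _ _ v0) (FD.not (hF _ _ _ v0 v0)))
  have b1 : FD S ar α (fun M R _ => ∀ p : M, D M R p → (∀ q, D M R q → ¬ N M R p q) →
      ∀ γ, K γ M R p → γ.fr = true) :=
    FD.all1 (FD.imp (hD _ _ v0) (FD.imp (FD.all1 (FD.imp (hD _ _ v0)
      (FD.not (hN _ _ _ v0.inl v0)))) (FD.all_fin (fun γ => FD.imp (hK γ _ _ v0)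
        (FD.const _)))))
  have b2 : FD S ar α (fun M R _ => ∀ p q : M, D M R p → D M R q → N M R p q →
      ∀ γ δ, K γ M R p → K δ M R q → γ.fr = δ.fl) :=
    FD.all1 (FD.all1 (FD.imp (hD _ _ v0.inl) (FD.imp (hD _ _ v0)
      (FD.imp (hN _ _ _ v0.inl v0) (FD.all_fin (fun γ => FD.all_fin (fun δ =>
        FD.imp (hK γ _ _ v0.inl) (FD.imp (hK δ _ _ v0) (FD.const _)))))))))
  have b3 : FD S ar α (fun M R _ => ∀ p q : M, D M R p → D M R q → F M R p q →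
      ∀ γ δ, K γ M R p → K δ M R q → γ.fl = δ.fl ∧ γ.fr = δ.fr) :=
    FD.all1 (FD.all1 (FD.imp (hD _ _ v0.inl) (FD.imp (hD _ _ v0)
      (FD.imp (hF _ _ _ v0.inl v0) (FD.all_fin (fun γ => FD.all_fin (fun δ =>
        FD.imp (hK γ _ _ v0.inl) (FD.imp (hK δ _ _ v0) (FD.const _)))))))))
  have b4 : FD S ar α (fun M R _ => ∀ p : M, D M R p → (∃ q, D M R q ∧ N M R q p) →
      (∀ q, D M R q → ¬ F M R q p) → ∀ γ, K γ M R p → γ.fl = false) :=
    FD.all1 (FD.imp (hD _ _ v0) (FD.imp (FD.ex1 (FD.and (hD _ _ v0) (hN _ _ _ v0 v0.inl)))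
      (FD.imp (FD.all1 (FD.imp (hD _ _ v0) (FD.not (hF _ _ _ v0 v0.inl))))
        (FD.all_fin (fun γ => FD.imp (hK γ _ _ v0) (FD.const _))))))
  have d1 : FD S ar α (fun M R _ => ∀ p : M, D M R p → ∀ γ, K γ M R p → γ.fd = true →
      γ.fr = false → ∃ q q', D M R q ∧ D M R q' ∧ F M R p q ∧ N M R q q' ∧
        ∀ δ, K δ M R q' → δ.fd = true) :=
    FD.all1 (FD.imp (hD _ _ v0) (FD.all_fin (fun γ => FD.imp (hK γ _ _ v0)
      (FD.imp (FD.const _) (FD.imp (FD.const _) (FD.ex1 (FD.ex1 (FD.and (hD _ _ v0.inl)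
      (FD.and (hD _ _ v0) (FD.and (hF _ _ _ v0.inl.inl v0.inl) (FD.and (hN _ _ _ v0.inl v0)
      (FD.all_fin (fun δ => FD.imp (hK δ _ _ v0) (FD.const _))))))))))))))
  have d2 : FD S ar α (fun M R _ => ∀ p : M, D M R p → ∀ γ, K γ M R p → γ.fd = true →
      γ.fr = true → ∀ q, D M R q → ¬ F M R p q) :=
    FD.all1 (FD.imp (hD _ _ v0) (FD.all_fin (fun γ => FD.imp (hK γ _ _ v0)
      (FD.imp (FD.const _) (FD.imp (FD.const _) (FD.all1 (FD.imp (hD _ _ v0)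
        (FD.not (hF _ _ _ v0.inl v0)))))))))
  have e0 : FD S ar α (fun M R _ => ∀ p : M, D M R p → ∀ γ, K γ M R p →
      (γ.t = 0 ↔ (∀ q, D M R q → ¬ F M R q p) ∨ (∀ q, D M R q → ¬ F M R p q) ∨
        (γ.fl = true ∨ γ.fr = true))) :=
    FD.all1 (FD.imp (hD _ _ v0) (FD.all_fin (fun γ => FD.imp (hK γ _ _ v0)
      (FD.iff (FD.const _) (FD.or (FD.all1 (FD.imp (hD _ _ v0) (FD.not (hF _ _ _ v0 v0.inl))))
        (FD.or (FD.all1 (FD.imp (hD _ _ v0) (FD.not (hF _ _ _ v0.inl v0))))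
          (FD.const _)))))))
  have e1 : FD S ar α (fun M R _ => ∀ p p' q q' : M, D M R p → D M R p' → D M R q →
      D M R q' → N M R p p' → F M R p q → N M R q q' →
      ∀ γ γ' δ δ', K γ M R p → K γ' M R p' → K δ M R q → K δ' M R q' → γ.fr = false →
      (γ.t, γ'.t, δ.t, δ'.t) ∈ Θ) :=
    FD.all1 (FD.all1 (FD.all1 (FD.all1 (FD.imp (hD _ _ v0.inl.inl.inl)
      (FD.imp (hD _ _ v0.inl.inl) (FD.imp (hD _ _ v0.inl) (FD.imp (hD _ _ v0)
      (FD.imp (hN _ _ _ v0.inl.inl.inl v0.inl.inl) (FD.imp (hF _ _ _ v0.inl.inl.inl v0.inl)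
      (FD.imp (hN _ _ _ v0.inl v0) (FD.all_fin (fun γ => FD.all_fin (fun γ' =>
      FD.all_fin (fun δ => FD.all_fin (fun δ' => FD.imp (hK γ _ _ v0.inl.inl.inl)
      (FD.imp (hK γ' _ _ v0.inl.inl) (FD.imp (hK δ _ _ v0.inl) (FD.imp (hK δ' _ _ v0)
      (FD.imp (FD.const _) (FD.const _))))))))))))))))))))
  refine (hcol.and (a1.and (a3.and (a4.and (a5.and (a6.and (b1.and (b2.and (b3.and (b4.and
    (d1.and (d2.and (e0.and e1))))))))))))).congr (fun M R v => ?_)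
  constructor
  · rintro ⟨c1, c2, c3, c4, c5, c6, c7, c8, c9, c10, c11, c12, c13, c14⟩
    exact ⟨c1, c2, c3, c4, c5, c6, c7, c8, c9, c10, c11, c12, c13, c14⟩
  · rintro ⟨c1, c2, c3, c4, c5, c6, c7, c8, c9, c10, c11, c12, c13, c14⟩
    exact ⟨c1, c2, c3, c4, c5, c6, c7, c8, c9, c10, c11, c12, c13, c14⟩

end Definability

end Pool.Agent.Helper20.Spectra
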