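import Mathlib

/-!
# Orders with the umbrella property and unit interval graphs
-/

set_option autoImplicit false

namespace Pool.Agent.Helper20.Spectra

/-- The graph `G` is a unit interval graph: there are real numbers `x a` such that `a ≠ b` are
adjacent exactly when `|x a - x b| ≤ 1` (that is, the intervals `[x a, x a + 1]` and
`[x b, x b + 1]` meet). -/
def IsUnitInterval {M : Type} (G : SimpleGraph M) : Prop :=
  ∃ x : M → ℝ, ∀ a b, G.Adj a b ↔ a ≠ b ∧ |x a - x b| ≤ 1

/-- greedy representation -/
lemma greedy (E : ℕ → ℕ → Prop) (n : ℕ)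
    (hu : ∀ i j k, i < j → j < k → k < n → E i k → E i j ∧ E j k) :
    ∃ x : ℕ → ℝ, ∀ i j, i < j → j < n →
      x i < x j ∧ (E i j → x j < x i + 1) ∧ (¬ E i j → x i + 1 < x j) := by
  classical
  induction n with
  | zero => exact ⟨fun _ => 0, fun i j _ h => absurd h (Nat.not_lt_zero _)⟩
  | succ n ih =>
    obtain ⟨x, hx⟩ := ih (fun i j k h1 h2 h3 h4 => hu i j k h1 h2 (by omega) h4)
    have hmono : ∀ i k, i ≤ k → k < n → x i ≤ x k := by
      intro i k hik hk
      rcases Nat.eq_or_lt_of_le hik with h | h
      · rw [h]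
      · exact (hx i k h hk).1.le
    obtain ⟨y, hy1, hy2⟩ := Order.exists_between_finsets
      ((Finset.range n).image x ∪ ((Finset.range n).filter (fun i => ¬ E i n)).image
        (fun i => x i + 1))
      (((Finset.range n).filter (fun i => E i n)).image (fun i => x i + 1)) (by
        intro a ha b hb
        rw [Finset.mem_image] at hb
        obtain ⟨k, hk, rfl⟩ := hb
        rw [Finset.mem_filter, Finset.mem_range] at hk
        rw [Finset.mem_union, Finset.mem_image, Finset.mem_image] at ha
        rcases ha with ⟨i, hi, rfl⟩ | ⟨i, hi, rfl⟩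
        · rw [Finset.mem_range] at hi
          rcases le_or_gt i k with h | h
          · have := hmono i k h hk.1
            linarith
          · exact (hx k i h hi).2.1 (hu k i n h hi (by omega) hk.2).1
        · rw [Finset.mem_filter, Finset.mem_range] at hi
          rcases lt_trichotomy i k with h | h | h
          · have := (hx i k h hk.1).1
            linarith
          · exact absurd hk.2 (h ▸ hi.2)
          · exact absurd (hu k i n h hi.1 (by omega) hk.2).2 hi.2)
    have hy3 : ∀ i, i < n → x i < y := fun i hi => hy1 _ (Finset.mem_union_left _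
      (Finset.mem_image_of_mem _ (Finset.mem_range.2 hi)))
    have hy4 : ∀ i, i < n → ¬ E i n → x i + 1 < y := fun i hi he => hy1 _
      (Finset.mem_union_right _ (Finset.mem_image.2
        ⟨i, Finset.mem_filter.2 ⟨Finset.mem_range.2 hi, he⟩, rfl⟩))
    have hy5 : ∀ i, i < n → E i n → y < x i + 1 := fun i hi he => hy2 _
      (Finset.mem_image.2 ⟨i, Finset.mem_filter.2 ⟨Finset.mem_range.2 hi, he⟩, rfl⟩)
    refine ⟨fun i => if i = n then y else x i, fun i j hij hj => ?_⟩
    have hin : i ≠ n := by omega
    rcases Nat.eq_or_lt_of_le (Nat.le_of_lt_succ hj) with h | h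
    · subst h
      simp only [if_neg hin, if_true]
      exact ⟨hy3 i hij, hy5 i hij, hy4 i hij⟩
    · have hjn : j ≠ n := by omega
      simp only [if_neg hin, if_neg hjn]
      exact hx i j hij h

/-- umbrella orders give unit interval graphs -/
lemma isUnitInterval_of {M : Type} {G : SimpleGraph M} {n : ℕ} (e : M ≃ Fin n)
    (hu : ∀ a b c, e a < e b → e b < e c → G.Adj a c → G.Adj a b ∧ G.Adj b c) :
    IsUnitInterval G := by
  obtain ⟨x, hx⟩ := greedy
    (fun i j => ∃ a b, (e a : ℕ) = i ∧ (e b : ℕ) = j ∧ G.Adj a b) n (by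
      rintro i j k hij hjk hk ⟨a, c, ha, hc, hac⟩
      obtain ⟨b, hb⟩ : ∃ b, e b = (⟨j, by omega⟩ : Fin n) := e.surjective _
      have hb' : (e b : ℕ) = j := by rw [hb]
      have h1 : e a < e b := by
        rw [Fin.lt_def]; omega
      have h2 : e b < e c := by
        rw [Fin.lt_def]; omega
      have h3 := hu a b c h1 h2 hac
      exact ⟨⟨a, b, ha, hb', h3.1⟩, ⟨b, c, hb', hc, h3.2⟩⟩)
  have key : ∀ a b, e a < e b → (G.Adj a b ↔ |x (e a) - x (e b)| ≤ 1) := by
    intro a b hab
    have h1 := hx (e a) (e b) hab (e b).is_lt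
    have h2 : |x (e a) - x (e b)| = x (e b) - x (e a) := by
      rw [abs_sub_comm]
      exact abs_of_pos (by linarith [h1.1])
    rw [h2]
    constructor
    · intro h
      have := h1.2.1 ⟨a, b, rfl, rfl, h⟩
      linarith
    · intro h
      by_contra hne
      have := h1.2.2 (by
        rintro ⟨a', b', ha', hb', hab'⟩
        have ea : a' = a := e.injective (Fin.ext ha')
        have eb : b' = b := e.injective (Fin.ext hb')
        rw [ea, eb] at hab'
        exact hne hab')
      linarith
  refine ⟨fun a => x (e a), fun a b => ?_⟩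
  rcases lt_trichotomy (e a) (e b) with h | h | h
  · rw [key a b h]
    have : a ≠ b := by rintro rfl; exact lt_irrefl _ h
    exact ⟨fun h => ⟨this, h⟩, fun h => h.2⟩
  · have : a = b := e.injective h
    subst this
    exact ⟨fun h => absurd h (G.irrefl), fun h => absurd rfl h.1⟩
  · rw [G.adj_comm, key b a h, abs_sub_comm]
    have : a ≠ b := by rintro rfl; exact lt_irrefl _ h
    exact ⟨fun h => ⟨this, h⟩, fun h => h.2⟩

/-- order by the left end points -/
lemma exists_lin {M : Type} [Fintype M] (x : M → ℝ) :
    ∃ e : M ≃ Fin (Fintype.card M), ∀ a b, e a ≤ e b → x a ≤ x b := by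
  classical
  let e0 := Fintype.equivFin M
  have hinj : Function.Injective (fun a : M => toLex (x a, e0 a)) := by
    intro a b h
    have h1 := congrArg (fun z => (ofLex z).2) h
    exact e0.injective h1
  let LO : LinearOrder M := LinearOrder.lift' (fun a : M => toLex (x a, e0 a)) hinj
  let e1 : Fin (Fintype.card M) ≃o M := monoEquivOfFin M rfl
  refine ⟨e1.symm.toEquiv, fun a b hab => ?_⟩
  have h1 : a ≤ b := (e1.symm.le_iff_le).1 hab
  have h2 : toLex (x a, e0 a) ≤ toLex (x b, e0 b) := h1
  rcases (Prod.Lex.le_iff).1 h2 with h | h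
  · exact h.le
  · exact h.1.le

end Pool.Agent.Helper20.Spectra
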