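import Pool.Agent.Helper20.Spectra.UIEnc
import Pool.Agent.Helper20.Spectra.UIRob
import Pool.Agent.Helper20.Spectra.Universal

/-!
# Sizes of unit interval graphs
-/

set_option autoImplicit false

namespace Pool.Agent.Helper20.Spectra

open FirstOrder FirstOrder.Language

/-- The set of all `n ≥ 1` such that some unit interval graph with exactly `n` vertices satisfies
the first-order sentence `φ` of the language of graphs. -/
def unitIntervalSizes (φ : FirstOrder.Language.graph.Sentence) : Set ℕ :=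
  {n : ℕ | 1 ≤ n ∧ ∃ (M : Type) (_ : Fintype M) (G : SimpleGraph M), Fintype.card M = n ∧
    IsUnitInterval G ∧
    @FirstOrder.Language.Sentence.Realize FirstOrder.Language.graph M G.structure φ}

section Definability

variable {S : Type} {ar : S → ℕ} {r : ∀ (M : Type), Interp S ar M → M → M → Prop}

lemma BFD.tw_d (h : BFD r) : BFD (fun M R => tw (r M R)) := by
  intro α e e' he he'
  exact FD.all1 (FD.iff (h _ _ _ El.inr he.inl) (h _ _ _ El.inr he'.inl))

lemma BFD.atL_d (h : BFD r) (k : ℕ) : UFD (fun M R => atL (r M R) k) := by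
  intro α e he
  refine FD.ex (β := Fin k) (FD.and (FD.all_fin (fun t => FD.all_fin (fun t' =>
    FD.imp (FD.const _) (FD.not (FD.eq (El.var (Sum.inr t)) (El.var (Sum.inr t'))))))) ?_)
  exact FD.all_fin (fun t => h.tw_d _ _ _ he.inl (El.var (Sum.inr t)))

lemma BFD.lab0_d (h : BFD r) : UFD (fun M R => lab0 (r M R)) := fun _ _ he =>
  FD.not (h.atL_d 2 _ _ he)

lemma BFD.lab1_d (h : BFD r) (C : ℕ) : UFD (fun M R => lab1 C (r M R)) := fun _ _ he =>
  FD.and (h.atL_d 2 _ _ he) (FD.not (h.atL_d (C + 2) _ _ he))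

lemma BFD.lab2_d (h : BFD r) (C : ℕ) : UFD (fun M R => lab2 C (r M R)) := fun _ _ he =>
  h.atL_d (C + 2) _ _ he

lemma BFD.cons_d (h : BFD r) : BFD (fun M R => cons (r M R)) := by
  intro α e e' he he'
  refine FD.and (h _ _ _ he he') (FD.and (FD.not (h.tw_d _ _ _ he he')) (FD.all1 ?_))
  refine FD.imp (FD.all1 (FD.imp (h _ _ _ El.inr he.inl.inl) (FD.imp (h _ _ _ El.inr he'.inl.inl)
    (h _ _ _ El.inr El.inr.inl)))) (FD.imp (FD.all1 (FD.imp (h _ _ _ El.inr El.inr.inl)
    (FD.or (h _ _ _ El.inr he.inl.inl) (h _ _ _ El.inr he'.inl.inl)))) ?_)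
  exact FD.or (h.tw_d _ _ _ El.inr he.inl) (h.tw_d _ _ _ El.inr he'.inl)

lemma BFD.sc_d (h : BFD r) (C : ℕ) : BFD (fun M R => sc C (r M R)) := by
  intro α e e' he he'
  exact FD.and (h.cons_d _ _ _ he he') (FD.or (FD.and (h.lab0_d _ _ he) (h.lab1_d C _ _ he'))
    (FD.or (FD.and (h.lab1_d C _ _ he) (h.lab2_d C _ _ he'))
      (FD.and (h.lab2_d C _ _ he) (h.lab0_d _ _ he'))))

lemma BFD.nN_d (h : BFD r) (C : ℕ) : BFD (fun M R => nN C (r M R)) := by
  intro α e e' he he'
  exact FD.ex1 (FD.ex1 (FD.and (h.sc_d C _ _ _ he.inl.inl El.inr.inl) (FD.and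
    (h.sc_d C _ _ _ El.inr.inl El.inr) (h.sc_d C _ _ _ El.inr he'.inl.inl))))

lemma BFD.nF_d (h : BFD r) (C : ℕ) : BFD (fun M R => nF C (r M R)) := by
  intro α e e' he he'
  exact FD.and (FD.not (h _ _ _ he he')) (FD.ex1 (FD.and (h.sc_d C _ _ _ El.inr he'.inl)
    (h _ _ _ El.inr he.inl)))

lemma BFD.nK_d (h : BFD r) (C k : ℕ) : UFD (fun M R => nK C (r M R) k) := by
  intro α e he
  exact FD.ex1 (FD.and (h.sc_d C _ _ _ he.inl El.inr) (FD.and (h.atL_d (k + 2) _ _ El.inr)
    (FD.not (h.atL_d (k + 3) _ _ El.inr))))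

lemma BFD.grAx (h : BFD r) (C : ℕ) {α : Type} : FD S ar α (fun M R _ => GrAx C (r M R)) := by
  have v0 : ∀ {α : Type}, El (α ⊕ Unit) (fun M v => v (Sum.inr ())) := El.inr
  have hfi : ∀ {α : Type} {e : ∀ (M : Type), (α → M) → M}, El α e →
      FD S ar α (fun M R v => ∀ q, ¬ sc C (r M R) q (e M v)) := fun he =>
    FD.all1 (FD.not (h.sc_d C _ _ _ v0 he.inl))
  have hla : ∀ {α : Type} {e : ∀ (M : Type), (α → M) → M}, El α e →
      FD S ar α (fun M R v => ∀ q, ¬ sc C (r M R) (e M v) q) := fun he =>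
    FD.all1 (FD.not (h.sc_d C _ _ _ he.inl v0))
  have h1 : FD S ar α (fun M R _ => ∀ p p' : M, (∀ q, ¬ sc C (r M R) q p) →
      (∀ q, ¬ sc C (r M R) q p') → tw (r M R) p p') :=
    FD.all1 (FD.all1 (FD.imp (hfi v0.inl) (FD.imp (hfi v0) (h.tw_d _ _ _ v0.inl v0))))
  have h2 : FD S ar α (fun M R _ => ∀ p : M, (∀ q, ¬ sc C (r M R) q p) → lab0 (r M R) p) :=
    FD.all1 (FD.imp (hfi v0) (h.lab0_d _ _ v0))
  have h3 : FD S ar α (fun M R _ => ∀ p p' : M, (∀ q, ¬ sc C (r M R) p q) →
      (∀ q, ¬ sc C (r M R) p' q) → tw (r M R) p p') :=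
    FD.all1 (FD.all1 (FD.imp (hla v0.inl) (FD.imp (hla v0) (h.tw_d _ _ _ v0.inl v0))))
  have h4 : FD S ar α (fun M R _ => ∀ p : M, (∀ q, ¬ sc C (r M R) p q) → lab2 C (r M R) p) :=
    FD.all1 (FD.imp (hla v0) (h.lab2_d C _ _ v0))
  have h5 : FD S ar α (fun M R _ => ∀ x y : M, sc C (r M R) x y → lab1 C (r M R) x →
      ∀ e : Fin C, atL (r M R) (e + 2) x → ¬ atL (r M R) (e + 3) x →
        atL (r M R) (2 * C + 1 - e) y ∧ ¬ atL (r M R) (2 * C + 2 - e) y) :=
    FD.all1 (FD.all1 (FD.imp (h.sc_d C _ _ _ v0.inl v0) (FD.imp (h.lab1_d C _ _ v0.inl)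
      (FD.all_fin (fun e => FD.imp (h.atL_d _ _ _ v0.inl) (FD.imp (FD.not (h.atL_d _ _ _ v0.inl))
        (FD.and (h.atL_d _ _ _ v0) (FD.not (h.atL_d _ _ _ v0)))))))))
  refine (h1.and (h2.and (h3.and (h4.and h5)))).congr (fun M R v => ?_)
  exact ⟨fun h => ⟨h.1, h.2, h.3, h.4, h.5⟩,
    fun h => ⟨h.1, h.2.1, h.2.2.1, h.2.2.2.1, h.2.2.2.2⟩⟩

end Definability

/-- closed adjacency of an interpretation -/
def caR {M : Type} (R : Interp Unit (fun _ => 2) M) (x y : M) : Prop := x = y ∨ leR R x y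

lemma caR_BFD : BFD (S := Unit) (ar := fun _ => 2) (fun _ R => caR R) := fun _ _ _ he he' =>
  FD.or (FD.eq he he') (leR_BFD _ _ _ he he')

/-- the coding property -/
def UiP (Θ : Finset (ℕ × ℕ × ℕ × ℕ)) (T : ℕ) {M : Type} (ca : M → M → Prop) : Prop :=
  GrAx (nC T) ca ∧ CellAx Θ T (lab0 ca) (nN (nC T) ca) (nF (nC T) ca)
    (fun γ => nK (nC T) ca (cK T γ))

lemma uiP_FD (Θ : Finset (ℕ × ℕ × ℕ × ℕ)) (T : ℕ) {α : Type} :
    FD Unit (fun _ => 2) α (fun _ R _ => UiP Θ T (caR R)) :=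
  FD.and (caR_BFD.grAx (nC T)) (cellAx_FD caR_BFD.lab0_d (caR_BFD.nN_d (nC T)) (caR_BFD.nF_d (nC T))
    (fun γ => caR_BFD.nK_d (nC T) (cK T γ)))

/-- translation of vocabularies -/
def toGr : RelLang Unit (fun _ => 2) →ᴸ Language.graph where
  onFunction := fun _ f => Empty.elim f
  onRelation := fun _ r => r.2 ▸ (adj : Language.graph.Relations 2)

/-- the interpretation given by a graph -/
def grI {M : Type} (G : SimpleGraph M) : Interp Unit (fun _ => 2) M := fun _ v => G.Adj (v 0) (v 1)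

lemma toGr_expansion {M : Type} (G : SimpleGraph M) :
    @LHom.IsExpansionOn _ _ toGr M (mkS (grI G)) G.structure := by
  let _ := mkS (grI G)
  let _ := G.structure
  refine ⟨?_, ?_⟩
  · intro n f x
    exact Empty.elim f
  · rintro n ⟨u, rfl⟩ x
    rfl

/-- definable classes of graphs are given by sentences of the language of graphs -/
lemma exists_gr_sentence {P : ∀ (M : Type), Interp Unit (fun _ => 2) M → Prop}
    (h : FD Unit (fun _ => 2) Empty (fun M R _ => P M R)) :
    ∃ φ : Language.graph.Sentence, ∀ (M : Type) (G : SimpleGraph M),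
      @Sentence.Realize Language.graph M G.structure φ ↔ P M (grI G) := by
  obtain ⟨ψ, hψ⟩ := h
  refine ⟨toGr.onSentence ψ, fun M G => ?_⟩
  have h1 := toGr_expansion G
  let _ := mkS (grI G)
  let _ := G.structure
  have h2 : Formula.Realize ψ (Empty.elim : Empty → M) ↔ P M (grI G) :=
    hψ M (grI G) Empty.elim
  rw [LHom.realize_onSentence, ← h2]
  exact (real_iff (mkS (grI G)) ψ Empty.elim default).symm

/-- translation of vocabularies -/
def ofGr : Language.graph →ᴸ RelLang Bool (fun _ => 2) where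
  onFunction := fun _ f => Empty.elim f
  onRelation := fun _ r => match r with
    | .adj => (⟨false, rfl⟩ : {_s : Bool // 2 = 2})

lemma ofGr_expansion {M : Type} (G : SimpleGraph M) (R : Interp Bool (fun _ => 2) M)
    (hR : ∀ x y, G.Adj x y ↔ R false ![x, y]) :
    @LHom.IsExpansionOn _ _ ofGr M G.structure (mkS R) := by
  let _ := mkS R
  let _ := G.structure
  refine ⟨?_, ?_⟩
  · intro n f x
    exact Empty.elim f
  · rintro n r x
    cases r
    have e : x = ![x 0, x 1] := by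
      funext i
      fin_cases i <;> rfl
    have h1 := hR (x 0) (x 1)
    rw [← e] at h1
    exact propext h1.symm

/-- first relation -/
def r1B {M : Type} (R : Interp Bool (fun _ => 2) M) (x y : M) : Prop := R false ![x, y]
/-- second relation -/
def r2B {M : Type} (R : Interp Bool (fun _ => 2) M) (x y : M) : Prop := R true ![x, y]

lemma rB_BFD (b : Bool) :
    BFD (S := Bool) (ar := fun _ => 2) (fun _ R => fun x y => R b ![x, y]) := by
  intro α e e' he he'
  obtain ⟨a, ha⟩ := he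
  obtain ⟨a', ha'⟩ := he'
  refine (FD.rel b (f := fun M v => v ∘ ![a, a']) ⟨![a, a'], fun M v => rfl⟩).congr ?_
  intro M R v
  beta_reduce
  rw [ha, ha']
  have : (![v a, v a'] : Fin 2 → M) = v ∘ ![a, a'] := by
    funext i
    fin_cases i <;> rfl
  rw [this]

lemma unitIntervalSizes_isSpectrum (φ : Language.graph.Sentence) :
    IsSpectrum (unitIntervalSizes φ) := by
  have b1 : BFD (S := Bool) (ar := fun _ => 2) (fun _ R => r1B R) := rB_BFD false
  have b2 : BFD (S := Bool) (ar := fun _ => 2) (fun _ R => r2B R) := rB_BFD true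
  have v0 : ∀ {α : Type}, El (α ⊕ Unit) (fun M v => v (Sum.inr ())) := El.inr
  have hφ : FD Bool (fun _ => 2) Empty (fun M R _ =>
      @Sentence.Realize (RelLang Bool (fun _ => 2)) M (mkS R) (ofGr.onSentence φ)) :=
    ⟨ofGr.onSentence φ, fun M R v => by
      have : v = Empty.elim := Subsingleton.elim _ _
      rw [this]
      exact real_iff (mkS R) (ofGr.onSentence φ) Empty.elim default⟩
  have hP : FD Bool (fun _ => 2) Empty (fun M R _ => SLin (r2B R) ∧ (∀ x : M, ¬ r1B R x x) ∧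
      (∀ x y : M, r1B R x y → r1B R y x) ∧
      (∀ x y z : M, r2B R x y → r2B R y z → r1B R x z → r1B R x y ∧ r1B R y z) ∧
      @Sentence.Realize (RelLang Bool (fun _ => 2)) M (mkS R) (ofGr.onSentence φ)) := by
    refine FD.and b2.slin (FD.and (FD.all1 (FD.not (b1 _ _ _ v0 v0))) (FD.and (FD.all1 (FD.all1
      (FD.imp (b1 _ _ _ v0.inl v0) (b1 _ _ _ v0 v0.inl)))) (FD.and (FD.all1 (FD.all1 (FD.all1
      (FD.imp (b2 _ _ _ v0.inl.inl v0.inl) (FD.imp (b2 _ _ _ v0.inl v0)
      (FD.imp (b1 _ _ _ v0.inl.inl v0) (FD.and (b1 _ _ _ v0.inl.inl v0.inl)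
      (b1 _ _ _ v0.inl v0)))))))) hφ)))
  convert hP.isSpectrum using 1
  ext n
  constructor
  · rintro ⟨hn, M, hf, G, hc, ⟨x, hx⟩, hr⟩
    obtain ⟨e, he⟩ := exists_lin x
    let R : Interp Bool (fun _ => 2) M := fun b v => if b then e (v 0) < e (v 1)
      else G.Adj (v 0) (v 1)
    have hR1 : ∀ a b, r1B R a b ↔ G.Adj a b := fun a b => by
      show (if false = true then e a < e b else G.Adj a b) ↔ _
      rw [if_neg (by simp)]
    have hR2 : ∀ a b, r2B R a b ↔ e a < e b := fun a b => by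
      show (if true = true then e a < e b else G.Adj a b) ↔ _
      rw [if_pos rfl]
    refine ⟨hn, M, hf, R, hc, ⟨?_, ?_, ?_⟩, ?_, ?_, ?_, ?_⟩
    · intro a
      rw [hR2]
      exact lt_irrefl _
    · intro a b c
      rw [hR2, hR2, hR2]
      exact lt_trans
    · intro a b
      rw [hR2, hR2]
      rcases lt_trichotomy (e a) (e b) with h | h | h
      · exact Or.inl h
      · exact Or.inr (Or.inl (e.injective h))
      · exact Or.inr (Or.inr h)
    · intro a
      rw [hR1]
      exact G.irrefl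
    · intro a b
      rw [hR1, hR1]
      exact fun h => h.symm
    · intro a b c
      rw [hR2, hR2, hR1, hR1, hR1, hx, hx, hx]
      rintro hab hbc ⟨_, hac⟩
      have h1 := he a b hab.le
      have h2 := he b c hbc.le
      have nab : a ≠ b := by rintro rfl; exact lt_irrefl _ hab
      have nbc : b ≠ c := by rintro rfl; exact lt_irrefl _ hbc
      rw [abs_le] at hac
      refine ⟨⟨nab, ?_⟩, nbc, ?_⟩
      · rw [abs_le]; constructor <;> linarith [hac.1]
      · rw [abs_le]; constructor <;> linarith [hac.1]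
    · have h1 := ofGr_expansion G R (fun a b => (hR1 a b).symm)
      let _ := mkS R
      let _ := G.structure
      rw [LHom.realize_onSentence]
      exact hr
  · rintro ⟨hn, M, hf, R, hc, h1, h2, h3, h4, hr⟩
    let G : SimpleGraph M :=
      { Adj := r1B R
        symm := ⟨fun a b => h3 a b⟩
        loopless := ⟨fun a => h2 a⟩ }
    obtain ⟨e, he⟩ := exists_enum h1 hc
    refine ⟨hn, M, hf, G, hc, isUnitInterval_of e ?_, ?_⟩
    · intro a b c hab hbc hac
      exact h4 a b c ((he a b).2 hab) ((he b c).2 hbc) hac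
    · have h5 := ofGr_expansion G R (fun a b => Iff.rfl)
      let _ := mkS R
      let _ := G.structure
      exact (LHom.realize_onSentence (φ := ofGr) (M := M) φ).1 hr

/-- square sizes from sizes of unit interval graphs -/
theorem exists_unitInterval (Θ : Finset (ℕ × ℕ × ℕ × ℕ)) :
    ∃ (φ : Language.graph.Sentence) (s : ℕ), ∀ n, 1 ≤ n →
      (n ∈ squareSizes Θ ↔ s * ((n + 2) * (n + 2)) ∈ unitIntervalSizes φ) := by
  obtain ⟨T, hT⟩ : ∃ T : ℕ, ∀ θ ∈ Θ, θ.1 ≤ T :=
    ⟨Θ.sup (fun θ => θ.1), fun θ hθ => Finset.le_sup (f := fun θ : ℕ × ℕ × ℕ × ℕ => θ.1) hθ⟩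
  obtain ⟨φ, hφ⟩ := exists_gr_sentence (uiP_FD Θ T)
  refine ⟨φ, 2 * nC T + 4, fun n hn => ?_⟩
  constructor
  · intro h
    obtain ⟨kk, hU, hG, hC⟩ := ui_encode hT h
    have hs0 : 0 < 2 * nC T + 4 := by omega
    let G : SimpleGraph (Fin ((2 * nC T + 4) * ((n + 2) * (n + 2)))) :=
      { Adj := fun v w => v ≠ w ∧ cad (2 * nC T + 4) (n + 2) kk ((n + 2) * (n + 2)) v w
        symm := ⟨fun a b h => ⟨h.1.symm, h.2.2, h.2.1⟩⟩
        loopless := ⟨fun a h => h.1 rfl⟩ }
    have e1 : caR (grI G) = cad (2 * nC T + 4) (n + 2) kk ((n + 2) * (n + 2)) := by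
      funext a b
      apply propext
      constructor
      · rintro (h | h)
        · subst h
          exact ⟨by omega, by omega⟩
        · exact h.2
      · intro h
        by_cases hab : a = b
        · exact Or.inl hab
        · exact Or.inr ⟨hab, h⟩
    refine ⟨Nat.mul_pos hs0 (Nat.mul_pos (by omega) (by omega)), _, inferInstance, G,
      Fintype.card_fin _, ?_, ?_⟩
    · refine ⟨fun v => (cls (2 * nC T + 4) kk v : ℝ) / (3 * (n + 2) - 1), fun a b => ?_⟩
      show a ≠ b ∧ _ ↔ _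
      apply and_congr_right
      intro _
      have hpos : (0 : ℝ) < 3 * (n + 2) - 1 := by
        have : (0 : ℝ) ≤ n := Nat.cast_nonneg n
        linarith
      rw [← sub_div, abs_div, abs_of_pos hpos, div_le_one hpos, abs_le, cad_iff]
      set A := cls (2 * nC T + 4) kk a
      set B := cls (2 * nC T + 4) kk b
      have e2 : A < B + 3 * (n + 2) ↔ (A : ℝ) - B ≤ 3 * (n + 2) - 1 := by
        rw [show (A < B + 3 * (n + 2)) ↔ A + 1 ≤ B + 3 * (n + 2) from Iff.rfl,
          ← Nat.cast_le (α := ℝ)]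
        push_cast
        constructor <;> intro h <;> linarith
      have e3 : B < A + 3 * (n + 2) ↔ (B : ℝ) - A ≤ 3 * (n + 2) - 1 := by
        rw [show (B < A + 3 * (n + 2)) ↔ B + 1 ≤ A + 3 * (n + 2) from Iff.rfl,
          ← Nat.cast_le (α := ℝ)]
        push_cast
        constructor <;> intro h <;> linarith
      rw [e2, e3]
      constructor
      · rintro ⟨h1, h2⟩
        exact ⟨by linarith, h1⟩
      · rintro ⟨h1, h2⟩
        exact ⟨h2, by linarith⟩
    · rw [hφ, e1]
      exact ⟨hG, hC⟩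
  · rintro ⟨_, M, hf, G, hc, ⟨x, hx⟩, hr⟩
    rw [hφ] at hr
    obtain ⟨e, he⟩ := exists_lin x
    let LO : LinearOrder M := LinearOrder.lift' e e.injective
    have hle : ∀ a b : M, a ≤ b → x a ≤ x b := fun a b h => he a b h
    have hca : ∀ a b : M, caR (grI G) a b ↔ |x a - x b| ≤ 1 := by
      intro a b
      show a = b ∨ G.Adj a b ↔ _
      rw [hx]
      by_cases hab : a = b
      · subst hab
        simp
      · simp [hab]
    obtain ⟨X, idx, hix⟩ := exists_ix (ca := caR (grI G)) (fun p => Or.inl rfl)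
      (fun p q h => by
        rw [hca] at h ⊢
        rwa [abs_sub_comm])
      (fun a b c hab hbc hac => by
        rw [hca] at hac ⊢
        rw [hca]
        have h1 := hle a b hab
        have h2 := hle b c hbc
        rw [abs_le] at hac
        refine ⟨?_, ?_⟩ <;> rw [abs_le] <;> constructor <;> linarith [hac.1])
    exact ui_decode hn hix hc hr.1 hr.2

end Pool.Agent.Helper20.Spectra
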