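import Pool.Agent.Helper20.Spectra.RudX

/-!
# Closure properties of bounded arithmetical conditions
-/

set_option autoImplicit false

namespace Pool.Agent.Helper20.Spectra

/-- polynomial functions -/
def IsPoly (k : ℕ) (t : (Fin k → ℕ) → ℕ) : Prop :=
  ∃ p : MvPolynomial (Fin k) ℕ, ∀ v, MvPolynomial.eval v p = t v

namespace IsPoly

variable {k : ℕ} {s t : (Fin k → ℕ) → ℕ}

lemma var (i : Fin k) : IsPoly k (fun v => v i) := ⟨MvPolynomial.X i, fun v => by simp⟩

lemma const (n : ℕ) : IsPoly k (fun _ => n) := ⟨MvPolynomial.C n, fun v => by simp⟩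

lemma add (hs : IsPoly k s) (ht : IsPoly k t) : IsPoly k (fun v => s v + t v) := by
  obtain ⟨p, hp⟩ := hs
  obtain ⟨q, hq⟩ := ht
  exact ⟨p + q, fun v => by rw [map_add, hp, hq]⟩

lemma mul (hs : IsPoly k s) (ht : IsPoly k t) : IsPoly k (fun v => s v * t v) := by
  obtain ⟨p, hp⟩ := hs
  obtain ⟨q, hq⟩ := ht
  exact ⟨p * q, fun v => by rw [map_mul, hp, hq]⟩

lemma pow (hs : IsPoly k s) (n : ℕ) : IsPoly k (fun v => s v ^ n) := by
  obtain ⟨p, hp⟩ := hs
  exact ⟨p ^ n, fun v => by rw [map_pow, hp]⟩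

lemma sub {m : ℕ} {f : Fin k → (Fin m → ℕ) → ℕ} (ht : IsPoly k t) (hf : ∀ i, IsPoly m (f i)) :
    IsPoly m (fun v => t (fun i => f i v)) := by
  obtain ⟨p, hp⟩ := ht
  choose q hq using hf
  refine ⟨MvPolynomial.bind₁ q p, fun v => ?_⟩
  have e1 : MvPolynomial.eval v (MvPolynomial.bind₁ q p) =
      MvPolynomial.eval (fun i => MvPolynomial.eval v (q i)) p := by
    simp only [MvPolynomial.eval, MvPolynomial.eval₂Hom_bind₁]
  rw [e1, hp]
  simp only [hq]

lemma tail (ht : IsPoly k t) : IsPoly (k + 1) (fun w => t (Fin.tail w)) :=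
  ht.sub (fun i => IsPoly.var i.succ)

/-- one-variable polynomials -/
lemma polyEval (q : Polynomial ℕ) (ht : IsPoly k t) : IsPoly k (fun v => q.eval (t v)) := by
  obtain ⟨p, hp⟩ := ht
  refine ⟨Polynomial.eval₂ (MvPolynomial.C) p q, fun v => ?_⟩
  have e0 : (MvPolynomial.eval v).comp (MvPolynomial.C) = RingHom.id ℕ := by
    ext; simp
  rw [Polynomial.hom_eval₂, e0, hp]
  rfl

end IsPoly

namespace RudX

variable {ι : Type} {a : ι → ℕ} {k : ℕ}

lemma congr {P Q : SOA a → (Fin k → ℕ) → Prop} (h : RudX a k P) (hPQ : ∀ X v, Q X v ↔ P X v) :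
    RudX a k Q := by
  have : P = Q := by funext X v; exact propext (hPQ X v).symm
  exact this ▸ h

lemma eq {s t : (Fin k → ℕ) → ℕ} (hs : IsPoly k s) (ht : IsPoly k t) :
    RudX a k (fun _ v => s v = t v) := by
  obtain ⟨p, hp⟩ := hs
  obtain ⟨q, hq⟩ := ht
  exact (RudX.atom k p q).congr (fun X v => by rw [hp, hq])

lemma so' (i : ι) {t : Fin (a i) → (Fin k → ℕ) → ℕ} (ht : ∀ j, IsPoly k (t j)) :
    RudX a k (fun X v => X i (fun j => t j v)) := by
  choose q hq using ht
  exact (RudX.so k i q).congr (fun X v => by simp only [hq])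

lemma or {P Q : SOA a → (Fin k → ℕ) → Prop} (h : RudX a k P) (h' : RudX a k Q) :
    RudX a k (fun X v => P X v ∨ Q X v) :=
  (RudX.not k _ (RudX.and k _ _ (RudX.not k _ h) (RudX.not k _ h'))).congr (fun X v => by tauto)

lemma and' {P Q : SOA a → (Fin k → ℕ) → Prop} (h : RudX a k P) (h' : RudX a k Q) :
    RudX a k (fun X v => P X v ∧ Q X v) := RudX.and k _ _ h h'

lemma not' {P : SOA a → (Fin k → ℕ) → Prop} (h : RudX a k P) :
    RudX a k (fun X v => ¬ P X v) := RudX.not k _ h

lemma imp {P Q : SOA a → (Fin k → ℕ) → Prop} (h : RudX a k P) (h' : RudX a k Q) :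
    RudX a k (fun X v => P X v → Q X v) :=
  ((h.not').or h').congr (fun X v => by tauto)

lemma iff {P Q : SOA a → (Fin k → ℕ) → Prop} (h : RudX a k P) (h' : RudX a k Q) :
    RudX a k (fun X v => (P X v ↔ Q X v)) :=
  ((h.imp h').and' (h'.imp h)).congr (fun X v => by tauto)

lemma const (p : Prop) : RudX a k (fun _ _ => p) := by
  by_cases hp : p
  · exact (RudX.eq (IsPoly.const 0) (IsPoly.const 0)).congr (fun X v => by simp [hp])
  · exact (RudX.eq (IsPoly.const 0) (IsPoly.const 1)).congr (fun X v => by simp [hp])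

lemma ex {t : (Fin k → ℕ) → ℕ} (ht : IsPoly k t) {P : SOA a → (Fin k → ℕ) → ℕ → Prop}
    (h : RudX a (k + 1) (fun X w => P X (Fin.tail w) (w 0))) :
    RudX a k (fun X v => ∃ x, x ≤ t v ∧ P X v x) := by
  obtain ⟨p, hp⟩ := ht
  exact (RudX.bex k p _ h).congr (fun X v => by simp only [hp, Fin.cons_zero, Fin.tail_cons])

lemma all {t : (Fin k → ℕ) → ℕ} (ht : IsPoly k t) {P : SOA a → (Fin k → ℕ) → ℕ → Prop}
    (h : RudX a (k + 1) (fun X w => P X (Fin.tail w) (w 0))) :
    RudX a k (fun X v => ∀ x, x ≤ t v → P X v x) :=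
  (RudX.ex ht (P := fun X v x => ¬ P X v x) h.not').not'.congr (fun X v => by
    simp only [not_exists, not_and, not_not])

lemma le {s t : (Fin k → ℕ) → ℕ} (hs : IsPoly k s) (ht : IsPoly k t) :
    RudX a k (fun _ v => s v ≤ t v) :=
  (RudX.ex ht (P := fun _ v x => s v + x = t v)
    (RudX.eq (hs.tail.add (IsPoly.var 0)) ht.tail)).congr (fun X v => by
    constructor
    · intro h; exact ⟨t v - s v, by omega, by omega⟩
    · rintro ⟨x, _, h⟩; omega)

lemma lt {s t : (Fin k → ℕ) → ℕ} (hs : IsPoly k s) (ht : IsPoly k t) :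
    RudX a k (fun _ v => s v < t v) :=
  (RudX.le (hs.add (IsPoly.const 1)) ht).congr (fun X v => by omega)

lemma all_finset {γ : Type} (s : Finset γ) {P : γ → SOA a → (Fin k → ℕ) → Prop}
    (h : ∀ c ∈ s, RudX a k (P c)) : RudX a k (fun X v => ∀ c ∈ s, P c X v) := by
  classical
  induction s using Finset.induction_on with
  | empty => exact (RudX.const True).congr (fun X v => by simp)
  | insert c s hc ih =>
    refine ((h c (Finset.mem_insert_self c s)).and'
      (ih (fun d hd => h d (Finset.mem_insert_of_mem hd)))).congr (fun X v => ?_)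
    simp only [Finset.forall_mem_insert]

lemma ex_finset {γ : Type} (s : Finset γ) {P : γ → SOA a → (Fin k → ℕ) → Prop}
    (h : ∀ c ∈ s, RudX a k (P c)) : RudX a k (fun X v => ∃ c ∈ s, P c X v) := by
  refine (RudX.all_finset s (P := fun c X v => ¬ P c X v) (fun c hc => (h c hc).not')).not'.congr
    (fun X v => ?_)
  push Not
  rfl

lemma all_fin {γ : Type} [Finite γ] {P : γ → SOA a → (Fin k → ℕ) → Prop}
    (h : ∀ c, RudX a k (P c)) : RudX a k (fun X v => ∀ c, P c X v) := by
  have := Fintype.ofFinite γ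
  exact (RudX.all_finset Finset.univ (fun c _ => h c)).congr (fun X v => by simp)

lemma ex_fin {γ : Type} [Finite γ] {P : γ → SOA a → (Fin k → ℕ) → Prop}
    (h : ∀ c, RudX a k (P c)) : RudX a k (fun X v => ∃ c, P c X v) := by
  have := Fintype.ofFinite γ
  exact (RudX.ex_finset Finset.univ (fun c _ => h c)).congr (fun X v => by simp)

/-- substitution of polynomials -/
lemma subst {k : ℕ} {P : SOA a → (Fin k → ℕ) → Prop} (h : RudX a k P) : ∀ (m : ℕ)
    (f : Fin k → (Fin m → ℕ) → ℕ), (∀ i, IsPoly m (f i)) →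
    RudX a m (fun X v => P X (fun i => f i v)) := by
  induction h with
  | atom k p q =>
    intro m f hf
    exact RudX.eq (IsPoly.sub ⟨p, fun _ => rfl⟩ hf) (IsPoly.sub ⟨q, fun _ => rfl⟩ hf)
  | so k i q =>
    intro m f hf
    exact RudX.so' i (fun j => IsPoly.sub ⟨q j, fun _ => rfl⟩ hf)
  | not k P _ ih =>
    intro m f hf
    exact (ih m f hf).not'
  | and k P Q _ _ ih ih' =>
    intro m f hf
    exact (ih m f hf).and' (ih' m f hf)
  | bex k p P _ ih =>
    intro m f hf
    refine RudX.ex (t := fun v => MvPolynomial.eval (fun i => f i v) p)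
      (P := fun X v x => P X (Fin.cons x (fun i => f i v)))
      (IsPoly.sub ⟨p, fun _ => rfl⟩ hf) ?_
    refine (ih (m + 1) (Fin.cons (fun w => w 0) (fun i w => f i (Fin.tail w))) ?_).congr ?_
    · intro i
      refine Fin.cases ?_ (fun i => ?_) i
      · exact IsPoly.var 0
      · exact (hf i).tail
    · intro X w
      refine Iff.of_eq (congrArg _ ?_)
      funext i
      refine Fin.cases ?_ (fun i => ?_) i
      · rfl
      · rfl

/-- first-order bounded formulas -/
lemma ofRud {k : ℕ} {S : Set (Fin k → ℕ)} (h : Rud k S) : RudX a k (fun _ v => v ∈ S) := by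
  induction h with
  | atom k p q => exact RudX.atom k p q
  | compl k S _ ih => exact ih.not'
  | inter k S T _ _ ih ih' => exact ih.and' ih'
  | bex k p S _ ih => exact RudX.bex k p _ ih

lemma toRud' {ι : Type} {a : ι → ℕ} {k : ℕ} {P : SOA a → (Fin k → ℕ) → Prop} (h : RudX a k P)
    (X : SOA a) (hX : ∀ i w, ¬ X i w) : Rud k {v | P X v} := by
  induction h with
  | atom k p q => exact Rud.atom k p q
  | so k i q =>
    refine (Rud.atom k (MvPolynomial.C 0) (MvPolynomial.C 1)).congr ?_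
    ext v
    simp [hX]
  | not k P _ ih => exact Rud.compl k _ ih
  | and k P Q _ _ ih ih' => exact Rud.inter k _ _ ih ih'
  | bex k p P _ ih => exact Rud.bex k p _ ih

/-- bounded formulas without second-order variables -/
lemma toRud {k : ℕ} {P : (Fin k → ℕ) → Prop}
    (h : RudX (fun x : Empty => x.elim) k (fun _ v => P v)) : Rud k {v | P v} :=
  h.toRud' (fun i => i.elim) (fun i => i.elim)

/-- membership in a rudimentary set -/
lemma mem {A : Set ℕ} (hA : IsRudimentary A) {t : (Fin k → ℕ) → ℕ} (ht : IsPoly k t) :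
    RudX a k (fun _ v => t v ∈ A) := by
  rw [isRudimentary_iff] at hA
  exact (RudX.ofRud hA).subst k (fun _ => t) (fun _ => ht)

end RudX

lemma isRudimentary_of {A : Set ℕ}
    (h : RudX (fun x : Empty => x.elim) 1 (fun _ v => v 0 ∈ A)) : IsRudimentary A := by
  rw [isRudimentary_iff]
  exact h.toRud

lemma IsRudimentary.isSpectrum {A : Set ℕ} (h : IsRudimentary A) (h0 : 0 ∉ A) : IsSpectrum A := by
  have h1 := RudX.isSpectrum (RudX.mem (a := fun x : Empty => x.elim) h (IsPoly.var 0))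
  convert h1 using 1
  ext n
  constructor
  · intro hn
    refine ⟨?_, fun i => i.elim, hn⟩
    by_contra h2
    have : n = 0 := by omega
    exact h0 (this ▸ hn)
  · rintro ⟨_, _, h2⟩
    exact h2

end Pool.Agent.Helper20.Spectra
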