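import Mathlib

/-!
# Covering by shifts
-/

set_option autoImplicit false

namespace Pool.Agent.Helper20.Spectra

/-- if few residues are bad, then a few shifts of the good residues cover everything -/
lemma exists_shifts {N b t : ℕ} (G : ℕ → Prop) [DecidablePred G] (hb : ({w ∈ Finset.range N | ¬ G w}).card ≤ b)
    (h : N * b ^ t < N ^ t) :
    ∃ s : Fin t → Fin N, ∀ z < N, ∃ j, G ((z + s j) % N) := by
  classical
  by_contra hcon
  push Not at hcon
  have hsub : (Finset.univ : Finset (Fin t → Fin N)) ⊆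
      (Finset.range N).biUnion (fun z => Fintype.piFinset (fun _ : Fin t =>
        {s : Fin N | ¬ G ((z + s) % N)})) := by
    intro s _
    obtain ⟨z, hz, hs⟩ := hcon s
    rw [Finset.mem_biUnion]
    refine ⟨z, Finset.mem_range.2 hz, ?_⟩
    rw [Fintype.mem_piFinset]
    intro j
    simp [hs j]
  have hcard := Finset.card_le_card hsub
  rw [Finset.card_univ, Fintype.card_fun, Fintype.card_fin, Fintype.card_fin] at hcard
  have hle : ∀ z ∈ Finset.range N, (Fintype.piFinset (fun _ : Fin t =>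
        ({s : Fin N | ¬ G ((z + s) % N)} : Finset (Fin N)))).card ≤ b ^ t := by
    intro z hz
    rw [Fintype.card_piFinset, Finset.prod_const, Finset.card_univ, Fintype.card_fin]
    refine Nat.pow_le_pow_left ((Finset.card_le_card_of_injOn (fun s : Fin N => (z + s) % N)
      ?_ ?_).trans hb) t
    · intro s hs
      simp only [Finset.coe_filter, Finset.mem_univ, true_and, Set.mem_ofPred_eq] at hs
      simp only [Finset.coe_filter, Finset.mem_range, Set.mem_ofPred_eq]
      refine ⟨Nat.mod_lt _ ?_, hs⟩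
      have := Finset.mem_range.1 hz
      omega
    · intro s _ s' _ hss
      have h1 : z + (s : ℕ) ≡ z + (s' : ℕ) [MOD N] := hss
      have h2 : (s : ℕ) ≡ (s' : ℕ) [MOD N] := Nat.ModEq.add_left_cancel' z h1
      exact Fin.ext (Nat.ModEq.eq_of_lt_of_lt h2 s.is_lt s'.is_lt)
  have h1 := (Finset.card_biUnion_le (s := Finset.range N) (t := fun z =>
    Fintype.piFinset (fun _ : Fin t => ({s : Fin N | ¬ G ((z + s) % N)} : Finset (Fin N))))).trans
      (Finset.sum_le_card_nsmul _ _ _ hle)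
  rw [Finset.card_range, smul_eq_mul] at h1
  omega

/-- if few residues are good, then few shifts do not cover -/
lemma not_shifts {N b t : ℕ} (G : ℕ → Prop) [DecidablePred G] (hb : ({w ∈ Finset.range N | G w}).card ≤ b)
    (h : t * b < N) (s : Fin t → ℕ) : ∃ z < N, ∀ j, ¬ G ((z + s j) % N) := by
  classical
  by_contra hcon
  push Not at hcon
  have hsub : Finset.range N ⊆ (Finset.univ : Finset (Fin t)).biUnion
      (fun j => {z ∈ Finset.range N | G ((z + s j) % N)}) := by
    intro z hz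
    obtain ⟨j, hj⟩ := hcon z (Finset.mem_range.1 hz)
    rw [Finset.mem_biUnion]
    exact ⟨j, Finset.mem_univ _, Finset.mem_filter.2 ⟨hz, hj⟩⟩
  have hcard := Finset.card_le_card hsub
  rw [Finset.card_range] at hcard
  have hle : ∀ j ∈ (Finset.univ : Finset (Fin t)),
      ({z ∈ Finset.range N | G ((z + s j) % N)} : Finset ℕ).card ≤ b := by
    intro j _
    refine (Finset.card_le_card_of_injOn (fun z : ℕ => (z + s j) % N) ?_ ?_).trans hb
    · intro z hz
      simp only [Finset.coe_filter, Finset.mem_range, Set.mem_ofPred_eq] at hz ⊢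
      exact ⟨Nat.mod_lt _ (by omega), hz.2⟩
    · intro z hz z' hz' hss
      simp only [Finset.coe_filter, Finset.mem_range, Set.mem_ofPred_eq] at hz hz'
      have h1 : z + s j ≡ z' + s j [MOD N] := hss
      have h2 : z ≡ z' [MOD N] := Nat.ModEq.add_right_cancel' (s j) h1
      exact Nat.ModEq.eq_of_lt_of_lt h2 hz.1 hz'.1
  have h1 := (Finset.card_biUnion_le (s := (Finset.univ : Finset (Fin t))) (t := fun j =>
    ({z ∈ Finset.range N | G ((z + s j) % N)} : Finset ℕ))).trans
      (Finset.sum_le_card_nsmul _ _ _ hle)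
  rw [Finset.card_univ, Fintype.card_fin, smul_eq_mul] at h1
  omega

/-- choice of the padding exponent -/
lemma exists_exponent {ε : ℝ} (hε : 0 < ε) : ∃ c : ℕ, 1 ≤ c ∧ ∀ n : ℕ, 1 ≤ n →
    ((2 * n ^ (c + 1) : ℕ) : ℝ) ^ (1 - ε) ≤ 2 * (n : ℝ) ^ (c - 1) := by
  set δ := min ε 1 with hδ
  have hδ0 : 0 < δ := lt_min hε one_pos
  have hδ1 : δ ≤ 1 := min_le_right _ _
  have hδε : δ ≤ ε := min_le_left _ _
  obtain ⟨c, hc⟩ := exists_nat_ge (2 / δ)
  have hc2 : 2 ≤ (c : ℝ) := by
    refine le_trans ?_ hc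
    rw [le_div_iff₀ hδ0]
    linarith
  have hc2' : 2 ≤ c := by exact_mod_cast hc2
  refine ⟨c, by omega, fun n hn => ?_⟩
  have hn' : (1 : ℝ) ≤ n := by exact_mod_cast hn
  have hn0 : (0 : ℝ) ≤ n := by linarith
  have hx1 : (1 : ℝ) ≤ ((2 * n ^ (c + 1) : ℕ) : ℝ) := by
    have : 1 ≤ n ^ (c + 1) := Nat.one_le_pow _ _ hn
    exact_mod_cast (by omega : 1 ≤ 2 * n ^ (c + 1))
  have hcd : 2 ≤ (c + 1 : ℝ) * δ := by
    have h1 : 2 ≤ (c : ℝ) * δ := by
      rw [div_le_iff₀ hδ0] at hc
      exact hc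
    nlinarith
  calc ((2 * n ^ (c + 1) : ℕ) : ℝ) ^ (1 - ε) ≤ ((2 * n ^ (c + 1) : ℕ) : ℝ) ^ (1 - δ) :=
        Real.rpow_le_rpow_of_exponent_le hx1 (by linarith)
    _ = (2 : ℝ) ^ (1 - δ) * ((n : ℝ) ^ (c + 1)) ^ (1 - δ) := by
        push_cast
        rw [Real.mul_rpow (by norm_num) (by positivity)]
    _ ≤ (2 : ℝ) ^ (1 : ℝ) * ((n : ℝ) ^ (c - 1)) := by
        refine mul_le_mul (Real.rpow_le_rpow_of_exponent_le (by norm_num) (by linarith)) ?_
          (by positivity) (by positivity)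
        rw [← Real.rpow_natCast, ← Real.rpow_mul hn0, ← Real.rpow_natCast]
        apply Real.rpow_le_rpow_of_exponent_le hn'
        push_cast [Nat.cast_sub (by omega : 1 ≤ c)]
        nlinarith
    _ = 2 * (n : ℝ) ^ (c - 1) := by rw [Real.rpow_one]

end Pool.Agent.Helper20.Spectra
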