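import Pool.Agent.Helper20.Spectra.RFun
import Pool.Agent.Helper20.Spectra.Cover

/-!
# Approximations of spectra
-/

set_option autoImplicit false

namespace Pool.Agent.Helper20.Spectra

open TupSys

/-- every number `n` is replaced by an interval of length `n ^ c` -/
def stretch (c : ℕ) (A : Set ℕ) : Set ℕ :=
  {m | ∃ n, 1 ≤ n ∧ n ∈ A ∧ n ^ (c + 1) ≤ m ∧ m < n ^ (c + 1) + n ^ c}

lemma pow_gap {c n n' : ℕ} (h : n < n') : n ^ (c + 1) + n ^ c ≤ n' ^ (c + 1) := by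
  have h1 : (n + 1) ^ (c + 1) ≤ n' ^ (c + 1) := Nat.pow_le_pow_left h _
  have h2 : n ^ c ≤ (n + 1) ^ c := Nat.pow_le_pow_left (by omega) _
  calc n ^ (c + 1) + n ^ c = n ^ c * (n + 1) := by ring
    _ ≤ (n + 1) ^ c * (n + 1) := Nat.mul_le_mul_right _ h2
    _ = (n + 1) ^ (c + 1) := by ring
    _ ≤ n' ^ (c + 1) := h1

lemma mem_stretch {c n w : ℕ} {A : Set ℕ} (hn : 1 ≤ n) (hw : w < n ^ c) :
    n ^ (c + 1) + w ∈ stretch c A ↔ n ∈ A := by
  constructor
  · rintro ⟨n', hn', hA, h1, h2⟩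
    rcases Nat.lt_trichotomy n n' with h | h | h
    · have := pow_gap (c := c) h
      omega
    · exact h ▸ hA
    · have := pow_gap (c := c) h
      omega
  · intro hA
    exact ⟨n, hn, hA, by omega, by omega⟩

lemma stretch_isSpectrum {A : Set ℕ} (hA : IsSpectrum A) (c : ℕ) :
    IsSpectrum (stretch c A) := by
  obtain ⟨k, Θ, hΘ⟩ := spectrum_blocks hA
  obtain ⟨C, hC⟩ := exists_SqCond Θ
  have h1 : RudX (fun _ : Fin (C + 1) => 2) 1 (fun X v => ∃ n, n ≤ v 0 ∧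
      (1 ≤ n ∧ (n ^ (c + 1) ≤ v 0 ∧ v 0 < n ^ (c + 1) + n ^ c) ∧
        SqCond Θ C X (n ^ (k + 1)))) := by
    have v1 : IsPoly 2 (fun w => Fin.tail w 0) := IsPoly.var 1
    have n0 : IsPoly 2 (fun w => w 0) := IsPoly.var 0
    refine RudX.ex (IsPoly.var 0) (RudX.and' (RudX.le (IsPoly.const 1) n0) (RudX.and'
      (RudX.and' (RudX.le (n0.pow _) v1) (RudX.lt v1 ((n0.pow _).add (n0.pow _))))
      (SqCond_rudX Θ C (n0.pow _))))
  have h2 := h1.isSpectrum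
  convert h2 using 1
  ext m
  simp only [stretch, Set.mem_ofPred_eq]
  constructor
  · rintro ⟨n, hn, hnA, h3, h4⟩
    have h5 : 1 ≤ n ^ (c + 1) := Nat.one_le_pow _ _ hn
    have h6 : n ≤ n ^ (c + 1) := Nat.le_self_pow (by omega) n
    rw [hΘ n hn, hC] at hnA
    obtain ⟨X, hX⟩ := hnA
    exact ⟨by omega, X, n, by omega, hn, ⟨h3, h4⟩, hX⟩
  · rintro ⟨_, X, n, _, hn, ⟨h3, h4⟩, hX⟩
    refine ⟨n, hn, ?_, h3, h4⟩
    rw [hΘ n hn, hC]
    exact ⟨X, hX⟩

/-- the covering formula -/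
def CovF (c : ℕ) (R : Set ℕ) (n : ℕ) : Prop :=
  ∃ s, s ≤ (n ^ c) ^ (c + 1) ∧ ∀ z, z ≤ n ^ c → (z < n ^ c →
    ∃ j : Fin (c + 1), n ^ (c + 1) + (z + s / (n ^ c) ^ (j : ℕ) % n ^ c) % n ^ c ∈ R)

lemma CovF_rudX {ι : Type} {a : ι → ℕ} (c : ℕ) {R : Set ℕ} (hR : IsRudimentary R) :
    RudX a 1 (fun _ v => CovF c R (v 0)) := by
  unfold CovF
  have n0 : IsPoly 1 (fun w => w 0) := IsPoly.var 0
  refine RudX.ex ((n0.pow c).pow (c + 1)) (RudX.all (n0.pow c).tail ?_)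
  have n2 : IsPoly 3 (fun w => Fin.tail (Fin.tail w) 0) := IsPoly.var 2
  have s1 : IsPoly 3 (fun w => Fin.tail w 0) := IsPoly.var 1
  have z0 : IsPoly 3 (fun w => w 0) := IsPoly.var 0
  refine RudX.imp (RudX.lt z0 (n2.pow c)) (RudX.ex_fin (fun j => ?_))
  refine RudX.bind (f := fun w => Fin.tail w 0 / (Fin.tail (Fin.tail w) 0 ^ c) ^ (j : ℕ))
    (P := fun _ w x => Fin.tail (Fin.tail w) 0 ^ (c + 1) +
      (w 0 + x % Fin.tail (Fin.tail w) 0 ^ c) % Fin.tail (Fin.tail w) 0 ^ c ∈ R)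
    (RFun.div s1 ((n2.pow c).pow j)) ?_
  refine RudX.bind (f := fun w => w 0 % Fin.tail (Fin.tail (Fin.tail w)) 0 ^ c)
    (P := fun _ w x => Fin.tail (Fin.tail (Fin.tail w)) 0 ^ (c + 1) +
      (Fin.tail w 0 + x) % Fin.tail (Fin.tail (Fin.tail w)) 0 ^ c ∈ R)
    (RFun.mod (IsPoly.var 0) (n2.tail.pow c)) ?_
  refine RudX.bind (f := fun w => (Fin.tail (Fin.tail w) 0 + w 0) %
      Fin.tail (Fin.tail (Fin.tail (Fin.tail w))) 0 ^ c)
    (P := fun _ w x => Fin.tail (Fin.tail (Fin.tail (Fin.tail w))) 0 ^ (c + 1) + x ∈ R)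
    (RFun.mod (z0.tail.tail.add (IsPoly.var 0)) (n2.tail.tail.pow c)) ?_
  exact RudX.mem hR ((n2.tail.tail.tail.pow (c + 1)).add (IsPoly.var 0))

/-- few errors on the intervals of the stretched set: the original set is rudimentary -/
lemma isRudimentary_of_approx {A : Set ℕ} {c K : ℕ} (hc : 1 ≤ c) {R : Set ℕ}
    (hR : IsRudimentary R)
    (h1 : ∀ n, 1 ≤ n → n ∈ A → ∃ s : Finset ℕ, (∀ w < n ^ c, n ^ (c + 1) + w ∉ R → w ∈ s) ∧
      s.card ≤ K * n ^ (c - 1))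
    (h2 : ∀ n, 1 ≤ n → n ∉ A → ∃ s : Finset ℕ, (∀ w < n ^ c, n ^ (c + 1) + w ∈ R → w ∈ s) ∧
      s.card ≤ K * n ^ (c - 1)) : IsRudimentary A := by
  classical
  set n₀ := K ^ (c + 1) + (c + 1) * K + 1 with hn₀
  have key : ∀ n, n₀ ≤ n → (n ∈ A ↔ CovF c R n) := by
    intro n hn
    have hn1 : 1 ≤ n := by omega
    have hNpos : 0 < n ^ c := pow_pos (by omega) _
    constructor
    · intro hA
      obtain ⟨s, hs1, hs2⟩ := h1 n hn1 hA
      have hb : ({w ∈ Finset.range (n ^ c) | ¬ (n ^ (c + 1) + w ∈ R)}).card ≤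
          K * n ^ (c - 1) := by
        refine (Finset.card_le_card ?_).trans hs2
        intro w hw
        rw [Finset.mem_filter, Finset.mem_range] at hw
        exact hs1 w hw.1 hw.2
      have hlt : n ^ c * (K * n ^ (c - 1)) ^ (c + 1) < (n ^ c) ^ (c + 1) := by
        obtain ⟨d, rfl⟩ : ∃ d, c = d + 1 := ⟨c - 1, by omega⟩
        have e1 : n ^ (d + 1) * (K * n ^ (d + 1 - 1)) ^ (d + 1 + 1) =
            K ^ (d + 1 + 1) * n ^ (d + 1 + d * (d + 2)) := by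
          rw [Nat.add_sub_cancel, mul_pow, ← pow_mul, pow_add]
          ring
        have e2 : (n ^ (d + 1)) ^ (d + 1 + 1) = n * n ^ (d + 1 + d * (d + 2)) := by
          rw [← pow_mul, ← pow_succ']
          congr 1
          ring
        rw [e1, e2]
        exact Nat.mul_lt_mul_of_pos_right (by omega) (pow_pos (by omega) _)
      obtain ⟨t, ht⟩ := exists_shifts (fun w => n ^ (c + 1) + w ∈ R) hb hlt
      refine ⟨col t, (col_lt t).le, fun z _ hz => ?_⟩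
      obtain ⟨j, hj⟩ := ht z hz
      refine ⟨j, ?_⟩
      have := dig_col t j
      unfold dig at this
      rw [this]
      exact hj
    · intro hF
      by_contra hA
      obtain ⟨s, hs1, hs2⟩ := h2 n hn1 hA
      have hb : ({w ∈ Finset.range (n ^ c) | (n ^ (c + 1) + w ∈ R)}).card ≤
          K * n ^ (c - 1) := by
        refine (Finset.card_le_card ?_).trans hs2
        intro w hw
        rw [Finset.mem_filter, Finset.mem_range] at hw
        exact hs1 w hw.1 hw.2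
      have hlt : (c + 1) * (K * n ^ (c - 1)) < n ^ c := by
        obtain ⟨d, rfl⟩ : ∃ d, c = d + 1 := ⟨c - 1, by omega⟩
        rw [Nat.add_sub_cancel, ← mul_assoc, pow_succ', ]
        exact Nat.mul_lt_mul_of_pos_right (by omega) (pow_pos (by omega) _)
      obtain ⟨u, _, hu⟩ := hF
      obtain ⟨z, hz, hz'⟩ := not_shifts (fun w => n ^ (c + 1) + w ∈ R) hb hlt
        (fun j => u / (n ^ c) ^ (j : ℕ) % n ^ c)
      obtain ⟨j, hj⟩ := hu z hz.le hz
      exact hz' j hj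
  apply isRudimentary_of
  refine (RudX.or (RudX.ex_finset (Finset.range n₀) (P := fun i _ v => i ∈ A ∧ v 0 = i)
    (fun i _ => RudX.and' (RudX.const _) (RudX.eq (IsPoly.var 0) (IsPoly.const i))))
    (RudX.and' (RudX.le (IsPoly.const n₀) (IsPoly.var 0)) (CovF_rudX c hR))).congr ?_
  intro X v
  constructor
  · intro hv
    rcases Nat.lt_or_ge (v 0) n₀ with h | h
    · exact Or.inl ⟨v 0, Finset.mem_range.2 h, hv, rfl⟩
    · exact Or.inr ⟨h, (key _ h).1 hv⟩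
  · rintro (⟨i, _, hi, h⟩ | ⟨h, h'⟩)
    · rw [h]; exact hi
    · exact (key _ h).2 h'

end Pool.Agent.Helper20.Spectra
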