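import Pool.Agent.Helper20.Spectra.SqSpec

/-!
# Bounded functions with rudimentary graphs
-/

set_option autoImplicit false

namespace Pool.Agent.Helper20.Spectra

/-- functions bounded by polynomials with rudimentary graph -/
structure RFun (k : ℕ) (f : (Fin k → ℕ) → ℕ) : Prop where
  bound : ∃ t, IsPoly k t ∧ ∀ v, f v ≤ t v
  graph : ∀ (ι : Type) (a : ι → ℕ), RudX a (k + 1) (fun _ w => w 0 = f (Fin.tail w))

namespace RFun

variable {k : ℕ} {s t : (Fin k → ℕ) → ℕ}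

lemma ofPoly (hs : IsPoly k s) : RFun k s :=
  ⟨⟨s, hs, fun _ => le_rfl⟩, fun _ _ => RudX.eq (IsPoly.var 0) hs.tail⟩

lemma div (hs : IsPoly k s) (ht : IsPoly k t) : RFun k (fun v => s v / t v) := by
  refine ⟨⟨s, hs, fun v => Nat.div_le_self _ _⟩, fun ι a => ?_⟩
  have h1 : RudX a (k + 1) (fun _ w => (t (Fin.tail w) = 0 ∧ w 0 = 0) ∨
      ∃ r, r ≤ t (Fin.tail w) ∧ (r < t (Fin.tail w) ∧
        s (Fin.tail w) = t (Fin.tail w) * w 0 + r)) := by
    refine RudX.or (RudX.and' (RudX.eq ht.tail (IsPoly.const 0))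
      (RudX.eq (IsPoly.var 0) (IsPoly.const 0))) (RudX.ex ht.tail ?_)
    have w1 : IsPoly (k + 1 + 1) (fun w => Fin.tail w 0) := IsPoly.var 1
    exact RudX.and' (RudX.lt (IsPoly.var 0) ht.tail.tail)
      (RudX.eq hs.tail.tail ((ht.tail.tail.mul w1).add (IsPoly.var 0)))
  refine h1.congr (fun X w => ?_)
  rcases Nat.eq_zero_or_pos (t (Fin.tail w)) with h0 | h0
  · rw [h0]
    simp
  · constructor
    · intro h
      right
      refine ⟨s (Fin.tail w) % t (Fin.tail w), (Nat.mod_lt _ h0).le, Nat.mod_lt _ h0, ?_⟩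
      rw [h]
      exact (Nat.div_add_mod _ _).symm
    · rintro (⟨h1, _⟩ | ⟨r, _, h2, h3⟩)
      · omega
      · rw [h3, Nat.mul_add_div h0, Nat.div_eq_of_lt h2, add_zero]

lemma mod (hs : IsPoly k s) (ht : IsPoly k t) : RFun k (fun v => s v % t v) := by
  refine ⟨⟨s, hs, fun v => Nat.mod_le _ _⟩, fun ι a => ?_⟩
  have h1 : RudX a (k + 1) (fun _ w => (t (Fin.tail w) = 0 ∧ w 0 = s (Fin.tail w)) ∨
      (w 0 < t (Fin.tail w) ∧ ∃ q, q ≤ s (Fin.tail w) ∧
        s (Fin.tail w) = t (Fin.tail w) * q + w 0)) := by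
    refine RudX.or (RudX.and' (RudX.eq ht.tail (IsPoly.const 0))
      (RudX.eq (IsPoly.var 0) hs.tail)) (RudX.and' (RudX.lt (IsPoly.var 0) ht.tail)
        (RudX.ex hs.tail ?_))
    have w1 : IsPoly (k + 1 + 1) (fun w => Fin.tail w 0) := IsPoly.var 1
    exact RudX.eq hs.tail.tail ((ht.tail.tail.mul (IsPoly.var 0)).add w1)
  refine h1.congr (fun X w => ?_)
  rcases Nat.eq_zero_or_pos (t (Fin.tail w)) with h0 | h0
  · rw [h0]
    simp
  · constructor
    · intro h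
      right
      refine ⟨h ▸ Nat.mod_lt _ h0, s (Fin.tail w) / t (Fin.tail w), Nat.div_le_self _ _, ?_⟩
      rw [h]
      exact (Nat.div_add_mod _ _).symm
    · rintro (⟨h1, _⟩ | ⟨h2, q, _, h3⟩)
      · omega
      · rw [h3, Nat.mul_add_mod, Nat.mod_eq_of_lt h2]

end RFun

/-- binding a bounded function -/
lemma RudX.bind {ι : Type} {a : ι → ℕ} {k : ℕ} {f : (Fin k → ℕ) → ℕ} (hf : RFun k f)
    {P : SOA a → (Fin k → ℕ) → ℕ → Prop}
    (hP : RudX a (k + 1) (fun X w => P X (Fin.tail w) (w 0))) :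
    RudX a k (fun X v => P X v (f v)) := by
  obtain ⟨t, ht, hb⟩ := hf.bound
  refine (RudX.ex ht (P := fun X v x => x = f v ∧ P X v x)
    ((hf.graph ι a).and' hP)).congr (fun X v => ?_)
  constructor
  · intro h; exact ⟨f v, hb v, rfl, h⟩
  · rintro ⟨x, _, rfl, h⟩; exact h

end Pool.Agent.Helper20.Spectra
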