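import Pool.Agent.Helper20.Spectra.FD

/-!
# Bounded arithmetic in finite structures
-/

set_option autoImplicit false

namespace Pool.Agent.Helper20.Spectra

open FirstOrder FirstOrder.Language TupSys

/-- symbols: order, addition, multiplication of numbers with `K + 1` digits, and second-order
variables -/
inductive ASym (ι : Type)
  | lt
  | add
  | mul
  | so (i : ι)

instance {ι : Type} [Finite ι] : Finite (ASym ι) := by
  apply Finite.of_injective (fun s : ASym ι => (match s with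
    | .lt => Sum.inl 0
    | .add => Sum.inl 1
    | .mul => Sum.inl 2
    | .so i => Sum.inr i : Fin 3 ⊕ ι))
  intro s t h
  cases s <;> cases t <;> simp_all

/-- arities -/
def aar {ι : Type} (a : ι → ℕ) (K : ℕ) : ASym ι → ℕ
  | .lt => 2
  | .add => 3 * (K + 1)
  | .mul => 3 * (K + 1)
  | .so i => a i * (K + 1)

/-- concatenation of `b` blocks of length `K + 1` -/
def flat {M : Type} {b K : ℕ} (w : Fin b → Fin (K + 1) → M) : Fin (b * (K + 1)) → M :=
  fun i => w (finProdFinEquiv.symm i).1 (finProdFinEquiv.symm i).2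

lemma flat_surj {M : Type} {b K : ℕ} (u : Fin (b * (K + 1)) → M) :
    flat (fun i j => u (finProdFinEquiv (i, j))) = u := by
  funext i
  show u (finProdFinEquiv (finProdFinEquiv.symm i)) = u i
  rw [Equiv.apply_symm_apply]

lemma flat_inj {M : Type} {b K : ℕ} {w w' : Fin b → Fin (K + 1) → M} (h : flat w = flat w') :
    w = w' := by
  funext i j
  have := congrFun h (finProdFinEquiv (i, j))
  unfold flat at this
  simpa using this

lemma comp_flat {M N : Type} {b K : ℕ} (e : M → N) (w : Fin b → Fin (K + 1) → M) :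
    e ∘ flat w = flat (fun i => e ∘ w i) := rfl

section Acc

variable {ι : Type} {a : ι → ℕ} {K : ℕ} {M : Type}

def ltR (R : Interp (ASym ι) (aar a K) M) (x y : M) : Prop := R .lt ![x, y]
def addR (R : Interp (ASym ι) (aar a K) M) (x y z : Fin (K + 1) → M) : Prop :=
  R .add (flat (b := 3) ![x, y, z])
def mulR (R : Interp (ASym ι) (aar a K) M) (x y z : Fin (K + 1) → M) : Prop :=
  R .mul (flat (b := 3) ![x, y, z])
def soR (R : Interp (ASym ι) (aar a K) M) (i : ι) (w : Fin (a i) → Fin (K + 1) → M) : Prop :=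
  R (.so i) (flat w)

def zeroT (R : Interp (ASym ι) (aar a K) M) (x : Fin (K + 1) → M) : Prop :=
  ∀ i b, ¬ ltR R b (x i)

def sucD (R : Interp (ASym ι) (aar a K) M) (x y : M) : Prop :=
  ltR R x y ∧ ∀ c, ¬ (ltR R x c ∧ ltR R c y)

def sucN (R : Interp (ASym ι) (aar a K) M) (x x' : Fin (K + 1) → M) : Prop :=
  ∃ i : Fin (K + 1), sucD R (x i) (x' i) ∧
    (∀ j, j < i → (∀ b, ¬ ltR R (x j) b) ∧ ∀ b, ¬ ltR R b (x' j)) ∧ ∀ j, i < j → x j = x' j

/-- the axioms -/
structure AxA (R : Interp (ASym ι) (aar a K) M) : Prop where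
  irrefl : ∀ x : M, ¬ ltR R x x
  trans : ∀ x y z : M, ltR R x y → ltR R y z → ltR R x z
  total : ∀ x y : M, ltR R x y ∨ x = y ∨ ltR R y x
  add0 : ∀ x y z : Fin (K + 1) → M, zeroT R y → (addR R x y z ↔ ∀ i, x i = z i)
  add1 : ∀ x y y' z : Fin (K + 1) → M, sucN R y y' →
    (addR R x y' z ↔ ∃ w, addR R x y w ∧ sucN R w z)
  mul0 : ∀ x y z : Fin (K + 1) → M, zeroT R y → (mulR R x y z ↔ zeroT R z)
  mul1 : ∀ x y y' z : Fin (K + 1) → M, sucN R y y' →
    (mulR R x y' z ↔ ∃ w, mulR R x y w ∧ addR R w x z)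

end Acc

section Def

variable {ι : Type} {a : ι → ℕ} {K : ℕ} {α : Type}

lemma ltR_FD {e e' : ∀ (M : Type), (α → M) → M} (h : El α e) (h' : El α e') :
    FD (ASym ι) (aar a K) α (fun M R v => ltR R (e M v) (e' M v)) := by
  obtain ⟨x, hx⟩ := h
  obtain ⟨y, hy⟩ := h'
  refine FD.rel (ar := aar a K) ASym.lt ⟨![x, y], fun M v => ?_⟩
  beta_reduce
  rw [hx, hy]
  funext i
  change Fin 2 at i
  fin_cases i <;> rfl

lemma addR_FD {e₁ e₂ e₃ : ∀ (M : Type), (α → M) → (Fin (K + 1) → M)} (h₁ : Pj α _ e₁)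
    (h₂ : Pj α _ e₂) (h₃ : Pj α _ e₃) :
    FD (ASym ι) (aar a K) α (fun M R v => addR R (e₁ M v) (e₂ M v) (e₃ M v)) := by
  obtain ⟨x, hx⟩ := h₁
  obtain ⟨y, hy⟩ := h₂
  obtain ⟨z, hz⟩ := h₃
  refine FD.rel (ar := aar a K) ASym.add ⟨flat (b := 3) ![x, y, z], fun M v => ?_⟩
  beta_reduce
  rw [hx, hy, hz]
  show flat (b := 3) _ = flat (b := 3) (fun i => v ∘ (![x, y, z] : Fin 3 → _) i)
  refine congrArg (flat (b := 3)) ?_
  funext i
  fin_cases i <;> rfl

lemma mulR_FD {e₁ e₂ e₃ : ∀ (M : Type), (α → M) → (Fin (K + 1) → M)} (h₁ : Pj α _ e₁)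
    (h₂ : Pj α _ e₂) (h₃ : Pj α _ e₃) :
    FD (ASym ι) (aar a K) α (fun M R v => mulR R (e₁ M v) (e₂ M v) (e₃ M v)) := by
  obtain ⟨x, hx⟩ := h₁
  obtain ⟨y, hy⟩ := h₂
  obtain ⟨z, hz⟩ := h₃
  refine FD.rel (ar := aar a K) ASym.mul ⟨flat (b := 3) ![x, y, z], fun M v => ?_⟩
  beta_reduce
  rw [hx, hy, hz]
  show flat (b := 3) _ = flat (b := 3) (fun i => v ∘ (![x, y, z] : Fin 3 → _) i)
  refine congrArg (flat (b := 3)) ?_
  funext i
  fin_cases i <;> rfl

lemma soR_FD (i : ι) {e : Fin (a i) → ∀ (M : Type), (α → M) → (Fin (K + 1) → M)}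
    (h : ∀ j, Pj α _ (e j)) :
    FD (ASym ι) (aar a K) α (fun M R v => soR R i (fun j => e j M v)) := by
  choose g hg using h
  refine FD.rel (ar := aar a K) (ASym.so i) ⟨flat g, fun M v => ?_⟩
  show flat (fun j => e j M v) = flat (fun j => v ∘ g j)
  refine congrArg flat ?_
  funext j
  exact hg j M v

lemma zeroT_FD {e : ∀ (M : Type), (α → M) → (Fin (K + 1) → M)} (h : Pj α _ e) :
    FD (ASym ι) (aar a K) α (fun M R v => zeroT R (e M v)) := by
  unfold zeroT
  refine FD.all_fin (fun i => ?_)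
  refine FD.all1 ?_
  refine FD.not (ltR_FD (El.var _) ?_)
  obtain ⟨g, hg⟩ := h
  exact ⟨Sum.inl (g i), fun M v => by beta_reduce; rw [hg]; rfl⟩

lemma sucD_FD {e e' : ∀ (M : Type), (α → M) → M} (h : El α e) (h' : El α e') :
    FD (ASym ι) (aar a K) α (fun M R v => sucD R (e M v) (e' M v)) := by
  unfold sucD
  refine FD.and (ltR_FD h h') (FD.all1 (FD.not (FD.and ?_ ?_)))
  · obtain ⟨g, hg⟩ := h
    exact ltR_FD ⟨Sum.inl g, fun M v => by beta_reduce; rw [hg]; rfl⟩ (El.var _)
  · obtain ⟨g, hg⟩ := h'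
    exact ltR_FD (El.var _) ⟨Sum.inl g, fun M v => by beta_reduce; rw [hg]; rfl⟩

lemma sucN_FD {e e' : ∀ (M : Type), (α → M) → (Fin (K + 1) → M)} (h : Pj α _ e)
    (h' : Pj α _ e') :
    FD (ASym ι) (aar a K) α (fun M R v => sucN R (e M v) (e' M v)) := by
  unfold sucN
  refine FD.ex_fin (fun i => ?_)
  refine FD.and (sucD_FD (h.app i) (h'.app i)) (FD.and ?_ ?_)
  · refine FD.all_fin (fun j => ?_)
    refine FD.imp (FD.const _) (FD.and ?_ ?_)
    · refine FD.all1 (FD.not ?_)
      obtain ⟨g, hg⟩ := h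
      exact ltR_FD ⟨Sum.inl (g j), fun M v => by beta_reduce; rw [hg]; rfl⟩ (El.var _)
    · refine FD.all1 (FD.not ?_)
      obtain ⟨g, hg⟩ := h'
      exact ltR_FD (El.var _) ⟨Sum.inl (g j), fun M v => by beta_reduce; rw [hg]; rfl⟩
  · refine FD.all_fin (fun j => ?_)
    exact FD.imp (FD.const _) (FD.eq (h.app j) (h'.app j))

lemma Pj.inl {β γ : Type} {f : ∀ (M : Type), (α → M) → (γ → M)} (hf : Pj α γ f) :
    Pj (α ⊕ β) γ (fun M v => f M (v ∘ Sum.inl)) := by
  obtain ⟨g, hg⟩ := hf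
  exact ⟨fun c => Sum.inl (g c), fun M v => by beta_reduce; rw [hg]; rfl⟩

lemma Pj.inr {β : Type} : Pj (α ⊕ β) β (fun _ v => v ∘ Sum.inr) := ⟨Sum.inr, fun _ _ => rfl⟩

lemma AxA_FD : FD (ASym ι) (aar a K) Empty (fun _ R _ => AxA R) := by
  have h1 : FD (ASym ι) (aar a K) Empty (fun M R _ => ∀ x : M, ¬ ltR R x x) :=
    FD.all1 (FD.not (ltR_FD (El.var _) (El.var _)))
  have h2 : FD (ASym ι) (aar a K) Empty (fun M R _ => ∀ x y z : M, ltR R x y → ltR R y z →
      ltR R x z) :=
    FD.all1 (FD.all1 (FD.all1 (FD.imp (ltR_FD (El.var _) (El.var _))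
      (FD.imp (ltR_FD (El.var _) (El.var _)) (ltR_FD (El.var _) (El.var _))))))
  have h3 : FD (ASym ι) (aar a K) Empty (fun M R _ => ∀ x y : M, ltR R x y ∨ x = y ∨ ltR R y x) :=
    FD.all1 (FD.all1 (FD.or (ltR_FD (El.var _) (El.var _))
      (FD.or (FD.eq (El.var _) (El.var _)) (ltR_FD (El.var _) (El.var _)))))
  have h4 : FD (ASym ι) (aar a K) Empty (fun M R _ => ∀ x y z : Fin (K + 1) → M, zeroT R y →
      (addR R x y z ↔ ∀ i, x i = z i)) :=
    FD.all (FD.all (FD.all (FD.imp (zeroT_FD (Pj.inl Pj.inr))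
      (FD.iff (addR_FD (Pj.inl (Pj.inl Pj.inr)) (Pj.inl Pj.inr) Pj.inr)
        (FD.all_fin (fun i => FD.eq (Pj.app (Pj.inl (Pj.inl Pj.inr)) i) (Pj.app Pj.inr i)))))))
  have h5 : FD (ASym ι) (aar a K) Empty (fun M R _ => ∀ x y y' z : Fin (K + 1) → M, sucN R y y' →
      (addR R x y' z ↔ ∃ w, addR R x y w ∧ sucN R w z)) :=
    FD.all (FD.all (FD.all (FD.all (FD.imp (sucN_FD (Pj.inl (Pj.inl Pj.inr)) (Pj.inl Pj.inr))
      (FD.iff (addR_FD (Pj.inl (Pj.inl (Pj.inl Pj.inr))) (Pj.inl Pj.inr) Pj.inr)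
        (FD.ex (FD.and (addR_FD (Pj.inl (Pj.inl (Pj.inl (Pj.inl Pj.inr))))
          (Pj.inl (Pj.inl (Pj.inl Pj.inr))) Pj.inr) (sucN_FD Pj.inr (Pj.inl Pj.inr)))))))))
  have h6 : FD (ASym ι) (aar a K) Empty (fun M R _ => ∀ x y z : Fin (K + 1) → M, zeroT R y →
      (mulR R x y z ↔ zeroT R z)) :=
    FD.all (FD.all (FD.all (FD.imp (zeroT_FD (Pj.inl Pj.inr))
      (FD.iff (mulR_FD (Pj.inl (Pj.inl Pj.inr)) (Pj.inl Pj.inr) Pj.inr)
        (zeroT_FD Pj.inr)))))
  have h7 : FD (ASym ι) (aar a K) Empty (fun M R _ => ∀ x y y' z : Fin (K + 1) → M, sucN R y y' →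
      (mulR R x y' z ↔ ∃ w, mulR R x y w ∧ addR R w x z)) :=
    FD.all (FD.all (FD.all (FD.all (FD.imp (sucN_FD (Pj.inl (Pj.inl Pj.inr)) (Pj.inl Pj.inr))
      (FD.iff (mulR_FD (Pj.inl (Pj.inl (Pj.inl Pj.inr))) (Pj.inl Pj.inr) Pj.inr)
        (FD.ex (FD.and (mulR_FD (Pj.inl (Pj.inl (Pj.inl (Pj.inl Pj.inr))))
          (Pj.inl (Pj.inl (Pj.inl Pj.inr))) Pj.inr)
          (addR_FD Pj.inr (Pj.inl (Pj.inl (Pj.inl (Pj.inl Pj.inr)))) (Pj.inl Pj.inr)))))))))
  refine (h1.and (h2.and (h3.and (h4.and (h5.and (h6.and h7)))))).congr (fun M R v => ?_)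
  constructor
  · rintro ⟨a1, a2, a3, a4, a5, a6, a7⟩
    exact ⟨a1, a2, a3, a4, a5, a6, a7⟩
  · rintro ⟨a1, a2, a3, a4, a5, a6, a7⟩
    exact ⟨a1, a2, a3, a4, a5, a6, a7⟩

end Def

/-! ### Standard interpretations -/

lemma col_inj {k n : ℕ} {x y : Fin (k + 1) → Fin n} (h : col x = col y) : x = y := by
  rw [← tup_col x, ← tup_col y]
  congr 1

section Std

variable {ι : Type} {a : ι → ℕ} {K m : ℕ} {R : Interp (ASym ι) (aar a K) (Fin m)}

lemma zeroT_iff (hlt : ∀ x y, ltR R x y ↔ x < y) (x : Fin (K + 1) → Fin m) :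
    zeroT R x ↔ col x = 0 := by
  have hm : 0 < m := dig_lt_of_col x
  have h1 : zeroT R x ↔ ∀ i, (x i : ℕ) = 0 := by
    unfold zeroT
    apply forall_congr'
    intro i
    constructor
    · intro h
      have := h ⟨0, hm⟩
      rw [hlt, Fin.lt_def] at this
      simp at this
      omega
    · intro h b
      rw [hlt, Fin.lt_def]
      omega
  rw [h1]
  constructor
  · intro h
    have h0 : col x < m ^ (K + 1) := col_lt x
    have : x = tup 0 (pow_pos hm _) := by
      funext i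
      apply Fin.ext
      rw [tup_apply, h i, dig_zero]
    rw [this, col_tup]
  · intro h i
    rw [← dig_col x i, h, dig_zero]

lemma sucD_iff (hlt : ∀ x y, ltR R x y ↔ x < y) (x y : Fin m) :
    sucD R x y ↔ (y : ℕ) = x + 1 := by
  unfold sucD
  simp only [hlt, Fin.lt_def]
  constructor
  · rintro ⟨h1, h2⟩
    by_contra hne
    have hy := y.is_lt
    exact h2 ⟨x + 1, by omega⟩ ⟨by simp, by simp; omega⟩
  · intro h
    exact ⟨by omega, fun c hc => by omega⟩

lemma sucN_iff (hlt : ∀ x y, ltR R x y ↔ x < y) (x y : Fin (K + 1) → Fin m) :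
    sucN R x y ↔ col y = col x + 1 := by
  have hm : 0 < m := dig_lt_of_col x
  have hmax : ∀ z : Fin m, (∀ b, ¬ ltR R z b) ↔ (z : ℕ) + 1 = m := by
    intro z
    simp only [hlt, Fin.lt_def]
    constructor
    · intro h
      by_contra hne
      have hz := z.is_lt
      exact h ⟨z + 1, by omega⟩ (by simp)
    · intro h b; omega
  have hmin : ∀ z : Fin m, (∀ b, ¬ ltR R b z) ↔ (z : ℕ) = 0 := by
    intro z
    simp only [hlt, Fin.lt_def]
    constructor
    · intro h
      have := h ⟨0, hm⟩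
      simp at this
      omega
    · intro h b; omega
  unfold sucN
  simp only [sucD_iff hlt, hmax, hmin]
  constructor
  · rintro ⟨i, h1, h2, h3⟩
    have hdv : ∀ j : ℕ, j ≤ i → m ^ j ∣ col x + 1 := by
      intro j
      induction j with
      | zero => intro _; simp
      | succ j ih =>
        intro hj
        have h4 := ih (by omega)
        rw [dvd_succ_iff hm h4]
        have hjK : j < K + 1 := by have := i.is_lt; omega
        have h5 := (h2 ⟨j, hjK⟩ (by rw [Fin.lt_def]; simp; omega)).1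
        rw [← dig_col x ⟨j, hjK⟩] at h5
        exact h5
    have hndv : ¬ m ^ ((i : ℕ) + 1) ∣ col x + 1 := by
      rw [dvd_succ_iff hm (hdv i le_rfl), dig_col]
      have := (y i).is_lt
      omega
    have hlt' : col x + 1 < m ^ (K + 1) := by
      have h4 := col_lt x
      rcases Nat.lt_or_ge (col x + 1) (m ^ (K + 1)) with h | h
      · exact h
      · exfalso
        apply hndv
        rw [show col x + 1 = m ^ (K + 1) by omega]
        exact pow_dvd_pow m (by omega)
    have : tup (col x + 1) hlt' = y := by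
      funext j
      apply Fin.ext
      rw [tup_apply]
      rcases Nat.lt_trichotomy j i with h | h | h
      · rw [dig_succ_of_dvd' hm (hdv j h.le), if_pos (hdv (j + 1) (by omega))]
        exact (h2 j h).2.symm
      · have hji : j = i := Fin.ext h
        subst hji
        rw [dig_succ_of_dvd' hm (hdv j le_rfl), if_neg hndv, dig_col, h1]
      · rw [dig_succ_of_not_dvd, dig_col, h3 j h]
        intro hd
        exact hndv (dvd_trans (pow_dvd_pow m (by omega)) hd)
    rw [← this, col_tup]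
  · intro h
    have hlt' : col x + 1 < m ^ (K + 1) := h ▸ col_lt y
    have hex : ∃ i, i < K + 1 ∧ ¬ m ^ (i + 1) ∣ col x + 1 := by
      refine ⟨K, by omega, fun hd => ?_⟩
      exact absurd (Nat.le_of_dvd (by omega) hd) (by omega)
    classical
    obtain ⟨i, ⟨hiK, hi⟩, hmin'⟩ : ∃ i, (i < K + 1 ∧ ¬ m ^ (i + 1) ∣ col x + 1) ∧
        ∀ j < i, m ^ (j + 1) ∣ col x + 1 := by
      refine ⟨Nat.find hex, Nat.find_spec hex, fun j hj => ?_⟩
      have h1 := Nat.find_min hex hj
      have h2 := (Nat.find_spec hex).1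
      by_contra hne
      exact h1 ⟨by omega, hne⟩
    have hdv : ∀ j, j ≤ i → m ^ j ∣ col x + 1 := by
      intro j hj
      cases j with
      | zero => simp
      | succ j => exact hmin' j (by omega)
    have hy : ∀ j : Fin (K + 1), (y j : ℕ) = dig m j (col x + 1) := by
      intro j
      rw [← h, dig_col]
    refine ⟨⟨i, hiK⟩, ?_, ?_, ?_⟩
    · rw [hy, ← dig_col x]
      simp only
      rw [dig_succ_of_dvd' hm (hdv i le_rfl), if_neg hi]
    · intro j hj
      have hj' : (j : ℕ) < i := hj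
      refine ⟨?_, ?_⟩
      · rw [← dig_col x, ← dvd_succ_iff hm (hdv j hj'.le)]
        exact hmin' j hj'
      · rw [hy, dig_succ_of_dvd' hm (hdv j hj'.le), if_pos (hmin' j hj')]
    · intro j hj
      have hj' : i < (j : ℕ) := hj
      apply Fin.ext
      rw [hy, ← dig_col x, dig_succ_of_not_dvd]
      intro hd
      exact hi (dvd_trans (pow_dvd_pow m (by omega)) hd)

/-- standard interpretation on `Fin m` -/
structure Std (R : Interp (ASym ι) (aar a K) (Fin m)) : Prop where
  lt : ∀ x y, ltR R x y ↔ x < y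
  add : ∀ x y z, addR R x y z ↔ col x + col y = col z
  mul : ∀ x y z, mulR R x y z ↔ col x * col y = col z

lemma exists_pred {y : Fin (K + 1) → Fin m} (h : col y ≠ 0) :
    ∃ y' : Fin (K + 1) → Fin m, col y = col y' + 1 := by
  have h1 := col_lt y
  refine ⟨tup (col y - 1) (by omega), ?_⟩
  rw [col_tup]; omega

lemma exists_col {N : ℕ} (h : N < m ^ (K + 1)) : ∃ x : Fin (K + 1) → Fin m, col x = N :=
  ⟨tup N h, col_tup N h⟩

/-- interpretations satisfying the axioms over the standard order are standard -/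
lemma AxA.std (hA : AxA R) (hlt : ∀ x y, ltR R x y ↔ x < y) : Std R := by
  have hadd : ∀ (N : ℕ) (x y z : Fin (K + 1) → Fin m), col y = N →
      (addR R x y z ↔ col x + col y = col z) := by
    intro N
    induction N with
    | zero =>
      intro x y z hy
      rw [hA.add0 x y z ((zeroT_iff hlt y).2 hy), hy, add_zero]
      constructor
      · intro h; rw [funext h]
      · intro h i; rw [col_inj h]
    | succ N ih =>
      intro x y z hy
      obtain ⟨y', hy'⟩ := exists_pred (y := y) (by omega)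
      rw [hA.add1 x y' y z ((sucN_iff hlt y' y).2 hy')]
      simp only [ih x y' _ (by omega), sucN_iff hlt]
      constructor
      · rintro ⟨w, h1, h2⟩; omega
      · intro h
        have := col_lt z
        obtain ⟨w, hw⟩ := exists_col (K := K) (m := m) (N := col x + col y') (by omega)
        exact ⟨w, hw.symm, by omega⟩
  refine ⟨hlt, fun x y z => hadd _ x y z rfl, ?_⟩
  have hmul : ∀ (N : ℕ) (x y z : Fin (K + 1) → Fin m), col y = N →
      (mulR R x y z ↔ col x * col y = col z) := by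
    intro N
    induction N with
    | zero =>
      intro x y z hy
      rw [hA.mul0 x y z ((zeroT_iff hlt y).2 hy), hy, mul_zero, zeroT_iff hlt, eq_comm]
    | succ N ih =>
      intro x y z hy
      obtain ⟨y', hy'⟩ := exists_pred (y := y) (by omega)
      rw [hA.mul1 x y' y z ((sucN_iff hlt y' y).2 hy')]
      simp only [ih x y' _ (by omega), hadd _ _ _ _ rfl, hy', mul_add, mul_one]
      constructor
      · rintro ⟨w, h1, h2⟩; omega
      · intro h
        have := col_lt z
        obtain ⟨w, hw⟩ := exists_col (K := K) (m := m) (N := col x * col y') (by omega)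
        exact ⟨w, hw.symm, by omega⟩
  exact fun x y z => hmul _ x y z rfl

lemma Std.axA (h : Std R) : AxA R := by
  refine ⟨?_, ?_, ?_, ?_, ?_, ?_, ?_⟩
  · intro x; rw [h.lt]; exact lt_irrefl x
  · intro x y z h1 h2; rw [h.lt] at *; exact h1.trans h2
  · intro x y; rw [h.lt, h.lt]; exact lt_trichotomy x y
  · intro x y z hy
    rw [zeroT_iff h.lt] at hy
    rw [h.add, hy, add_zero]
    constructor
    · intro h i; rw [col_inj h]
    · intro h; rw [funext h]
  · intro x y y' z hy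
    rw [sucN_iff h.lt] at hy
    simp only [h.add, sucN_iff h.lt, hy]
    constructor
    · intro h1
      have := col_lt z
      obtain ⟨w, hw⟩ := exists_col (K := K) (m := m) (N := col x + col y) (by omega)
      exact ⟨w, hw.symm, by omega⟩
    · rintro ⟨w, h1, h2⟩; omega
  · intro x y z hy
    rw [zeroT_iff h.lt] at hy ⊢
    rw [h.mul, hy, mul_zero, eq_comm]
  · intro x y y' z hy
    rw [sucN_iff h.lt] at hy
    simp only [h.add, h.mul, hy, mul_add, mul_one]
    constructor
    · intro h1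
      have := col_lt z
      obtain ⟨w, hw⟩ := exists_col (K := K) (m := m) (N := col x * col y) (by omega)
      exact ⟨w, hw.symm, by omega⟩
    · rintro ⟨w, h1, h2⟩; omega

end Std

end Pool.Agent.Helper20.Spectra
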