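import Pool.Agent.Helper20.Spectra.Defs

/-!
# Ackermann coding of finite sets of blocks
-/

set_option autoImplicit false

namespace Pool.Agent.Helper20.Spectra

/-- `w` is the set `{a, b}` -/
def Db {α : Type} (E : α → α → Prop) (w a b : α) : Prop := ∀ v, E v w ↔ (v = a ∨ v = b)

/-- `z` is the Kuratowski pair `(a, b)` -/
def Pr {α : Type} (E : α → α → Prop) (z a b : α) : Prop :=
  ∃ w₁ w₂, Db E w₁ a a ∧ Db E w₂ a b ∧ Db E z w₁ w₂

/-- `((p, q), (r, s))` is an element of `t` -/
def Qd {α : Type} (E : α → α → Prop) (t p q r s : α) : Prop :=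
  ∃ z u w, E z t ∧ Pr E z u w ∧ Pr E u p q ∧ Pr E w r s

/-- Ackermann membership -/
def natE (i n : ℕ) : Prop := n.testBit i = true

lemma natE_lt {i n : ℕ} (h : natE i n) : i < n := by
  have h1 : 2 ^ i ≤ n := Nat.ge_two_pow_of_testBit h
  exact lt_of_lt_of_le Nat.lt_two_pow_self h1

lemma natE_ext {m n : ℕ} (h : ∀ i, natE i m ↔ natE i n) : m = n := by
  apply Nat.eq_of_testBit_eq
  intro i
  have := h i
  unfold natE at this
  rwa [Bool.eq_iff_iff]

/-- code of `{a, b}` -/
def db (a b : ℕ) : ℕ := 2 ^ a ||| 2 ^ b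

lemma natE_db (a b v : ℕ) : natE v (db a b) ↔ (v = a ∨ v = b) := by
  unfold natE db
  rw [Nat.testBit_or, Bool.or_eq_true, Nat.testBit_two_pow, Nat.testBit_two_pow]
  simp [eq_comm]

lemma Db_iff (w a b : ℕ) : Db natE w a b ↔ w = db a b := by
  constructor
  · intro h
    apply natE_ext
    intro i
    rw [h i, natE_db]
  · rintro rfl v
    exact natE_db a b v

/-- code of the pair `(a, b)` -/
def prc (a b : ℕ) : ℕ := db (db a a) (db a b)

lemma Pr_iff (z a b : ℕ) : Pr natE z a b ↔ z = prc a b := by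
  unfold Pr prc
  simp only [Db_iff]
  constructor
  · rintro ⟨_, _, rfl, rfl, rfl⟩; rfl
  · rintro rfl; exact ⟨_, _, rfl, rfl, rfl⟩

/-- code of the block `((p, q), (r, s))` -/
def qdc (p q r s : ℕ) : ℕ := prc (prc p q) (prc r s)

lemma Qd_iff (t p q r s : ℕ) : Qd natE t p q r s ↔ natE (qdc p q r s) t := by
  unfold Qd qdc
  simp only [Pr_iff]
  constructor
  · rintro ⟨_, _, _, h, rfl, rfl, rfl⟩; exact h
  · intro h; exact ⟨_, _, _, h, rfl, rfl, rfl⟩

lemma db_inj {a b c d : ℕ} (h : db a b = db c d) : (a = c ∧ b = d) ∨ (a = d ∧ b = c) := by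
  have h1 : ∀ v, (v = a ∨ v = b) ↔ (v = c ∨ v = d) := by
    intro v
    rw [← natE_db, h, natE_db]
  have ha := h1 a
  have hb := h1 b
  have hc := h1 c
  have hd := h1 d
  omega

lemma prc_inj {a b c d : ℕ} (h : prc a b = prc c d) : a = c ∧ b = d := by
  rcases db_inj h with ⟨h1, h2⟩ | ⟨h1, h2⟩
  · have h3 := db_inj h1
    have h4 := db_inj h2
    omega
  · have h3 := db_inj h1
    have h4 := db_inj h2
    omega

lemma qdc_inj {p q r s p' q' r' s' : ℕ} (h : qdc p q r s = qdc p' q' r' s') :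
    (p, q, r, s) = (p', q', r', s') := by
  obtain ⟨h1, h2⟩ := prc_inj h
  obtain ⟨h3, h4⟩ := prc_inj h1
  obtain ⟨h5, h6⟩ := prc_inj h2
  simp [h3, h4, h5, h6]

lemma lt_prc (a b : ℕ) : a < prc a b ∧ b < prc a b := by
  have h1 : natE (db a b) (prc a b) := (natE_db _ _ _).2 (Or.inr rfl)
  have h2 : natE a (db a b) := (natE_db _ _ _).2 (Or.inl rfl)
  have h3 : natE b (db a b) := (natE_db _ _ _).2 (Or.inr rfl)
  have h1 := natE_lt h1
  have h2 := natE_lt h2
  have h3 := natE_lt h3
  omega

lemma Qd_lt {t p q r s : ℕ} (h : Qd natE t p q r s) : p < t ∧ q < t ∧ r < t ∧ s < t := by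
  rw [Qd_iff] at h
  have h1 := natE_lt h
  have h2 := lt_prc (prc p q) (prc r s)
  have h3 := lt_prc p q
  have h4 := lt_prc r s
  unfold qdc at h1
  omega

open Classical in
/-- the finite set of blocks with code `t` -/
noncomputable def blk (t : ℕ) : Finset (ℕ × ℕ × ℕ × ℕ) :=
  (Finset.range t ×ˢ Finset.range t ×ˢ Finset.range t ×ˢ Finset.range t).filter
    (fun w => Qd natE t w.1 w.2.1 w.2.2.1 w.2.2.2)

lemma mem_blk (t p q r s : ℕ) : (p, q, r, s) ∈ blk t ↔ Qd natE t p q r s := by
  unfold blk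
  simp only [Finset.mem_filter, Finset.mem_product, Finset.mem_range]
  constructor
  · exact fun h => h.2
  · intro h
    exact ⟨Qd_lt h, h⟩

lemma exists_bits (S : Finset ℕ) : ∃ t : ℕ, ∀ i, natE i t ↔ i ∈ S := by
  classical
  induction S using Finset.induction_on with
  | empty => exact ⟨0, fun i => by simp [natE]⟩
  | insert a S _ ih =>
    obtain ⟨t, ht⟩ := ih
    refine ⟨t ||| 2 ^ a, fun i => ?_⟩
    have h1 := ht i
    unfold natE at h1 ⊢
    rw [Nat.testBit_or, Bool.or_eq_true, Nat.testBit_two_pow, h1, Finset.mem_insert]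
    simp only [decide_eq_true_eq]
    constructor
    · rintro (h | h)
      · exact Or.inr h
      · exact Or.inl h.symm
    · rintro (h | h)
      · exact Or.inr h.symm
      · exact Or.inl h

lemma exists_blk (Θ : Finset (ℕ × ℕ × ℕ × ℕ)) : ∃ t, blk t = Θ := by
  classical
  obtain ⟨t, ht⟩ := exists_bits (Θ.image (fun w => qdc w.1 w.2.1 w.2.2.1 w.2.2.2))
  refine ⟨t, ?_⟩
  ext ⟨p, q, r, s⟩
  rw [mem_blk, Qd_iff, ht]
  simp only [Finset.mem_image, Prod.exists]
  constructor
  · rintro ⟨p', q', r', s', h, he⟩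
    rw [← qdc_inj he]; exact h
  · intro h; exact ⟨p, q, r, s, h, rfl⟩

/-- binary increment -/
lemma testBit_succ_of (i₀ : ℕ) : ∀ j : ℕ, j.testBit i₀ = false → (∀ i < i₀, j.testBit i = true) →
    ∀ i, (j + 1).testBit i = if i < i₀ then false else if i = i₀ then true else j.testBit i := by
  induction i₀ with
  | zero =>
    intro j hj _ i
    have hj2 : j % 2 = 0 := by
      rw [Nat.testBit_zero] at hj
      simpa using hj
    cases i with
    | zero => simp [Nat.testBit_zero]; omega
    | succ i =>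
      rw [Nat.testBit_succ, Nat.testBit_succ]
      have : (j + 1) / 2 = j / 2 := by omega
      simp [this]
  | succ i₀ ih =>
    intro j hj hlow i
    have hj2 : j % 2 = 1 := by
      have := hlow 0 (by omega)
      rw [Nat.testBit_zero] at this
      simpa using this
    cases i with
    | zero =>
      rw [Nat.testBit_zero]
      simp; omega
    | succ i =>
      rw [Nat.testBit_succ, Nat.testBit_succ]
      have h1 : (j + 1) / 2 = j / 2 + 1 := by omega
      rw [h1, ih (j / 2) (by rwa [Nat.testBit_succ] at hj) (fun i hi => by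
        have := hlow (i + 1) (by omega)
        rwa [Nat.testBit_succ] at this) i]
      simp

/-- sizes realised by the universal sentence -/
def univSizes : Set ℕ :=
  {m | ∃ t N : ℕ, N ∈ squareSizes (blk t) ∧ m = (N + 2 + t) ^ 2 + t}

lemma mem_univSizes (t N : ℕ) : (N + 2 + t) ^ 2 + t ∈ univSizes ↔ N ∈ squareSizes (blk t) := by
  constructor
  · rintro ⟨t', N', h, he⟩
    have h1 : N + 2 + t = N' + 2 + t' := by
      by_contra hne
      rcases Nat.lt_or_gt_of_ne hne with hlt | hlt
      · have : (N + 2 + t) + 1 ≤ N' + 2 + t' := hlt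
        have := Nat.pow_le_pow_left this 2
        nlinarith
      · have : (N' + 2 + t') + 1 ≤ N + 2 + t := hlt
        have := Nat.pow_le_pow_left this 2
        nlinarith
    rw [h1] at he
    have h2 : t = t' := by omega
    have h3 : N = N' := by omega
    rw [h2, h3]; exact h
  · intro h
    exact ⟨t, N, h, rfl⟩

end Pool.Agent.Helper20.Spectra
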