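import Pool.Agent.Helper20.Spectra.FOLoc

/-!
# Uniform definability in relational vocabularies
-/

set_option autoImplicit false

namespace Pool.Agent.Helper20.Spectra

open FirstOrder FirstOrder.Language

/-- the relational vocabulary with symbols `S` of arities `ar` -/
def RelLang (S : Type) (ar : S → ℕ) : FirstOrder.Language.{0, 0} :=
  ⟨fun _ => Empty, fun l => {s : S // ar s = l}⟩

instance {S : Type} {ar : S → ℕ} : Finite (Σ l, (RelLang S ar).Functions l) := by
  have : IsEmpty (Σ l, (RelLang S ar).Functions l) := ⟨fun x => Empty.elim x.2⟩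
  infer_instance

instance {S : Type} [Finite S] {ar : S → ℕ} : Finite (Σ l, (RelLang S ar).Relations l) := by
  apply Finite.of_surjective (fun s : S => (⟨ar s, ⟨s, rfl⟩⟩ : Σ l, {s : S // ar s = l}))
  rintro ⟨l, s, rfl⟩
  exact ⟨s, rfl⟩

variable {S : Type} {ar : S → ℕ}

/-- interpretations of the symbols -/
abbrev Interp (S : Type) (ar : S → ℕ) (M : Type) := ∀ s : S, (Fin (ar s) → M) → Prop

/-- the structure given by an interpretation -/
@[reducible] def mkS {M : Type} (R : Interp S ar M) : (RelLang S ar).Structure M where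
  funMap := fun f => Empty.elim f
  RelMap := fun r v => R r.1 (fun i => v (Fin.cast r.2 i))

lemma structure_eq {M : Type} (T : (RelLang S ar).Structure M) :
    T = mkS (fun s v => T.RelMap (⟨s, rfl⟩ : (RelLang S ar).Relations (ar s)) v) := by
  ext n f x
  · exact Empty.elim f
  · obtain ⟨s, rfl⟩ := f
    rfl

/-- uniform definability -/
def FD (S : Type) (ar : S → ℕ) (α : Type)
    (P : ∀ (M : Type), Interp S ar M → (α → M) → Prop) : Prop :=
  ∃ φ : (RelLang S ar).Formula α, ∀ (M : Type) (R : Interp S ar M) (v : α → M),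
    @Formula.Realize _ M (mkS R) _ φ v ↔ P M R v

/-- element selectors -/
def El (α : Type) (e : ∀ (M : Type), (α → M) → M) : Prop := ∃ a : α, ∀ M v, e M v = v a

/-- tuple selectors -/
def Pj (α β : Type) (f : ∀ (M : Type), (α → M) → (β → M)) : Prop :=
  ∃ g : β → α, ∀ M v, f M v = v ∘ g

lemma El.var {α : Type} (a : α) : El α (fun _ v => v a) := ⟨a, fun _ _ => rfl⟩

lemma Pj.id {α : Type} : Pj α α (fun _ v => v) := ⟨fun a => a, fun _ _ => rfl⟩

lemma Pj.comp {α β γ : Type} {f : ∀ (M : Type), (α → M) → (β → M)} (h : γ → β)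
    (hf : Pj α β f) : Pj α γ (fun M v => f M v ∘ h) := by
  obtain ⟨g, hg⟩ := hf
  exact ⟨g ∘ h, fun M v => by beta_reduce; rw [hg]; rfl⟩

lemma Pj.app {α β : Type} {f : ∀ (M : Type), (α → M) → (β → M)} (hf : Pj α β f) (b : β) :
    El α (fun M v => f M v b) := by
  obtain ⟨g, hg⟩ := hf
  exact ⟨g b, fun M v => by beta_reduce; rw [hg]; rfl⟩

namespace FD

variable {α β : Type}

lemma congr {P Q : ∀ (M : Type), Interp S ar M → (α → M) → Prop} (h : FD S ar α P)
    (hPQ : ∀ M R v, Q M R v ↔ P M R v) : FD S ar α Q := by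
  obtain ⟨φ, hφ⟩ := h
  exact ⟨φ, fun M R v => (hφ M R v).trans (hPQ M R v).symm⟩

lemma const (p : Prop) : FD S ar α (fun _ _ _ => p) := by
  by_cases hp : p
  · refine ⟨⊤, fun M R v => ?_⟩
    let _ := mkS R
    simp only [hp, iff_true]
    exact Formula.realize_top.2 trivial
  · refine ⟨⊥, fun M R v => ?_⟩
    let _ := mkS R
    simp only [hp, iff_false]
    exact Formula.realize_bot.1

lemma eq {a b : ∀ (M : Type), (α → M) → M} (ha : El α a) (hb : El α b) :
    FD S ar α (fun M _ v => a M v = b M v) := by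
  obtain ⟨a, ha⟩ := ha
  obtain ⟨b, hb⟩ := hb
  refine ⟨Term.equal (Term.var a) (Term.var b), fun M R v => ?_⟩
  let _ := mkS R
  beta_reduce
  rw [ha, hb]
  simp [Formula.realize_equal]

lemma rel (s : S) {f : ∀ (M : Type), (α → M) → (Fin (ar s) → M)} (hf : Pj α (Fin (ar s)) f) :
    FD S ar α (fun M R v => R s (f M v)) := by
  obtain ⟨g, hg⟩ := hf
  let r : (RelLang S ar).Relations (ar s) := (⟨s, rfl⟩ : {t : S // ar t = ar s})
  refine ⟨Relations.formula (L := RelLang S ar) r (fun i => Term.var (g i)),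
    fun M R v => ?_⟩
  let _ := mkS R
  beta_reduce
  rw [hg, Formula.realize_rel]
  rfl

lemma not {P : ∀ (M : Type), Interp S ar M → (α → M) → Prop} (h : FD S ar α P) :
    FD S ar α (fun M R v => ¬ P M R v) := by
  obtain ⟨φ, hφ⟩ := h
  refine ⟨φ.not, fun M R v => ?_⟩
  let _ := mkS R
  rw [Formula.realize_not, hφ]

lemma and {P Q : ∀ (M : Type), Interp S ar M → (α → M) → Prop} (h : FD S ar α P)
    (h' : FD S ar α Q) : FD S ar α (fun M R v => P M R v ∧ Q M R v) := by
  obtain ⟨φ, hφ⟩ := h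
  obtain ⟨ψ, hψ⟩ := h'
  refine ⟨φ ⊓ ψ, fun M R v => ?_⟩
  let _ := mkS R
  rw [Formula.realize_inf, hφ, hψ]

lemma or {P Q : ∀ (M : Type), Interp S ar M → (α → M) → Prop} (h : FD S ar α P)
    (h' : FD S ar α Q) : FD S ar α (fun M R v => P M R v ∨ Q M R v) := by
  obtain ⟨φ, hφ⟩ := h
  obtain ⟨ψ, hψ⟩ := h'
  refine ⟨φ ⊔ ψ, fun M R v => ?_⟩
  let _ := mkS R
  rw [Formula.realize_sup, hφ, hψ]

lemma imp {P Q : ∀ (M : Type), Interp S ar M → (α → M) → Prop} (h : FD S ar α P)
    (h' : FD S ar α Q) : FD S ar α (fun M R v => P M R v → Q M R v) := by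
  obtain ⟨φ, hφ⟩ := h
  obtain ⟨ψ, hψ⟩ := h'
  refine ⟨φ.imp ψ, fun M R v => ?_⟩
  let _ := mkS R
  rw [Formula.realize_imp, hφ, hψ]

lemma iff {P Q : ∀ (M : Type), Interp S ar M → (α → M) → Prop} (h : FD S ar α P)
    (h' : FD S ar α Q) : FD S ar α (fun M R v => (P M R v ↔ Q M R v)) := by
  obtain ⟨φ, hφ⟩ := h
  obtain ⟨ψ, hψ⟩ := h'
  refine ⟨φ.iff ψ, fun M R v => ?_⟩
  let _ := mkS R
  rw [Formula.realize_iff, hφ, hψ]

lemma all [Finite β] {P : ∀ (M : Type), Interp S ar M → (α → M) → (β → M) → Prop}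
    (h : FD S ar (α ⊕ β) (fun M R v => P M R (v ∘ Sum.inl) (v ∘ Sum.inr))) :
    FD S ar α (fun M R v => ∀ x : β → M, P M R v x) := by
  obtain ⟨φ, hφ⟩ := h
  refine ⟨φ.iAlls β, fun M R v => ?_⟩
  let _ := mkS R
  rw [Formula.realize_iAlls]
  apply forall_congr'
  intro x
  rw [hφ]
  rfl

lemma ex [Finite β] {P : ∀ (M : Type), Interp S ar M → (α → M) → (β → M) → Prop}
    (h : FD S ar (α ⊕ β) (fun M R v => P M R (v ∘ Sum.inl) (v ∘ Sum.inr))) :
    FD S ar α (fun M R v => ∃ x : β → M, P M R v x) := by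
  obtain ⟨φ, hφ⟩ := h
  refine ⟨φ.iExs β, fun M R v => ?_⟩
  let _ := mkS R
  rw [Formula.realize_iExs]
  apply exists_congr
  intro x
  rw [hφ]
  rfl

lemma all1 {P : ∀ (M : Type), Interp S ar M → (α → M) → M → Prop}
    (h : FD S ar (α ⊕ Unit) (fun M R v => P M R (v ∘ Sum.inl) (v (Sum.inr ())))) :
    FD S ar α (fun M R v => ∀ x : M, P M R v x) := by
  have h1 : FD S ar α (fun M R v => ∀ x : Unit → M, P M R v (x ())) := FD.all (β := Unit) h
  refine h1.congr (fun M R v => ?_)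
  constructor
  · intro h x; exact h (x ())
  · intro h x; exact h (fun _ => x)

lemma ex1 {P : ∀ (M : Type), Interp S ar M → (α → M) → M → Prop}
    (h : FD S ar (α ⊕ Unit) (fun M R v => P M R (v ∘ Sum.inl) (v (Sum.inr ())))) :
    FD S ar α (fun M R v => ∃ x : M, P M R v x) := by
  have h1 : FD S ar α (fun M R v => ∃ x : Unit → M, P M R v (x ())) := FD.ex (β := Unit) h
  refine h1.congr (fun M R v => ?_)
  constructor
  · rintro ⟨x, h⟩; exact ⟨fun _ => x, h⟩
  · rintro ⟨x, h⟩; exact ⟨x (), h⟩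

lemma all_fin {γ : Type} [Finite γ] {P : γ → ∀ (M : Type), Interp S ar M → (α → M) → Prop}
    (h : ∀ c, FD S ar α (P c)) : FD S ar α (fun M R v => ∀ c, P c M R v) := by
  choose φ hφ using h
  refine ⟨Formula.iInf φ, fun M R v => ?_⟩
  let _ := mkS R
  rw [Formula.realize_iInf]
  exact forall_congr' (fun c => hφ c M R v)

lemma ex_fin {γ : Type} [Finite γ] {P : γ → ∀ (M : Type), Interp S ar M → (α → M) → Prop}
    (h : ∀ c, FD S ar α (P c)) : FD S ar α (fun M R v => ∃ c, P c M R v) := by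
  choose φ hφ using h
  refine ⟨Formula.iSup φ, fun M R v => ?_⟩
  let _ := mkS R
  rw [Formula.realize_iSup]
  exact exists_congr (fun c => hφ c M R v)

/-- substitution of variables -/
lemma sub {P : ∀ (M : Type), Interp S ar M → (β → M) → Prop}
    {f : ∀ (M : Type), (α → M) → (β → M)} (hf : Pj α β f) (h : FD S ar β P) :
    FD S ar α (fun M R v => P M R (f M v)) := by
  obtain ⟨g, hg⟩ := hf
  obtain ⟨φ, hφ⟩ := h
  refine ⟨φ.relabel g, fun M R v => ?_⟩
  let _ := mkS R
  beta_reduce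
  rw [Formula.realize_relabel, hφ, hg]

/-- invariance under isomorphism -/
lemma transport {P : ∀ (M : Type), Interp S ar M → (α → M) → Prop} (h : FD S ar α P)
    {M N : Type} (e : M ≃ N) (R : Interp S ar M) (v : α → M) :
    P M R v ↔ P N (fun s w => R s (e.symm ∘ w)) (e ∘ v) := by
  obtain ⟨φ, hφ⟩ := h
  rw [← hφ, ← hφ]
  let _ := mkS R
  let _ := mkS (fun s (w : Fin (ar s) → N) => R s (e.symm ∘ w))
  let E : M ≃[RelLang S ar] N :=
    { e with
      map_fun' := fun f => Empty.elim f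
      map_rel' := by
        intro n r x
        show R r.1 _ ↔ R r.1 _
        have : (e.symm ∘ fun i => (e ∘ x) (Fin.cast r.2 i)) = fun i => x (Fin.cast r.2 i) := by
          funext i
          simp
        exact Iff.of_eq (congrArg _ this) }
  exact (StrongHomClass.realize_formula E φ).symm

/-- sentences give spectra -/
lemma isSpectrum [Finite S] {P : ∀ (M : Type), Interp S ar M → (Empty → M) → Prop}
    (h : FD S ar Empty P) :
    IsSpectrum {n : ℕ | 1 ≤ n ∧ ∃ (M : Type) (_ : Fintype M) (R : Interp S ar M),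
      Fintype.card M = n ∧ P M R Empty.elim} := by
  obtain ⟨φ, hφ⟩ := h
  refine ⟨RelLang S ar, inferInstance, inferInstance, φ, ?_⟩
  ext n
  constructor
  · rintro ⟨hn, M, hf, R, hc, hP⟩
    refine ⟨hn, M, mkS R, hf, hc, ?_⟩
    exact (real_iff (mkS R) φ Empty.elim default).1 ((hφ M R Empty.elim).2 hP)
  · rintro ⟨hn, M, hM, hf, hc, hr⟩
    have e := structure_eq hM
    refine ⟨hn, M, hf, _, hc, (hφ M (fun s v => hM.RelMap
      (⟨s, rfl⟩ : (RelLang S ar).Relations (ar s)) v) Empty.elim).1 ?_⟩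
    rw [← e]
    exact (real_iff hM φ Empty.elim default).2 hr

end FD

end Pool.Agent.Helper20.Spectra
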