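import Pool.Agent.Helper20.Spectra.Loc

/-!
# First-order spectra are given by tuple systems
-/

set_option autoImplicit false

namespace Pool.Agent.Helper20.Spectra

open FirstOrder FirstOrder.Language

variable {L : FirstOrder.Language.{0, 0}} {V k : ℕ}

/-- symbols of a language -/
abbrev Sym (L : FirstOrder.Language.{0, 0}) := (Σ l, L.Functions l) ⊕ (Σ l, L.Relations l)

/-- digit positions -/
def dg (k i : ℕ) : Fin (k + 1) := ⟨min i k, by omega⟩

lemma dg_val {k i : ℕ} (h : i ≤ k) : (dg k i : ℕ) = i := min_eq_left h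

lemma dg_of_fin {k : ℕ} (j : Fin (k + 1)) : dg k j = j := by
  apply Fin.ext
  exact dg_val (by omega)

lemma dg_ne {k i j : ℕ} (hi : i ≤ k) (hj : j ≤ k) (h : i ≠ j) : dg k i ≠ dg k j := by
  intro e
  have := congrArg Fin.val e
  rw [dg_val hi, dg_val hj] at this
  exact h this

/-- the family of relations `I` codes the structure `S` -/
def Codes (V k n : ℕ) (I : Sym L → Rel k n) (S : L.Structure (Fin (n + 1))) : Prop :=
  (∀ (f : Σ l, L.Functions l) (x : Fin (k + 1) → Fin (n + 1)), I (Sum.inl f) x ↔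
    x (dg k V) = S.funMap f.2 (fun i => x (dg k (V + 1 + i)))) ∧
  (∀ (r : Σ l, L.Relations l) (x : Fin (k + 1) → Fin (n + 1)), I (Sum.inr r) x ↔
    S.RelMap r.2 (fun i => x (dg k (V + 1 + i))))

/-- relations uniformly definable from a structure, in the projectively local sense -/
def DefRel (V k : ℕ) (F : ∀ n, L.Structure (Fin (n + 1)) → Rel k n) : Prop :=
  ∃ Φ : ∀ n, (Sym L ⊕ Unit → Rel k n) → Prop, Loc k _ Φ ∧
    ∀ n I S (G : Rel k n), Codes V k n I S →
      (Φ n (Sum.elim I (fun _ => G)) ↔ ∀ x, G x ↔ F n S x)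

lemma DefRel.build {κ : Type} [Finite κ] {F : κ → ∀ n, L.Structure (Fin (n + 1)) → Rel k n}
    (hF : ∀ q, DefRel V k (F q)) {G : ∀ n, L.Structure (Fin (n + 1)) → Rel k n}
    (Ψ : ∀ n, ((Sym L ⊕ Unit) ⊕ κ → Rel k n) → Prop) (hΨ : Loc k _ Ψ)
    (h : ∀ n I S (G' : Rel k n), Codes V k n I S →
      (Ψ n (Sum.elim (Sum.elim I (fun _ => G')) (fun q => F q n S)) ↔ ∀ x, G' x ↔ G n S x)) :
    DefRel V k G := by
  choose Φ hΦ hΦ' using hF
  let f : κ → Sym L ⊕ Unit → (Sym L ⊕ Unit) ⊕ κ := fun q =>
    Sum.elim (fun s => Sum.inl (Sum.inl s)) (fun _ => Sum.inr q)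
  have h1 := ((Loc.forall_fin (fun q => (hΦ q).comap (f q))).and hΨ).ex
  refine ⟨_, h1, ?_⟩
  intro n I S G' hI
  have e : ∀ (Q : κ → Rel k n) (q : κ),
      (fun i => (Sum.elim (Sum.elim I (fun _ => G')) Q : _ → Rel k n) (f q i)) =
      Sum.elim I (fun _ => Q q) := by
    intro Q q
    funext i
    rcases i with i | i <;> rfl
  simp only [e]
  constructor
  · rintro ⟨Q, hQ, hΨQ⟩
    have : Q = fun q => F q n S := by
      funext q x
      exact propext (((hΦ' q n I S (Q q) hI).1 (hQ q)) x)
    rw [this] at hΨQ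
    exact (h n I S G' hI).1 hΨQ
  · intro hG
    exact ⟨fun q => F q n S, fun q => (hΦ' q n I S _ hI).2 (fun x => Iff.rfl),
      (h n I S G' hI).2 hG⟩

/-- index substitution which copies digit `V + 1 + i` to the output digit `V` -/
def sub (k V i : ℕ) : Fin (k + 1) → Fin (k + 1) := Function.update id (dg k V) (dg k (V + 1 + i))

lemma comp_sub_out {n : ℕ} (x : Fin (k + 1) → Fin (n + 1)) (i : ℕ) :
    (x ∘ sub k V i) (dg k V) = x (dg k (V + 1 + i)) := by
  simp [sub]

lemma comp_sub_var {n : ℕ} (hV : V ≤ k) (x : Fin (k + 1) → Fin (n + 1)) (i j : ℕ) (hj : j < V) :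
    (x ∘ sub k V i) (dg k j) = x (dg k j) := by
  simp [sub, Function.update_of_ne (dg_ne (by omega) hV (by omega) : dg k j ≠ dg k V)]

/-- valuation of the variables -/
def vars {n : ℕ} (m : ℕ) (x : Fin (k + 1) → Fin (n + 1)) : Fin m → Fin (n + 1) :=
  fun i => x (dg k i)

lemma vars_congr {n m : ℕ} (hm : m ≤ V) (hV : V ≤ k) {x y : Fin (k + 1) → Fin (n + 1)}
    (h : ∀ j : Fin (k + 1), (j : ℕ) < V → x j = y j) : vars m x = vars m y := by
  funext i
  apply h
  rw [dg_val (by omega)]
  omega

lemma vars_sub {n m : ℕ} (hm : m ≤ V) (hV : V ≤ k) (x : Fin (k + 1) → Fin (n + 1)) (i : ℕ) :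
    vars m (x ∘ sub k V i) = vars m x := by
  funext j
  exact comp_sub_var hV x i j (by omega)

/-- insert argument values -/
def ins {n : ℕ} (V : ℕ) {l : ℕ} (a : Fin l → Fin (n + 1)) (x : Fin (k + 1) → Fin (n + 1)) :
    Fin (k + 1) → Fin (n + 1) :=
  fun j => if h : V < (j : ℕ) ∧ (j : ℕ) - (V + 1) < l then a ⟨(j : ℕ) - (V + 1), h.2⟩ else x j

lemma ins_le {n l : ℕ} (a : Fin l → Fin (n + 1)) (x : Fin (k + 1) → Fin (n + 1))
    (j : Fin (k + 1)) (hj : (j : ℕ) ≤ V) : ins V a x j = x j := by
  unfold ins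
  rw [dif_neg (by omega)]

lemma ins_arg {n l : ℕ} (hl : V + 1 + l ≤ k + 1) (a : Fin l → Fin (n + 1))
    (x : Fin (k + 1) → Fin (n + 1)) (i : Fin l) : ins V a x (dg k (V + 1 + i)) = a i := by
  unfold ins
  have h1 : (dg k (V + 1 + i) : ℕ) = V + 1 + i := dg_val (by omega)
  rw [dif_pos (by rw [h1]; omega)]
  congr 1
  apply Fin.ext
  simp [h1]

lemma term_def (hV : V ≤ k) (hA : ∀ f : Σ l, L.Functions l, V + 1 + f.1 ≤ k + 1)
    [Finite (Σ l, L.Functions l)] [Finite (Σ l, L.Relations l)] {m : ℕ}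
    (hm : m ≤ V) (t : L.Term (Empty ⊕ Fin m)) :
    DefRel (L := L) V k (fun n S x =>
      x (dg k V) = @Term.realize L (Fin (n + 1)) S _ (Sum.elim default (vars m x)) t) := by
  induction t with
  | var a =>
    rcases a with a | i
    · exact a.elim
    · refine DefRel.build (κ := Empty) (F := fun e => e.elim) (fun e => e.elim) _
        (Loc.univ (fun l p => (l (Sum.inl (Sum.inr ()), id) ↔ p (dg k V) (dg k i)))) ?_
      intro n I S G' hI
      rfl
  | @func l f ts ih =>
    refine DefRel.build (κ := Fin l) ih _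
      ((Loc.univ (fun l' p => (∀ i : Fin l, l' (Sum.inr i, sub k V i)) →
          l' (Sum.inl (Sum.inl (Sum.inl ⟨l, f⟩)), id) → l' (Sum.inl (Sum.inr ()), id))).and
        ((Loc.pair (fun p l l' => (∀ j : Fin (k + 1), (j : ℕ) ≤ V → p j j) →
          (l (Sum.inl (Sum.inr ())) ↔ l' (Sum.inl (Sum.inr ()))))).and
        (Loc.pair (fun p l l' => (∀ j : Fin (k + 1), (j : ℕ) < V → p j j) →
          l (Sum.inl (Sum.inr ())) → l' (Sum.inl (Sum.inr ())) → p (dg k V) (dg k V))))) ?_
    intro n I S G' hI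
    have hl := hA ⟨l, f⟩
    simp only [Sum.elim_inr, Sum.elim_inl, Function.comp_id]
    constructor
    · rintro ⟨h1, h2, h3⟩
      have key : ∀ x, x (dg k V) = @Term.realize L (Fin (n + 1)) S _
          (Sum.elim default (vars m x)) (Term.func f ts) → G' x := by
        intro x hx
        let w := ins V (fun i => @Term.realize L (Fin (n + 1)) S _
          (Sum.elim default (vars m x)) (ts i)) x
        have hw : ∀ j : Fin (k + 1), (j : ℕ) ≤ V → w j = x j := fun j hj => ins_le _ _ j hj
        have hwv : vars m w = vars m x := vars_congr hm hV (fun j hj => hw j hj.le)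
        have hwV : w (dg k V) = x (dg k V) := hw _ (dg_val hV).le
        have h4 : G' w := by
          apply h1 w
          · intro i
            rw [comp_sub_out, vars_sub hm hV, hwv]
            exact ins_arg hl _ _ i
          · rw [hI.1 ⟨l, f⟩ w, hwV, hx]
            show S.funMap f _ = S.funMap f _
            congr 1
            funext i
            exact (ins_arg hl (fun i => @Term.realize L (Fin (n + 1)) S _
              (Sum.elim default (vars m x)) (ts i)) x i).symm
        exact (h2 w x hw).1 h4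
      intro x
      refine ⟨fun hG => ?_, key x⟩
      let y := Function.update x (dg k V) (@Term.realize L (Fin (n + 1)) S _
          (Sum.elim default (vars m x)) (Term.func f ts))
      have hyx : ∀ j : Fin (k + 1), (j : ℕ) < V → x j = y j := by
        intro j hj
        have : j ≠ dg k V := by
          intro e
          rw [e, dg_val hV] at hj
          omega
        simp [y, Function.update_of_ne this]
      have hy : G' y := by
        apply key
        rw [vars_congr hm hV (fun j hj => (hyx j hj).symm)]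
        simp [y]
      have := h3 x y hyx hG hy
      rw [this]
      simp [y]
    · intro h
      refine ⟨?_, ?_, ?_⟩
      · intro w h1 h2
        rw [h, hI.1 ⟨l, f⟩ w] at *
        rw [h2]
        show S.funMap f _ = S.funMap f _
        congr 1
        funext i
        have := h1 i
        rw [comp_sub_out, vars_sub hm hV] at this
        exact this
      · intro x y hxy
        rw [h, h, vars_congr hm hV (fun j hj => hxy j hj.le), hxy _ (dg_val hV).le]
      · intro x y hxy hx hy
        rw [h] at hx hy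
        rw [hx, hy, vars_congr hm hV hxy]

/-- number of variables used by a bounded formula -/
def ctx : ∀ {m : ℕ}, L.BoundedFormula Empty m → ℕ
  | m, .falsum => m
  | m, .equal _ _ => m
  | m, .rel _ _ => m
  | _, .imp f g => max (ctx f) (ctx g)
  | _, .all f => ctx f

lemma le_ctx : ∀ {m : ℕ} (φ : L.BoundedFormula Empty m), m ≤ ctx φ
  | _, .falsum => le_rfl
  | _, .equal _ _ => le_rfl
  | _, .rel _ _ => le_rfl
  | _, .imp f _ => (le_ctx f).trans (le_max_left _ _)
  | _, .all f => (Nat.le_succ _).trans (le_ctx f)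

lemma form_def (hV : V ≤ k) (hA : ∀ f : Σ l, L.Functions l, V + 1 + f.1 ≤ k + 1)
    (hB : ∀ r : Σ l, L.Relations l, V + 1 + r.1 ≤ k + 1)
    [Finite (Σ l, L.Functions l)] [Finite (Σ l, L.Relations l)] {m : ℕ}
    (φ : L.BoundedFormula Empty m) (hφ : ctx φ ≤ V) :
    DefRel (L := L) V k (fun n S x =>
      @BoundedFormula.Realize L (Fin (n + 1)) S _ _ φ default (vars m x)) := by
  induction φ with
  | falsum =>
    refine DefRel.build (κ := Empty) (F := fun e => e.elim) (fun e => e.elim) _
      (Loc.univ (fun l p => (l (Sum.inl (Sum.inr ()), id) ↔ False))) ?_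
    intro n I S G' hI
    rfl
  | @equal m t₁ t₂ =>
    have hm : m ≤ V := hφ
    refine DefRel.build (κ := Bool) (F := fun b => fun n S x =>
        x (dg k V) = @Term.realize L (Fin (n + 1)) S _ (Sum.elim default (vars m x))
          (if b then t₁ else t₂)) (fun b => term_def hV hA hm _) _
      ((Loc.univ (fun l p => l (Sum.inr true, id) →
          (l (Sum.inl (Sum.inr ()), id) ↔ l (Sum.inr false, id)))).and
       (Loc.pair (fun p l l' => (∀ j : Fin (k + 1), (j : ℕ) < V → p j j) →
          (l (Sum.inl (Sum.inr ())) ↔ l' (Sum.inl (Sum.inr ())))))) ?_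
    intro n I S G' hI
    simp only [Sum.elim_inr, Sum.elim_inl, Function.comp_id, if_true, Bool.false_eq_true,
      if_false]
    have hyx : ∀ (x : Fin (k + 1) → Fin (n + 1)) (z : Fin (n + 1)) (j : Fin (k + 1)),
        (j : ℕ) < V → x j = Function.update x (dg k V) z j := by
      intro x z j hj
      have : j ≠ dg k V := by
        intro e
        rw [e, dg_val hV] at hj
        omega
      simp [Function.update_of_ne this]
    constructor
    · rintro ⟨h1, h2⟩ x
      let z := @Term.realize L (Fin (n + 1)) S _ (Sum.elim default (vars m x)) t₁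
      rw [h2 x _ (hyx x z), h1 _ (by
        rw [← vars_congr hm hV (hyx x z)]
        simp [z])]
      rw [← vars_congr hm hV (hyx x z)]
      simp only [Function.update_self, z]
      rfl
    · intro h
      refine ⟨?_, ?_⟩
      · intro x hx
        rw [h x, hx]
        rfl
      · intro x y hxy
        rw [h x, h y, vars_congr hm hV hxy]
  | @rel m l r ts =>
    have hm : m ≤ V := hφ
    have hl := hB ⟨l, r⟩
    refine DefRel.build (κ := Fin l) (F := fun i => fun n S x =>
        x (dg k V) = @Term.realize L (Fin (n + 1)) S _ (Sum.elim default (vars m x)) (ts i))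
        (fun b => term_def hV hA hm _) _
      ((Loc.univ (fun l' p => (∀ i : Fin l, l' (Sum.inr i, sub k V i)) →
          (l' (Sum.inl (Sum.inr ()), id) ↔ l' (Sum.inl (Sum.inl (Sum.inr ⟨l, r⟩)), id)))).and
       (Loc.pair (fun p l l' => (∀ j : Fin (k + 1), (j : ℕ) < V → p j j) →
          (l (Sum.inl (Sum.inr ())) ↔ l' (Sum.inl (Sum.inr ())))))) ?_
    intro n I S G' hI
    simp only [Sum.elim_inr, Sum.elim_inl, Function.comp_id]
    constructor
    · rintro ⟨h1, h2⟩ x
      let w := ins V (fun i => @Term.realize L (Fin (n + 1)) S _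
          (Sum.elim default (vars m x)) (ts i)) x
      have hw : ∀ j : Fin (k + 1), (j : ℕ) < V → x j = w j := fun j hj =>
        (ins_le _ _ j hj.le).symm
      have hwv : vars m w = vars m x := (vars_congr hm hV hw).symm
      rw [h2 x w hw, h1 w, hI.2 ⟨l, r⟩ w]
      · show S.RelMap r _ ↔ S.RelMap r _
        have : (fun i : Fin l => w (dg k (V + 1 + i))) = fun i => @Term.realize L (Fin (n + 1)) S _
          (Sum.elim default (vars m x)) (ts i) := by
          funext i
          exact ins_arg hl _ _ i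
        rw [this]
      · intro i
        rw [comp_sub_out, vars_sub hm hV, hwv]
        exact ins_arg hl _ _ i
    · intro h
      refine ⟨?_, ?_⟩
      · intro x hx
        rw [h x, hI.2 ⟨l, r⟩ x]
        show S.RelMap r _ ↔ S.RelMap r _
        have : (fun i : Fin l => x (dg k (V + 1 + i))) = fun i => @Term.realize L (Fin (n + 1)) S _
          (Sum.elim default (vars m x)) (ts i) := by
          funext i
          have := hx i
          rw [comp_sub_out, vars_sub hm hV] at this
          exact this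
        rw [this]
      · intro x y hxy
        rw [h x, h y, vars_congr hm hV hxy]
  | @imp m φ₁ φ₂ ih₁ ih₂ =>
    have h1 : ctx φ₁ ≤ V := (le_max_left _ _).trans hφ
    have h2 : ctx φ₂ ≤ V := (le_max_right _ _).trans hφ
    refine DefRel.build (κ := Bool) (F := fun b => fun n S x =>
        @BoundedFormula.Realize L (Fin (n + 1)) S _ _ (if b then φ₁ else φ₂) default (vars m x))
        (fun b => by cases b; exacts [ih₂ h2, ih₁ h1]) _
      (Loc.univ (fun l p => (l (Sum.inl (Sum.inr ()), id) ↔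
          (l (Sum.inr true, id) → l (Sum.inr false, id))))) ?_
    intro n I S G' hI
    rfl
  | @all m φ ih =>
    have hc : ctx φ ≤ V := hφ
    have hm : m + 1 ≤ V := (le_ctx φ).trans hc
    refine DefRel.build (κ := Unit) (F := fun _ => fun n S x =>
        @BoundedFormula.Realize L (Fin (n + 1)) S _ _ φ default (vars (m + 1) x))
        (fun b => ih hc) _
      (((Loc.univ (ι := ((Sym L ⊕ Unit) ⊕ Unit) ⊕ Bool) (fun l p =>
          (l (Sum.inr true, id) ↔ ¬ l (Sum.inl (Sum.inr ()), id)) ∧
          (l (Sum.inr false, id) ↔ ¬ l (Sum.inl (Sum.inl (Sum.inr ())), id)))).and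
        (Loc.scan (Sum.inr false) (Sum.inr true) (dg k m))).ex) ?_
    intro n I S G' hI
    have hupd : ∀ (x : Fin (k + 1) → Fin (n + 1)) z,
        vars (m + 1) (Function.update x (dg k m) z) = Fin.snoc (vars m x) z := by
      intro x z
      funext i
      refine Fin.lastCases ?_ (fun j => ?_) i
      · simp [vars]
      · have : dg k j ≠ dg k m := dg_ne (by omega) (by omega) (by omega)
        simp [vars, Function.update_of_ne this]
    simp only [Sum.elim_inr, Sum.elim_inl, Function.comp_id]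
    constructor
    · rintro ⟨Q, h1, h2⟩ x
      have h3 := h2 x
      rw [(h1 x).2] at h3
      rw [← not_iff_not, h3]
      simp only [(h1 _).1, hupd, ← not_forall]
      rfl
    · intro h
      refine ⟨fun b x => if b then ¬ @BoundedFormula.Realize L (Fin (n + 1)) S _ _ φ default
        (vars (m + 1) x) else ¬ G' x, ?_, ?_⟩
      · intro x; simp
      · intro x
        simp only [if_true, Bool.false_eq_true, if_false, hupd, ← not_forall, not_iff_not]
        exact h x

/-- being a code of a structure is local -/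
lemma codes_loc (hV : V ≤ k) (hA : ∀ f : Σ l, L.Functions l, V + 1 + f.1 ≤ k + 1)
    (hB : ∀ r : Σ l, L.Relations l, V + 1 + r.1 ≤ k + 1)
    [Finite (Σ l, L.Functions l)] [Finite (Σ l, L.Relations l)] :
    Loc k (Sym L) (fun n I => ∃ S : L.Structure (Fin (n + 1)), Codes V k n I S) := by
  have h1 : ∀ f : Σ l, L.Functions l, Loc k (Sym L) (fun n I =>
      (∀ x y : Fin (k + 1) → Fin (n + 1),
        (x (dg k V) = y (dg k V) ∧ ∀ i : Fin f.1, x (dg k (V + 1 + i)) = y (dg k (V + 1 + i))) →
        (I (Sum.inl f) x ↔ I (Sum.inl f) y)) ∧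
      ((∀ x y : Fin (k + 1) → Fin (n + 1),
        (∀ i : Fin f.1, x (dg k (V + 1 + i)) = y (dg k (V + 1 + i))) →
        I (Sum.inl f) x → I (Sum.inl f) y → x (dg k V) = y (dg k V)) ∧
      ∃ Q : Unit → Rel k n, (∀ x, Q () x) ∧
        ∀ x, Q () x ↔ ∃ z, I (Sum.inl f) (Function.update x (dg k V) z))) := by
    intro f
    refine (Loc.pair (fun p l l' => (p (dg k V) (dg k V) ∧
      ∀ i : Fin f.1, p (dg k (V + 1 + i)) (dg k (V + 1 + i))) →
        (l (Sum.inl f) ↔ l' (Sum.inl f)))).and ((Loc.pair (fun p l l' =>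
        (∀ i : Fin f.1, p (dg k (V + 1 + i)) (dg k (V + 1 + i))) →
        l (Sum.inl f) → l' (Sum.inl f) → p (dg k V) (dg k V))).and ?_)
    exact ((Loc.univ (ι := Sym L ⊕ Unit) (fun l p => l (Sum.inr (), id))).and
      (Loc.scan (ι := Sym L ⊕ Unit) (Sum.inr ()) (Sum.inl (Sum.inl f)) (dg k V))).ex
  have h2 : ∀ r : Σ l, L.Relations l, Loc k (Sym L) (fun n I =>
      (∀ x y : Fin (k + 1) → Fin (n + 1),
        (∀ i : Fin r.1, x (dg k (V + 1 + i)) = y (dg k (V + 1 + i))) →
        (I (Sum.inr r) x ↔ I (Sum.inr r) y))) := by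
    intro r
    exact Loc.pair (fun p l l' =>
      (∀ i : Fin r.1, p (dg k (V + 1 + i)) (dg k (V + 1 + i))) →
        (l (Sum.inr r) ↔ l' (Sum.inr r)))
  refine ((Loc.forall_fin h1).and (Loc.forall_fin h2)).congr (fun n I => ?_)
  constructor
  · rintro ⟨S, hS⟩
    refine ⟨fun f => ⟨?_, ?_, ?_⟩, fun r => ?_⟩
    · rintro x y ⟨hxy, hxy'⟩
      rw [hS.1 f x, hS.1 f y, hxy]
      have : (fun i : Fin f.1 => x (dg k (V + 1 + i))) =
          fun i : Fin f.1 => y (dg k (V + 1 + i)) :=
        funext hxy'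
      rw [this]
    · intro x y hxy hx hy
      rw [hS.1 f] at hx hy
      have : (fun i : Fin f.1 => x (dg k (V + 1 + i))) =
          fun i : Fin f.1 => y (dg k (V + 1 + i)) :=
        funext hxy
      rw [hx, hy, this]
    · refine ⟨fun _ _ => True, fun _ => trivial, fun x => ?_⟩
      simp only [true_iff]
      refine ⟨S.funMap f.2 (fun i => x (dg k (V + 1 + i))), ?_⟩
      rw [hS.1 f]
      have hf := hA f
      have : (fun i : Fin f.1 => Function.update x (dg k V)
          (S.funMap f.2 (fun i => x (dg k (V + 1 + i)))) (dg k (V + 1 + i))) =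
          fun i : Fin f.1 => x (dg k (V + 1 + i)) := by
        funext i
        rw [Function.update_of_ne (dg_ne (by omega) hV (by omega))]
      rw [this, Function.update_self]
    · intro x y hxy
      rw [hS.2 r x, hS.2 r y]
      have : (fun i : Fin r.1 => x (dg k (V + 1 + i))) =
          fun i : Fin r.1 => y (dg k (V + 1 + i)) :=
        funext hxy
      rw [this]
  · rintro ⟨hf, hr⟩
    have hex : ∀ (f : Σ l, L.Functions l) (v : Fin f.1 → Fin (n + 1)), ∃ z : Fin (n + 1),
        I (Sum.inl f) (Function.update (ins V v (fun _ => 0)) (dg k V) z) := by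
      intro f v
      obtain ⟨Q, hQ, hQ'⟩ := (hf f).2.2
      exact (hQ' _).1 (hQ _)
    choose F hF using hex
    let S : L.Structure (Fin (n + 1)) :=
      { funMap := fun {l} f v => F ⟨l, f⟩ v
        RelMap := fun {l} r v => I (Sum.inr ⟨l, r⟩) (ins V v (fun _ => 0)) }
    refine ⟨S, ?_, ?_⟩
    · intro f x
      have hAf := hA f
      show I (Sum.inl f) x ↔ x (dg k V) = F f (fun i => x (dg k (V + 1 + i)))
      have h3 := hF f (fun i => x (dg k (V + 1 + i)))
      have h4 : ∀ (z : Fin (n + 1)) (i : Fin f.1), Function.update (ins V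
          (fun i : Fin f.1 => x (dg k (V + 1 + i)))
          (fun _ => 0)) (dg k V) z (dg k (V + 1 + i)) = x (dg k (V + 1 + i)) := by
        intro z i
        rw [Function.update_of_ne (dg_ne (by omega) hV (by omega)), ins_arg hAf]
      constructor
      · intro hx
        have h5 := (hf f).2.1 x _ (fun i => (h4 _ i).symm) hx h3
        rw [h5, Function.update_self]
      · intro hx
        refine ((hf f).1 x _ ⟨?_, fun i => (h4 _ i).symm⟩).2 h3
        rw [Function.update_self, hx]
    · intro r x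
      have hBr := hB r
      show I (Sum.inr r) x ↔ I (Sum.inr r) (ins V (fun i => x (dg k (V + 1 + i))) (fun _ => 0))
      apply hr r
      intro i
      rw [ins_arg hBr]

lemma real_iff {M : Type} (S : L.Structure M) (φ : L.Sentence)
    (v : Empty → M) (xs : Fin 0 → M) :
    @BoundedFormula.Realize L M S Empty 0 φ v xs ↔ @Sentence.Realize L M S φ := by
  unfold Sentence.Realize Formula.Realize
  have h1 : v = default := Subsingleton.elim _ _
  have h2 : xs = default := Subsingleton.elim _ _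
  subst h1
  subst h2
  rfl

/-- every spectrum is the set of solvable sizes of a tuple system -/
theorem spectrum_tupSys {A : Set ℕ} (hA : IsSpectrum A) :
    ∃ (k : ℕ) (Λ : Type) (_ : Finite Λ) (T : TupSys k Λ), ∀ n, 1 ≤ n → (n ∈ A ↔ T.Sat n) := by
  obtain ⟨L, hF, hR, φ, rfl⟩ := hA
  -- bound on arities
  obtain ⟨a, ha⟩ : ∃ a, ∀ f : Σ l, L.Functions l, f.1 ≤ a := by
    obtain ⟨a, ha⟩ := (Set.finite_range (fun f : Σ l, L.Functions l => f.1)).bddAbove
    exact ⟨a, fun f => ha ⟨f, rfl⟩⟩
  obtain ⟨b, hb⟩ : ∃ b, ∀ f : Σ l, L.Relations l, f.1 ≤ b := by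
    obtain ⟨a, ha⟩ := (Set.finite_range (fun f : Σ l, L.Relations l => f.1)).bddAbove
    exact ⟨a, fun f => ha ⟨f, rfl⟩⟩
  obtain ⟨V, hVdef⟩ : ∃ V, V = ctx (L := L) (m := 0) φ := ⟨_, rfl⟩
  obtain ⟨k, hk⟩ : ∃ k, k = V + (a + b) := ⟨_, rfl⟩
  have hV : V ≤ k := by omega
  have hA : ∀ f : Σ l, L.Functions l, V + 1 + f.1 ≤ k + 1 := by
    intro f; have := ha f; omega
  have hB : ∀ f : Σ l, L.Relations l, V + 1 + f.1 ≤ k + 1 := by
    intro f; have := hb f; omega
  obtain ⟨Φ, hΦ, hΦ'⟩ := form_def hV hA hB (m := 0) φ (by omega)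
  have h1 : Loc k Empty (fun n R => ∃ Q : Sym L ⊕ Unit → Rel k n,
      (∃ S : L.Structure (Fin (n + 1)), Codes V k n (fun s => Q (Sum.inl s)) S) ∧
      Φ n Q ∧ ∀ x, Q (Sum.inr ()) x) := by
    refine ((((codes_loc hV hA hB).comap (ι' := Empty ⊕ (Sym L ⊕ Unit))
      (fun s => Sum.inr (Sum.inl s))).and ((hΦ.comap (ι' := Empty ⊕ (Sym L ⊕ Unit))
      Sum.inr).and (Loc.univ (ι := Empty ⊕ (Sym L ⊕ Unit))
        (fun l p => l (Sum.inr (Sum.inr ()), id))))).ex).congr (fun n R => ?_)
    rfl
  obtain ⟨κ, hκ, T, hT⟩ := h1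
  refine ⟨k, (Empty ⊕ κ → Prop), inferInstance, T, fun n hn => ?_⟩
  obtain ⟨n, rfl⟩ : ∃ n', n = n' + 1 := ⟨n - 1, by omega⟩
  have hSat : T.Sat (n + 1) ↔ ∃ Q : κ → Rel k n, T.Ok (n + 1) (fun x =>
      Sum.elim (fun i : Empty => (i.elim : Prop)) (fun q => Q q x)) := by
    constructor
    · rintro ⟨l, hl⟩
      refine ⟨fun q x => l x (Sum.inr q), ?_⟩
      have : l = (fun x => Sum.elim (fun i : Empty => (i.elim : Prop)) (fun q => l x (Sum.inr q))) := by
        funext x i
        rcases i with i | i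
        · exact i.elim
        · rfl
      rw [← this]; exact hl
    · rintro ⟨Q, hQ⟩; exact ⟨_, hQ⟩
  rw [hSat]
  have h2 := hT n (fun i => i.elim)
  have h3 : (fun x : Fin (k + 1) → Fin (n + 1) => fun i : Empty => (i.elim : Rel k n) x) =
    fun x => fun i : Empty => (i.elim : Prop) := by funext x i; exact i.elim
  have h4 : (∃ Q : κ → Rel k n, T.Ok (n + 1) (fun x =>
      Sum.elim (fun i : Empty => (i.elim : Rel k n) x) (fun q => Q q x))) ↔
      ∃ Q : κ → Rel k n, T.Ok (n + 1) (fun x =>
      Sum.elim (fun i : Empty => (i.elim : Prop)) (fun q => Q q x)) := by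
    apply exists_congr
    intro Q
    have : (fun x : Fin (k + 1) → Fin (n + 1) => (Sum.elim (fun i : Empty => (i.elim : Rel k n) x)
        (fun q => Q q x) : Empty ⊕ κ → Prop)) = (fun x =>
      Sum.elim (fun i : Empty => (i.elim : Prop)) (fun q => Q q x)) := by
      funext x i
      rcases i with i | i
      · exact i.elim
      · rfl
    rw [this]
  rw [← h4, ← h2]
  have hcore : ∀ S : L.Structure (Fin (n + 1)), (∃ Q : Sym L ⊕ Unit → Rel k n,
      Codes V k n (fun s => Q (Sum.inl s)) S ∧ Φ n Q ∧ ∀ x, Q (Sum.inr ()) x) ↔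
      @Sentence.Realize L (Fin (n + 1)) S φ := by
    intro S
    constructor
    · rintro ⟨Q, hQ, hΦQ, hx⟩
      have e : Q = Sum.elim (fun s => Q (Sum.inl s)) (fun _ => Q (Sum.inr ())) := by
        funext s; rcases s with s | s <;> rfl
      rw [e] at hΦQ
      have h5 := (hΦ' n _ S _ hQ).1 hΦQ (fun _ => 0)
      exact (real_iff S φ _ _).1 (h5.1 (hx _))
    · intro h
      let I : Sym L → Rel k n := Sum.elim
        (fun f x => x (dg k V) = S.funMap f.2 (fun i => x (dg k (V + 1 + i))))
        (fun r x => S.RelMap r.2 (fun i => x (dg k (V + 1 + i))))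
      have hI : Codes V k n I S := ⟨fun f x => Iff.rfl, fun r x => Iff.rfl⟩
      refine ⟨Sum.elim I (fun _ _ => True), hI, ?_, fun _ => trivial⟩
      refine (hΦ' n I S _ hI).2 (fun x => ?_)
      simp only [true_iff]
      exact (real_iff S φ _ _).2 h
  constructor
  · rintro ⟨-, M, hM, hfin, hcard, hreal⟩
    let e : M ≃ Fin (n + 1) := Fintype.equivFinOfCardEq hcard
    letI S : L.Structure (Fin (n + 1)) := e.inducedStructure
    have h5 : @Sentence.Realize L (Fin (n + 1)) S φ :=
      (StrongHomClass.realize_sentence (e.inducedStructureEquiv (L := L)) φ).1 hreal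
    obtain ⟨Q, hQ, hQ'⟩ := (hcore S).2 h5
    exact ⟨Q, ⟨S, hQ⟩, hQ'⟩
  · rintro ⟨Q, ⟨S, hQ⟩, hQ'⟩
    refine ⟨by omega, Fin (n + 1), S, inferInstance, by simp, ?_⟩
    exact (hcore S).1 ⟨Q, hQ, hQ'⟩

/-- every spectrum is, up to a power, a set of square sizes -/
theorem spectrum_blocks {A : Set ℕ} (hA : IsSpectrum A) :
    ∃ (k : ℕ) (Θ : Finset (ℕ × ℕ × ℕ × ℕ)), ∀ n, 1 ≤ n →
      (n ∈ A ↔ n ^ (k + 1) ∈ squareSizes Θ) := by
  obtain ⟨k, Λ, hΛ, T, hT⟩ := spectrum_tupSys hA
  obtain ⟨Θ, hΘ⟩ := T.exists_blocks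
  exact ⟨k, Θ, fun n hn => (hT n hn).trans (hΘ n hn).symm⟩

end Pool.Agent.Helper20.Spectra
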