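import Pool.Agent.Helper20.Spectra.Defs

/-!
# Grid constraint systems and block sets
-/

set_option autoImplicit false

namespace Pool.Agent.Helper20.Spectra

/-- A nearest-neighbour constraint system on square grids with boundary conditions. -/
structure GridSys (Γ : Type) where
  /-- condition on every cell -/
  U : Γ → Prop
  /-- condition on horizontal neighbours `(x,y)`, `(x+1,y)` -/
  H : Γ → Γ → Prop
  /-- condition on vertical neighbours `(x,y)`, `(x,y+1)` -/
  V : Γ → Γ → Prop
  /-- condition on diagonal neighbours `(x,y)`, `(x+1,y+1)` -/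
  D : Γ → Γ → Prop
  /-- left column -/
  L : Γ → Prop
  /-- bottom row -/
  B : Γ → Prop
  /-- right column -/
  R : Γ → Prop
  /-- top row -/
  T : Γ → Prop

namespace GridSys

variable {Γ : Type}

/-- the labelling `g` of the `N × N` grid satisfies all constraints -/
structure Ok (G : GridSys Γ) (N : ℕ) (g : ℕ → ℕ → Γ) : Prop where
  U : ∀ x y, x < N → y < N → G.U (g x y)
  H : ∀ x y, x + 1 < N → y < N → G.H (g x y) (g (x + 1) y)
  V : ∀ x y, x < N → y + 1 < N → G.V (g x y) (g x (y + 1))
  D : ∀ x y, x + 1 < N → y + 1 < N → G.D (g x y) (g (x + 1) (y + 1))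
  L : ∀ y, y < N → G.L (g 0 y)
  B : ∀ x, x < N → G.B (g x 0)
  R : ∀ x y, x + 1 = N → y < N → G.R (g x y)
  T : ∀ x y, x < N → y + 1 = N → G.T (g x y)

/-- the system has a solution on the `N × N` grid -/
def Sat (G : GridSys Γ) (N : ℕ) : Prop := ∃ g : ℕ → ℕ → Γ, G.Ok N g

/-- the window predicate of a grid system -/
def Win (G : GridSys Γ) (p q r s : Option Γ) : Prop :=
  (∀ d, s = some d → G.U d) ∧
  (∀ c d, r = some c → s = some d → G.H c d) ∧
  (∀ c d, q = some c → s = some d → G.V c d) ∧
  (∀ c d, p = some c → s = some d → G.D c d) ∧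
  (∀ d, r = none → s = some d → G.L d) ∧
  (∀ d, q = none → s = some d → G.B d) ∧
  (∀ c, r = some c → s = none → G.R c) ∧
  (∀ c, q = some c → s = none → G.T c)

theorem exists_blocks (G : GridSys Γ) [Finite Γ] :
    ∃ Θ : Finset (ℕ × ℕ × ℕ × ℕ), ∀ N : ℕ, 1 ≤ N → (N ∈ squareSizes Θ ↔ G.Sat N) := by
  classical
  obtain ⟨c, ⟨e⟩⟩ := Finite.exists_equiv_fin Γ
  -- encoding of optional labels
  let enc : Option Γ → ℕ := fun o => o.elim 0 (fun γ => (e γ : ℕ) + 1)
  have enc_inj : Function.Injective enc := by
    intro o1 o2 h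
    cases o1 with
    | none => cases o2 with
      | none => rfl
      | some b => simp [enc] at h
    | some a => cases o2 with
      | none => simp [enc] at h
      | some b =>
        simp only [enc, Option.elim_some, Nat.add_right_cancel_iff] at h
        rw [e.injective (Fin.ext h)]
  haveI : Finite (Option Γ) := inferInstance
  have hfin : {w : ℕ × ℕ × ℕ × ℕ | ∃ p q r s : Option Γ, G.Win p q r s ∧
      w = (enc p, enc q, enc r, enc s)}.Finite := by
    have : {w : ℕ × ℕ × ℕ × ℕ | ∃ p q r s : Option Γ, G.Win p q r s ∧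
        w = (enc p, enc q, enc r, enc s)} ⊆
        Set.range (fun t : Option Γ × Option Γ × Option Γ × Option Γ =>
          (enc t.1, enc t.2.1, enc t.2.2.1, enc t.2.2.2)) := by
      rintro w ⟨p, q, r, s, -, rfl⟩
      exact ⟨(p, q, r, s), rfl⟩
    exact (Set.finite_range _).subset this
  refine ⟨hfin.toFinset, fun N hN => ?_⟩
  have hmem : ∀ p q r s : Option Γ, (enc p, enc q, enc r, enc s) ∈ hfin.toFinset ↔
      G.Win p q r s := by
    intro p q r s
    simp only [Set.Finite.mem_toFinset, Set.mem_ofPred_eq, Prod.mk.injEq]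
    constructor
    · rintro ⟨p', q', r', s', h, h1, h2, h3, h4⟩
      rw [enc_inj h1, enc_inj h2, enc_inj h3, enc_inj h4]; exact h
    · intro h; exact ⟨p, q, r, s, h, rfl, rfl, rfl, rfl⟩
  constructor
  · rintro ⟨-, a, ha0, ha⟩
    -- decode
    have hdec : ∀ x y, x ≤ N + 1 → y ≤ N + 1 → ∃ o : Option Γ, a x y = enc o := by
      intro x y hx hy
      by_cases hin : (1 ≤ x ∧ x ≤ N) ∧ (1 ≤ y ∧ y ≤ N)
      · have := ha (x - 1) (y - 1) (by omega) (by omega)
        simp only [Set.Finite.mem_toFinset, Set.mem_ofPred_eq, Prod.mk.injEq] at this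
        obtain ⟨p, q, r, s, -, -, -, -, h4⟩ := this
        rw [show x - 1 + 1 = x by omega, show y - 1 + 1 = y by omega] at h4
        exact ⟨s, h4⟩
      · have h0 : a x y = 0 := by
          by_contra hne
          exact hin ((ha0 x y).1 hne)
        exact ⟨none, by simp [enc, h0]⟩
    let o : ℕ → ℕ → Option Γ := fun x y =>
      if h : x ≤ N + 1 ∧ y ≤ N + 1 then (hdec x y h.1 h.2).choose else none
    have ho : ∀ x y, x ≤ N + 1 → y ≤ N + 1 → a x y = enc (o x y) := by
      intro x y hx hy
      simp only [o, hx, hy, and_self, dif_pos]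
      exact (hdec x y hx hy).choose_spec
    have ho0 : ∀ x y, x ≤ N + 1 → y ≤ N + 1 →
        (o x y ≠ none ↔ (1 ≤ x ∧ x ≤ N) ∧ (1 ≤ y ∧ y ≤ N)) := by
      intro x y hx hy
      rw [← ha0 x y, ho x y hx hy]
      constructor
      · intro h h'
        apply h
        apply enc_inj
        rw [h']; rfl
      · intro h h'
        apply h
        rw [h']; rfl
    have hwin : ∀ x y, x ≤ N → y ≤ N →
        G.Win (o x y) (o (x + 1) y) (o x (y + 1)) (o (x + 1) (y + 1)) := by
      intro x y hx hy
      rw [← hmem, ← ho x y (by omega) (by omega), ← ho (x + 1) y (by omega) (by omega),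
        ← ho x (y + 1) (by omega) (by omega), ← ho (x + 1) (y + 1) (by omega) (by omega)]
      exact ha x y hx hy
    have hex : ∀ x y, x < N → y < N → ∃ γ, o (x + 1) (y + 1) = some γ := by
      intro x y hx hy
      exact Option.ne_none_iff_exists'.1
        ((ho0 (x + 1) (y + 1) (by omega) (by omega)).2 (by omega))
    obtain ⟨γ0, -⟩ := hex 0 0 (by omega) (by omega)
    let g : ℕ → ℕ → Γ := fun x y => (o (x + 1) (y + 1)).getD γ0
    have hg : ∀ x y, x < N → y < N → o (x + 1) (y + 1) = some (g x y) := by
      intro x y hx hy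
      obtain ⟨γ, hγ⟩ := hex x y hx hy
      simp [g, hγ]
    have hnone : ∀ x y, x ≤ N + 1 → y ≤ N + 1 → ¬ ((1 ≤ x ∧ x ≤ N) ∧ (1 ≤ y ∧ y ≤ N)) →
        o x y = none := by
      intro x y hx hy h
      by_contra hne
      exact h ((ho0 x y hx hy).1 hne)
    refine ⟨g, ?_, ?_, ?_, ?_, ?_, ?_, ?_, ?_⟩
    · intro x y hx hy
      exact (hwin x y (by omega) (by omega)).1 _ (hg x y hx hy)
    · intro x y hx hy
      exact (hwin (x + 1) y (by omega) (by omega)).2.1 _ _ (hg x y (by omega) hy)
        (hg (x + 1) y hx hy)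
    · intro x y hx hy
      exact (hwin x (y + 1) (by omega) (by omega)).2.2.1 _ _ (hg x y hx (by omega))
        (hg x (y + 1) hx hy)
    · intro x y hx hy
      exact (hwin (x + 1) (y + 1) (by omega) (by omega)).2.2.2.1 _ _
        (hg x y (by omega) (by omega)) (hg (x + 1) (y + 1) hx hy)
    · intro y hy
      exact (hwin 0 y (by omega) (by omega)).2.2.2.2.1 _
        (hnone 0 (y + 1) (by omega) (by omega) (by omega)) (hg 0 y (by omega) hy)
    · intro x hx
      exact (hwin x 0 (by omega) (by omega)).2.2.2.2.2.1 _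
        (hnone (x + 1) 0 (by omega) (by omega) (by omega)) (hg x 0 hx (by omega))
    · intro x y hx hy
      exact (hwin (x + 1) y (by omega) (by omega)).2.2.2.2.2.2.1 _
        (hg x y (by omega) hy) (hnone (x + 1 + 1) (y + 1) (by omega) (by omega) (by omega))
    · intro x y hx hy
      exact (hwin x (y + 1) (by omega) (by omega)).2.2.2.2.2.2.2 _
        (hg x y hx (by omega)) (hnone (x + 1) (y + 1 + 1) (by omega) (by omega) (by omega))
  · rintro ⟨g, hok⟩
    let o : ℕ → ℕ → Option Γ := fun x y =>
      if (1 ≤ x ∧ x ≤ N) ∧ (1 ≤ y ∧ y ≤ N) then some (g (x - 1) (y - 1)) else none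
    refine ⟨hN, fun x y => enc (o x y), ?_, ?_⟩
    · intro x y
      by_cases h : (1 ≤ x ∧ x ≤ N) ∧ (1 ≤ y ∧ y ≤ N)
      · simp only [o, if_pos h, enc, Option.elim_some]
        simp [h]
      · simp only [o, if_neg h, enc, Option.elim_none]
        simp [h]
    · intro x y hx hy
      rw [hmem]
      have hs : ∀ d, o (x + 1) (y + 1) = some d → (x < N ∧ y < N) ∧ d = g x y := by
        intro d hd
        simp only [o] at hd
        split_ifs at hd with h
        simp only [Option.some.injEq, Nat.add_sub_cancel] at hd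
        exact ⟨by omega, hd.symm⟩
      have hr : ∀ c, o x (y + 1) = some c → (1 ≤ x ∧ y < N) ∧ c = g (x - 1) y := by
        intro d hd
        simp only [o] at hd
        split_ifs at hd with h
        simp only [Option.some.injEq, Nat.add_sub_cancel] at hd
        exact ⟨by omega, hd.symm⟩
      have hq : ∀ c, o (x + 1) y = some c → (x < N ∧ 1 ≤ y) ∧ c = g x (y - 1) := by
        intro d hd
        simp only [o] at hd
        split_ifs at hd with h
        simp only [Option.some.injEq, Nat.add_sub_cancel] at hd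
        exact ⟨by omega, hd.symm⟩
      have hp : ∀ c, o x y = some c → (1 ≤ x ∧ 1 ≤ y) ∧ c = g (x - 1) (y - 1) := by
        intro d hd
        simp only [o] at hd
        split_ifs at hd with h
        simp only [Option.some.injEq] at hd
        exact ⟨by omega, hd.symm⟩
      refine ⟨?_, ?_, ?_, ?_, ?_, ?_, ?_, ?_⟩
      · intro d hd
        obtain ⟨⟨h1, h2⟩, rfl⟩ := hs d hd
        exact hok.U x y h1 h2
      · intro c d hc hd
        obtain ⟨⟨h1, h2⟩, rfl⟩ := hs d hd
        obtain ⟨⟨h3, h4⟩, rfl⟩ := hr c hc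
        have := hok.H (x - 1) y (by omega) h2
        rwa [show x - 1 + 1 = x by omega] at this
      · intro c d hc hd
        obtain ⟨⟨h1, h2⟩, rfl⟩ := hs d hd
        obtain ⟨⟨h3, h4⟩, rfl⟩ := hq c hc
        have := hok.V x (y - 1) h1 (by omega)
        rwa [show y - 1 + 1 = y by omega] at this
      · intro c d hc hd
        obtain ⟨⟨h1, h2⟩, rfl⟩ := hs d hd
        obtain ⟨⟨h3, h4⟩, rfl⟩ := hp c hc
        have := hok.D (x - 1) (y - 1) (by omega) (by omega)
        rwa [show y - 1 + 1 = y by omega, show x - 1 + 1 = x by omega] at this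
      · intro d hc hd
        obtain ⟨⟨h1, h2⟩, rfl⟩ := hs d hd
        have hx0 : x = 0 := by
          by_contra hne
          simp only [o] at hc
          rw [if_pos (by omega)] at hc
          exact absurd hc (by simp)
        subst hx0
        exact hok.L y h2
      · intro d hc hd
        obtain ⟨⟨h1, h2⟩, rfl⟩ := hs d hd
        have hy0 : y = 0 := by
          by_contra hne
          simp only [o] at hc
          rw [if_pos (by omega)] at hc
          exact absurd hc (by simp)
        subst hy0
        exact hok.B x h1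
      · intro c hc hd
        obtain ⟨⟨h3, h4⟩, rfl⟩ := hr c hc
        have hxN : x = N := by
          by_contra hne
          simp only [o] at hd
          rw [if_pos (by omega)] at hd
          exact absurd hd (by simp)
        exact hok.R (x - 1) y (by omega) h4
      · intro c hc hd
        obtain ⟨⟨h3, h4⟩, rfl⟩ := hq c hc
        have hyN : y = N := by
          by_contra hne
          simp only [o] at hd
          rw [if_pos (by omega)] at hd
          exact absurd hd (by simp)
        exact hok.T x (y - 1) h3 (by omega)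

end GridSys

end Pool.Agent.Helper20.Spectra
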