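import Pool.Agent.Helper20.Spectra.TupGrid

/-!
# Projectively local properties of families of relations
-/

set_option autoImplicit false

namespace Pool.Agent.Helper20.Spectra

/-- `(k+1)`-ary relations on `Fin (n+1)` -/
abbrev Rel (k n : ℕ) := (Fin (k + 1) → Fin (n + 1)) → Prop

/-- `Φ` is (projectively) local: it is expressed by a tuple system with auxiliary relations. -/
def Loc (k : ℕ) (ι : Type) (Φ : ∀ n, (ι → Rel k n) → Prop) : Prop :=
  ∃ (κ : Type) (_ : Finite κ) (T : TupSys k (ι ⊕ κ → Prop)), ∀ (n : ℕ) (R : ι → Rel k n),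
    Φ n R ↔ ∃ Q : κ → Rel k n,
      T.Ok (n + 1) (fun x => Sum.elim (fun i => R i x) (fun q => Q q x))

namespace Loc

variable {k : ℕ} {ι ι' : Type}

lemma congr {Φ Ψ : ∀ n, (ι → Rel k n) → Prop} (h : Loc k ι Φ) (hΦ : ∀ n R, Ψ n R ↔ Φ n R) :
    Loc k ι Ψ := by
  obtain ⟨κ, hκ, T, hT⟩ := h
  exact ⟨κ, hκ, T, fun n R => (hΦ n R).trans (hT n R)⟩

/-- constraints on pairs of tuples -/
lemma pair (B : (Fin (k + 1) → Fin (k + 1) → Prop) → (ι → Prop) → (ι → Prop) → Prop) :
    Loc k ι (fun _ R => ∀ x y, B (fun i j => x i = y j) (fun i => R i x) (fun i => R i y)) := by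
  refine ⟨Empty, inferInstance,
    { B := fun p l l' => B p (fun i => l (Sum.inl i)) (fun i => l' (Sum.inl i))
      S := fun _ _ => True
      F := fun _ => True
      Z := fun _ => True }, fun n R => ?_⟩
  constructor
  · intro h
    exact ⟨fun e => e.elim, ⟨fun x y => h x y, fun _ _ _ _ => trivial, fun _ _ => trivial,
      fun _ _ => trivial⟩⟩
  · rintro ⟨Q, hQ⟩ x y
    exact hQ.B x y

/-- constraints along digit `0` -/
lemma step (S : (ι → Prop) → (ι → Prop) → Prop) (F Z : (ι → Prop) → Prop) :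
    Loc k ι (fun n R =>
      (∀ x x', (∀ i, i ≠ 0 → x' i = x i) → (x' 0 : ℕ) = x 0 + 1 →
        S (fun i => R i x) (fun i => R i x')) ∧
      (∀ x, (x 0 : ℕ) = 0 → F (fun i => R i x)) ∧
      (∀ x, (x 0 : ℕ) + 1 = n + 1 → Z (fun i => R i x))) := by
  refine ⟨Empty, inferInstance,
    { B := fun _ _ _ => True
      S := fun l l' => S (fun i => l (Sum.inl i)) (fun i => l' (Sum.inl i))
      F := fun l => F (fun i => l (Sum.inl i))
      Z := fun l => Z (fun i => l (Sum.inl i)) }, fun n R => ?_⟩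
  constructor
  · rintro ⟨h1, h2, h3⟩
    exact ⟨fun e => e.elim, ⟨fun _ _ => trivial, fun x x' h h' => h1 x x' h h', fun x hx => h2 x hx,
      fun x hx => h3 x hx⟩⟩
  · rintro ⟨Q, hQ⟩
    exact ⟨fun x x' h h' => hQ.S x x' h h', fun x hx => hQ.F x hx, fun x hx => hQ.Z x hx⟩

/-- finite conjunctions -/
lemma forall_fin {β : Type} [Finite β] {Φ : β → ∀ n, (ι → Rel k n) → Prop}
    (h : ∀ b, Loc k ι (Φ b)) : Loc k ι (fun n R => ∀ b, Φ b n R) := by
  choose κ hκ T hT using h
  have := hκ
  let pr : ∀ b, (ι ⊕ (Σ b, κ b) → Prop) → (ι ⊕ κ b → Prop) := fun b l =>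
    Sum.elim (fun i => l (Sum.inl i)) (fun q => l (Sum.inr ⟨b, q⟩))
  refine ⟨Σ b, κ b, inferInstance,
    { B := fun p l l' => ∀ b, (T b).B p (pr b l) (pr b l')
      S := fun l l' => ∀ b, (T b).S (pr b l) (pr b l')
      F := fun l => ∀ b, (T b).F (pr b l)
      Z := fun l => ∀ b, (T b).Z (pr b l) }, fun n R => ?_⟩
  constructor
  · intro h
    choose Q hQ using fun b => (hT b n R).1 (h b)
    refine ⟨fun q => Q q.1 q.2, ⟨fun x y b => ?_, fun x x' h h' b => ?_, fun x h b => ?_,
      fun x h b => ?_⟩⟩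
    · exact (hQ b).B x y
    · exact (hQ b).S x x' h h'
    · exact (hQ b).F x h
    · exact (hQ b).Z x h
  · rintro ⟨Q, hQ⟩ b
    rw [hT b n R]
    refine ⟨fun q => Q ⟨b, q⟩, ⟨fun x y => ?_, fun x x' h h' => ?_, fun x h => ?_,
      fun x h => ?_⟩⟩
    · exact hQ.B x y b
    · exact hQ.S x x' h h' b
    · exact hQ.F x h b
    · exact hQ.Z x h b

lemma and {Φ Ψ : ∀ n, (ι → Rel k n) → Prop} (h1 : Loc k ι Φ) (h2 : Loc k ι Ψ) :
    Loc k ι (fun n R => Φ n R ∧ Ψ n R) := by
  have := forall_fin (β := Bool) (Φ := fun b => if b then Φ else Ψ)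
    (fun b => by cases b <;> simpa)
  refine this.congr (fun n R => ?_)
  constructor
  · rintro ⟨h1, h2⟩ b; cases b <;> simpa
  · intro h; exact ⟨by simpa using h true, by simpa using h false⟩

/-- existential quantification over auxiliary relations -/
lemma ex {κ' : Type} [Finite κ'] {Φ : ∀ n, (ι ⊕ κ' → Rel k n) → Prop}
    (h : Loc k (ι ⊕ κ') Φ) :
    Loc k ι (fun n R => ∃ Q : κ' → Rel k n, Φ n (Sum.elim R Q)) := by
  obtain ⟨κ, hκ, T, hT⟩ := h
  let pr : (ι ⊕ (κ' ⊕ κ) → Prop) → ((ι ⊕ κ') ⊕ κ → Prop) := fun l =>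
    Sum.elim (Sum.elim (fun i => l (Sum.inl i)) (fun q => l (Sum.inr (Sum.inl q))))
      (fun q => l (Sum.inr (Sum.inr q)))
  refine ⟨κ' ⊕ κ, inferInstance,
    { B := fun p l l' => T.B p (pr l) (pr l')
      S := fun l l' => T.S (pr l) (pr l')
      F := fun l => T.F (pr l)
      Z := fun l => T.Z (pr l) }, fun n R => ?_⟩
  have key : ∀ (Q : κ' → Rel k n) (Q' : κ → Rel k n) (x : Fin (k + 1) → Fin (n + 1)),
      pr (Sum.elim (fun i => R i x) (fun q => (Sum.elim Q Q' : κ' ⊕ κ → Rel k n) q x)) =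
      Sum.elim (fun i => (Sum.elim R Q : ι ⊕ κ' → Rel k n) i x) (fun q => Q' q x) := by
    intro Q Q' x
    funext i
    rcases i with (i | i) | i <;> rfl
  constructor
  · rintro ⟨Q, hQ⟩
    obtain ⟨Q', hQ'⟩ := (hT n _).1 hQ
    refine ⟨Sum.elim Q Q', ⟨fun x y => ?_, fun x x' h h' => ?_, fun x h => ?_, fun x h => ?_⟩⟩
    · have := hQ'.B x y
      rw [← key, ← key] at this; exact this
    · have := hQ'.S x x' h h'
      rw [← key, ← key] at this; exact this
    · have := hQ'.F x h
      rw [← key] at this; exact this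
    · have := hQ'.Z x h
      rw [← key] at this; exact this
  · rintro ⟨Q, hQ⟩
    have hQe : Q = Sum.elim (fun q => Q (Sum.inl q)) (fun q => Q (Sum.inr q)) := by
      funext q; rcases q with q | q <;> rfl
    rw [hQe] at hQ
    refine ⟨fun q => Q (Sum.inl q), (hT n _).2 ⟨fun q => Q (Sum.inr q),
      ⟨fun x y => ?_, fun x x' h h' => ?_, fun x h => ?_, fun x h => ?_⟩⟩⟩
    · have := hQ.B x y
      simp only [key] at this; exact this
    · have := hQ.S x x' h h'
      simp only [key] at this; exact this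
    · have := hQ.F x h
      simp only [key] at this; exact this
    · have := hQ.Z x h
      simp only [key] at this; exact this

/-- reindexing -/
lemma comap (f : ι → ι') {Φ : ∀ n, (ι → Rel k n) → Prop} (h : Loc k ι Φ) :
    Loc k ι' (fun n R => Φ n (fun i => R (f i))) := by
  obtain ⟨κ, hκ, T, hT⟩ := h
  let pr : (ι' ⊕ κ → Prop) → (ι ⊕ κ → Prop) := fun l =>
    Sum.elim (fun i => l (Sum.inl (f i))) (fun q => l (Sum.inr q))
  refine ⟨κ, hκ,
    { B := fun p l l' => T.B p (pr l) (pr l')
      S := fun l l' => T.S (pr l) (pr l')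
      F := fun l => T.F (pr l)
      Z := fun l => T.Z (pr l) }, fun n R => ?_⟩
  refine (hT n _).trans (exists_congr fun Q => ?_)
  constructor
  · intro hQ
    exact ⟨fun x y => hQ.B x y, fun x x' h h' => hQ.S x x' h h', fun x h => hQ.F x h,
      fun x h => hQ.Z x h⟩
  · intro hQ
    exact ⟨fun x y => hQ.B x y, fun x x' h h' => hQ.S x x' h h', fun x h => hQ.F x h,
      fun x h => hQ.Z x h⟩

/-- universal constraints: at every tuple, an arbitrary condition on the values of the relations
at all index-substitutions of the tuple, and on the equality pattern of the tuple -/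
lemma univ [Finite ι]
    (P : (ι × (Fin (k + 1) → Fin (k + 1)) → Prop) → (Fin (k + 1) → Fin (k + 1) → Prop) → Prop) :
    Loc k ι (fun _ R => ∀ x, P (fun p => R p.1 (x ∘ p.2)) (fun i j => x i = x j)) := by
  have h1 := (pair (k := k) (ι := ι ⊕ (ι × (Fin (k + 1) → Fin (k + 1))))
    (fun p l l' => ∀ q : ι × (Fin (k + 1) → Fin (k + 1)), (∀ i, p (q.2 i) i) →
      (l (Sum.inr q) ↔ l' (Sum.inl q.1)))).and
    (pair (k := k) (ι := ι ⊕ (ι × (Fin (k + 1) → Fin (k + 1))))
    (fun p l _ => (∀ i, p i i) → P (fun q => l (Sum.inr q)) p))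
  refine h1.ex.congr (fun n R => ?_)
  constructor
  · intro h
    refine ⟨fun p x => R p.1 (x ∘ p.2), ?_, ?_⟩
    · intro x y q hq
      have : y = x ∘ q.2 := by funext i; exact (hq i).symm
      simp only [Sum.elim_inr, Sum.elim_inl, this]
    · intro x y hxy
      have : y = x := by funext i; exact (hxy i).symm
      subst this
      exact h y
  · rintro ⟨Q, h1, h2⟩ x
    have h3 : ∀ q, Q q x ↔ R q.1 (x ∘ q.2) := by
      intro q
      exact h1 x (x ∘ q.2) q (fun i => rfl)
    have h4 := h2 x x (fun i => rfl)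
    have h5 : (fun q => (Sum.elim R Q : _ → Rel k n) (Sum.inr q) x) =
        fun p : ι × (Fin (k + 1) → Fin (k + 1)) => R p.1 (x ∘ p.2) := by
      funext q
      exact propext (h3 q)
    rw [h5] at h4
    exact h4

/-- pair constraints, semantic form (no restriction) -/
lemma pair' {Φ : ∀ n, (ι → Rel k n) → Prop}
    (B : (Fin (k + 1) → Fin (k + 1) → Prop) → (ι → Prop) → (ι → Prop) → Prop)
    (h : ∀ n R, Φ n R ↔ ∀ x y, B (fun i j => x i = y j) (fun i => R i x) (fun i => R i y)) :
    Loc k ι Φ := (pair B).congr h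

/-- projection along digit `0` -/
lemma scan0 [Finite ι] (i j : ι) :
    Loc k ι (fun _ R => ∀ x, R i x ↔ ∃ z, R j (Function.update x 0 z)) := by
  have h1 := (step (k := k) (ι := ι ⊕ Unit)
    (fun l l' => (l' (Sum.inr ()) ↔ (l (Sum.inr ()) ∨ l' (Sum.inl j))))
    (fun l => (l (Sum.inr ()) ↔ l (Sum.inl j)))
    (fun l => (l (Sum.inl i) ↔ l (Sum.inr ())))).and
    (pair (k := k) (ι := ι ⊕ Unit)
      (fun p l l' => (∀ t, t ≠ 0 → p t t) → (l (Sum.inl i) ↔ l' (Sum.inl i))))
  refine h1.ex.congr (fun n R => ?_)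
  constructor
  · intro h
    refine ⟨fun _ x => ∃ z : Fin (n + 1), z ≤ x 0 ∧ R j (Function.update x 0 z),
      ⟨?_, ?_, ?_⟩, ?_⟩
    · intro x x' hx hx0
      have hupd : ∀ z, Function.update x' 0 z = Function.update x 0 z := by
        intro z
        funext i
        by_cases hi : i = 0
        · subst hi; simp
        · simp [Function.update_of_ne hi, hx i hi]
      simp only [Sum.elim_inr, Sum.elim_inl, hupd]
      constructor
      · rintro ⟨z, hz, hR⟩
        by_cases hz' : z ≤ x 0
        · exact Or.inl ⟨z, hz', hR⟩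
        · right
          have : z = x' 0 := by
            apply Fin.ext
            have h1 : (z : ℕ) ≤ x' 0 := hz
            have h2 : ¬ ((z : ℕ) ≤ x 0) := hz'
            omega
          rw [← hupd, this, Function.update_eq_self] at hR
          exact hR
      · rintro (⟨z, hz, hR⟩ | hR)
        · refine ⟨z, ?_, hR⟩
          have h1 : (z : ℕ) ≤ x 0 := hz
          show (z : ℕ) ≤ x' 0
          omega
        · exact ⟨x' 0, le_rfl, by rw [← hupd, Function.update_eq_self]; exact hR⟩
    · intro x hx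
      simp only [Sum.elim_inr, Sum.elim_inl]
      constructor
      · rintro ⟨z, hz, hR⟩
        have : z = x 0 := by
          apply Fin.ext
          have h1 : (z : ℕ) ≤ x 0 := hz
          omega
        rwa [this, Function.update_eq_self] at hR
      · intro hR
        exact ⟨x 0, le_rfl, by rwa [Function.update_eq_self]⟩
    · intro x hx
      simp only [Sum.elim_inr, Sum.elim_inl]
      rw [h x]
      constructor
      · rintro ⟨z, hR⟩
        refine ⟨z, ?_, hR⟩
        have := z.is_lt
        show (z : ℕ) ≤ x 0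
        omega
      · rintro ⟨z, -, hR⟩; exact ⟨z, hR⟩
    · intro x y hxy
      simp only [Sum.elim_inl]
      rw [h x, h y]
      have hupd : ∀ z, Function.update y 0 z = Function.update x 0 z := by
        intro z
        funext i
        by_cases hi : i = 0
        · subst hi; simp
        · simp [Function.update_of_ne hi, (hxy i hi : x i = y i)]
      simp only [hupd]
  · rintro ⟨Q, ⟨hS, hF, hZ⟩, hI⟩ x
    simp only [Sum.elim_inr, Sum.elim_inl] at hS hF hZ hI
    have key : ∀ (m : ℕ) (hm : m < n + 1), Q () (Function.update x 0 ⟨m, hm⟩) ↔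
        ∃ z : Fin (n + 1), (z : ℕ) ≤ m ∧ R j (Function.update x 0 z) := by
      intro m
      induction m with
      | zero =>
        intro hm
        rw [hF _ (by simp)]
        constructor
        · intro h; exact ⟨⟨0, hm⟩, le_rfl, h⟩
        · rintro ⟨z, hz, hR⟩
          have : z = ⟨0, hm⟩ := by apply Fin.ext; simpa using hz
          rwa [← this]
      | succ m ih =>
        intro hm
        rw [hS (Function.update x 0 ⟨m, by omega⟩) (Function.update x 0 ⟨m + 1, hm⟩)
          (fun i hi => by simp [Function.update_of_ne hi]) (by simp), ih (by omega)]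
        constructor
        · rintro (⟨z, hz, hR⟩ | hR)
          · exact ⟨z, by omega, hR⟩
          · exact ⟨_, le_rfl, hR⟩
        · rintro ⟨z, hz, hR⟩
          by_cases hz' : (z : ℕ) ≤ m
          · exact Or.inl ⟨z, hz', hR⟩
          · right
            have : z = ⟨m + 1, hm⟩ := by apply Fin.ext; simp; omega
            rwa [← this]
    rw [hI x (Function.update x 0 (Fin.last n))
      (fun t ht => by simp [Function.update_of_ne ht]), hZ _ (by simp)]
    rw [show Fin.last n = ⟨n, by omega⟩ from rfl, key n (by omega)]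
    constructor
    · rintro ⟨z, -, hR⟩; exact ⟨z, hR⟩
    · rintro ⟨z, hR⟩; exact ⟨z, by omega, hR⟩

/-- projection along an arbitrary digit -/
lemma scan [Finite ι] (i j : ι) (p : Fin (k + 1)) :
    Loc k ι (fun _ R => ∀ x, R i x ↔ ∃ z, R j (Function.update x p z)) := by
  let σ : Fin (k + 1) → Fin (k + 1) := Equiv.swap 0 p
  have hσσ : ∀ a, σ (σ a) = a := fun a => Equiv.swap_apply_self 0 p a
  have h1 := ((univ (k := k) (ι := ι ⊕ Bool)
    (fun l _ => (l (Sum.inr true, id) ↔ l (Sum.inl i, σ)) ∧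
      (l (Sum.inr false, id) ↔ l (Sum.inl j, σ)))).and
    (scan0 (k := k) (ι := ι ⊕ Bool) (Sum.inr true) (Sum.inr false))).ex
  refine h1.congr (fun n R => ?_)
  have hupd : ∀ (x : Fin (k + 1) → Fin (n + 1)) z,
      (Function.update (x ∘ σ) 0 z) ∘ σ = Function.update x p z := by
    intro x z
    funext a
    by_cases ha : a = p
    · subst ha
      simp [σ]
    · have h0 : σ a ≠ 0 := by
        intro h
        apply ha
        have := congrArg σ h
        rw [hσσ] at this
        rw [this]
        simp [σ]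
      simp only [Function.comp_apply, Function.update_of_ne h0, Function.update_of_ne ha, hσσ]
  have hcomp : ∀ x : Fin (k + 1) → Fin (n + 1), (x ∘ σ) ∘ σ = x := by
    intro x; funext a; simp [hσσ]
  constructor
  · intro h
    refine ⟨fun b x => if b then R i (x ∘ σ) else R j (x ∘ σ), ?_, ?_⟩
    · intro x
      simp
    · intro x
      simp only [Sum.elim_inr, if_true, Bool.false_eq_true, if_false]
      rw [h (x ∘ σ)]
      apply exists_congr
      intro z
      rw [← hupd (x ∘ σ) z, hcomp]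
  · rintro ⟨Q, h1, h2⟩ x
    have h3 : ∀ x, Q true x ↔ R i (x ∘ σ) := fun x => (h1 x).1
    have h4 : ∀ x, Q false x ↔ R j (x ∘ σ) := fun x => (h1 x).2
    have h5 := h2 (x ∘ σ)
    simp only [Sum.elim_inr] at h5
    rw [h3, hcomp] at h5
    rw [h5]
    apply exists_congr
    intro z
    rw [h4, hupd]

end Loc

end Pool.Agent.Helper20.Spectra
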