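import Pool.Agent.Helper20.Spectra.Arith

/-!
# Existential second-order bounded arithmetic gives spectra
-/

set_option autoImplicit false

namespace Pool.Agent.Helper20.Spectra

open FirstOrder FirstOrder.Language TupSys

/-- assignments of second-order variables of arities `a` -/
abbrev SOA {ι : Type} (a : ι → ℕ) := ∀ i : ι, (Fin (a i) → ℕ) → Prop

/-- bounded arithmetical conditions on numbers and second-order variables -/
inductive RudX {ι : Type} (a : ι → ℕ) : (k : ℕ) → (SOA a → (Fin k → ℕ) → Prop) → Prop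
  | atom (k : ℕ) (p q : MvPolynomial (Fin k) ℕ) :
      RudX a k (fun _ v => MvPolynomial.eval v p = MvPolynomial.eval v q)
  | so (k : ℕ) (i : ι) (q : Fin (a i) → MvPolynomial (Fin k) ℕ) :
      RudX a k (fun X v => X i (fun j => MvPolynomial.eval v (q j)))
  | not (k : ℕ) (P : SOA a → (Fin k → ℕ) → Prop) : RudX a k P → RudX a k (fun X v => ¬ P X v)
  | and (k : ℕ) (P Q : SOA a → (Fin k → ℕ) → Prop) : RudX a k P → RudX a k Q →
      RudX a k (fun X v => P X v ∧ Q X v)
  | bex (k : ℕ) (p : MvPolynomial (Fin k) ℕ) (P : SOA a → (Fin (k + 1) → ℕ) → Prop) :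
      RudX a (k + 1) P →
      RudX a k (fun X v => ∃ x : ℕ, x ≤ MvPolynomial.eval v p ∧ P X (Fin.cons x v))

section UDsec

variable {ι : Type} {a : ι → ℕ} {K k : ℕ}

/-- predicates of numbers coded by tuples, uniformly definable -/
def UDT (a : ι → ℕ) (K k : ℕ)
    (Q : ∀ (M : Type), Interp (ASym ι) (aar a K) M → (Fin k → Fin (K + 1) → M) → Prop) : Prop :=
  ∀ (α : Type) (f : Fin k → ∀ (M : Type), (α → M) → (Fin (K + 1) → M)), (∀ i, Pj α _ (f i)) →
    FD (ASym ι) (aar a K) α (fun M R v => Q M R (fun i => f i M v))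

lemma UDT.app {Q : ∀ (M : Type), Interp (ASym ι) (aar a K) M → (Fin k → Fin (K + 1) → M) → Prop}
    (h : UDT a K k Q) {α : Type} {F : ∀ (M : Type), (α → M) → (Fin k → Fin (K + 1) → M)}
    (hF : ∀ i, Pj α _ (fun M v => F M v i)) :
    FD (ASym ι) (aar a K) α (fun M R v => Q M R (F M v)) :=
  h α (fun i M v => F M v i) hF

/-- the number `n` -/
def numQ (n : ℕ) {M : Type} (R : Interp (ASym ι) (aar a K) M) : (Fin (K + 1) → M) → Prop :=
  match n with
  | 0 => fun x => zeroT R x
  | n + 1 => fun x => ∃ y : Fin (K + 1) → M, numQ n R y ∧ sucN R y x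

lemma numQ_FD (n : ℕ) {α : Type} {e : ∀ (M : Type), (α → M) → (Fin (K + 1) → M)}
    (h : Pj α _ e) : FD (ASym ι) (aar a K) α (fun M R v => numQ n R (e M v)) := by
  induction n generalizing α with
  | zero => exact zeroT_FD h
  | succ n ih =>
    show FD (ASym ι) (aar a K) α (fun M R v => ∃ y : Fin (K + 1) → M, numQ n R y ∧
      sucN R y (e M v))
    exact FD.ex (FD.and (ih Pj.inr) (sucN_FD Pj.inr (Pj.inl h)))

lemma numQ_iff {m : ℕ} {R : Interp (ASym ι) (aar a K) (Fin m)} (hR : Std R) (n : ℕ)
    (hn : n < m ^ (K + 1)) (x : Fin (K + 1) → Fin m) : numQ n R x ↔ col x = n := by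
  induction n generalizing x with
  | zero => exact zeroT_iff hR.lt x
  | succ n ih =>
    show (∃ y : Fin (K + 1) → Fin m, numQ n R y ∧ sucN R y x) ↔ _
    simp only [ih (by omega), sucN_iff hR.lt]
    constructor
    · rintro ⟨y, h1, h2⟩; omega
    · intro h
      obtain ⟨y, hy⟩ := exists_col (K := K) (m := m) (N := n) (by omega)
      exact ⟨y, hy, by omega⟩

lemma lt_two_pow_succ' (n m : ℕ) (hm : 2 ≤ m) (K : ℕ) (hK : n ≤ K) : n < m ^ (K + 1) := by
  calc n < 2 ^ n := Nat.lt_two_pow_self
    _ ≤ 2 ^ (K + 1) := Nat.pow_le_pow_right (by omega) (by omega)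
    _ ≤ m ^ (K + 1) := Nat.pow_le_pow_left hm _

/-- value of a polynomial -/
lemma poly_UDT (a : ι → ℕ) {k : ℕ} (p : MvPolynomial (Fin k) ℕ) (c : ℕ) :
    ∃ K0, ∀ K, K0 ≤ K →
      (∀ m, 2 ≤ m → ∀ v : Fin k → ℕ, (∀ i, v i < m ^ c) → MvPolynomial.eval v p < m ^ (K + 1)) ∧
      ∃ Q : ∀ (M : Type), Interp (ASym ι) (aar a K) M → (Fin (k + 1) → Fin (K + 1) → M) → Prop,
        UDT a K (k + 1) Q ∧ ∀ m, 2 ≤ m → ∀ R : Interp (ASym ι) (aar a K) (Fin m), Std R →
          ∀ (z : Fin (K + 1) → Fin m) (v : Fin k → Fin (K + 1) → Fin m),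
            (∀ i, col (v i) < m ^ c) →
            (Q (Fin m) R (Fin.cons z v) ↔ col z = MvPolynomial.eval (fun i => col (v i)) p) := by
  induction p using MvPolynomial.induction_on with
  | C n =>
    refine ⟨n, fun K hK => ⟨?_, ?_⟩⟩
    · intro m hm v _
      rw [MvPolynomial.eval_C]
      exact lt_two_pow_succ' n m hm K hK
    · refine ⟨fun M R w => numQ n R (w 0), ?_, ?_⟩
      · intro α f hf
        exact numQ_FD n (hf 0)
      · intro m hm R hR z v _
        beta_reduce
        rw [Fin.cons_zero, MvPolynomial.eval_C]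
        exact numQ_iff hR n (lt_two_pow_succ' n m hm K hK) z
  | add p q ihp ihq =>
    obtain ⟨K1, h1⟩ := ihp
    obtain ⟨K2, h2⟩ := ihq
    refine ⟨max K1 K2 + 1, fun K hK => ?_⟩
    obtain ⟨K', rfl⟩ : ∃ K', K = K' + 1 := ⟨K - 1, by omega⟩
    obtain ⟨-, Q1, hQ1, hQ1'⟩ := h1 (K' + 1) (by omega)
    obtain ⟨-, Q2, hQ2, hQ2'⟩ := h2 (K' + 1) (by omega)
    have b1 := (h1 K' (by omega)).1
    have b2 := (h2 K' (by omega)).1
    have hb : ∀ m, 2 ≤ m → ∀ v : Fin k → ℕ, (∀ i, v i < m ^ c) →
        MvPolynomial.eval v p < m ^ (K' + 1 + 1) ∧ MvPolynomial.eval v q < m ^ (K' + 1 + 1) ∧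
        MvPolynomial.eval v (p + q) < m ^ (K' + 1 + 1) := by
      intro m hm v hv
      rw [map_add]
      have := b1 m hm v hv
      have := b2 m hm v hv
      have h3 : m ^ (K' + 1) * 2 ≤ m ^ (K' + 1) * m := Nat.mul_le_mul_left _ hm
      rw [pow_succ m (K' + 1)]
      omega
    refine ⟨fun m hm v hv => (hb m hm v hv).2.2, ?_⟩
    refine ⟨fun M R w => ∃ z1 : Fin (K' + 1 + 1) → M, ∃ z2 : Fin (K' + 1 + 1) → M,
      Q1 M R (Fin.cons z1 (Fin.tail w)) ∧ Q2 M R (Fin.cons z2 (Fin.tail w)) ∧
        addR R z1 z2 (w 0), ?_, ?_⟩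
    · intro α f hf
      refine FD.ex (FD.ex (FD.and (hQ1.app ?_) (FD.and (hQ2.app ?_) (addR_FD (Pj.inl Pj.inr)
        Pj.inr (Pj.inl (Pj.inl (hf 0)))))))
      · intro i
        refine Fin.cases ?_ (fun i => ?_) i
        · exact Pj.inl Pj.inr
        · exact Pj.inl (Pj.inl (hf i.succ))
      · intro i
        refine Fin.cases ?_ (fun i => ?_) i
        · exact Pj.inr
        · exact Pj.inl (Pj.inl (hf i.succ))
    · intro m hm R hR z v hv
      have hb' := hb m hm _ hv
      have ht : Fin.tail (Fin.cons z v : Fin (k + 1) → Fin (K' + 1 + 1) → Fin m) = v := by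
        funext i; rfl
      simp only [ht, Fin.cons_zero]
      constructor
      · rintro ⟨z1, z2, h3, h4, h5⟩
        rw [hQ1' m hm R hR z1 v hv] at h3
        rw [hQ2' m hm R hR z2 v hv] at h4
        rw [hR.add] at h5
        rw [map_add, ← h3, ← h4, h5]
      · intro h
        obtain ⟨z1, h3⟩ := exists_col (m := m) hb'.1
        obtain ⟨z2, h4⟩ := exists_col (m := m) hb'.2.1
        refine ⟨z1, z2, (hQ1' m hm R hR z1 v hv).2 h3, (hQ2' m hm R hR z2 v hv).2 h4, ?_⟩
        rw [hR.add, h, map_add, ← h3, ← h4]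
  | mul_X p i ihp =>
    obtain ⟨K1, h1⟩ := ihp
    refine ⟨K1 + c, fun K hK => ?_⟩
    obtain ⟨-, Q1, hQ1, hQ1'⟩ := h1 K (by omega)
    have b1 := (h1 K1 (by omega)).1
    have b1' := (h1 K (by omega)).1
    have hb : ∀ m, 2 ≤ m → ∀ v : Fin k → ℕ, (∀ i, v i < m ^ c) →
        MvPolynomial.eval v (p * MvPolynomial.X i) < m ^ (K + 1) := by
      intro m hm v hv
      rw [map_mul, MvPolynomial.eval_X]
      have h3 := b1 m hm v hv
      have h4 := hv i
      calc MvPolynomial.eval v p * v i < m ^ (K1 + 1) * m ^ c :=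
            Nat.mul_lt_mul_of_lt_of_le h3 h4.le (pow_pos (by omega) _)
        _ = m ^ (K1 + 1 + c) := by rw [← pow_add]
        _ ≤ m ^ (K + 1) := Nat.pow_le_pow_right (by omega) (by omega)
    refine ⟨hb, ?_⟩
    refine ⟨fun M R w => ∃ z1 : Fin (K + 1) → M,
      Q1 M R (Fin.cons z1 (Fin.tail w)) ∧ mulR R z1 (w i.succ) (w 0), ?_, ?_⟩
    · intro α f hf
      refine FD.ex (FD.and (hQ1.app ?_) (mulR_FD Pj.inr (Pj.inl (hf i.succ)) (Pj.inl (hf 0))))
      intro j
      refine Fin.cases ?_ (fun j => ?_) j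
      · exact Pj.inr
      · exact Pj.inl (hf j.succ)
    · intro m hm R hR z v hv
      have ht : Fin.tail (Fin.cons z v : Fin (k + 1) → Fin (K + 1) → Fin m) = v := by
        funext i; rfl
      simp only [ht, Fin.cons_zero, Fin.cons_succ]
      constructor
      · rintro ⟨z1, h3, h5⟩
        rw [hQ1' m hm R hR z1 v hv] at h3
        rw [hR.mul] at h5
        rw [map_mul, MvPolynomial.eval_X, ← h3, h5]
      · intro h
        obtain ⟨z1, h3⟩ := exists_col (m := m) (b1' m hm _ hv)
        refine ⟨z1, (hQ1' m hm R hR z1 v hv).2 h3, ?_⟩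
        rw [hR.mul, h, map_mul, MvPolynomial.eval_X, ← h3]

/-- evaluation of bounded formulas -/
lemma RudX.main {k : ℕ} {P : SOA a → (Fin k → ℕ) → Prop} (h : RudX a k P) : ∀ c : ℕ,
    ∃ K0, ∀ K, K0 ≤ K →
      ∃ Q : ∀ (M : Type), Interp (ASym ι) (aar a K) M → (Fin k → Fin (K + 1) → M) → Prop,
        UDT a K k Q ∧ ∀ m, 2 ≤ m → ∀ R : Interp (ASym ι) (aar a K) (Fin m), Std R →
          ∀ X : SOA a, (∀ i w, soR R i w ↔ X i (fun j => col (w j))) →
          ∀ v : Fin k → Fin (K + 1) → Fin m, (∀ i, col (v i) < m ^ c) →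
            (Q (Fin m) R v ↔ P X (fun i => col (v i))) := by
  induction h with
  | atom k p q =>
    intro c
    obtain ⟨K1, h1⟩ := poly_UDT a p c
    obtain ⟨K2, h2⟩ := poly_UDT a q c
    refine ⟨max K1 K2, fun K hK => ?_⟩
    obtain ⟨b1, Q1, hQ1, hQ1'⟩ := h1 K (by omega)
    obtain ⟨b2, Q2, hQ2, hQ2'⟩ := h2 K (by omega)
    refine ⟨fun M R v => ∃ z : Fin (K + 1) → M, Q1 M R (Fin.cons z v) ∧ Q2 M R (Fin.cons z v),
      ?_, ?_⟩
    · intro α f hf
      refine FD.ex (FD.and (hQ1.app ?_) (hQ2.app ?_))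
      · intro i
        refine Fin.cases ?_ (fun i => ?_) i
        · exact Pj.inr
        · exact Pj.inl (hf i)
      · intro i
        refine Fin.cases ?_ (fun i => ?_) i
        · exact Pj.inr
        · exact Pj.inl (hf i)
    · intro m hm R hR X _ v hv
      beta_reduce
      constructor
      · rintro ⟨z, h3, h4⟩
        rw [hQ1' m hm R hR z v hv] at h3
        rw [hQ2' m hm R hR z v hv] at h4
        rw [← h3, h4]
      · intro h
        obtain ⟨z, h3⟩ := exists_col (m := m) (b1 m hm _ hv)
        exact ⟨z, (hQ1' m hm R hR z v hv).2 h3, (hQ2' m hm R hR z v hv).2 (h3.trans h)⟩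
  | so k i q =>
    intro c
    have hq := fun j => poly_UDT a (q j) c
    choose K1 h1 using hq
    obtain ⟨B, hB⟩ : ∃ B, ∀ j, K1 j ≤ B := by
      obtain ⟨B, hB⟩ := (Set.finite_range K1).bddAbove
      exact ⟨B, fun j => hB ⟨j, rfl⟩⟩
    refine ⟨B, fun K hK => ?_⟩
    have h2 := fun j => h1 j K ((hB j).trans hK)
    choose b1 Q1 hQ1 hQ1' using h2
    refine ⟨fun M R v => ∃ z : Fin (a i) × Fin (K + 1) → M,
      (∀ j, Q1 j M R (Fin.cons (fun l => z (j, l)) v)) ∧ soR R i (fun j l => z (j, l)), ?_, ?_⟩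
    · intro α f hf
      have hz : ∀ j, Pj (α ⊕ Fin (a i) × Fin (K + 1)) (Fin (K + 1))
          (fun M v => fun l => v (Sum.inr (j, l))) :=
        fun j => ⟨fun l => Sum.inr (j, l), fun M v => rfl⟩
      refine FD.ex (FD.and (FD.all_fin (fun j => (hQ1 j).app ?_)) (soR_FD i hz))
      intro i
      refine Fin.cases ?_ (fun i => ?_) i
      · exact hz j
      · exact Pj.inl (hf i)
    · intro m hm R hR X hX v hv
      beta_reduce
      constructor
      · rintro ⟨z, h3, h4⟩
        rw [hX] at h4
        have : (fun j => col (fun l => z (j, l))) =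
            fun j => MvPolynomial.eval (fun i => col (v i)) (q j) := by
          funext j
          exact (hQ1' j m hm R hR _ v hv).1 (h3 j)
        rw [this] at h4
        exact h4
      · intro h
        choose z hz using fun j => exists_col (m := m) (b1 j m hm _ hv)
        refine ⟨fun x => z x.1 x.2, fun j => (hQ1' j m hm R hR (z j) v hv).2 (hz j), ?_⟩
        rw [hX]
        have : (fun j => col (z j)) =
            fun j => MvPolynomial.eval (fun i => col (v i)) (q j) := funext hz
        show X i (fun j => col (z j))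
        rw [this]
        exact h
  | not k P _ ih =>
    intro c
    obtain ⟨K0, h0⟩ := ih c
    refine ⟨K0, fun K hK => ?_⟩
    obtain ⟨Q, hQ, hQ'⟩ := h0 K hK
    exact ⟨fun M R v => ¬ Q M R v, fun α f hf => (hQ α f hf).not,
      fun m hm R hR X hX v hv => not_congr (hQ' m hm R hR X hX v hv)⟩
  | and k P P' _ _ ih ih' =>
    intro c
    obtain ⟨K1, h1⟩ := ih c
    obtain ⟨K2, h2⟩ := ih' c
    refine ⟨max K1 K2, fun K hK => ?_⟩
    obtain ⟨Q, hQ, hQ'⟩ := h1 K (by omega)
    obtain ⟨Q2, hQ2, hQ2'⟩ := h2 K (by omega)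
    exact ⟨fun M R v => Q M R v ∧ Q2 M R v, fun α f hf => (hQ α f hf).and (hQ2 α f hf),
      fun m hm R hR X hX v hv => and_congr (hQ' m hm R hR X hX v hv) (hQ2' m hm R hR X hX v hv)⟩
  | bex k p P _ ih =>
    intro c
    obtain ⟨K1, h1⟩ := poly_UDT a p c
    obtain ⟨K2, h2⟩ := ih (max c (K1 + 1))
    refine ⟨max K1 K2, fun K hK => ?_⟩
    obtain ⟨b1, Q1, hQ1, hQ1'⟩ := h1 K (by omega)
    have b1' := (h1 K1 le_rfl).1
    obtain ⟨Q, hQ, hQ'⟩ := h2 K (by omega)
    refine ⟨fun M R v => ∃ x : Fin (K + 1) → M, ∃ y : Fin (K + 1) → M, ∃ z : Fin (K + 1) → M,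
      Q1 M R (Fin.cons z v) ∧ addR R x y z ∧ Q M R (Fin.cons x v), ?_, ?_⟩
    · intro α f hf
      refine FD.ex (FD.ex (FD.ex (FD.and (hQ1.app ?_) (FD.and (addR_FD (Pj.inl (Pj.inl Pj.inr))
        (Pj.inl Pj.inr) Pj.inr) (hQ.app ?_)))))
      · intro i
        refine Fin.cases ?_ (fun i => ?_) i
        · exact Pj.inr
        · exact Pj.inl (Pj.inl (Pj.inl (hf i)))
      · intro i
        refine Fin.cases ?_ (fun i => ?_) i
        · exact Pj.inl (Pj.inl Pj.inr)
        · exact Pj.inl (Pj.inl (Pj.inl (hf i)))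
    · intro m hm R hR X hX v hv
      have hle1 : m ^ (K1 + 1) ≤ m ^ (max c (K1 + 1)) :=
        Nat.pow_le_pow_right (by omega) (le_max_right _ _)
      have hle2 : m ^ c ≤ m ^ (max c (K1 + 1)) :=
        Nat.pow_le_pow_right (by omega) (le_max_left _ _)
      have hcons : ∀ x : Fin (K + 1) → Fin m, (fun i => col ((Fin.cons x v :
          Fin (k + 1) → Fin (K + 1) → Fin m) i)) = Fin.cons (col x) (fun i => col (v i)) := by
        intro x
        funext i
        refine Fin.cases ?_ (fun i => ?_) i <;> rfl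
      have hbd : ∀ x : Fin (K + 1) → Fin m,
          col x ≤ MvPolynomial.eval (fun i => col (v i)) p →
          ∀ i, col ((Fin.cons x v : Fin (k + 1) → Fin (K + 1) → Fin m) i) <
            m ^ (max c (K1 + 1)) := by
        intro x hx i
        refine Fin.cases ?_ (fun i => ?_) i
        · show col x < _
          have := b1' m hm _ hv
          omega
        · show col (v i) < _
          exact (hv i).trans_le hle2
      beta_reduce
      constructor
      · rintro ⟨x, y, z, h3, h4, h5⟩
        rw [hQ1' m hm R hR z v hv] at h3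
        rw [hR.add] at h4
        have hx : col x ≤ MvPolynomial.eval (fun i => col (v i)) p := by omega
        rw [hQ' m hm R hR X hX _ (hbd x hx), hcons] at h5
        exact ⟨col x, hx, h5⟩
      · rintro ⟨x, hx, h5⟩
        have hb := b1 m hm _ hv
        obtain ⟨x, rfl⟩ := exists_col (K := K) (m := m) (hx.trans_lt hb)
        obtain ⟨z, hz⟩ := exists_col (K := K) (m := m) hb
        obtain ⟨y, hy⟩ := exists_col (K := K) (m := m)
          (N := MvPolynomial.eval (fun i => col (v i)) p - col x) (by omega)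
        refine ⟨x, y, z, (hQ1' m hm R hR z v hv).2 hz, ?_, ?_⟩
        · rw [hR.add]; omega
        · rw [hQ' m hm R hR X hX _ (hbd x hx), hcons]
          exact h5

end UDsec

/-- the tuple of the size of the structure -/
def sizeT {ι : Type} {a : ι → ℕ} {K : ℕ} {M : Type} (R : Interp (ASym ι) (aar a K) M)
    (x : Fin (K + 1) → M) : Prop :=
  ∀ i : Fin (K + 1), ((i : ℕ) ≠ 1 → ∀ b, ¬ ltR R b (x i)) ∧
    ((i : ℕ) = 1 → ∃ c, (∀ b, ¬ ltR R b c) ∧ sucD R c (x i))

lemma sizeT_FD {ι : Type} {a : ι → ℕ} {K : ℕ} {α : Type}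
    {e : ∀ (M : Type), (α → M) → (Fin (K + 1) → M)} (h : Pj α _ e) :
    FD (ASym ι) (aar a K) α (fun M R v => sizeT R (e M v)) := by
  unfold sizeT
  refine FD.all_fin (fun i => FD.and (FD.imp (FD.const _) (FD.all1 (FD.not ?_)))
    (FD.imp (FD.const _) (FD.ex1 (FD.and (FD.all1 (FD.not ?_)) ?_))))
  · obtain ⟨g, hg⟩ := h
    exact ltR_FD (El.var _) ⟨Sum.inl (g i), fun M v => by beta_reduce; rw [hg]; rfl⟩
  · exact ltR_FD (El.var _) (El.var _)
  · obtain ⟨g, hg⟩ := h
    exact sucD_FD (El.var _) ⟨Sum.inl (g i), fun M v => by beta_reduce; rw [hg]; rfl⟩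

lemma sizeT_iff {ι : Type} {a : ι → ℕ} {K m : ℕ} (hK : 1 ≤ K) (hm : 2 ≤ m)
    {R : Interp (ASym ι) (aar a K) (Fin m)} (hR : Std R)
    (x : Fin (K + 1) → Fin m) : sizeT R x ↔ col x = m := by
  have hmin : ∀ z : Fin m, (∀ b, ¬ ltR R b z) ↔ (z : ℕ) = 0 := by
    intro z
    simp only [hR.lt, Fin.lt_def]
    constructor
    · intro h
      have := h ⟨0, by omega⟩
      simp at this
      omega
    · intro h b; omega
  have hmK : m < m ^ (K + 1) := by
    calc m = m ^ 1 := (pow_one m).symm
      _ < m ^ (K + 1) := Nat.pow_lt_pow_right (by omega) (by omega)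
  have hdig : ∀ i : ℕ, dig m i m = if i = 1 then 1 else 0 := by
    intro i
    unfold dig
    rcases Nat.lt_trichotomy i 1 with h | h | h
    · have : i = 0 := by omega
      subst this
      simp
    · subst h
      rw [pow_one, Nat.div_self (by omega), if_pos rfl]
      exact Nat.mod_eq_of_lt (by omega)
    · rw [if_neg (by omega), Nat.div_eq_of_lt, Nat.zero_mod]
      calc m = m ^ 1 := (pow_one m).symm
        _ < m ^ i := Nat.pow_lt_pow_right (by omega) h
  have key : sizeT R x ↔ ∀ i : Fin (K + 1), (x i : ℕ) = if (i : ℕ) = 1 then 1 else 0 := by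
    unfold sizeT
    apply forall_congr'
    intro i
    simp only [hmin, sucD_iff hR.lt]
    by_cases h : (i : ℕ) = 1
    · simp only [h, ne_eq, not_true_eq_false, IsEmpty.forall_iff, true_and, forall_const,
        if_true]
      constructor
      · rintro ⟨c, hc, h1⟩; omega
      · intro h1
        exact ⟨⟨0, by omega⟩, rfl, by simpa using h1⟩
    · simp only [h, ne_eq, not_false_eq_true, forall_const, IsEmpty.forall_iff, and_true,
        if_false]
  rw [key]
  constructor
  · intro h
    have : x = tup m hmK := by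
      funext i
      apply Fin.ext
      rw [tup_apply, h i, hdig]
    rw [this, col_tup]
  · intro h i
    rw [← dig_col x i, h, hdig]

/-- Existential second-order bounded arithmetic gives spectra. -/
theorem RudX.isSpectrum {ι : Type} [Finite ι] {a : ι → ℕ} {P : SOA a → (Fin 1 → ℕ) → Prop}
    (h : RudX a 1 P) : IsSpectrum {m : ℕ | 1 ≤ m ∧ ∃ X : SOA a, P X (fun _ => m)} := by
  obtain ⟨K0, h0⟩ := h.main 2
  obtain ⟨K, hK0, hK1⟩ : ∃ K, K0 ≤ K ∧ 1 ≤ K := ⟨max K0 1, le_max_left _ _, le_max_right _ _⟩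
  obtain ⟨Q, hQ, hQ'⟩ := h0 K hK0
  let p1 : Prop := ∃ X : SOA a, P X (fun _ => 1)
  let S : ∀ (M : Type), Interp (ASym ι) (aar a K) M → (Empty → M) → Prop := fun M R _ =>
    ((∀ x y : M, x = y) ∧ p1) ∨ ((¬ ∀ x y : M, x = y) ∧ AxA R ∧
      ∃ x : Fin (K + 1) → M, sizeT R x ∧ Q M R (fun _ => x))
  have hS : FD (ASym ι) (aar a K) Empty S := by
    have hone : FD (ASym ι) (aar a K) Empty (fun M _ _ => ∀ x y : M, x = y) :=
      FD.all1 (FD.all1 (FD.eq (El.var _) (El.var _)))
    refine FD.or (FD.and hone (FD.const _)) (FD.and hone.not (FD.and AxA_FD (FD.ex (FD.and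
      (sizeT_FD Pj.inr) (hQ.app ?_)))))
    intro i
    exact Pj.inr
  have hsp := hS.isSpectrum
  have hset : {m : ℕ | 1 ≤ m ∧ ∃ X : SOA a, P X (fun _ => m)} =
      {n : ℕ | 1 ≤ n ∧ ∃ (M : Type) (_ : Fintype M) (R : Interp (ASym ι) (aar a K) M),
        Fintype.card M = n ∧ S M R Empty.elim} := by
    ext m
    simp only [Set.mem_ofPred_eq]
    apply and_congr_right
    intro hm
    constructor
    · rintro ⟨X, hX⟩
      let R : Interp (ASym ι) (aar a K) (Fin m) := fun s =>
        match s with
        | .lt => fun u => (show Fin 2 → Fin m from u) 0 < (show Fin 2 → Fin m from u) 1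
        | .add => fun u => ∃ x y z : Fin (K + 1) → Fin m, u = flat (b := 3) ![x, y, z] ∧
            col x + col y = col z
        | .mul => fun u => ∃ x y z : Fin (K + 1) → Fin m, u = flat (b := 3) ![x, y, z] ∧
            col x * col y = col z
        | .so i => fun u => ∃ w : Fin (a i) → Fin (K + 1) → Fin m, u = flat w ∧
            X i (fun j => col (w j))
      have hstd : Std R := by
        refine ⟨fun x y => Iff.rfl, fun x y z => ?_, fun x y z => ?_⟩
        · constructor
          · rintro ⟨x', y', z', h1, h2⟩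
            have h3 := flat_inj h1
            have e0 : x = x' := congrFun h3 0
            have e1 : y = y' := congrFun h3 1
            have e2 : z = z' := congrFun h3 2
            rw [e0, e1, e2]; exact h2
          · intro h1; exact ⟨x, y, z, rfl, h1⟩
        · constructor
          · rintro ⟨x', y', z', h1, h2⟩
            have h3 := flat_inj h1
            have e0 : x = x' := congrFun h3 0
            have e1 : y = y' := congrFun h3 1
            have e2 : z = z' := congrFun h3 2
            rw [e0, e1, e2]; exact h2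
          · intro h1; exact ⟨x, y, z, rfl, h1⟩
      have hso : ∀ i w, soR R i w ↔ X i (fun j => col (w j)) := by
        intro i w
        constructor
        · rintro ⟨w', h1, h2⟩
          rw [flat_inj h1]; exact h2
        · intro h1; exact ⟨w, rfl, h1⟩
      refine ⟨Fin m, inferInstance, R, by simp, ?_⟩
      rcases Nat.eq_or_lt_of_le hm with h1 | h1
      · left
        subst h1
        exact ⟨fun x y => Subsingleton.elim x y, X, hX⟩
      · right
        refine ⟨?_, hstd.axA, ?_⟩
        · intro h2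
          have := h2 ⟨0, by omega⟩ ⟨1, h1⟩
          simp at this
        · have hmK : m < m ^ (K + 1) := by
            calc m = m ^ 1 := (pow_one m).symm
              _ < m ^ (K + 1) := Nat.pow_lt_pow_right (by omega) (by omega)
          obtain ⟨x, hx⟩ := exists_col (K := K) (m := m) hmK
          refine ⟨x, (sizeT_iff hK1 (by omega) hstd x).2 hx, ?_⟩
          rw [hQ' m (by omega) R hstd X hso _ ?_]
          · simp only [hx]; exact hX
          · intro i
            simp only [hx]
            calc m = m ^ 1 := (pow_one m).symm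
              _ < m ^ 2 := Nat.pow_lt_pow_right (by omega) (by omega)
    · rintro ⟨M, hf, R, hc, hSM⟩
      rcases hSM with ⟨h1, h2⟩ | ⟨h1, hA, x, hx, hQx⟩
      · have hm1 : m = 1 := by
          rw [← hc]
          apply le_antisymm
          · exact Fintype.card_le_one_iff.2 h1
          · omega
        rw [hm1]
        exact h2
      · have hm2 : 2 ≤ m := by
          by_contra hlt
          apply h1
          have : Fintype.card M ≤ 1 := by omega
          exact Fintype.card_le_one_iff.1 this
        classical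
        let r : M → M → Prop := fun x y => ltR R x y
        have hSTO : IsStrictTotalOrder M r :=
          { trichotomous := fun x y hxy hyx => by
              rcases hA.total x y with h | h | h
              · exact absurd h hxy
              · exact h
              · exact absurd h hyx
            irrefl := hA.irrefl
            trans := hA.trans }
        let LO : LinearOrder M := linearOrderOfSTO r
        let e0 : Fin m ≃o M := monoEquivOfFin M hc
        let e : M ≃ Fin m := e0.symm.toEquiv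
        have hlt : ∀ x y : M, ltR R x y ↔ e x < e y := fun x y =>
          (e0.symm.lt_iff_lt (x := x) (y := y)).symm
        let R' : Interp (ASym ι) (aar a K) (Fin m) := fun s w => R s (e.symm ∘ w)
        have hA' : AxA R' := (AxA_FD.transport e R Empty.elim).1 hA
        have hlt' : ∀ x y, ltR R' x y ↔ x < y := by
          intro x y
          have h3 : ltR R' x y ↔ ltR R (e.symm x) (e.symm y) := by
            show R .lt _ ↔ R .lt _
            refine Iff.of_eq (congrArg _ ?_)
            funext i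
            change Fin 2 at i
            fin_cases i <;> rfl
          rw [h3, hlt]
          simp
        have hstd : Std R' := hA'.std hlt'
        have hsize : sizeT R' (e ∘ x) := by
          have := ((sizeT_FD (ι := ι) (a := a) (K := K) (α := Fin (K + 1)) Pj.id).transport
            e R x).1 hx
          exact this
        have hQe : Q (Fin m) R' (fun _ => e ∘ x) := by
          have := ((hQ.app (α := Fin (K + 1)) (F := fun M v => fun _ => v)
            (fun i => Pj.id)).transport e R x).1 hQx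
          exact this
        let X : SOA a := fun i w => ∃ u : Fin (a i) → Fin (K + 1) → Fin m,
          (fun j => col (u j)) = w ∧ soR R' i u
        have hso : ∀ i w, soR R' i w ↔ X i (fun j => col (w j)) := by
          intro i w
          constructor
          · intro h3; exact ⟨w, rfl, h3⟩
          · rintro ⟨u, h3, h4⟩
            have : u = w := by
              funext j
              exact col_inj (congrFun h3 j)
            rw [← this]; exact h4
        have hcx := (sizeT_iff hK1 hm2 hstd (e ∘ x)).1 hsize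
        refine ⟨X, ?_⟩
        rw [hQ' m hm2 R' hstd X hso _ ?_] at hQe
        · simp only [hcx] at hQe; exact hQe
        · intro i
          simp only [hcx]
          calc m = m ^ 1 := (pow_one m).symm
            _ < m ^ 2 := Nat.pow_lt_pow_right (by omega) (by omega)
  rw [hset]
  exact hsp

end Pool.Agent.Helper20.Spectra
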