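import Pool.Agent.Helper20.Spectra.Grid

/-!
# Tuple systems and their realisation on grids
-/

set_option autoImplicit false

namespace Pool.Agent.Helper20.Spectra

/-- Constraint system for labellings of `(k+1)`-tuples over a linearly ordered finite set. -/
structure TupSys (k : ℕ) (Λ : Type) where
  /-- condition on all pairs of tuples, depending on their equality pattern -/
  B : (Fin (k + 1) → Fin (k + 1) → Prop) → Λ → Λ → Prop
  /-- condition on tuples which differ by one step in digit `0` -/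
  S : Λ → Λ → Prop
  /-- condition on tuples with digit `0` minimal -/
  F : Λ → Prop
  /-- condition on tuples with digit `0` maximal -/
  Z : Λ → Prop

namespace TupSys

variable {k : ℕ} {Λ : Type}

/-- the labelling `l` satisfies all constraints -/
structure Ok (T : TupSys k Λ) (n : ℕ) (l : (Fin (k + 1) → Fin n) → Λ) : Prop where
  B : ∀ x y, T.B (fun i j => x i = y j) (l x) (l y)
  S : ∀ x x', (∀ i, i ≠ 0 → x' i = x i) → (x' 0 : ℕ) = x 0 + 1 → T.S (l x) (l x')
  F : ∀ x, (x 0 : ℕ) = 0 → T.F (l x)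
  Z : ∀ x, (x 0 : ℕ) + 1 = n → T.Z (l x)

/-- the system has a solution over an `n`-element set -/
def Sat (T : TupSys k Λ) (n : ℕ) : Prop := ∃ l : (Fin (k + 1) → Fin n) → Λ, T.Ok n l

/-- labels of grid cells -/
structure Cell (k : ℕ) (Λ : Type) where
  /-- `m i` at `(x,y)`: `n ^ i` divides `x` -/
  m : Fin (k + 2) → Prop
  /-- `m' i` at `(x,y)`: `n ^ i` divides `y` -/
  m' : Fin (k + 2) → Prop
  /-- `d i j` at `(x,y)`: digit `i` of `x` equals digit `j` of `y` -/
  d : Fin (k + 1) → Fin (k + 1) → Prop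
  a : Λ
  b : Λ
  g : Prop
  e : Prop

instance [Finite Λ] : Finite (Cell k Λ) := by
  apply Finite.of_injective (fun c : Cell k Λ => (c.m, c.m', c.d, c.a, c.b, c.g, c.e))
  rintro ⟨⟩ ⟨⟩ h
  simpa using h

/-- the grid system of a tuple system -/
def grid (T : TupSys k Λ) : GridSys (Cell k Λ) where
  U c := c.m 0 ∧ c.m' 0 ∧ (∀ i : Fin (k + 1), c.m i.succ → c.m i.castSucc) ∧
    (c.g → c.m = c.m' ∧ c.a = c.b) ∧ T.B c.d c.a c.b ∧
    (c.m (Fin.succ 0) → T.F c.a)
  H c c' := c.m' = c'.m' ∧ c.b = c'.b ∧ ¬ c'.m (Fin.last _) ∧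
    (∀ i j, ¬ c'.m (Fin.castSucc i) → (c'.d i j ↔ c.d i j)) ∧
    (∀ i, c.e → c'.m (Fin.castSucc i) → (c.d i 0 ↔ c'.m i.succ)) ∧
    (c'.m (Fin.succ 0) → T.Z c.a) ∧ (¬ c'.m (Fin.succ 0) → T.S c.a c'.a)
  V c c' := c.m = c'.m ∧ c.a = c'.a ∧ ¬ c'.m' (Fin.last _) ∧
    (∀ i j, ¬ c'.m' (Fin.castSucc j) → (c'.d i j ↔ c.d i j)) ∧
    (c.e ↔ c'.m' (Fin.succ 0))
  D c c' := (c.g ↔ c'.g) ∧
    ∀ i j, c'.m (Fin.castSucc i) → c'.m' (Fin.castSucc j) →
      (c'.d i j ↔ ((c'.m i.succ ↔ c'.m' j.succ) ∧ (c'.m i.succ ∨ c.d i j)))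
  L c := (∀ i, c.m i) ∧ (∀ i j, c.m' (Fin.castSucc j) → (c.d i j ↔ c.m' j.succ)) ∧
    (c.g ↔ c.m' (Fin.last _))
  B c := (∀ i, c.m' i) ∧ (∀ i j, c.m (Fin.castSucc i) → (c.d i j ↔ c.m i.succ)) ∧
    (c.g ↔ c.m (Fin.last _))
  R c := (∀ i, c.e → c.d i 0) ∧ T.Z c.a
  T c := c.e

/-- digits -/
def dig (n i X : ℕ) : ℕ := X / n ^ i % n

lemma dig_succ_of_not_dvd {n i X : ℕ} (h : ¬ n ^ i ∣ X + 1) : dig n i (X + 1) = dig n i X := by
  unfold dig
  rw [Nat.succ_div_of_not_dvd h]

lemma dig_succ_of_dvd {n i X : ℕ} (h : n ^ i ∣ X + 1) :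
    dig n i (X + 1) = (X / n ^ i + 1) % n := by
  unfold dig
  rw [Nat.succ_div_of_dvd h]

lemma dig_lt {n i X : ℕ} (hn : 0 < n) : dig n i X < n := Nat.mod_lt _ hn

lemma dvd_succ_iff {n i X : ℕ} (hn : 0 < n) (h : n ^ i ∣ X + 1) :
    n ^ (i + 1) ∣ X + 1 ↔ dig n i X + 1 = n := by
  have h1 : (X + 1) / n ^ i = X / n ^ i + 1 := Nat.succ_div_of_dvd h
  have h2 : n ^ (i + 1) ∣ X + 1 ↔ n ∣ X / n ^ i + 1 := by
    rw [← h1, pow_succ]
    constructor
    · rintro ⟨c, hc⟩
      refine ⟨c, ?_⟩
      rw [hc, mul_assoc, Nat.mul_div_cancel_left _ (pow_pos hn i)]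
    · rintro ⟨c, hc⟩
      refine ⟨c, ?_⟩
      rw [mul_assoc, ← hc, Nat.mul_div_cancel' h]
  rw [h2]
  unfold dig
  rw [Nat.dvd_iff_mod_eq_zero, Nat.add_mod]
  have h3 := Nat.mod_lt (X / n ^ i) hn
  rcases Nat.lt_or_ge 1 n with h4 | h4
  · rw [Nat.mod_eq_of_lt h4]
    constructor
    · intro h
      by_contra hne
      rw [Nat.mod_eq_of_lt (by omega)] at h
      omega
    · intro h
      rw [h, Nat.mod_self]
  · have : n = 1 := by omega
    subst this
    simp [Nat.mod_one]

lemma dig_succ_of_dvd' {n i X : ℕ} (hn : 0 < n) (h : n ^ i ∣ X + 1) :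
    dig n i (X + 1) = if n ^ (i + 1) ∣ X + 1 then 0 else dig n i X + 1 := by
  have key := dvd_succ_iff hn h
  rw [dig_succ_of_dvd h, Nat.add_mod]
  have h3 := dig_lt (i := i) (X := X) hn
  rcases Nat.lt_or_ge 1 n with h4 | h4
  · rw [Nat.mod_eq_of_lt h4]
    change (dig n i X + 1) % n = _
    split_ifs with h5
    · rw [key.1 h5, Nat.mod_self]
    · have h6 : ¬ (dig n i X + 1 = n) := fun h => h5 (key.2 h)
      exact Nat.mod_eq_of_lt (by omega)
  · have : n = 1 := by omega
    subst this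
    simp [Nat.mod_one]

lemma dig_zero {n i : ℕ} : dig n i 0 = 0 := by simp [dig]

lemma dig_eq_zero_iff {n i X : ℕ} (hn : 0 < n) (h : n ^ i ∣ X) :
    dig n i X = 0 ↔ n ^ (i + 1) ∣ X := by
  cases X with
  | zero => simp [dig_zero]
  | succ X =>
    rw [dig_succ_of_dvd' hn h]
    split_ifs with h1 <;> simp [h1]

/-- column of a tuple -/
def col {n : ℕ} (x : Fin (k + 1) → Fin n) : ℕ := (finFunctionFinEquiv x : Fin (n ^ (k + 1)))

/-- tuple of a column -/
def tup {n : ℕ} (X : ℕ) (hX : X < n ^ (k + 1)) : Fin (k + 1) → Fin n :=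
  finFunctionFinEquiv.symm ⟨X, hX⟩

lemma tup_apply {n : ℕ} (X : ℕ) (hX : X < n ^ (k + 1)) (i : Fin (k + 1)) :
    (tup X hX i : ℕ) = dig n i X := rfl

lemma col_lt {n : ℕ} (x : Fin (k + 1) → Fin n) : col x < n ^ (k + 1) := Fin.is_lt _

lemma tup_col {n : ℕ} (x : Fin (k + 1) → Fin n) : tup (col x) (col_lt x) = x :=
  finFunctionFinEquiv.symm_apply_apply x

lemma dig_col {n : ℕ} (x : Fin (k + 1) → Fin n) (i : Fin (k + 1)) :
    dig n i (col x) = x i := by
  rw [← tup_apply (col x) (col_lt x), tup_col]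

lemma col_tup {n : ℕ} (X : ℕ) (hX : X < n ^ (k + 1)) : col (tup X hX) = X := by
  unfold tup col
  simp

lemma dig_lt_of_col {n : ℕ} (x : Fin (k + 1) → Fin n) : 0 < n :=
  lt_of_le_of_lt (Nat.zero_le _) (x 0).is_lt

/-- completeness -/
lemma sat_grid_of_sat (T : TupSys k Λ) {n : ℕ} (hn : 1 ≤ n) (h : T.Sat n) :
    T.grid.Sat (n ^ (k + 1)) := by
  classical
  obtain ⟨l, hl⟩ := h
  have hN : 0 < n ^ (k + 1) := pow_pos hn _
  let x0 : Fin (k + 1) → Fin n := fun _ => ⟨0, hn⟩
  let t : ℕ → (Fin (k + 1) → Fin n) := fun X =>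
    if hX : X < n ^ (k + 1) then tup X hX else x0
  have ht : ∀ X, X < n ^ (k + 1) → ∀ i, (t X i : ℕ) = dig n i X := by
    intro X hX i
    simp only [t, dif_pos hX]
    exact tup_apply X hX i
  let g : ℕ → ℕ → Cell k Λ := fun X Y =>
    { m := fun i => n ^ (i : ℕ) ∣ X
      m' := fun i => n ^ (i : ℕ) ∣ Y
      d := fun i j => dig n i X = dig n j Y
      a := l (t X)
      b := l (t Y)
      g := X = Y
      e := n ∣ Y + 1 }
  have hlast : ∀ X, X + 1 < n ^ (k + 1) → ¬ n ^ (k + 1) ∣ X + 1 := by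
    intro X hX hd
    exact absurd (Nat.le_of_dvd (by omega) hd) (by omega)
  have hFin : ∀ X, X < n ^ (k + 1) → n ∣ X → T.F (l (t X)) := by
    intro X hX hd
    apply hl.F
    rw [ht X hX]
    have := (dig_eq_zero_iff (n := n) (i := 0) (X := X) hn (by simp)).2 (by simpa using hd)
    simpa using this
  have hZ : ∀ X, X < n ^ (k + 1) → n ∣ X + 1 → T.Z (l (t X)) := by
    intro X hX hd
    apply hl.Z
    rw [ht X hX]
    have := (dvd_succ_iff (n := n) (i := 0) (X := X) hn (by simp)).1 (by simpa using hd)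
    simpa using this
  refine ⟨g, ?_, ?_, ?_, ?_, ?_, ?_, ?_, ?_⟩
  · intro x y hx hy
    refine ⟨by simp [g], by simp [g], ?_, ?_, ?_, ?_⟩
    · intro i h
      simp only [g, Fin.val_succ, Fin.val_castSucc] at h ⊢
      exact dvd_trans (pow_dvd_pow n (Nat.le_succ _)) h
    · intro h
      simp only [g] at h
      subst h
      exact ⟨rfl, rfl⟩
    · have := hl.B (t x) (t y)
      simp only [Fin.ext_iff, ht x hx, ht y hy] at this
      exact this
    · intro h
      simp only [g] at h
      exact hFin x hx (by simpa using h)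
  · intro x y hx hy
    refine ⟨rfl, rfl, ?_, ?_, ?_, ?_, ?_⟩
    · simp only [g, Fin.val_last]
      exact hlast x hx
    · intro i j h
      simp only [g, Fin.val_castSucc] at h ⊢
      rw [dig_succ_of_not_dvd h]
    · intro i he h
      simp only [g, Fin.val_castSucc, Fin.val_succ, Fin.val_zero] at he h ⊢
      have h1 := (dvd_succ_iff (n := n) (i := 0) (X := y) hn (by simp)).1 (by simpa using he)
      have h2 := dvd_succ_iff (n := n) (i := i) (X := x) hn h
      rw [h2]; omega
    · intro h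
      simp only [g] at h
      exact hZ x (by omega) (by simpa using h)
    · intro h
      simp only [g] at h
      have h' : ¬ n ^ 1 ∣ x + 1 := by simpa using h
      apply hl.S
      · intro i hi
        apply Fin.ext
        rw [ht (x + 1) hx, ht x (by omega)]
        apply dig_succ_of_not_dvd
        intro hd
        apply h'
        refine dvd_trans (pow_dvd_pow n ?_) hd
        have : (i : ℕ) ≠ 0 := fun h => hi (Fin.ext h)
        omega
      · rw [ht (x + 1) hx, ht x (by omega)]
        have := dig_succ_of_dvd' (n := n) (i := 0) (X := x) hn (by simp)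
        rw [if_neg (by simpa using h')] at this
        simpa using this
  · intro x y hx hy
    refine ⟨rfl, rfl, ?_, ?_, ?_⟩
    · simp only [g, Fin.val_last]
      exact hlast y hy
    · intro i j h
      simp only [g, Fin.val_castSucc] at h ⊢
      rw [dig_succ_of_not_dvd h]
    · simp [g]
  · intro x y hx hy
    refine ⟨by simp [g], ?_⟩
    intro i j hi hj
    simp only [g, Fin.val_castSucc, Fin.val_succ] at hi hj ⊢
    rw [dig_succ_of_dvd' hn hi, dig_succ_of_dvd' hn hj]
    by_cases h1 : n ^ ((i : ℕ) + 1) ∣ x + 1 <;> by_cases h2 : n ^ ((j : ℕ) + 1) ∣ y + 1 <;>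
      simp [h1, h2]
  · intro y hy
    refine ⟨by simp [g], ?_, ?_⟩
    · intro i j h
      simp only [g, Fin.val_castSucc, Fin.val_succ, dig_zero] at h ⊢
      rw [← dig_eq_zero_iff hn h, eq_comm]
    · simp only [g, Fin.val_last]
      constructor
      · rintro rfl; simp
      · intro h
        rcases Nat.eq_zero_or_pos y with h0 | h0
        · exact h0.symm
        · exact absurd (Nat.le_of_dvd h0 h) (by omega)
  · intro x hx
    refine ⟨by simp [g], ?_, ?_⟩
    · intro i j h
      simp only [g, Fin.val_castSucc, Fin.val_succ, dig_zero] at h ⊢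
      rw [← dig_eq_zero_iff hn h]
    · simp only [g, Fin.val_last]
      constructor
      · rintro rfl; simp
      · intro h
        rcases Nat.eq_zero_or_pos x with h0 | h0
        · exact h0
        · exact absurd (Nat.le_of_dvd h0 h) (by omega)
  · intro x y hx hy
    refine ⟨?_, ?_⟩
    · intro i he
      simp only [g, Fin.val_zero] at he ⊢
      have h1 := (dvd_succ_iff (n := n) (i := 0) (X := y) hn (by simp)).1 (by simpa using he)
      have h2 := (dvd_succ_iff (n := n) (i := i) (X := x) hn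
        (by rw [hx]; exact pow_dvd_pow n (by omega))).1
        (by rw [hx]; exact pow_dvd_pow n (by omega))
      omega
    · exact hZ x (by omega) (by rw [hx]; exact dvd_pow_self n (by omega))
  · intro x y hx hy
    simp only [g, grid]
    rw [hy]
    exact dvd_pow_self n (by omega)

/-- soundness -/
lemma sat_of_sat_grid (T : TupSys k Λ) {n : ℕ} (hn : 1 ≤ n)
    (h : T.grid.Sat (n ^ (k + 1))) : T.Sat n := by
  classical
  obtain ⟨g, hg⟩ := h
  obtain ⟨N, hNdef⟩ : ∃ N, N = n ^ (k + 1) := ⟨_, rfl⟩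
  rw [← hNdef] at hg
  have hN : 0 < N := hNdef ▸ pow_pos hn _
  have hm : ∀ x y, x < N → y < N → (g x y).m = (g x 0).m ∧ (g x y).a = (g x 0).a := by
    intro x y hx
    induction y with
    | zero => intro _; exact ⟨rfl, rfl⟩
    | succ y ih =>
      intro hy
      obtain ⟨h1, h2⟩ := ih (by omega)
      obtain ⟨h3, h4, -⟩ := hg.V x y hx hy
      exact ⟨h3.symm.trans h1, h4.symm.trans h2⟩
  have hm' : ∀ x y, x < N → y < N → (g x y).m' = (g 0 y).m' ∧ (g x y).b = (g 0 y).b := by
    intro x y hx hy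
    induction x with
    | zero => exact ⟨rfl, rfl⟩
    | succ x ih =>
      obtain ⟨h1, h2⟩ := ih (by omega)
      obtain ⟨h3, h4, -⟩ := hg.H x y hx hy
      exact ⟨h3.symm.trans h1, h4.symm.trans h2⟩
  have hdiag : ∀ x, x < N → (g x x).g := by
    intro x
    induction x with
    | zero =>
      intro _
      exact (hg.L 0 hN).2.2.2 ((hg.B 0 hN).1 _)
    | succ x ih =>
      intro hx
      exact (hg.D x x hx hx).1.1 (ih (by omega))
  have hMM : ∀ x, x < N → (g 0 x).m' = (g x 0).m ∧ (g 0 x).b = (g x 0).a := by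
    intro x hx
    obtain ⟨-, -, -, h1, -⟩ := hg.U x x hx hx
    obtain ⟨h2, h3⟩ := h1 (hdiag x hx)
    obtain ⟨h4, h5⟩ := hm x x hx hx
    obtain ⟨h6, h7⟩ := hm' x x hx hx
    exact ⟨by rw [← h6, ← h2, h4], by rw [← h7, ← h3, h5]⟩
  obtain ⟨M, hMdef⟩ : ∃ M : Fin (k + 2) → ℕ → Prop, M = fun i x => (g x 0).m i := ⟨_, rfl⟩
  obtain ⟨A, hAdef⟩ : ∃ A : ℕ → Λ, A = fun x => (g x 0).a := ⟨_, rfl⟩
  have hmM : ∀ x y, x < N → y < N → ∀ i, (g x y).m i ↔ M i x := by
    intro x y hx hy i
    rw [(hm x y hx hy).1, hMdef]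
  have hmM' : ∀ x y, x < N → y < N → ∀ i, (g x y).m' i ↔ M i y := by
    intro x y hx hy i
    rw [(hm' x y hx hy).1, (hMM y hy).1, hMdef]
  have haA : ∀ x y, x < N → y < N → (g x y).a = A x := by
    intro x y hx hy
    rw [(hm x y hx hy).2, hAdef]
  have hbA : ∀ x y, x < N → y < N → (g x y).b = A y := by
    intro x y hx hy
    rw [(hm' x y hx hy).2, (hMM y hy).2, hAdef]
  have hM0 : ∀ x, x < N → M 0 x := fun x hx => (hmM x 0 hx hN 0).1 (hg.U x 0 hx hN).1
  have hMsucc : ∀ x, x < N → ∀ i : Fin (k + 1), M i.succ x → M i.castSucc x := by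
    intro x hx i h
    exact (hmM x 0 hx hN _).1 ((hg.U x 0 hx hN).2.2.1 i ((hmM x 0 hx hN _).2 h))
  have hM00 : ∀ i, M i 0 := fun i => (hmM 0 0 hN hN i).1 ((hg.L 0 hN).1 i)
  have hMlast : ∀ x, x + 1 < N → ¬ M (Fin.last _) (x + 1) := by
    intro x hx h
    exact (hg.H x 0 hx hN).2.2.1 ((hmM (x + 1) 0 hx hN _).2 h)
  obtain ⟨b, hb0, hbN, hbM, hbmin⟩ : ∃ b, 0 < b ∧ b ≤ N ∧ (b = N ∨ M (Fin.succ 0) b) ∧
      ∀ y, 0 < y → y < b → ¬ M (Fin.succ 0) y := by
    have hex : ∃ b, 0 < b ∧ (b = N ∨ M (Fin.succ 0) b) := ⟨N, hN, Or.inl rfl⟩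
    refine ⟨Nat.find hex, (Nat.find_spec hex).1, Nat.find_min' hex ⟨hN, Or.inl rfl⟩,
      (Nat.find_spec hex).2, ?_⟩
    intro y hy0 hy hM
    exact Nat.find_min hex hy ⟨hy0, Or.inr hM⟩
  have heb : ∀ x, x < N → (g x (b - 1)).e := by
    intro x hx
    by_cases hbe : b = N
    · exact hg.T x (b - 1) hx (by omega)
    · have hbM' := hbM.resolve_left hbe
      have h1 := (hg.V x (b - 1) hx (by omega)).2.2.2.2
      rw [show b - 1 + 1 = b by omega] at h1
      exact h1.2 ((hmM' x b hx (by omega) _).2 hbM')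
  have key : ∀ i : ℕ, ∀ hi : i < k + 2, (∀ x, x < N → (M ⟨i, hi⟩ x ↔ b ^ i ∣ x)) ∧
      b ^ i ∣ N := by
    intro i
    induction i with
    | zero =>
      intro hi
      refine ⟨fun x hx => ?_, by simp⟩
      simp only [pow_zero, one_dvd, iff_true]
      exact hM0 x hx
    | succ i ih =>
      intro hi
      obtain ⟨ih1, ih2⟩ := ih (by omega)
      obtain ⟨ii, hii⟩ : ∃ ii : Fin (k + 1), (ii : ℕ) = i := ⟨⟨i, by omega⟩, rfl⟩
      have hc : ii.castSucc = (⟨i, by omega⟩ : Fin (k + 2)) := by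
        apply Fin.ext; simp [hii]
      have hs : ii.succ = (⟨i + 1, hi⟩ : Fin (k + 2)) := by
        apply Fin.ext; simp [hii]
      have claim : ∀ x, x < N → (∀ y, y < b → ((g x y).d ii 0 ↔ y = dig b i x)) ∧
          (M ii.succ x ↔ b ^ (i + 1) ∣ x) := by
        intro x
        induction x with
        | zero =>
          intro _
          refine ⟨?_, by simp [hM00]⟩
          intro y hy
          have h1 := (hg.L y (by omega)).2.1 ii 0
            ((hmM' 0 y hN (by omega) _).2 (hM0 y (by omega)))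
          rw [h1, hmM' 0 y hN (by omega), dig_zero]
          constructor
          · intro h
            by_contra hne
            exact hbmin y (by omega) hy h
          · rintro rfl; exact hM00 _
        | succ x ihx =>
          intro hx
          obtain ⟨ihd, ihM⟩ := ihx (by omega)
          by_cases hd : b ^ i ∣ x + 1
          · have hMc : M ii.castSucc (x + 1) := by
              rw [hc]; exact (ih1 (x + 1) hx).2 hd
            have h1 := (hg.H x (b - 1) hx (by omega)).2.2.2.2.1 ii (heb x (by omega))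
              ((hmM (x + 1) (b - 1) hx (by omega) _).2 hMc)
            rw [ihd (b - 1) (by omega), hmM (x + 1) (b - 1) hx (by omega)] at h1
            have hMs : M ii.succ (x + 1) ↔ b ^ (i + 1) ∣ x + 1 := by
              rw [← h1, dvd_succ_iff hb0 hd]
              have := dig_lt (i := i) (X := x) hb0
              omega
            refine ⟨?_, hMs⟩
            intro y hy
            have hy' : y < N := by omega
            cases y with
            | zero =>
              have h2 := (hg.B (x + 1) hx).2.1 ii 0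
                ((hmM (x + 1) 0 hx hN _).2 hMc)
              rw [h2, hmM (x + 1) 0 hx hN, hMs, ← dig_eq_zero_iff hb0 hd, eq_comm]
            | succ y =>
              have h2 := (hg.D x y hx hy').2 ii 0
                ((hmM (x + 1) (y + 1) hx hy' _).2 hMc)
                ((hmM' (x + 1) (y + 1) hx hy' _).2 (hM0 _ hy'))
              rw [h2, hmM (x + 1) (y + 1) hx hy', hmM' (x + 1) (y + 1) hx hy',
                ihd y (by omega), hMs, dig_succ_of_dvd' hb0 hd]
              rw [eq_false (hbmin (y + 1) (by omega) hy)]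
              by_cases h4 : b ^ (i + 1) ∣ x + 1
              · simp [h4]
              · simp [h4]
          · have hMc : ¬ M ii.castSucc (x + 1) := by
              rw [hc]; exact fun h => hd ((ih1 (x + 1) hx).1 h)
            refine ⟨?_, ?_⟩
            · intro y hy
              have h1 := (hg.H x y hx (by omega)).2.2.2.1 ii 0
                (fun h => hMc ((hmM (x + 1) y hx (by omega) _).1 h))
              rw [h1, ihd y hy, dig_succ_of_not_dvd hd]
            · constructor
              · intro h; exact absurd (hMsucc (x + 1) hx ii h) hMc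
              · intro h
                exact absurd (dvd_trans (pow_dvd_pow b (Nat.le_succ i)) h) hd
      refine ⟨fun x hx => ?_, ?_⟩
      · rw [← hs]; exact (claim x hx).2
      · have h1 := (hg.R (N - 1) (b - 1) (by omega) (by omega)).1 ii (heb (N - 1) (by omega))
        rw [(claim (N - 1) (by omega)).1 (b - 1) (by omega)] at h1
        have h2 := (dvd_succ_iff (n := b) (i := i) (X := N - 1) hb0
          (by rw [show N - 1 + 1 = N by omega]; exact ih2)).2 (by omega)
        rwa [show N - 1 + 1 = N by omega] at h2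
  have hNb : N = b ^ (k + 1) := by
    obtain ⟨h1, h2⟩ := key (k + 1) (by omega)
    have hle : b ^ (k + 1) ≤ N := Nat.le_of_dvd hN h2
    by_contra hne
    have hlt : b ^ (k + 1) < N := by omega
    have hpos : 0 < b ^ (k + 1) := pow_pos hb0 _
    have h3 := (h1 _ hlt).2 dvd_rfl
    have h4 := hMlast (b ^ (k + 1) - 1) (by omega)
    rw [show b ^ (k + 1) - 1 + 1 = b ^ (k + 1) by omega] at h4
    exact h4 h3
  have hbn : b = n := by
    have h1 : n ^ (k + 1) = b ^ (k + 1) := by rw [← hNdef, hNb]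
    exact (Nat.pow_left_injective (by omega : k + 1 ≠ 0) h1).symm
  subst hbn
  have hM : ∀ (i : Fin (k + 2)) (x : ℕ), x < N → (M i x ↔ b ^ (i : ℕ) ∣ x) := by
    intro i x hx
    exact (key i i.is_lt).1 x hx
  have hd : ∀ x, x < N → ∀ y, y < N → ∀ i j, (g x y).d i j ↔ dig b i x = dig b j y := by
    intro x
    induction x with
    | zero =>
      intro _ y
      induction y with
      | zero =>
        intro _ i j
        have h1 := (hg.L 0 hN).2.1 i j ((hmM' 0 0 hN hN _).2 (hM00 _))
        rw [h1, hmM' 0 0 hN hN]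
        simp [hM00, dig_zero]
      | succ y ih =>
        intro hy i j
        by_cases hdv : b ^ (j : ℕ) ∣ y + 1
        · have h1 := (hg.L (y + 1) hy).2.1 i j
            ((hmM' 0 (y + 1) hN hy _).2 ((hM _ _ hy).2 (by simpa using hdv)))
          rw [h1, hmM' 0 (y + 1) hN hy, hM _ _ hy, dig_zero, Fin.val_succ,
            ← dig_eq_zero_iff hb0 hdv, eq_comm]
        · have h1 := (hg.V 0 y hN hy).2.2.2.1 i j
            (fun h => hdv (by simpa using (hM _ _ hy).1 ((hmM' 0 (y + 1) hN hy _).1 h)))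
          rw [h1, ih (by omega) i j, dig_succ_of_not_dvd hdv]
    | succ x ihx =>
      intro hx y
      induction y with
      | zero =>
        intro _ i j
        by_cases hdv : b ^ (i : ℕ) ∣ x + 1
        · have h1 := (hg.B (x + 1) hx).2.1 i j
            ((hmM (x + 1) 0 hx hN _).2 ((hM _ _ hx).2 (by simpa using hdv)))
          rw [h1, hmM (x + 1) 0 hx hN, hM _ _ hx, dig_zero, Fin.val_succ,
            ← dig_eq_zero_iff hb0 hdv]
        · have h1 := (hg.H x 0 hx hN).2.2.2.1 i j
            (fun h => hdv (by simpa using (hM _ _ hx).1 ((hmM (x + 1) 0 hx hN _).1 h)))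
          rw [h1, ihx (by omega) 0 hN i j, dig_succ_of_not_dvd hdv]
      | succ y ih =>
        intro hy i j
        by_cases hdv : b ^ (i : ℕ) ∣ x + 1
        · by_cases hdv' : b ^ (j : ℕ) ∣ y + 1
          · have h1 := (hg.D x y hx hy).2 i j
              ((hmM (x + 1) (y + 1) hx hy _).2 ((hM _ _ hx).2 (by simpa using hdv)))
              ((hmM' (x + 1) (y + 1) hx hy _).2 ((hM _ _ hy).2 (by simpa using hdv')))
            rw [h1, hmM (x + 1) (y + 1) hx hy, hmM' (x + 1) (y + 1) hx hy, hM _ _ hx, hM _ _ hy,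
              ihx (by omega) y (by omega) i j, dig_succ_of_dvd' hb0 hdv,
              dig_succ_of_dvd' hb0 hdv', Fin.val_succ, Fin.val_succ]
            by_cases h4 : b ^ ((i : ℕ) + 1) ∣ x + 1 <;> by_cases h5 : b ^ ((j : ℕ) + 1) ∣ y + 1 <;>
              simp [h4, h5]
          · have h1 := (hg.V (x + 1) y hx hy).2.2.2.1 i j
              (fun h => hdv' (by
                simpa using (hM _ _ hy).1 ((hmM' (x + 1) (y + 1) hx hy _).1 h)))
            rw [h1, ih (by omega) i j, dig_succ_of_not_dvd hdv']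
        · have h1 := (hg.H x (y + 1) hx hy).2.2.2.1 i j
            (fun h => hdv (by
              simpa using (hM _ _ hx).1 ((hmM (x + 1) (y + 1) hx hy _).1 h)))
          rw [h1, ihx (by omega) (y + 1) hy i j, dig_succ_of_not_dvd hdv]
  have hcol : ∀ x : Fin (k + 1) → Fin b, col x < N := fun x => hNdef ▸ col_lt x
  have hbdvd : b ∣ N := hNdef ▸ dvd_pow_self b (by omega)
  refine ⟨fun x => A (col x), ?_, ?_, ?_, ?_⟩
  · intro x y
    have h1 := (hg.U (col x) (col y) (hcol x) (hcol y)).2.2.2.2.1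
    rw [haA _ _ (hcol x) (hcol y), hbA _ _ (hcol x) (hcol y)] at h1
    have h2 : (g (col x) (col y)).d = fun i j => x i = y j := by
      funext i j
      rw [eq_iff_iff, hd _ (hcol x) _ (hcol y) i j, dig_col, dig_col, Fin.ext_iff]
    rw [h2] at h1
    exact h1
  · intro x x' hx hx0
    have h1 : ¬ b ^ (0 + 1) ∣ col x + 1 := by
      rw [dvd_succ_iff hb0 (by simp)]
      have := dig_col x 0
      simp only [Fin.val_zero] at this
      rw [this]
      have := (x' 0).is_lt
      omega
    have h1' : ¬ b ∣ col x + 1 := by simpa using h1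
    have h2 : col x + 1 < N := by
      have := hcol x
      rcases Nat.lt_or_ge (col x + 1) N with h | h
      · exact h
      · exfalso; apply h1'
        rw [show col x + 1 = N by omega]
        exact hbdvd
    have h2' : col x + 1 < b ^ (k + 1) := hNdef ▸ h2
    have h3 : tup (col x + 1) h2' = x' := by
      funext i
      apply Fin.ext
      rw [tup_apply]
      by_cases hi : i = 0
      · subst hi
        have h4 := dig_succ_of_dvd' (n := b) (i := 0) (X := col x) hb0 (by simp)
        rw [if_neg h1] at h4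
        have h5 := dig_col x 0
        simp only [Fin.val_zero] at h5 ⊢
        rw [h4, h5, hx0]
      · rw [dig_succ_of_not_dvd, dig_col, hx i hi]
        intro hdv
        apply h1
        refine dvd_trans (pow_dvd_pow b ?_) hdv
        have : (i : ℕ) ≠ 0 := fun h => hi (Fin.ext h)
        omega
    have h4 : col x' = col x + 1 := by rw [← h3, col_tup]
    have h5 := (hg.H (col x) 0 h2 hN).2.2.2.2.2.2
    rw [haA _ _ (hcol x) hN, haA _ _ h2 hN] at h5
    show T.S (A (col x)) (A (col x'))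
    rw [h4]
    apply h5
    intro h
    apply h1'
    simpa using (hM _ _ h2).1 ((hmM (col x + 1) 0 h2 hN _).1 h)
  · intro x hx0
    have h1 := (hg.U (col x) 0 (hcol x) hN).2.2.2.2.2
    rw [haA _ _ (hcol x) hN] at h1
    apply h1
    rw [hmM _ _ (hcol x) hN, hM _ _ (hcol x)]
    have h2 := (dig_eq_zero_iff (n := b) (i := 0) (X := col x) hb0 (by simp)).1
      (by have := dig_col x 0; simp only [Fin.val_zero] at this; omega)
    simpa using h2
  · intro x hx0
    have h2 := (dvd_succ_iff (n := b) (i := 0) (X := col x) hb0 (by simp)).2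
      (by have := dig_col x 0; simp only [Fin.val_zero] at this; omega)
    have h3 := hcol x
    rcases Nat.lt_or_ge (col x + 1) N with h | h
    · have h5 := (hg.H (col x) 0 h hN).2.2.2.2.2.1
      rw [haA _ _ (hcol x) hN] at h5
      apply h5
      rw [hmM _ _ h hN, hM _ _ h]
      simpa using h2
    · have h5 := (hg.R (col x) 0 (by omega) hN).2
      rw [haA _ _ (hcol x) hN] at h5
      exact h5

/-- **Tuple systems are realised by block sets** on squares of size `n ^ (k+1)`. -/
theorem exists_blocks (T : TupSys k Λ) [Finite Λ] :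
    ∃ Θ : Finset (ℕ × ℕ × ℕ × ℕ), ∀ n : ℕ, 1 ≤ n → (n ^ (k + 1) ∈ squareSizes Θ ↔ T.Sat n) := by
  obtain ⟨Θ, hΘ⟩ := T.grid.exists_blocks
  refine ⟨Θ, fun n hn => ?_⟩
  rw [hΘ (n ^ (k + 1)) (Nat.one_le_pow _ _ hn)]
  exact ⟨T.sat_of_sat_grid hn, T.sat_grid_of_sat hn⟩

end TupSys

end Pool.Agent.Helper20.Spectra
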