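import Pool.Agent.Helper20.Spectra.TwoOrd
import Pool.Agent.Helper20.Spectra.Defs

/-!
# Grids coded by two orders: decoding
-/

set_option autoImplicit false

namespace Pool.Agent.Helper20.Spectra

section Index

variable {m : ℕ} {r1 r2 : Fin m → Fin m → Prop}

lemma suc_iff (hlt : ∀ x y, r1 x y ↔ x < y) (x y : Fin m) : ImSuc r1 x y ↔ (y : ℕ) = x + 1 := by
  unfold ImSuc
  simp only [hlt, Fin.lt_def]
  constructor
  · rintro ⟨h1, h2⟩
    by_contra hne
    have hy := y.is_lt
    exact h2 ⟨x + 1, by omega⟩ ⟨by simp, by simp; omega⟩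
  · intro h
    exact ⟨by omega, fun c hc => by omega⟩

lemma sucIt_iff (hlt : ∀ x y, r1 x y ↔ x < y) (n : ℕ) (x y : Fin m) :
    SucIt r1 n x y ↔ (y : ℕ) = x + n := by
  induction n generalizing y with
  | zero =>
    show x = y ↔ _
    rw [Fin.ext_iff]
    omega
  | succ n ih =>
    show (∃ z, SucIt r1 n x z ∧ ImSuc r1 z y) ↔ _
    simp only [ih, suc_iff hlt]
    constructor
    · rintro ⟨z, h1, h2⟩; omega
    · intro h
      have := y.is_lt
      exact ⟨⟨x + n, by omega⟩, rfl, by simp; omega⟩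

lemma bpt_iff {s : ℕ} (hs : 2 ≤ s) (hlt : ∀ x y, r1 x y ↔ x < y) (h : BlkAx s r1 r2)
    (x : Fin m) : Bpt r1 r2 x ↔ s ∣ (x : ℕ) := by
  have h1 : ∀ a : ℕ, ∀ x : Fin m, (x : ℕ) = s * a → Bpt r1 r2 x := by
    intro a
    induction a with
    | zero =>
      intro x hx
      left
      intro q
      rw [hlt, Fin.lt_def]
      omega
    | succ a ih =>
      intro x hx
      have hxl := x.is_lt
      have hsa : s * (a + 1) = s * a + s := by ring
      have h2 := ih ⟨s * a, by omega⟩ rfl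
      refine h.nxt _ x h2 ((sucIt_iff hlt s _ _).2 ?_)
      simp only
      omega
  constructor
  · intro hx
    by_contra hnd
    have hsx := Nat.div_add_mod (x : ℕ) s
    have hlt' := Nat.mod_lt (x : ℕ) (show 0 < s by omega)
    have hpos : 0 < (x : ℕ) % s := Nat.pos_of_ne_zero (fun h0 => hnd (Nat.dvd_of_mod_eq_zero h0))
    have hxl := x.is_lt
    have h2 := h1 ((x : ℕ) / s) ⟨s * ((x : ℕ) / s), by omega⟩ rfl
    obtain ⟨q, hq, hq'⟩ := h.blk _ h2 ⟨(x : ℕ) % s - 1, by omega⟩
    rw [sucIt_iff hlt] at hq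
    simp only at hq
    apply hq'
    have : q = x := Fin.ext (by omega)
    rw [this]
    exact hx
  · rintro ⟨a, ha⟩
    exact h1 a x ha

lemma dvd_size {s : ℕ} (hs : 2 ≤ s) (hlt : ∀ x y, r1 x y ↔ x < y) (h : BlkAx s r1 r2)
    (hm : 1 ≤ m) : s ∣ m := by
  have hsx := Nat.div_add_mod (m - 1) s
  have hlt' := Nat.mod_lt (m - 1) (show 0 < s by omega)
  have h1 := (bpt_iff hs hlt h ⟨s * ((m - 1) / s), by omega⟩).2 ⟨_, rfl⟩
  obtain ⟨q, hq, _⟩ := h.blk _ h1 ⟨s - 2, by omega⟩
  rw [sucIt_iff hlt] at hq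
  simp only at hq
  have := q.is_lt
  refine ⟨(m - 1) / s + 1, ?_⟩
  rw [mul_add, mul_one]
  omega

end Index

/-- decoding of the cells -/
theorem cell_decode {M : Type} {Θ : Finset (ℕ × ℕ × ℕ × ℕ)} {T : ℕ} {D : M → Prop}
    {N F : M → M → Prop} {K : Gam T → M → Prop} (h : CellAx Θ T D N F K) {L : ℕ} (hL : 1 ≤ L)
    (c : Fin L → M) (hD : ∀ p, D p ↔ ∃ a, c a = p) (hinj : Function.Injective c)
    (hN : ∀ a b, N (c a) (c b) ↔ (b : ℕ) = a + 1) :
    ∃ W, L = W * W ∧ (3 ≤ W → W - 2 ∈ squareSizes Θ) := by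
  classical
  have hDc : ∀ a, D (c a) := fun a => (hD _).2 ⟨a, rfl⟩
  -- the first cell
  have hfirst : ∀ q, D q → ¬ N q (c ⟨0, hL⟩) := by
    intro q hq
    obtain ⟨a, rfl⟩ := (hD q).1 hq
    rw [hN]
    simp
  obtain ⟨hcol0, q0, hq0, hFq0⟩ := h.a1 _ (hDc ⟨0, hL⟩) hfirst
  obtain ⟨w, rfl⟩ := (hD q0).1 hq0
  obtain ⟨W, hW⟩ : ∃ W : ℕ, W = w := ⟨w, rfl⟩
  have hWL : W < L := hW ▸ w.is_lt
  have hFto : ∀ i : ℕ, ∀ a b : Fin L, (a : ℕ) = i → F (c a) (c b) → (b : ℕ) = a + W := by
    intro i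
    induction i with
    | zero =>
      intro a b ha hab
      have ha' : a = ⟨0, hL⟩ := Fin.ext ha
      rw [ha'] at hab
      have := h.a5 _ _ _ (hDc _) (hDc _) (hDc _) hab hFq0
      rw [hinj this, ← hW]
      omega
    | succ i ih =>
      intro a b ha hab
      have hal := a.is_lt
      have hNa : N (c ⟨i, by omega⟩) (c a) := (hN _ _).2 (by simp; omega)
      obtain ⟨q, hq, hNq, hFq⟩ := h.a4 _ _ _ (hDc _) (hDc _) (hDc _) hNa hab
      obtain ⟨j, rfl⟩ := (hD q).1 hq
      have h1 := ih _ _ rfl hFq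
      rw [hN] at hNq
      simp only at h1
      omega
  have hFfrom : ∀ i : ℕ, ∀ a b : Fin L, (a : ℕ) = i → (b : ℕ) = a + W → F (c a) (c b) := by
    intro i
    induction i with
    | zero =>
      intro a b ha hab
      have ha' : a = ⟨0, hL⟩ := Fin.ext ha
      have hb' : b = w := Fin.ext (by omega)
      rw [ha', hb']
      exact hFq0
    | succ i ih =>
      intro a b ha hab
      have hal := a.is_lt
      have hbl := b.is_lt
      have h1 := ih ⟨i, by omega⟩ ⟨i + W, by omega⟩ rfl rfl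
      exact h.a3 _ _ _ _ (hDc _) (hDc _) (hDc a) (hDc b) h1 ((hN _ _).2 (by simp; omega))
        ((hN _ _).2 (by simp; omega))
  have hF : ∀ a b : Fin L, F (c a) (c b) ↔ (b : ℕ) = a + W :=
    fun a b => ⟨hFto _ a b rfl, hFfrom _ a b rfl⟩
  have hW1 : 1 ≤ W := by
    by_contra h0
    have : F (c ⟨0, hL⟩) (c ⟨0, hL⟩) := (hF _ _).2 (by simp; omega)
    exact h.a6 _ (hDc _) this
  -- colours
  have hγ : ∀ a, ∃ γ, K γ (c a) ∧ ∀ γ', K γ' (c a) → γ' = γ := fun a => h.col _ (hDc a)
  choose γ hγ1 hγ2 using hγ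
  have hfl : ∀ i : ℕ, ∀ a : Fin L, (a : ℕ) = i → ((γ a).fl = true ↔ W ∣ i) := by
    intro i
    induction i using Nat.strong_induction_on with
    | _ i ih =>
      intro a ha
      have hal := a.is_lt
      by_cases hiW : i < W
      · rcases Nat.eq_zero_or_pos i with h0 | h0
        · have ha' : a = ⟨0, hL⟩ := Fin.ext (ha.trans h0)
          have h1 := (hcol0 (γ ⟨0, hL⟩) (hγ1 _)).1
          rw [ha', h0]
          simp [h1]
        · have h1 : (γ a).fl = false := by
            refine h.b4 (c a) (hDc a) ⟨c ⟨i - 1, by omega⟩, hDc _, (hN _ _).2 (by simp; omega)⟩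
              ?_ _ (hγ1 a)
            intro q hq hFq
            obtain ⟨j, rfl⟩ := (hD q).1 hq
            rw [hF] at hFq
            omega
          rw [h1]
          constructor
          · intro h2; simp at h2
          · intro h2
            have := Nat.le_of_dvd h0 h2
            omega
      · have h1 := (h.b3 (c ⟨i - W, by omega⟩) (c a) (hDc _) (hDc _)
          ((hF _ _).2 (by simp; omega)) _ _ (hγ1 _) (hγ1 _)).1
        rw [← h1, ih (i - W) (by omega) ⟨i - W, by omega⟩ rfl]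
        constructor
        · intro h2
          have := (Nat.dvd_add_right h2).2 (dvd_refl W)
          rwa [Nat.sub_add_cancel (by omega)] at this
        · intro h2
          exact Nat.dvd_sub h2 (dvd_refl W)
  have hdvdL : W ∣ L := by
    have h1 : ∀ q, D q → ¬ N (c ⟨L - 1, by omega⟩) q := by
      intro q hq
      obtain ⟨j, rfl⟩ := (hD q).1 hq
      rw [hN]
      have := j.is_lt
      simp
      omega
    have h2 := h.b1 _ (hDc ⟨L - 1, by omega⟩) h1 _ (hγ1 _)
    have h3 := (h.b3 (c ⟨L - 1 - W, by omega⟩) (c ⟨L - 1, by omega⟩) (hDc _) (hDc _)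
      ((hF _ _).2 (by simp; omega)) _ _ (hγ1 _) (hγ1 _)).2
    have h4 := h.b2 (c ⟨L - 1 - W, by omega⟩) (c ⟨L - W, by omega⟩) (hDc _) (hDc _)
      ((hN _ _).2 (by simp; omega)) _ _ (hγ1 _) (hγ1 _)
    have h5 : (γ ⟨L - W, by omega⟩).fl = true := by rw [← h4, h3, h2]
    have h6 := (hfl (L - W) ⟨L - W, by omega⟩ rfl).1 h5
    have := (Nat.dvd_add_right h6).2 (dvd_refl W)
    rwa [Nat.sub_add_cancel (by omega)] at this
  have hfr : ∀ a : Fin L, ((γ a).fr = true ↔ W ∣ (a : ℕ) + 1) := by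
    intro a
    have hal := a.is_lt
    by_cases hal' : (a : ℕ) + 1 < L
    · have h4 := h.b2 (c a) (c ⟨a + 1, hal'⟩) (hDc _) (hDc _)
        ((hN _ _).2 rfl) _ _ (hγ1 _) (hγ1 _)
      rw [h4, hfl _ ⟨a + 1, hal'⟩ rfl]
    · have h1 : ∀ q, D q → ¬ N (c a) q := by
        intro q hq
        obtain ⟨j, rfl⟩ := (hD q).1 hq
        rw [hN]
        have := j.is_lt
        omega
      have h2 := h.b1 _ (hDc a) h1 _ (hγ1 _)
      have h3 : (a : ℕ) + 1 = L := by omega
      rw [h3]
      exact ⟨fun _ => hdvdL, fun _ => h2⟩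
  -- the diagonal
  have hdiag : ∀ j : ℕ, j < W → ∃ hj : j * (W + 1) < L, (γ ⟨j * (W + 1), hj⟩).fd = true := by
    intro j
    induction j with
    | zero =>
      intro _
      refine ⟨by omega, ?_⟩
      have h1 := (hcol0 (γ ⟨0, hL⟩) (hγ1 _)).2
      have h2 : (⟨0 * (W + 1), by omega⟩ : Fin L) = ⟨0, hL⟩ := Fin.ext (by simp)
      rw [h2]
      exact h1
    | succ j ih =>
      intro hj
      obtain ⟨hj1, hj2⟩ := ih (by omega)
      have hnr : (γ ⟨j * (W + 1), hj1⟩).fr = false := by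
        by_contra hne
        have hne' : (γ ⟨j * (W + 1), hj1⟩).fr = true := by simpa using hne
        have h1 := (hfr _).1 hne'
        simp only at h1
        have h2 : j * (W + 1) + 1 = j * W + (j + 1) := by ring
        rw [h2] at h1
        have h3 := (Nat.dvd_add_right (Dvd.intro_left j rfl)).1 h1
        have := Nat.le_of_dvd (by omega) h3
        omega
      obtain ⟨q, q', hq, hq', hFq, hNq, hfd⟩ := h.d1 _ (hDc _) _ (hγ1 _) hj2 hnr
      obtain ⟨b, rfl⟩ := (hD q).1 hq
      obtain ⟨b', rfl⟩ := (hD q').1 hq'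
      rw [hF] at hFq
      rw [hN] at hNq
      simp only at hFq
      have h2 : (j + 1) * (W + 1) = j * (W + 1) + W + 1 := by ring
      have hb' := b'.is_lt
      have h3 : (j + 1) * (W + 1) < L := by omega
      refine ⟨h3, ?_⟩
      have h4 : (⟨(j + 1) * (W + 1), h3⟩ : Fin L) = b' := Fin.ext (by simp only; omega)
      rw [h4]
      exact hfd _ (hγ1 _)
  have hLW : L = W * W := by
    obtain ⟨hj1, hj2⟩ := hdiag (W - 1) (by omega)
    have h1 : (W - 1) * (W + 1) + 1 = W * W := by
      obtain ⟨V, rfl⟩ : ∃ V, W = V + 1 := ⟨W - 1, by omega⟩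
      simp only [Nat.add_sub_cancel]
      ring
    have h2 : (γ ⟨(W - 1) * (W + 1), hj1⟩).fr = true := by
      rw [hfr]
      simp only
      rw [h1]
      exact Dvd.intro _ rfl
    have h3 := h.d2 _ (hDc _) _ (hγ1 _) hj2 h2
    have h4 : L ≤ (W - 1) * (W + 1) + W := by
      by_contra h5
      exact h3 (c ⟨(W - 1) * (W + 1) + W, by omega⟩) (hDc _) ((hF _ _).2 rfl)
    obtain ⟨e, he⟩ := hdvdL
    have h6 : W * W ≤ W * e := by omega
    have h7 : W * e < W * (W + 1) := by
      have : W * (W + 1) = W * W + W := by ring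
      omega
    have h8 : W ≤ e := Nat.le_of_mul_le_mul_left h6 (by omega)
    have h9 : e < W + 1 := Nat.lt_of_mul_lt_mul_left h7
    have h10 : e = W := by omega
    rw [he, h10]
  refine ⟨W, hLW, fun hW3 => ?_⟩
  -- the array
  have hidx : ∀ x y, x < W → y < W → y * W + x < L := by
    intro x y hx hy
    rw [hLW]
    calc y * W + x < y * W + W := by omega
      _ = (y + 1) * W := by ring
      _ ≤ W * W := Nat.mul_le_mul_right _ hy
  refine ⟨by omega, fun x y => if hxy : x < W ∧ y < W then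
    (γ ⟨y * W + x, hidx x y hxy.1 hxy.2⟩).t else 0, ?_, ?_⟩
  · intro x y
    beta_reduce
    by_cases hxy : x < W ∧ y < W
    · rw [dif_pos hxy]
      obtain ⟨hx, hy⟩ := hxy
      have he := h.e0 _ (hDc ⟨y * W + x, hidx x y hx hy⟩) _ (hγ1 _)
      have e1 : (∀ q, D q → ¬ F q (c ⟨y * W + x, hidx x y hx hy⟩)) ↔ y = 0 := by
        constructor
        · intro h1
          by_contra h2
          obtain ⟨y', rfl⟩ : ∃ y', y = y' + 1 := ⟨y - 1, by omega⟩
          have h3 := hidx x y' hx (by omega)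
          refine h1 (c ⟨y' * W + x, h3⟩) (hDc _) ((hF _ _).2 ?_)
          simp only
          ring
        · rintro rfl q hq hFq
          obtain ⟨b, rfl⟩ := (hD q).1 hq
          rw [hF] at hFq
          simp only at hFq
          omega
      have e2 : (∀ q, D q → ¬ F (c ⟨y * W + x, hidx x y hx hy⟩) q) ↔ y + 1 = W := by
        constructor
        · intro h1
          by_contra h2
          have h3 := hidx x (y + 1) hx (by omega)
          refine h1 (c ⟨(y + 1) * W + x, h3⟩) (hDc _) ((hF _ _).2 ?_)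
          simp only
          ring
        · rintro h1 q hq hFq
          obtain ⟨b, rfl⟩ := (hD q).1 hq
          rw [hF] at hFq
          simp only at hFq
          have hb := b.is_lt
          have h2 : (y + 1) * W = y * W + W := by ring
          rw [h1, ← hLW] at h2
          omega
      have e3 : (γ ⟨y * W + x, hidx x y hx hy⟩).fl = true ↔ x = 0 := by
        rw [hfl _ _ rfl]
        constructor
        · intro h1
          have h2 := (Nat.dvd_add_right (Dvd.intro_left y rfl)).1 h1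
          exact Nat.eq_zero_of_dvd_of_lt h2 hx
        · rintro rfl
          exact Dvd.intro_left y rfl
      have e4 : (γ ⟨y * W + x, hidx x y hx hy⟩).fr = true ↔ x + 1 = W := by
        rw [hfr]
        simp only
        rw [add_assoc]
        constructor
        · intro h1
          have h2 := (Nat.dvd_add_right (Dvd.intro_left y rfl)).1 h1
          have := Nat.le_of_dvd (by omega) h2
          omega
        · intro h1
          rw [h1]
          exact (Nat.dvd_add_right (Dvd.intro_left y rfl)).2 (dvd_refl W)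
      rw [e1, e2, e3, e4] at he
      rw [ne_eq, he]
      omega
    · rw [dif_neg hxy]
      constructor
      · intro h1; exact absurd rfl h1
      · intro h1
        exfalso
        apply hxy
        omega
  · intro x y hx hy
    have hx1 : x < W := by omega
    have hx2 : x + 1 < W := by omega
    have hy1 : y < W := by omega
    have hy2 : y + 1 < W := by omega
    beta_reduce
    rw [dif_pos ⟨hx1, hy1⟩, dif_pos ⟨hx2, hy1⟩, dif_pos ⟨hx1, hy2⟩, dif_pos ⟨hx2, hy2⟩]
    refine h.e1 (c ⟨y * W + x, hidx x y hx1 hy1⟩) (c ⟨y * W + (x + 1), hidx _ _ hx2 hy1⟩)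
      (c ⟨(y + 1) * W + x, hidx _ _ hx1 hy2⟩) (c ⟨(y + 1) * W + (x + 1), hidx _ _ hx2 hy2⟩)
      (hDc _) (hDc _) (hDc _) (hDc _) ((hN _ _).2 rfl) ((hF _ _).2 ?_) ((hN _ _).2 rfl)
      _ _ _ _ (hγ1 _) (hγ1 _) (hγ1 _) (hγ1 _) ?_
    · simp only
      ring
    · by_contra hne
      have hne' : (γ ⟨y * W + x, hidx x y hx1 hy1⟩).fr = true := by simpa using hne
      have h1 := (hfr _).1 hne'
      simp only at h1
      rw [add_assoc] at h1
      have h2 := (Nat.dvd_add_right (Dvd.intro_left y rfl)).1 h1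
      have := Nat.le_of_dvd (by omega) h2
      omega

end Pool.Agent.Helper20.Spectra
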