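import Pool.Agent.Helper20.Spectra.TwoDec

/-!
# Grids coded by two orders: encoding
-/

set_option autoImplicit false

namespace Pool.Agent.Helper20.Spectra

/-- colour of the cell with index `i` -/
def colr (T W : ℕ) (a : ℕ → ℕ → ℕ) (i : ℕ) : Gam T :=
  (⟨min (a (i % W) (i / W)) T, by omega⟩, decide (i % W = 0), decide (i % W = W - 1),
    decide (i % W = i / W))

theorem cell_encode {M : Type} {Θ : Finset (ℕ × ℕ × ℕ × ℕ)} {T : ℕ} {D : M → Prop}
    {N F : M → M → Prop} {K : Gam T → M → Prop} {W n : ℕ} (hWn : W = n + 2) (hn : 1 ≤ n)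
    (a : ℕ → ℕ → ℕ) (ha1 : ∀ x y, a x y ≠ 0 ↔ (1 ≤ x ∧ x ≤ n) ∧ (1 ≤ y ∧ y ≤ n))
    (ha2 : ∀ x y, x ≤ n → y ≤ n → (a x y, a (x + 1) y, a x (y + 1), a (x + 1) (y + 1)) ∈ Θ)
    (hT : ∀ x y, a x y ≤ T) (c : Fin (W * W) → M) (hD : ∀ p, D p ↔ ∃ i, c i = p)
    (hN : ∀ i j, N (c i) (c j) ↔ (j : ℕ) = i + 1)
    (hF : ∀ i j, F (c i) (c j) ↔ (j : ℕ) = i + W)
    (hK : ∀ γ i, K γ (c i) ↔ γ = colr T W a i) : CellAx Θ T D N F K := by
  have hW0 : 0 < W := by omega
  have hDc : ∀ i, D (c i) := fun i => (hD _).2 ⟨i, rfl⟩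
  have ht : ∀ i, (colr T W a i).t = a (i % W) (i / W) := by
    intro i
    show min (a (i % W) (i / W)) T = _
    exact min_eq_left (hT _ _)
  have hfl : ∀ i, (colr T W a i).fl = decide (i % W = 0) := fun i => rfl
  have hfr : ∀ i, (colr T W a i).fr = decide (i % W = W - 1) := fun i => rfl
  have hfd : ∀ i, (colr T W a i).fd = decide (i % W = i / W) := fun i => rfl
  have hdm : ∀ i, W * (i / W) + i % W = i := fun i => Nat.div_add_mod i W
  have hml : ∀ i, i % W < W := fun i => Nat.mod_lt _ hW0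
  have hWW : W < W * W := by nlinarith
  have hsucmod : ∀ i, i % W ≠ W - 1 → (i + 1) % W = i % W + 1 ∧ (i + 1) / W = i / W := by
    intro i hi
    have h1 := hml i
    have h2 : i + 1 = W * (i / W) + (i % W + 1) := by have := hdm i; omega
    constructor
    · conv_lhs => rw [h2]
      rw [Nat.mul_add_mod]
      exact Nat.mod_eq_of_lt (by omega)
    · conv_lhs => rw [h2]
      have h3 : (i % W + 1) / W = 0 := Nat.div_eq_of_lt (by omega)
      rw [Nat.mul_add_div hW0, h3, add_zero]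
  have hdlt : ∀ i, i < W * W → i / W < W := fun i hi => Nat.div_lt_of_lt_mul hi
  have hbound : ∀ i, i < W * W → i / W + 1 < W → i + W < W * W := by
    intro i _ h
    have h1 := hdm i
    have h2 := hml i
    have h3 : W * (i / W + 2) ≤ W * W := Nat.mul_le_mul_left _ h
    have h4 : W * (i / W + 2) = W * (i / W) + W + W := by ring
    omega
  refine ⟨?_, ?_, ?_, ?_, ?_, ?_, ?_, ?_, ?_, ?_, ?_, ?_, ?_, ?_⟩
  · -- col
    intro p hp
    obtain ⟨i, rfl⟩ := (hD p).1 hp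
    exact ⟨_, (hK _ i).2 rfl, fun γ' h => (hK _ i).1 h⟩
  · -- a1
    intro p hp hq
    obtain ⟨i, rfl⟩ := (hD p).1 hp
    have hi : (i : ℕ) = 0 := by
      by_contra h0
      have hil := i.is_lt
      exact hq (c ⟨i - 1, by omega⟩) (hDc _) ((hN _ _).2 (by simp only; omega))
    refine ⟨fun γ hγ => ?_, c ⟨W, hWW⟩, hDc _, (hF _ _).2 (by simp only; omega)⟩
    rw [(hK _ _).1 hγ, hfl, hfd, hi]
    simp
  · -- a3
    intro p q p' q' hp hq hp' hq' h1 h2 h3
    obtain ⟨i, rfl⟩ := (hD p).1 hp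
    obtain ⟨j, rfl⟩ := (hD q).1 hq
    obtain ⟨i', rfl⟩ := (hD p').1 hp'
    obtain ⟨j', rfl⟩ := (hD q').1 hq'
    rw [hF] at *
    rw [hN] at *
    omega
  · -- a4
    intro p p' q' hp hp' hq' h1 h2
    obtain ⟨i, rfl⟩ := (hD p).1 hp
    obtain ⟨i', rfl⟩ := (hD p').1 hp'
    obtain ⟨j', rfl⟩ := (hD q').1 hq'
    rw [hF] at h2
    rw [hN] at h1
    have := j'.is_lt
    exact ⟨c ⟨j' - 1, by omega⟩, hDc _, (hN _ _).2 (by simp only; omega),
      (hF _ _).2 (by simp only; omega)⟩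
  · -- a5
    intro p q q' hp hq hq' h1 h2
    obtain ⟨i, rfl⟩ := (hD p).1 hp
    obtain ⟨j, rfl⟩ := (hD q).1 hq
    obtain ⟨j', rfl⟩ := (hD q').1 hq'
    rw [hF] at *
    have : j = j' := Fin.ext (by omega)
    rw [this]
  · -- a6
    intro p hp
    obtain ⟨i, rfl⟩ := (hD p).1 hp
    rw [hF]
    omega
  · -- b1
    intro p hp hq γ hγ
    obtain ⟨i, rfl⟩ := (hD p).1 hp
    have hil := i.is_lt
    have hi : (i : ℕ) + 1 = W * W := by
      by_contra h0
      exact hq (c ⟨i + 1, by omega⟩) (hDc _) ((hN _ _).2 rfl)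
    rw [(hK _ _).1 hγ, hfr]
    have h1 : (i : ℕ) = W * (W - 1) + (W - 1) := by
      obtain ⟨V, rfl⟩ : ∃ V, W = V + 1 := ⟨W - 1, by omega⟩
      simp only [Nat.add_sub_cancel]
      have : (V + 1) * (V + 1) = (V + 1) * V + V + 1 := by ring
      omega
    rw [h1, Nat.mul_add_mod, Nat.mod_eq_of_lt (by omega)]
    simp
  · -- b2
    intro p q hp hq h1 γ δ hγ hδ
    obtain ⟨i, rfl⟩ := (hD p).1 hp
    obtain ⟨j, rfl⟩ := (hD q).1 hq
    rw [hN] at h1
    rw [(hK _ _).1 hγ, (hK _ _).1 hδ, hfr, hfl, h1]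
    by_cases h2 : (i : ℕ) % W = W - 1
    · have h3 : (i : ℕ) + 1 = W * (i / W + 1) := by
        have := hdm i
        have h4 : W * ((i : ℕ) / W + 1) = W * (i / W) + W := by ring
        omega
      rw [h3, Nat.mul_mod_right]
      simp [h2]
    · rw [(hsucmod _ h2).1]
      simp [h2]
  · -- b3
    intro p q hp hq h1 γ δ hγ hδ
    obtain ⟨i, rfl⟩ := (hD p).1 hp
    obtain ⟨j, rfl⟩ := (hD q).1 hq
    rw [hF] at h1
    rw [(hK _ _).1 hγ, (hK _ _).1 hδ, hfl, hfr, hfl, hfr, h1, Nat.add_mod_right]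
    exact ⟨rfl, rfl⟩
  · -- b4
    intro p hp h1 h2 γ hγ
    obtain ⟨i, rfl⟩ := (hD p).1 hp
    obtain ⟨q, hq, hNq⟩ := h1
    obtain ⟨j, rfl⟩ := (hD q).1 hq
    rw [hN] at hNq
    have hil := i.is_lt
    have hi : (i : ℕ) < W := by
      by_contra h3
      exact h2 (c ⟨i - W, by omega⟩) (hDc _) ((hF _ _).2 (by simp only; omega))
    rw [(hK _ _).1 hγ, hfl, Nat.mod_eq_of_lt hi]
    simp
    omega
  · -- d1
    intro p hp γ hγ h1 h2
    obtain ⟨i, rfl⟩ := (hD p).1 hp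
    have hil := i.is_lt
    rw [(hK _ _).1 hγ, hfd, decide_eq_true_eq] at h1
    rw [(hK _ _).1 hγ, hfr, decide_eq_false_iff_not] at h2
    have h3 := hml i
    have h4 := hbound i hil (by omega)
    have h5 : (i : ℕ) + W + 1 < W * W := by
      by_contra h6
      have h7 : (i : ℕ) + W + 1 = W * W := by omega
      have h8 := hsucmod (i + W) (by rw [Nat.add_mod_right]; exact h2)
      rw [h7, Nat.mul_mod_right] at h8
      omega
    refine ⟨c ⟨i + W, h4⟩, c ⟨i + W + 1, h5⟩, hDc _, hDc _, (hF _ _).2 rfl, (hN _ _).2 rfl,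
      fun δ hδ => ?_⟩
    rw [(hK _ _).1 hδ, hfd, decide_eq_true_eq]
    have h8 := hsucmod (i + W) (by rw [Nat.add_mod_right]; exact h2)
    simp only
    rw [h8.1, h8.2, Nat.add_mod_right, Nat.add_div_right _ hW0, h1]
  · -- d2
    intro p hp γ hγ h1 h2 q hq
    obtain ⟨i, rfl⟩ := (hD p).1 hp
    obtain ⟨j, rfl⟩ := (hD q).1 hq
    rw [hF]
    intro h3
    rw [(hK _ _).1 hγ, hfd, decide_eq_true_eq] at h1
    rw [(hK _ _).1 hγ, hfr, decide_eq_true_eq] at h2
    have hj := j.is_lt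
    have h4 := hdm i
    rw [← h1, h2] at h4
    have h5 : W * (W - 1) + W = W * W := by
      obtain ⟨V, rfl⟩ : ∃ V, W = V + 1 := ⟨W - 1, by omega⟩
      simp only [Nat.add_sub_cancel]
      ring
    omega
  · -- e0
    intro p hp γ hγ
    obtain ⟨i, rfl⟩ := (hD p).1 hp
    have hil := i.is_lt
    rw [(hK _ _).1 hγ, ht, hfl, hfr, decide_eq_true_eq, decide_eq_true_eq]
    have h1 := ha1 ((i : ℕ) % W) ((i : ℕ) / W)
    have e1 : (∀ q, D q → ¬ F q (c i)) ↔ (i : ℕ) / W = 0 := by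
      constructor
      · intro h2
        apply Nat.div_eq_of_lt
        by_contra h3
        exact h2 (c ⟨i - W, by omega⟩) (hDc _) ((hF _ _).2 (by simp only; omega))
      · intro h2 q hq
        obtain ⟨j, rfl⟩ := (hD q).1 hq
        rw [hF]
        have h3 := hdm i
        have h4 := hml i
        rw [h2] at h3
        omega
    have e2 : (∀ q, D q → ¬ F (c i) q) ↔ (i : ℕ) / W + 1 = W := by
      constructor
      · intro h2
        by_contra h3
        have h4 := hdlt i hil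
        have h5 := hbound i hil (by omega)
        exact h2 (c ⟨i + W, h5⟩) (hDc _) ((hF _ _).2 rfl)
      · intro h2 q hq
        obtain ⟨j, rfl⟩ := (hD q).1 hq
        rw [hF]
        have h3 := hdm i
        have hj := j.is_lt
        have h5 : W * ((i : ℕ) / W + 1) = W * (i / W) + W := by ring
        rw [h2] at h5
        omega
    rw [e1, e2]
    have h2 := hml i
    have h3 := hdlt i hil
    have h30 := Nat.zero_le ((i : ℕ) / W)
    have h20 := Nat.zero_le ((i : ℕ) % W)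
    constructor
    · intro h4
      by_contra h5
      exact (h1.2 (by omega)) h4
    · intro h4
      by_contra h5
      have := h1.1 h5
      omega
  · -- e1
    intro p p' q q' hp hp' hq hq' h1 h2 h3 γ γ' δ δ' hγ hγ' hδ hδ' h4
    obtain ⟨i, rfl⟩ := (hD p).1 hp
    obtain ⟨i', rfl⟩ := (hD p').1 hp'
    obtain ⟨j, rfl⟩ := (hD q).1 hq
    obtain ⟨j', rfl⟩ := (hD q').1 hq'
    rw [hN] at h1 h3
    rw [hF] at h2
    rw [(hK _ _).1 hγ, hfr, decide_eq_false_iff_not] at h4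
    rw [(hK _ _).1 hγ, (hK _ _).1 hγ', (hK _ _).1 hδ, (hK _ _).1 hδ', ht, ht, ht, ht]
    have h5 := hsucmod (i + W) (by rw [Nat.add_mod_right]; exact h4)
    have h6 := hsucmod i h4
    have h7 := j.is_lt
    have h8 : (i : ℕ) / W + 1 < W := by
      have := hdlt j h7
      rw [h2, Nat.add_div_right _ hW0] at this
      exact this
    have h9 := hml i
    rw [h3, h1, h2, h5.1, h5.2, h6.1, h6.2, Nat.add_mod_right, Nat.add_div_right _ hW0]
    exact ha2 _ _ (by omega) (by omega)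

end Pool.Agent.Helper20.Spectra
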