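import Pool.Agent.Helper20.Spectra.TwoPos
import Pool.Agent.Helper20.Spectra.Universal

/-!
# Sizes of partial orders of width two
-/

set_option autoImplicit false

namespace Pool.Agent.Helper20.Spectra

open FirstOrder FirstOrder.Language

/-- The set of all `n ≥ 1` such that some partial order with exactly `n` elements, in which among
any three elements two are comparable (width at most two), satisfies the first-order sentence `φ`
of the language of orders. -/
def widthTwoSizes (φ : FirstOrder.Language.order.Sentence) : Set ℕ :=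
  {n : ℕ | 1 ≤ n ∧ ∃ (M : Type) (_ : PartialOrder M) (_ : Fintype M), Fintype.card M = n ∧
    (∀ x y z : M, x ≤ y ∨ y ≤ x ∨ y ≤ z ∨ z ≤ y ∨ x ≤ z ∨ z ≤ x) ∧
    @FirstOrder.Language.Sentence.Realize FirstOrder.Language.order M
      (FirstOrder.Language.orderStructure M) φ}

/-- translation of vocabularies -/
def toOrd : RelLang Unit (fun _ => 2) →ᴸ Language.order where
  onFunction := fun _ f => Empty.elim f
  onRelation := fun _ r => r.2 ▸ (leSymb : Language.order.Relations 2)

/-- the interpretation given by an order relation -/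
def ordI (M : Type) [LE M] : Interp Unit (fun _ => 2) M := fun _ v => v 0 ≤ v 1

lemma toOrd_expansion (M : Type) [LE M] :
    @LHom.IsExpansionOn _ _ toOrd M (mkS (ordI M)) (orderStructure M) := by
  let _ := mkS (ordI M)
  let _ := orderStructure M
  refine ⟨?_, ?_⟩
  · intro n f x
    exact Empty.elim f
  · rintro n ⟨u, rfl⟩ x
    rfl

lemma leR_ordI (M : Type) [LE M] : leR (ordI M) = fun x y => x ≤ y := by
  funext x y
  rfl

/-- definable classes of orders are given by sentences of the language of orders -/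
lemma exists_ord_sentence {P : ∀ (M : Type), Interp Unit (fun _ => 2) M → Prop}
    (h : FD Unit (fun _ => 2) Empty (fun M R _ => P M R)) :
    ∃ φ : Language.order.Sentence, ∀ (M : Type) (_ : LE M),
      @Sentence.Realize Language.order M (orderStructure M) φ ↔ P M (ordI M) := by
  obtain ⟨ψ, hψ⟩ := h
  refine ⟨toOrd.onSentence ψ, fun M _ => ?_⟩
  have h1 := toOrd_expansion M
  let _ := mkS (ordI M)
  let _ := orderStructure M
  have h2 : Formula.Realize ψ (Empty.elim : Empty → M) ↔ P M (ordI M) :=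
    hψ M (ordI M) Empty.elim
  rw [LHom.realize_onSentence, ← h2]
  exact (real_iff (mkS (ordI M)) ψ Empty.elim default).symm

lemma orderStructure_eq {M : Type} (T : Language.order.Structure M) :
    T = @orderStructure M ⟨fun x y => T.RelMap (leSymb : Language.order.Relations 2) ![x, y]⟩ := by
  ext n f x
  · exact Empty.elim f
  · cases f
    have : x = ![x 0, x 1] := by
      funext i
      fin_cases i <;> rfl
    conv_lhs => rw [this]
    rfl

lemma widthTwoSizes_isSpectrum (φ : Language.order.Sentence) : IsSpectrum (widthTwoSizes φ) := by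
  have hP : FD Unit (fun _ => 2) Empty (fun M R _ => (∀ x : M, leR R x x) ∧
      (∀ x y z : M, leR R x y → leR R y z → leR R x z) ∧
      (∀ x y : M, leR R x y → leR R y x → x = y) ∧
      (∀ x y z : M, leR R x y ∨ leR R y x ∨ leR R y z ∨ leR R z y ∨ leR R x z ∨ leR R z x)) := by
    have v0 : ∀ {α : Type}, El (α ⊕ Unit) (fun M v => v (Sum.inr ())) := El.inr
    have hle := leR_BFD
    refine FD.and (FD.all1 (hle _ _ _ v0 v0)) (FD.and (FD.all1 (FD.all1 (FD.all1 (FD.imp
      (hle _ _ _ v0.inl.inl v0.inl) (FD.imp (hle _ _ _ v0.inl v0) (hle _ _ _ v0.inl.inl v0))))))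
      (FD.and (FD.all1 (FD.all1 (FD.imp (hle _ _ _ v0.inl v0) (FD.imp (hle _ _ _ v0 v0.inl)
        (FD.eq v0.inl v0))))) (FD.all1 (FD.all1 (FD.all1 ?_)))))
    exact FD.or (hle _ _ _ v0.inl.inl v0.inl) (FD.or (hle _ _ _ v0.inl v0.inl.inl)
      (FD.or (hle _ _ _ v0.inl v0) (FD.or (hle _ _ _ v0 v0.inl)
      (FD.or (hle _ _ _ v0.inl.inl v0) (hle _ _ _ v0 v0.inl.inl)))))
  obtain ⟨χ, hχ⟩ := exists_ord_sentence hP
  have hf1 : Finite (Σ l, Language.order.Functions l) := by
    have : IsEmpty (Σ l, Language.order.Functions l) := ⟨fun x => Empty.elim x.2⟩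
    infer_instance
  have hf2 : Finite (Σ l, Language.order.Relations l) := inferInstance
  refine ⟨Language.order, hf1, hf2, χ ⊓ φ, ?_⟩
  ext n
  constructor
  · rintro ⟨hn, M, hM, hf, hc, hw, hr⟩
    refine ⟨hn, M, orderStructure M, hf, hc, ?_⟩
    let _ := orderStructure M
    show Sentence.Realize M (χ ⊓ φ)
    unfold Sentence.Realize
    rw [Formula.realize_inf]
    refine ⟨(hχ M _).2 ?_, hr⟩
    rw [leR_ordI]
    exact ⟨fun x => le_refl x, fun x y z => le_trans, fun x y => le_antisymm, hw⟩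
  · rintro ⟨hn, M, hM, hf, hc, hr⟩
    unfold Sentence.Realize at hr
    rw [Formula.realize_inf] at hr
    obtain ⟨hr1, hr2⟩ := hr
    let hLE : LE M := ⟨fun x y => hM.RelMap (leSymb : Language.order.Relations 2) ![x, y]⟩
    have e := orderStructure_eq hM
    rw [e] at hr1 hr2
    have h1 := (hχ M hLE).1 hr1
    rw [leR_ordI] at h1
    obtain ⟨h2, h3, h4, h5⟩ := h1
    let hPO : PartialOrder M :=
      { le := hLE.le
        le_refl := h2
        le_trans := h3
        le_antisymm := h4 }
    exact ⟨hn, M, hPO, hf, hc, h5, hr2⟩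

/-- square sizes from sizes of partial orders of width two -/
theorem exists_widthTwo (Θ : Finset (ℕ × ℕ × ℕ × ℕ)) :
    ∃ (φ : Language.order.Sentence) (s : ℕ), ∀ n, 1 ≤ n →
      (n ∈ squareSizes Θ ↔ s * ((n + 2) * (n + 2)) ∈ widthTwoSizes φ) := by
  obtain ⟨T, hT⟩ : ∃ T : ℕ, ∀ θ ∈ Θ, θ.1 ≤ T :=
    ⟨Θ.sup (fun θ => θ.1), fun θ hθ => Finset.le_sup (f := fun θ : ℕ × ℕ × ℕ × ℕ => θ.1) hθ⟩
  obtain ⟨φ, hφ⟩ := exists_ord_sentence (leR_BFD.posS Θ T)
  refine ⟨φ, 2 * nC T + 1, fun n hn => ?_⟩
  constructor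
  · intro h
    obtain ⟨W, kk, hcod, hpos⟩ := posS_encode hT h
    have hs0 : 0 < 2 * nC T + 1 := by omega
    let hPO : PartialOrder (Fin ((2 * nC T + 1) * ((n + 2) * (n + 2)))) :=
      { le := kle (2 * nC T + 1) W kk ((n + 2) * (n + 2))
        lt := fun x y => kle (2 * nC T + 1) W kk ((n + 2) * (n + 2)) x y ∧
          ¬ kle (2 * nC T + 1) W kk ((n + 2) * (n + 2)) y x
        lt_iff_le_not_ge := fun _ _ => Iff.rfl
        le_refl := fun x => ⟨le_rfl, le_rfl⟩
        le_trans := fun x y z h1 h2 => ⟨h1.1.trans h2.1, h1.2.trans h2.2⟩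
        le_antisymm := fun x y h1 h2 => Fin.ext (le_antisymm h1.1 h2.1) }
    refine ⟨Nat.mul_pos hs0 (Nat.mul_pos (by omega) (by omega)), _, hPO, inferInstance,
      Fintype.card_fin _, fun x y z => kle_width hs0 x y z, ?_⟩
    rw [hφ, leR_ordI]
    exact hpos
  · rintro ⟨_, M, hM, hf, hc, _, hr⟩
    rw [hφ] at hr
    exact posS_decode hn (ordI M) hc hr

end Pool.Agent.Helper20.Spectra
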