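import Pool.Agent.Helper20.Spectra.TwoEnc

/-!
# Grids coded by two orders: the second order and the partial order
-/

set_option autoImplicit false

namespace Pool.Agent.Helper20.Spectra

section Kap

/-- position in the second order -/
def kap (s W : ℕ) (kk : ℕ → ℕ) (x : ℕ) : ℕ :=
  if x % s ≤ kk (x / s) then 2 * s * (x / s) + x % s
  else 2 * s * (x / s + (W - 1)) + s + x % s

variable {s W C : ℕ} {kk : ℕ → ℕ}

/-- low points -/
def Low (s : ℕ) (kk : ℕ → ℕ) (x : ℕ) : Prop := x % s ≤ kk (x / s)

lemma kap_low {x : ℕ} (h : Low s kk x) : kap s W kk x = 2 * s * (x / s) + x % s := if_pos h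

lemma kap_high {x : ℕ} (h : ¬ Low s kk x) :
    kap s W kk x = 2 * s * (x / s + (W - 1)) + s + x % s := if_neg h

lemma gap {s A B : ℕ} (h : A < B) : 2 * s * A + 2 * s ≤ 2 * s * B := by
  have : 2 * s * (A + 1) ≤ 2 * s * B := Nat.mul_le_mul_left _ h
  have e : 2 * s * (A + 1) = 2 * s * A + 2 * s := by ring
  omega

lemma gapE (s A D : ℕ) : 2 * s * (A + (D + 1)) = 2 * s * (A + D) + 2 * s := by ring

lemma split_lt {s x y : ℕ} (h : x < y) :
    x / s < y / s ∨ (x / s = y / s ∧ x % s < y % s) := by
  have h1 := Nat.div_add_mod x s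
  have h2 := Nat.div_add_mod y s
  have h3 : x / s ≤ y / s := Nat.div_le_div_right h.le
  rcases Nat.lt_or_eq_of_le h3 with h4 | h4
  · exact Or.inl h4
  · right
    refine ⟨h4, ?_⟩
    rw [h4] at h1
    omega

lemma kap_lt_low {x y : ℕ} (hs : 0 < s) (hx : Low s kk x) (hxy : x < y) :
    kap s W kk x < kap s W kk y := by
  have h1 := split_lt (s := s) hxy
  have h2 := Nat.mod_lt x hs
  have h3 := Nat.mod_lt y hs
  rw [kap_low hx]
  by_cases hy : Low s kk y
  · rw [kap_low hy]
    rcases h1 with h | ⟨h, h'⟩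
    · have := gap (s := s) h
      omega
    · rw [h]; omega
  · rw [kap_high hy]
    have h4 : x / s ≤ y / s + (W - 1) := by omega
    rcases Nat.lt_or_eq_of_le h4 with h5 | h5
    · have := gap (s := s) h5
      omega
    · rw [h5]; omega

lemma kap_lt_high {x y : ℕ} (hs : 0 < s) (hy : ¬ Low s kk y) (hxy : x < y) :
    kap s W kk x < kap s W kk y := by
  by_cases hx : Low s kk x
  · exact kap_lt_low hs hx hxy
  · have h1 := split_lt (s := s) hxy
    have h2 := Nat.mod_lt x hs
    have h3 := Nat.mod_lt y hs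
    rw [kap_high hx, kap_high hy]
    rcases h1 with h | ⟨h, h'⟩
    · have := gap (s := s) (Nat.add_lt_add_right h (W - 1))
      omega
    · rw [h]; omega

lemma kap_gt {x y : ℕ} (hs : 0 < s) (hx : ¬ Low s kk x) (hy : Low s kk y) :
    kap s W kk y < kap s W kk x ↔ y / s ≤ x / s + (W - 1) := by
  have h2 := Nat.mod_lt x hs
  have h3 := Nat.mod_lt y hs
  rw [kap_high hx, kap_low hy]
  constructor
  · intro h
    by_contra h4
    have := gap (s := s) (Nat.lt_of_not_le h4)
    omega
  · intro h
    rcases Nat.lt_or_eq_of_le h with h5 | h5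
    · have := gap (s := s) h5
      omega
    · rw [h5]; omega

lemma kap_inj {x y : ℕ} (hs : 0 < s) (h : kap s W kk x = kap s W kk y) : x = y := by
  by_contra hne
  have key : ∀ x y, x < y → kap s W kk x ≠ kap s W kk y := by
    intro x y hxy
    by_cases hx : Low s kk x
    · exact (kap_lt_low hs hx hxy).ne
    · by_cases hy : Low s kk y
      · have h2 := Nat.mod_lt x hs
        have h3 := Nat.mod_lt y hs
        rw [kap_high hx, kap_low hy]
        intro h4
        rcases Nat.lt_trichotomy (y / s) (x / s + (W - 1)) with h5 | h5 | h5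
        · have := gap (s := s) h5
          omega
        · rw [h5] at h4; omega
        · have := gap (s := s) h5
          omega
      · exact (kap_lt_high hs hy hxy).ne
  rcases Nat.lt_or_gt_of_ne hne with h1 | h1
  · exact key x y h1 h
  · exact key y x h1 h.symm

end Kap

section Orders

variable {s W C L : ℕ} {kk : ℕ → ℕ}

/-- hypotheses of the coding -/
structure Cod (s W C L : ℕ) (kk : ℕ → ℕ) : Prop where
  hs : s = 2 * C + 1
  hC : 1 ≤ C
  hW : 2 ≤ W
  hL : 2 ≤ L
  hk : ∀ i, kk i < C

lemma div_mod_block {s A r : ℕ} (hr : r < s) : (s * A + r) / s = A ∧ (s * A + r) % s = r := by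
  have hs : 0 < s := by omega
  refine ⟨?_, ?_⟩
  · rw [Nat.mul_add_div hs, Nat.div_eq_of_lt hr, add_zero]
  · rw [Nat.mul_add_mod, Nat.mod_eq_of_lt hr]

lemma block_lt {s A r L : ℕ} (hr : r < s) (hA : A < L) : s * A + r < s * L := by
  calc s * A + r < s * A + s := by omega
    _ = s * (A + 1) := by ring
    _ ≤ s * L := Nat.mul_le_mul_left _ hA

variable (h : Cod s W C L kk)
include h

lemma Cod.high_last (A : ℕ) : ¬ Low s kk (s * A + (s - 1)) := by
  have hs := h.hs
  have hC := h.hC
  have hk := h.hk A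
  unfold Low
  have h1 := div_mod_block (s := s) (A := A) (r := s - 1) (by omega)
  rw [h1.1, h1.2]
  omega

omit h in
lemma low_first (A : ℕ) : Low s kk (s * A) := by
  unfold Low
  rw [Nat.mul_mod_right]
  exact Nat.zero_le _

lemma Cod.kap_first (A : ℕ) : kap s W kk (s * A) = 2 * s * A := by
  have hs : 0 < s := by have := h.hs; omega
  rw [kap_low (low_first A), Nat.mul_mod_right, Nat.mul_div_cancel_left _ hs, add_zero]

lemma Cod.kap_last (A : ℕ) : kap s W kk (s * A + (s - 1)) + 1 = 2 * s * (A + W) := by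
  have hs := h.hs
  have hW := h.hW
  rw [kap_high (h.high_last A)]
  have h1 := div_mod_block (s := s) (A := A) (r := s - 1) (by omega)
  rw [h1.1, h1.2]
  obtain ⟨V, rfl⟩ : ∃ V, W = V + 1 := ⟨W - 1, by omega⟩
  have := gapE s A V
  simp only [Nat.add_sub_cancel]
  omega

lemma Cod.suc2_iff (x : Fin (s * L)) (hx : (x : ℕ) % s + 1 < s) (y : Fin (s * L))
    (hy : (y : ℕ) = x + 1) :
    ImSuc (fun x y : Fin (s * L) => kap s W kk x < kap s W kk y) x y ↔ (x : ℕ) % s ≠ kk (x / s) := by
  have hs := h.hs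
  have hC := h.hC
  have hW := h.hW
  have hL := h.hL
  have hs0 : 0 < s := by omega
  have hdm := Nat.div_add_mod (x : ℕ) s
  have hxl := x.is_lt
  have hAL : (x : ℕ) / s < L := Nat.div_lt_of_lt_mul hxl
  set A := (x : ℕ) / s with hA
  set r := (x : ℕ) % s with hr
  have hk := h.hk A
  have hyA : (y : ℕ) / s = A := by
    have h1 : (y : ℕ) = s * A + (r + 1) := by omega
    rw [h1, (div_mod_block (s := s) (A := A) (r := r + 1) (by omega)).1]
  have hyr : (y : ℕ) % s = r + 1 := by
    have h1 : (y : ℕ) = s * A + (r + 1) := by omega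
    rw [h1, (div_mod_block (s := s) (A := A) (r := r + 1) (by omega)).2]
  have hlowx : Low s kk (x : ℕ) ↔ r ≤ kk A := Iff.rfl
  have hlowy : Low s kk (y : ℕ) ↔ r + 1 ≤ kk A := by
    unfold Low
    rw [hyA, hyr]
  constructor
  · rintro ⟨_, h2⟩ hrk
    have h3 : Low s kk (x : ℕ) := hlowx.2 hrk.le
    have h4 : ¬ Low s kk (y : ℕ) := fun h5 => by have := hlowy.1 h5; omega
    have kx : kap s W kk x = 2 * s * A + r := kap_low h3
    have ky : kap s W kk y = 2 * s * (A + (W - 1)) + s + (r + 1) := by
      rw [kap_high h4, hyA, hyr]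
    obtain ⟨V, rfl⟩ : ∃ V, W = V + 1 + 1 := ⟨W - 2, by omega⟩
    by_cases hAL' : A + 1 < L
    · have hz : s * (A + 1) < s * L := Nat.mul_lt_mul_of_pos_left hAL' hs0
      refine h2 ⟨s * (A + 1), hz⟩ ⟨?_, ?_⟩
      · show kap s (V + 1 + 1) kk x < kap s (V + 1 + 1) kk (s * (A + 1))
        rw [kx, h.kap_first]
        have := gap (s := s) (show A < A + 1 by omega)
        omega
      · show kap s (V + 1 + 1) kk (s * (A + 1)) < kap s (V + 1 + 1) kk y
        rw [ky, h.kap_first]
        simp only [Nat.add_sub_cancel]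
        have : 2 * s * (A + 1) ≤ 2 * s * (A + (V + 1)) := Nat.mul_le_mul_left _ (by omega)
        omega
    · obtain ⟨B, hB⟩ : ∃ B, A = B + 1 := ⟨A - 1, by omega⟩
      have hz : s * B + (s - 1) < s * L := block_lt (by omega) (by omega)
      have kz := h.kap_last B
      have e2 : B + (V + 1 + 1) = A + (V + 1) := by omega
      rw [e2] at kz
      refine h2 ⟨s * B + (s - 1), hz⟩ ⟨?_, ?_⟩
      · show kap s (V + 1 + 1) kk x < kap s (V + 1 + 1) kk (s * B + (s - 1))
        rw [kx]
        have := gapE s A V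
        have h7 : 2 * s * A ≤ 2 * s * (A + V) := Nat.mul_le_mul_left _ (by omega)
        omega
      · show kap s (V + 1 + 1) kk (s * B + (s - 1)) < kap s (V + 1 + 1) kk y
        rw [ky]
        simp only [Nat.add_sub_cancel]
        omega
  · intro hrk
    have hcons : kap s W kk y = kap s W kk x + 1 := by
      rcases Nat.lt_or_gt_of_ne hrk with h5 | h5
      · have kx : kap s W kk x = 2 * s * A + r := kap_low (hlowx.2 h5.le)
        have ky : kap s W kk y = 2 * s * A + (r + 1) := by
          rw [kap_low (hlowy.2 h5), hyA, hyr]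
        omega
      · have hx' : ¬ Low s kk (x : ℕ) := fun h6 => by have := hlowx.1 h6; omega
        have hy' : ¬ Low s kk (y : ℕ) := fun h6 => by have := hlowy.1 h6; omega
        have kx : kap s W kk x = 2 * s * (A + (W - 1)) + s + r := kap_high hx'
        have ky : kap s W kk y = 2 * s * (A + (W - 1)) + s + (r + 1) := by
          rw [kap_high hy', hyA, hyr]
        omega
    refine ⟨by beta_reduce; omega, fun z hz => ?_⟩
    beta_reduce at hz
    omega

lemma Cod.bpt_iff (x : Fin (s * L)) :
    Bpt (fun x y : Fin (s * L) => x < y) (fun x y => kap s W kk x < kap s W kk y) x ↔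
      (x : ℕ) % s = 0 := by
  have hs := h.hs
  have hC := h.hC
  have hW := h.hW
  have hs0 : 0 < s := by omega
  have hdm := Nat.div_add_mod (x : ℕ) s
  have hxl := x.is_lt
  have hlt : ∀ x y : Fin (s * L), (fun x y : Fin (s * L) => x < y) x y ↔ x < y :=
    fun _ _ => Iff.rfl
  constructor
  · rintro (h1 | ⟨q, hq, hq2⟩)
    · by_contra h2
      have : (0 : ℕ) < x := Nat.pos_of_ne_zero (fun h3 => h2 (by rw [h3]; exact Nat.zero_mod s))
      exact h1 ⟨0, by omega⟩ this
    · by_contra h2
      rw [suc_iff hlt] at hq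
      have hr : 0 < (x : ℕ) % s := Nat.pos_of_ne_zero h2
      have hml := Nat.mod_lt (x : ℕ) hs0
      have hq1 : (q : ℕ) = s * ((x : ℕ) / s) + ((x : ℕ) % s - 1) := by omega
      have hqd := div_mod_block (s := s) (A := (x : ℕ) / s) (r := (x : ℕ) % s - 1) (by omega)
      rw [← hq1] at hqd
      by_cases hql : Low s kk (q : ℕ)
      · have := kap_lt_low (W := W) hs0 hql (show (q : ℕ) < x by omega)
        omega
      · have hxh : ¬ Low s kk (x : ℕ) := by
          unfold Low at hql ⊢
          rw [hqd.1, hqd.2] at hql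
          omega
        have := kap_lt_high (W := W) hs0 hxh (show (q : ℕ) < x by omega)
        omega
  · intro h1
    rcases Nat.eq_zero_or_pos (x : ℕ) with h0 | h0
    · left
      intro q hq
      have : (q : ℕ) < x := hq
      omega
    · right
      refine ⟨⟨x - 1, by omega⟩, (suc_iff hlt _ _).2 (by simp only; omega), ?_⟩
      beta_reduce
      obtain ⟨B, hB⟩ : ∃ B, (x : ℕ) / s = B + 1 := by
        have : (x : ℕ) / s ≠ 0 := by
          intro h2
          rw [h2, h1] at hdm
          omega
        exact Nat.exists_eq_succ_of_ne_zero this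
      rw [hB, h1] at hdm
      have hxB : (x : ℕ) = s * (B + 1) := by omega
      have hx1 : (x : ℕ) - 1 = s * B + (s - 1) := by
        have : s * (B + 1) = s * B + s := by ring
        omega
      have e1 : kap s W kk x = 2 * s * (B + 1) := by rw [hxB, h.kap_first]
      have e2 := h.kap_last B
      simp only
      rw [hx1, e1]
      obtain ⟨V, rfl⟩ : ∃ V, W = V + 1 + 1 := ⟨W - 2, by omega⟩
      have := gap (s := s) (show B + 1 < B + (V + 1 + 1) by omega)
      omega

lemma Cod.shf_iff (i j : ℕ) (hi : i < L) (hj : j < L) (p q : Fin (s * L)) (hp : (p : ℕ) = s * i)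
    (hq : (q : ℕ) = s * j) :
    Shf (fun x y : Fin (s * L) => x < y) (fun x y => kap s W kk x < kap s W kk y) s p q ↔
      j = i + W := by
  have hs := h.hs
  have hC := h.hC
  have hW := h.hW
  have hs0 : 0 < s := by omega
  have hlt : ∀ x y : Fin (s * L), (fun x y : Fin (s * L) => x < y) x y ↔ x < y :=
    fun _ _ => Iff.rfl
  have ht : s * i + (s - 1) < s * L := block_lt (by omega) hi
  have kt := h.kap_last i
  have kq : kap s W kk q = 2 * s * j := by rw [hq, h.kap_first]
  unfold Shf
  simp only [sucIt_iff hlt]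
  constructor
  · rintro ⟨t, ht1, ht2, ht3⟩
    beta_reduce at ht2 ht3
    have ht4 : (t : ℕ) = s * i + (s - 1) := by omega
    rw [ht4, kq] at ht2
    by_contra hne
    rcases Nat.lt_or_gt_of_ne hne with h1 | h1
    · have := gap (s := s) h1
      omega
    · have hz : s * (i + W) < s * L := Nat.mul_lt_mul_of_pos_left (by omega) hs0
      refine ht3 ⟨s * (i + W), hz⟩ ?_
      simp only
      rw [h.kap_first, ht4, kq]
      have := gap (s := s) h1
      omega
  · intro h1
    refine ⟨⟨s * i + (s - 1), ht⟩, by simp only; omega, ?_, fun z hz => ?_⟩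
    · simp only
      rw [kq, h1]
      omega
    · simp only at hz
      rw [kq, h1] at hz
      omega

lemma Cod.colK_iff (i : ℕ) (hi : i < L) (p : Fin (s * L)) (hp : (p : ℕ) = s * i) (k : ℕ)
    (hk : k < C) :
    ColK (fun x y : Fin (s * L) => x < y) (fun x y => kap s W kk x < kap s W kk y) k p ↔
      k = kk i := by
  have hs := h.hs
  have hC := h.hC
  have hlt : ∀ x y : Fin (s * L), (fun x y : Fin (s * L) => x < y) x y ↔ x < y :=
    fun _ _ => Iff.rfl
  have key : ∀ k' < C, ∀ x y : Fin (s * L), (x : ℕ) = p + k' → (y : ℕ) = x + 1 →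
      (ImSuc (fun x y : Fin (s * L) => kap s W kk x < kap s W kk y) x y ↔ k' ≠ kk i) := by
    intro k' hk' x y hx hy
    have hd := div_mod_block (s := s) (A := i) (r := k') (by omega)
    rw [← hp, ← hx] at hd
    rw [h.suc2_iff x (by rw [hd.2]; omega) y hy, hd.1, hd.2]
  unfold ColK
  simp only [sucIt_iff hlt, suc_iff hlt]
  constructor
  · rintro ⟨⟨x, y, hx, hy, hn⟩, _⟩
    rw [key k hk x y hx hy] at hn
    exact not_not.1 hn
  · intro h1
    have hb : s * i + (k + 1) < s * L := block_lt (by omega) hi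
    refine ⟨⟨⟨s * i + k, by omega⟩, ⟨s * i + (k + 1), hb⟩, by simp only; omega,
      by simp only; omega, ?_⟩, ?_⟩
    · rw [key k hk _ _ (by simp only; omega) (by simp only; omega)]
      exact not_not.2 h1
    · intro k' x y hx hy
      have := k'.is_lt
      rw [key k' (by omega) x y hx hy]
      omega

lemma Cod.blkAx : BlkAx s (fun x y : Fin (s * L) => x < y)
    (fun x y => kap s W kk x < kap s W kk y) := by
  have hs := h.hs
  have hC := h.hC
  have hs0 : 0 < s := by omega
  have hlt : ∀ x y : Fin (s * L), (fun x y : Fin (s * L) => x < y) x y ↔ x < y :=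
    fun _ _ => Iff.rfl
  refine ⟨⟨fun x => lt_irrefl x, fun x y z => lt_trans, fun x y => lt_trichotomy x y⟩,
    ⟨fun x => lt_irrefl _, fun x y z => lt_trans, fun x y => ?_⟩, ?_, ?_⟩
  · rcases lt_trichotomy (kap s W kk x) (kap s W kk y) with h1 | h1 | h1
    · exact Or.inl h1
    · exact Or.inr (Or.inl (Fin.ext (kap_inj hs0 h1)))
    · exact Or.inr (Or.inr h1)
  · intro p hp j
    rw [h.bpt_iff] at hp
    have hdm := Nat.div_add_mod (p : ℕ) s
    have hpl := p.is_lt
    have hAL : (p : ℕ) / s < L := Nat.div_lt_of_lt_mul hpl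
    have hj := j.is_lt
    have hb : s * ((p : ℕ) / s) + (j + 1) < s * L := block_lt (by omega) hAL
    refine ⟨⟨s * ((p : ℕ) / s) + (j + 1), hb⟩, (sucIt_iff hlt _ _ _).2 (by simp only; omega), ?_⟩
    rw [h.bpt_iff]
    simp only
    rw [(div_mod_block (s := s) (A := (p : ℕ) / s) (r := (j : ℕ) + 1) (by omega)).2]
    omega
  · intro p q hp hq
    rw [h.bpt_iff] at hp ⊢
    rw [sucIt_iff hlt] at hq
    rw [hq, Nat.add_mod_right]
    exact hp

end Orders

end Pool.Agent.Helper20.Spectra
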