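import Pool.Agent.Helper20.Spectra.TwoKap

/-!
# Grids coded by partial orders of width two
-/

set_option autoImplicit false

namespace Pool.Agent.Helper20.Spectra

section Defs

variable {M : Type}

/-- strictly below -/
def plt (le : M → M → Prop) (x y : M) : Prop := le x y ∧ ¬ le y x

/-- incomparable -/
def pinc (le : M → M → Prop) (x y : M) : Prop := ¬ le x y ∧ ¬ le y x

/-- twins -/
def ptw (le : M → M → Prop) (p q : M) : Prop := ∀ x, pinc le x p ↔ pinc le x q

/-- points with many twins -/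
def pbig (C : ℕ) (le : M → M → Prop) (p : M) : Prop :=
  ∃ z : Fin (C + 1) → M, (∀ t t', t ≠ t' → ¬ z t = z t') ∧ ∀ t, ptw le p (z t)

/-- first order -/
def rel1 (C : ℕ) (le : M → M → Prop) (p q : M) : Prop := plt le p q ∨ (pinc le p q ∧ pbig C le p)

/-- second order -/
def rel2 (C : ℕ) (le : M → M → Prop) (p q : M) : Prop := plt le p q ∨ (pinc le p q ∧ pbig C le q)

/-- number of colours -/
def nC (T : ℕ) : ℕ := Fintype.card (Gam T)

/-- numbers of colours -/
noncomputable def cK (T : ℕ) (γ : Gam T) : ℕ := Fintype.equivFin (Gam T) γ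

lemma cK_lt (T : ℕ) (γ : Gam T) : cK T γ < nC T := (Fintype.equivFin (Gam T) γ).is_lt

lemma cK_inj {T : ℕ} {γ δ : Gam T} (h : cK T γ = cK T δ) : γ = δ :=
  (Fintype.equivFin (Gam T)).injective (Fin.ext h)

lemma nC_pos (T : ℕ) : 1 ≤ nC T := by
  have := cK_lt T (0, false, false, false)
  omega

/-- the sentence -/
def PosS (Θ : Finset (ℕ × ℕ × ℕ × ℕ)) (T : ℕ) (le : M → M → Prop) : Prop :=
  BlkAx (2 * nC T + 1) (rel1 (nC T) le) (rel2 (nC T) le) ∧
  CellAx Θ T (Bpt (rel1 (nC T) le) (rel2 (nC T) le)) (SucIt (rel1 (nC T) le) (2 * nC T + 1))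
    (Shf (rel1 (nC T) le) (rel2 (nC T) le) (2 * nC T + 1))
    (fun γ => ColK (rel1 (nC T) le) (rel2 (nC T) le) (cK T γ))

end Defs

section Definability

/-- the binary relation of an interpretation -/
def leR {M : Type} (R : Interp Unit (fun _ => 2) M) (x y : M) : Prop := R () ![x, y]

lemma leR_BFD : BFD (S := Unit) (ar := fun _ => 2) (fun _ R => leR R) := by
  intro α e e' he he'
  obtain ⟨a, ha⟩ := he
  obtain ⟨b, hb⟩ := he'
  refine FD.rel (S := Unit) (ar := fun _ => 2) () ⟨![a, b], fun M v => ?_⟩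
  beta_reduce
  rw [ha, hb]
  funext i
  fin_cases i <;> rfl

variable {S : Type} {ar : S → ℕ} {le : ∀ (M : Type), Interp S ar M → M → M → Prop}

lemma BFD.plt (h : BFD le) : BFD (fun M R => plt (le M R)) :=
  fun α _ _ he he' => FD.and (h α _ _ he he') (FD.not (h α _ _ he' he))

lemma BFD.pinc (h : BFD le) : BFD (fun M R => pinc (le M R)) :=
  fun α _ _ he he' => FD.and (FD.not (h α _ _ he he')) (FD.not (h α _ _ he' he))

lemma BFD.ptw (h : BFD le) : BFD (fun M R => ptw (le M R)) :=
  fun _ _ _ he he' => FD.all1 (FD.iff (h.pinc _ _ _ El.inr he.inl) (h.pinc _ _ _ El.inr he'.inl))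

lemma BFD.pbig (h : BFD le) (C : ℕ) : UFD (fun M R => pbig C (le M R)) := by
  intro α e he
  obtain ⟨a, ha⟩ := he
  have hz : ∀ t, El (α ⊕ Fin (C + 1)) (fun _ v => v (Sum.inr t)) := fun t => El.var _
  have he : El (α ⊕ Fin (C + 1)) (fun M v => e M (v ∘ Sum.inl)) :=
    ⟨Sum.inl a, fun M v => by beta_reduce; rw [ha]; rfl⟩
  exact FD.ex (FD.and (FD.all_fin (fun t => FD.all_fin (fun t' => FD.imp (FD.const _)
    (FD.not (FD.eq (hz t) (hz t')))))) (FD.all_fin (fun t => h.ptw _ _ _ he (hz t))))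

lemma BFD.rel1 (h : BFD le) (C : ℕ) : BFD (fun M R => rel1 C (le M R)) :=
  fun _ _ _ he he' => FD.or (h.plt _ _ _ he he') (FD.and (h.pinc _ _ _ he he') (h.pbig C _ _ he))

lemma BFD.rel2 (h : BFD le) (C : ℕ) : BFD (fun M R => rel2 C (le M R)) :=
  fun _ _ _ he he' => FD.or (h.plt _ _ _ he he') (FD.and (h.pinc _ _ _ he he') (h.pbig C _ _ he'))

lemma BFD.posS (h : BFD le) (Θ : Finset (ℕ × ℕ × ℕ × ℕ)) (T : ℕ) {α : Type} :
    FD S ar α (fun M R _ => PosS Θ T (le M R)) :=
  FD.and (BFD.blkAx (h.rel1 _) (h.rel2 _) _)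
    (cellAx_FD (BFD.bpt (h.rel1 _) (h.rel2 _)) ((h.rel1 _).sucIt _)
      (BFD.shf (h.rel1 _) (h.rel2 _) _) (fun _ => BFD.colK (h.rel1 _) (h.rel2 _) _))

end Definability

section Decode

lemma exists_enum {M : Type} [Fintype M] {r : M → M → Prop} (h : SLin r) {m : ℕ}
    (hc : Fintype.card M = m) : ∃ e : M ≃ Fin m, ∀ x y, r x y ↔ e x < e y := by
  classical
  have hSTO : IsStrictTotalOrder M r :=
    { trichotomous := fun x y hxy hyx => by
        rcases h.total x y with h | h | h
        · exact absurd h hxy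
        · exact h
        · exact absurd h hyx
      irrefl := h.irrefl
      trans := h.trans }
  let LO : LinearOrder M := linearOrderOfSTO r
  let e0 : Fin m ≃o M := monoEquivOfFin M hc
  exact ⟨e0.symm.toEquiv, fun x y => (e0.symm.lt_iff_lt (x := x) (y := y)).symm⟩

/-- decoding -/
theorem posS_decode {Θ : Finset (ℕ × ℕ × ℕ × ℕ)} {T n : ℕ} (hn : 1 ≤ n) {M : Type} [Fintype M]
    (R : Interp Unit (fun _ => 2) M)
    (hc : Fintype.card M = (2 * nC T + 1) * ((n + 2) * (n + 2))) (h : PosS Θ T (leR R)) :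
    n ∈ squareSizes Θ := by
  have hC := nC_pos T
  set s := 2 * nC T + 1 with hs
  obtain ⟨e, he⟩ := exists_enum h.1.lin1 hc
  let R' : Interp Unit (fun _ => 2) (Fin (s * ((n + 2) * (n + 2)))) := fun u w => R u (e.symm ∘ w)
  have h' : PosS Θ T (leR R') :=
    ((leR_BFD.posS Θ T (α := Empty)).transport e R Empty.elim).1 h
  have hlt : ∀ x y, rel1 (nC T) (leR R') x y ↔ x < y := by
    intro x y
    have h1 := (leR_BFD.rel1 (nC T) Bool (fun M v => v false) (fun M v => v true) (El.var _)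
      (El.var _)).transport e R (fun b => e.symm (if b then y else x))
    have h2 : rel1 (nC T) (leR R) (e.symm x) (e.symm y) ↔
        rel1 (nC T) (leR R') (e (e.symm x)) (e (e.symm y)) := h1
    rw [Equiv.apply_symm_apply, Equiv.apply_symm_apply] at h2
    rw [← h2, he, Equiv.apply_symm_apply, Equiv.apply_symm_apply]
  obtain ⟨hB, hCell⟩ := h'
  have hs2 : 2 ≤ s := by omega
  have hL : 1 ≤ (n + 2) * (n + 2) := Nat.mul_pos (by omega) (by omega)
  have hmul : ∀ a : Fin ((n + 2) * (n + 2)), s * (a : ℕ) < s * ((n + 2) * (n + 2)) :=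
    fun a => Nat.mul_lt_mul_of_pos_left a.is_lt (by omega)
  obtain ⟨W, hW1, hW2⟩ := cell_decode hCell hL (fun a => ⟨s * a, hmul a⟩) (by
    intro p
    rw [bpt_iff hs2 hlt hB]
    constructor
    · rintro ⟨a, ha⟩
      have hpl := p.is_lt
      rw [ha] at hpl
      exact ⟨⟨a, Nat.lt_of_mul_lt_mul_left hpl⟩, Fin.ext ha.symm⟩
    · rintro ⟨a, rfl⟩
      exact ⟨a, rfl⟩) (by
    intro a b hab
    have h1 : s * (a : ℕ) = s * b := congrArg Fin.val hab
    exact Fin.ext (Nat.eq_of_mul_eq_mul_left (by omega) h1)) (by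
    intro a b
    rw [sucIt_iff hlt]
    simp only
    constructor
    · intro h1
      have h2 : s * (b : ℕ) = s * (a + 1) := by
        have : s * ((a : ℕ) + 1) = s * a + s := by ring
        omega
      exact Nat.eq_of_mul_eq_mul_left (by omega) h2
    · intro h1
      rw [h1]
      ring)
  have hWn : W = n + 2 := (Nat.mul_self_inj.1 hW1).symm
  have := hW2 (by omega)
  rw [hWn] at this
  simpa using this

end Decode

section Encode

variable {s W C L : ℕ} {kk : ℕ → ℕ}

/-- the partial order -/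
def kle (s W : ℕ) (kk : ℕ → ℕ) (L : ℕ) (x y : Fin (s * L)) : Prop :=
  x ≤ y ∧ kap s W kk x ≤ kap s W kk y

lemma kle_iff (hs : 0 < s) (x y : Fin (s * L)) :
    kle s W kk L x y ↔ x = y ∨ (x < y ∧ kap s W kk x < kap s W kk y) := by
  unfold kle
  constructor
  · rintro ⟨h1, h2⟩
    rcases Nat.lt_or_eq_of_le h2 with h3 | h3
    · rcases lt_or_eq_of_le h1 with h4 | h4
      · exact Or.inr ⟨h4, h3⟩
      · exact Or.inl h4
    · exact Or.inl (Fin.ext (kap_inj hs h3))
  · rintro (rfl | ⟨h1, h2⟩)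
    · exact ⟨le_rfl, le_rfl⟩
    · exact ⟨h1.le, h2.le⟩

lemma plt_iff (hs : 0 < s) (x y : Fin (s * L)) :
    plt (kle s W kk L) x y ↔ x < y ∧ kap s W kk x < kap s W kk y := by
  unfold plt
  rw [kle_iff hs, kle_iff hs]
  constructor
  · rintro ⟨h1 | h1, h2⟩
    · exact absurd (Or.inl h1.symm) h2
    · exact h1
  · intro h1
    refine ⟨Or.inr h1, ?_⟩
    rintro (rfl | h2)
    · exact lt_irrefl _ h1.1
    · exact lt_irrefl _ (h1.1.trans h2.1)

/-- `x` is high, `y` is low, and they are close -/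
def HL (s W : ℕ) (kk : ℕ → ℕ) (x y : ℕ) : Prop :=
  ¬ Low s kk x ∧ Low s kk y ∧ x / s < y / s ∧ y / s ≤ x / s + (W - 1)

lemma hl_iff (hs : 0 < s) {x y : ℕ} :
    (x < y ∧ kap s W kk y < kap s W kk x) ↔ HL s W kk x y := by
  constructor
  · rintro ⟨h1, h2⟩
    have hx : ¬ Low s kk x := fun hx => by
      have := kap_lt_low (W := W) hs hx h1
      omega
    have hy : Low s kk y := by
      by_contra hy
      have := kap_lt_high (W := W) hs hy h1
      omega
    refine ⟨hx, hy, ?_, (kap_gt hs hx hy).1 h2⟩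
    rcases split_lt (s := s) h1 with h3 | ⟨h3, h4⟩
    · exact h3
    · exfalso
      unfold Low at hx hy
      rw [h3] at hx
      omega
  · rintro ⟨h1, h2, h3, h4⟩
    refine ⟨?_, (kap_gt hs h1 h2).2 h4⟩
    by_contra h5
    have := Nat.div_le_div_right (c := s) (Nat.le_of_not_lt h5)
    omega

lemma pinc_iff (hs : 0 < s) (x y : Fin (s * L)) :
    pinc (kle s W kk L) x y ↔ HL s W kk x y ∨ HL s W kk y x := by
  unfold pinc
  rw [kle_iff hs, kle_iff hs, ← hl_iff hs, ← hl_iff hs]
  constructor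
  · rintro ⟨h1, h2⟩
    push Not at h1 h2
    have hne : x ≠ y := h1.1
    have hk : kap s W kk x ≠ kap s W kk y := fun h3 => hne (Fin.ext (kap_inj hs h3))
    rcases lt_or_gt_of_ne hne with h3 | h3
    · left
      exact ⟨h3, lt_of_le_of_ne (h1.2 h3) hk.symm⟩
    · right
      exact ⟨h3, lt_of_le_of_ne (h2.2 h3) hk⟩
  · rintro (⟨h1, h2⟩ | ⟨h1, h2⟩)
    · have h1' : x < y := h1
      constructor
      · rintro (rfl | ⟨h3, h4⟩)
        · exact lt_irrefl _ h1
        · omega
      · rintro (rfl | ⟨h3, h4⟩)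
        · exact lt_irrefl _ h1
        · exact lt_irrefl _ (h1'.trans h3)
    · have h1' : y < x := h1
      constructor
      · rintro (rfl | ⟨h3, h4⟩)
        · exact lt_irrefl _ h1
        · exact lt_irrefl _ (h1'.trans h3)
      · rintro (rfl | ⟨h3, h4⟩)
        · exact lt_irrefl _ h1
        · omega

lemma Cod.big_high (h : Cod s W C L kk) (x : Fin (s * L)) (hx : ¬ Low s kk x) :
    pbig C (kle s W kk L) x := by
  have hs := h.hs
  have hC := h.hC
  have hs0 : 0 < s := by omega
  have hxl := x.is_lt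
  have hAL : (x : ℕ) / s < L := Nat.div_lt_of_lt_mul hxl
  set A := (x : ℕ) / s with hA
  have hk := h.hk A
  have hb : ∀ t : Fin (C + 1), s * A + (s - 1 - t) < s * L := fun t => block_lt (by omega) hAL
  have hd : ∀ t : Fin (C + 1), (s * A + (s - 1 - t)) / s = A ∧
      (s * A + (s - 1 - t)) % s = s - 1 - t := fun t => div_mod_block (by omega)
  have hhigh : ∀ t : Fin (C + 1), ¬ Low s kk (s * A + (s - 1 - t)) := by
    intro t
    have ht := t.is_lt
    unfold Low
    rw [(hd t).1, (hd t).2]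
    omega
  refine ⟨fun t => ⟨s * A + (s - 1 - t), hb t⟩, ?_, ?_⟩
  · intro t t' htt h1
    have h2 : s * A + (s - 1 - t) = s * A + (s - 1 - t') := congrArg Fin.val h1
    apply htt
    have := t.is_lt
    have := t'.is_lt
    exact Fin.ext (by omega)
  · intro t y
    rw [pinc_iff hs0, pinc_iff hs0]
    unfold HL
    simp only
    rw [(hd t).1, ← hA]
    have h1 := hhigh t
    constructor
    · rintro (⟨_, h3, _⟩ | ⟨_, h4, h5⟩)
      · exact absurd h3 hx
      · exact Or.inr ⟨h1, h4, h5⟩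
    · rintro (⟨_, h3, _⟩ | ⟨_, h4, h5⟩)
      · exact absurd h3 h1
      · exact Or.inr ⟨hx, h4, h5⟩

lemma Cod.not_big_low (h : Cod s W C L kk) (x y : Fin (s * L)) (hxy : HL s W kk y x) :
    ¬ pbig C (kle s W kk L) x := by
  have hs := h.hs
  have hC := h.hC
  have hW := h.hW
  have hs0 : 0 < s := by omega
  have hxl := x.is_lt
  have hAL : (x : ℕ) / s < L := Nat.div_lt_of_lt_mul hxl
  obtain ⟨hy, hx, hyx, hyx'⟩ := hxy
  obtain ⟨B, hB⟩ : ∃ B, (x : ℕ) / s = B + 1 :=
    Nat.exists_eq_succ_of_ne_zero (Nat.ne_of_gt (Nat.zero_lt_of_lt hyx))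
  have hk := h.hk (B + 1)
  rintro ⟨z, hz1, hz2⟩
  -- all twins are low points of the same block
  have key : ∀ t, ((z t : ℕ)) / s = B + 1 ∧ (z t : ℕ) % s ≤ kk (B + 1) := by
    intro t
    have hb0 : s * B + (s - 1) < s * L := block_lt (by omega) (by omega)
    have hb1 : s * (B + 1) + (s - 1) < s * L := block_lt (by omega) (by omega)
    have hd0 := div_mod_block (s := s) (A := B) (r := s - 1) (by omega)
    have hd1 := div_mod_block (s := s) (A := B + 1) (r := s - 1) (by omega)
    have h0 := (hz2 t ⟨s * B + (s - 1), hb0⟩).1 (by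
      rw [pinc_iff hs0]
      left
      refine ⟨h.high_last B, hx, ?_, ?_⟩
      · simp only; rw [hd0.1]; omega
      · simp only; rw [hd0.1]; omega)
    rw [pinc_iff hs0] at h0
    rcases h0 with h0 | h0
    · obtain ⟨_, hlow, h3, h4⟩ := h0
      simp only at h3 h4
      rw [hd0.1] at h3 h4
      have hzB : (z t : ℕ) / s = B + 1 := by
        by_contra hne
        have h1 := (hz2 t ⟨s * (B + 1) + (s - 1), hb1⟩).2 (by
          rw [pinc_iff hs0]
          left
          refine ⟨h.high_last (B + 1), hlow, ?_, ?_⟩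
          · simp only; rw [hd1.1]; omega
          · simp only; rw [hd1.1]; omega)
        rw [pinc_iff hs0] at h1
        rcases h1 with h1 | h1
        · have := h1.2.2.1
          simp only at this
          rw [hd1.1] at this
          omega
        · exact h1.1 hx
      refine ⟨hzB, ?_⟩
      unfold Low at hlow
      rw [hzB] at hlow
      exact hlow
    · exact absurd h0.2.1 (h.high_last B)
  have hcard : Fintype.card (Fin (C + 1)) ≤ (Finset.range (kk (B + 1) + 1)).card := by
    rw [← Finset.card_univ]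
    refine Finset.card_le_card_of_injOn (fun t => (z t : ℕ) % s) ?_ ?_
    · intro t _
      simp only [Finset.coe_range, Set.mem_Iio]
      have := (key t).2
      omega
    · intro t _ t' _ htt
      by_contra hne
      apply hz1 t t' hne
      have h1 := Nat.div_add_mod (z t : ℕ) s
      have h2 := Nat.div_add_mod (z t' : ℕ) s
      rw [(key t).1] at h1
      rw [(key t').1] at h2
      beta_reduce at htt
      exact Fin.ext (by omega)
  rw [Fintype.card_fin, Finset.card_range] at hcard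
  omega

lemma Cod.rel1_iff (h : Cod s W C L kk) (x y : Fin (s * L)) :
    rel1 C (kle s W kk L) x y ↔ x < y := by
  have hs := h.hs
  have hs0 : 0 < s := by omega
  unfold rel1
  rw [plt_iff hs0, pinc_iff hs0]
  constructor
  · rintro (h1 | ⟨h1 | h1, h2⟩)
    · exact h1.1
    · exact ((hl_iff hs0).2 h1).1
    · exact absurd h2 (h.not_big_low x y h1)
  · intro h1
    by_cases h2 : kap s W kk x < kap s W kk y
    · exact Or.inl ⟨h1, h2⟩
    · right
      have hk : kap s W kk y ≠ kap s W kk x := fun h3 => h1.ne' (Fin.ext (kap_inj hs0 h3))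
      have h3 : HL s W kk x y := (hl_iff hs0).1 ⟨h1, by omega⟩
      exact ⟨Or.inl h3, h.big_high x h3.1⟩

lemma Cod.rel2_iff (h : Cod s W C L kk) (x y : Fin (s * L)) :
    rel2 C (kle s W kk L) x y ↔ kap s W kk x < kap s W kk y := by
  have hs := h.hs
  have hs0 : 0 < s := by omega
  unfold rel2
  rw [plt_iff hs0, pinc_iff hs0]
  constructor
  · rintro (h1 | ⟨h1 | h1, h2⟩)
    · exact h1.2
    · exact absurd h2 (h.not_big_low y x h1)
    · exact ((hl_iff hs0).2 h1).2
  · intro h1
    have hne : x ≠ y := fun h2 => by rw [h2] at h1; omega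
    rcases lt_or_gt_of_ne hne with h2 | h2
    · exact Or.inl ⟨h2, h1⟩
    · right
      have h3 : HL s W kk y x := (hl_iff hs0).1 ⟨h2, h1⟩
      exact ⟨Or.inr h3, h.big_high y h3.1⟩

lemma kle_width (hs : 0 < s) (x y z : Fin (s * L)) :
    kle s W kk L x y ∨ kle s W kk L y x ∨ kle s W kk L y z ∨ kle s W kk L z y ∨
      kle s W kk L x z ∨ kle s W kk L z x := by
  have key : ∀ x y : Fin (s * L), (Low s kk x ↔ Low s kk y) →
      kle s W kk L x y ∨ kle s W kk L y x := by
    intro x y hxy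
    by_contra hne
    push Not at hne
    have h1 : pinc (kle s W kk L) x y := hne
    rw [pinc_iff hs] at h1
    rcases h1 with h1 | h1
    · exact h1.1 (hxy.2 h1.2.1)
    · exact h1.1 (hxy.1 h1.2.1)
  by_cases hx : Low s kk x
  · by_cases hy : Low s kk y
    · rcases key x y ⟨fun _ => hy, fun _ => hx⟩ with h1 | h1
      · exact Or.inl h1
      · exact Or.inr (Or.inl h1)
    · by_cases hz : Low s kk z
      · rcases key x z ⟨fun _ => hz, fun _ => hx⟩ with h1 | h1
        · exact Or.inr (Or.inr (Or.inr (Or.inr (Or.inl h1))))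
        · exact Or.inr (Or.inr (Or.inr (Or.inr (Or.inr h1))))
      · rcases key y z ⟨fun h => absurd h hy, fun h => absurd h hz⟩ with h1 | h1
        · exact Or.inr (Or.inr (Or.inl h1))
        · exact Or.inr (Or.inr (Or.inr (Or.inl h1)))
  · by_cases hy : Low s kk y
    · by_cases hz : Low s kk z
      · rcases key y z ⟨fun _ => hz, fun _ => hy⟩ with h1 | h1
        · exact Or.inr (Or.inr (Or.inl h1))
        · exact Or.inr (Or.inr (Or.inr (Or.inl h1)))
      · rcases key x z ⟨fun h => absurd h hx, fun h => absurd h hz⟩ with h1 | h1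
        · exact Or.inr (Or.inr (Or.inr (Or.inr (Or.inl h1))))
        · exact Or.inr (Or.inr (Or.inr (Or.inr (Or.inr h1))))
    · rcases key x y ⟨fun h => absurd h hx, fun h => absurd h hy⟩ with h1 | h1
      · exact Or.inl h1
      · exact Or.inr (Or.inl h1)

/-- encoding -/
theorem posS_encode {Θ : Finset (ℕ × ℕ × ℕ × ℕ)} {T n : ℕ}
    (hT : ∀ θ ∈ Θ, θ.1 ≤ T) (hn : n ∈ squareSizes Θ) :
    ∃ (W : ℕ) (kk : ℕ → ℕ), Cod (2 * nC T + 1) W (nC T) ((n + 2) * (n + 2)) kk ∧
      PosS Θ T (kle (2 * nC T + 1) W kk ((n + 2) * (n + 2))) := by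
  obtain ⟨hn1, a, ha1, ha2⟩ := hn
  have haT : ∀ x y, a x y ≤ T := by
    intro x y
    by_cases h : x ≤ n ∧ y ≤ n
    · exact hT _ (ha2 x y h.1 h.2)
    · have : a x y = 0 := by
        by_contra h1
        have := (ha1 x y).1 h1
        omega
      omega
  obtain ⟨W, hW⟩ : ∃ W, W = n + 2 := ⟨_, rfl⟩
  rw [← hW]
  have hcod : Cod (2 * nC T + 1) W (nC T) (W * W) (fun i => cK T (colr T W a i)) :=
    ⟨rfl, nC_pos T, by omega, by nlinarith, fun i => cK_lt T _⟩
  refine ⟨W, _, hcod, ?_⟩
  set kk : ℕ → ℕ := fun i => cK T (colr T W a i) with hkk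
  set s := 2 * nC T + 1 with hs
  have hC := nC_pos T
  have hs0 : 0 < s := by omega
  have e1 : rel1 (nC T) (kle s W kk (W * W)) = fun x y => x < y := by
    funext x y
    exact propext (hcod.rel1_iff x y)
  have e2 : rel2 (nC T) (kle s W kk (W * W)) =
      fun x y : Fin (s * (W * W)) => kap s W kk x < kap s W kk y := by
    funext x y
    exact propext (hcod.rel2_iff x y)
  unfold PosS
  rw [e1, e2, ← hs]
  refine ⟨hcod.blkAx, ?_⟩
  have hlt : ∀ x y : Fin (s * (W * W)), (fun x y : Fin (s * (W * W)) => x < y) x y ↔ x < y :=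
    fun _ _ => Iff.rfl
  have hmul : ∀ i : Fin (W * W), s * (i : ℕ) < s * (W * W) :=
    fun i => Nat.mul_lt_mul_of_pos_left i.is_lt hs0
  refine cell_encode hW hn1 a ha1 ha2 haT (fun i => ⟨s * i, hmul i⟩) ?_ ?_ ?_ ?_
  · intro p
    rw [hcod.bpt_iff]
    constructor
    · intro h1
      have hd := Nat.div_add_mod (p : ℕ) s
      refine ⟨⟨(p : ℕ) / s, Nat.div_lt_of_lt_mul p.is_lt⟩, Fin.ext ?_⟩
      simp only
      omega
    · rintro ⟨i, rfl⟩
      simp only
      exact Nat.mul_mod_right _ _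
  · intro i j
    rw [sucIt_iff hlt]
    simp only
    constructor
    · intro h1
      have h2 : s * (j : ℕ) = s * (i + 1) := by
        have : s * ((i : ℕ) + 1) = s * i + s := by ring
        omega
      exact Nat.eq_of_mul_eq_mul_left hs0 h2
    · intro h1
      rw [h1]
      ring
  · intro i j
    exact hcod.shf_iff i j i.is_lt j.is_lt _ _ rfl rfl
  · intro γ i
    rw [hcod.colK_iff i i.is_lt _ rfl _ (cK_lt T γ)]
    constructor
    · intro h1
      exact cK_inj h1
    · intro h1
      rw [h1]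

end Encode

end Pool.Agent.Helper20.Spectra
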