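import Mathlib

/-!
# Uniform first-order definability
-/

set_option autoImplicit false

namespace Pool.Agent.Helper20.Spectra

open FirstOrder FirstOrder.Language

variable {L : FirstOrder.Language.{0, 0}}

/-- `P` is uniformly definable by a first-order formula in all `L`-structures -/
def UDef (L : FirstOrder.Language.{0, 0}) (m : ℕ)
    (P : ∀ (M : Type) [L.Structure M], (Fin m → M) → Prop) : Prop :=
  ∃ φ : L.BoundedFormula Empty m, ∀ (M : Type) [L.Structure M] (v : Fin m → M),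
    φ.Realize default v ↔ P M v

/-- `f` is uniformly given by a term -/
def UTerm (L : FirstOrder.Language.{0, 0}) (m : ℕ)
    (f : ∀ (M : Type) [L.Structure M], (Fin m → M) → M) : Prop :=
  ∃ t : L.Term (Empty ⊕ Fin m), ∀ (M : Type) [L.Structure M] (v : Fin m → M),
    t.realize (Sum.elim default v) = f M v

lemma UTerm.var {m : ℕ} (i : Fin m) : UTerm L m (fun _ _ v => v i) :=
  ⟨Term.var (Sum.inr i), fun _ _ _ => rfl⟩

lemma UTerm.const {m : ℕ} (f : L.Functions 0) : UTerm L m (fun _ _ _ => Structure.funMap f ![]) :=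
  ⟨Term.func f ![], fun M _ v => by
    simp only [Term.realize_func]
    congr 1
    funext i; exact i.elim0⟩

lemma UTerm.fn1 {m : ℕ} (f : L.Functions 1)
    {a : ∀ (M : Type) [L.Structure M], (Fin m → M) → M} (ha : UTerm L m a) :
    UTerm L m (fun M _ v => Structure.funMap f ![a M v]) := by
  obtain ⟨t, ht⟩ := ha
  refine ⟨Term.func f ![t], fun M _ v => ?_⟩
  simp only [Term.realize_func]
  congr 1
  funext i
  fin_cases i
  exact ht M v

lemma UTerm.fn2 {m : ℕ} (f : L.Functions 2)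
    {a b : ∀ (M : Type) [L.Structure M], (Fin m → M) → M} (ha : UTerm L m a) (hb : UTerm L m b) :
    UTerm L m (fun M _ v => Structure.funMap f ![a M v, b M v]) := by
  obtain ⟨t, ht⟩ := ha
  obtain ⟨u, hu⟩ := hb
  refine ⟨Term.func f ![t, u], fun M _ v => ?_⟩
  simp only [Term.realize_func]
  congr 1
  funext i
  fin_cases i
  · exact ht M v
  · exact hu M v

namespace UDef

variable {m : ℕ}

lemma eq {a b : ∀ (M : Type) [L.Structure M], (Fin m → M) → M} (ha : UTerm L m a)
    (hb : UTerm L m b) : UDef L m (fun M _ v => a M v = b M v) := by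
  obtain ⟨t, ht⟩ := ha
  obtain ⟨u, hu⟩ := hb
  refine ⟨BoundedFormula.equal t u, fun M _ v => ?_⟩
  show t.realize (Sum.elim default v) = u.realize (Sum.elim default v) ↔ _
  rw [ht, hu]

lemma rel1 (r : L.Relations 1) {a : ∀ (M : Type) [L.Structure M], (Fin m → M) → M}
    (ha : UTerm L m a) : UDef L m (fun M _ v => Structure.RelMap r ![a M v]) := by
  obtain ⟨t, ht⟩ := ha
  refine ⟨BoundedFormula.rel r ![t], fun M _ v => ?_⟩
  show Structure.RelMap r _ ↔ _
  have : (fun i => Term.realize (Sum.elim default v) ((![t] : Fin 1 → _) i)) = ![a M v] := by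
    funext i
    fin_cases i
    exact ht M v
  rw [this]

lemma rel2 (r : L.Relations 2) {a b : ∀ (M : Type) [L.Structure M], (Fin m → M) → M}
    (ha : UTerm L m a) (hb : UTerm L m b) :
    UDef L m (fun M _ v => Structure.RelMap r ![a M v, b M v]) := by
  obtain ⟨t, ht⟩ := ha
  obtain ⟨u, hu⟩ := hb
  refine ⟨BoundedFormula.rel r ![t, u], fun M _ v => ?_⟩
  show Structure.RelMap r _ ↔ _
  have : (fun i => Term.realize (Sum.elim default v) ((![t, u] : Fin 2 → _) i)) =
      ![a M v, b M v] := by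
    funext i
    fin_cases i
    · exact ht M v
    · exact hu M v
  rw [this]

lemma not {P : ∀ (M : Type) [L.Structure M], (Fin m → M) → Prop} (h : UDef L m P) :
    UDef L m (fun M _ v => ¬ P M v) := by
  obtain ⟨φ, hφ⟩ := h
  exact ⟨φ.not, fun M _ v => by rw [BoundedFormula.realize_not, hφ]⟩

lemma and {P Q : ∀ (M : Type) [L.Structure M], (Fin m → M) → Prop} (h : UDef L m P)
    (h' : UDef L m Q) : UDef L m (fun M _ v => P M v ∧ Q M v) := by
  obtain ⟨φ, hφ⟩ := h
  obtain ⟨ψ, hψ⟩ := h'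
  exact ⟨φ ⊓ ψ, fun M _ v => by rw [BoundedFormula.realize_inf, hφ, hψ]⟩

lemma or {P Q : ∀ (M : Type) [L.Structure M], (Fin m → M) → Prop} (h : UDef L m P)
    (h' : UDef L m Q) : UDef L m (fun M _ v => P M v ∨ Q M v) := by
  obtain ⟨φ, hφ⟩ := h
  obtain ⟨ψ, hψ⟩ := h'
  exact ⟨φ ⊔ ψ, fun M _ v => by rw [BoundedFormula.realize_sup, hφ, hψ]⟩

lemma imp {P Q : ∀ (M : Type) [L.Structure M], (Fin m → M) → Prop} (h : UDef L m P)
    (h' : UDef L m Q) : UDef L m (fun M _ v => P M v → Q M v) := by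
  obtain ⟨φ, hφ⟩ := h
  obtain ⟨ψ, hψ⟩ := h'
  exact ⟨φ.imp ψ, fun M _ v => by rw [BoundedFormula.realize_imp, hφ, hψ]⟩

lemma iff {P Q : ∀ (M : Type) [L.Structure M], (Fin m → M) → Prop} (h : UDef L m P)
    (h' : UDef L m Q) : UDef L m (fun M _ v => (P M v ↔ Q M v)) := by
  obtain ⟨φ, hφ⟩ := h
  obtain ⟨ψ, hψ⟩ := h'
  exact ⟨φ.iff ψ, fun M _ v => by rw [BoundedFormula.realize_iff, hφ, hψ]⟩

lemma all {P : ∀ (M : Type) [L.Structure M], (Fin m → M) → M → Prop}
    (h : UDef L (m + 1) (fun M _ v => P M (Fin.init v) (v (Fin.last m)))) :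
    UDef L m (fun M _ v => ∀ x : M, P M v x) := by
  obtain ⟨φ, hφ⟩ := h
  refine ⟨φ.all, fun M _ v => ?_⟩
  rw [BoundedFormula.realize_all]
  apply forall_congr'
  intro x
  rw [hφ]
  simp

lemma ex {P : ∀ (M : Type) [L.Structure M], (Fin m → M) → M → Prop}
    (h : UDef L (m + 1) (fun M _ v => P M (Fin.init v) (v (Fin.last m)))) :
    UDef L m (fun M _ v => ∃ x : M, P M v x) := by
  obtain ⟨φ, hφ⟩ := h
  refine ⟨φ.ex, fun M _ v => ?_⟩
  rw [BoundedFormula.realize_ex]
  apply exists_congr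
  intro x
  rw [hφ]
  simp

end UDef

end Pool.Agent.Helper20.Spectra
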