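import Pool.Agent.Helper20.Spectra.TwoPos

/-!
# Grids coded by unit interval graphs
-/

set_option autoImplicit false

namespace Pool.Agent.Helper20.Spectra

section Defs

variable {M : Type}

/-- closed twins -/
def tw (ca : M → M → Prop) (p q : M) : Prop := ∀ x, ca x p ↔ ca x q

/-- at least `k` twins -/
def atL (ca : M → M → Prop) (k : ℕ) (p : M) : Prop :=
  ∃ z : Fin k → M, (∀ t t', t ≠ t' → ¬ z t = z t') ∧ ∀ t, tw ca p (z t)

def lab0 (ca : M → M → Prop) (p : M) : Prop := ¬ atL ca 2 p
def lab1 (C : ℕ) (ca : M → M → Prop) (p : M) : Prop := atL ca 2 p ∧ ¬ atL ca (C + 2) p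
def lab2 (C : ℕ) (ca : M → M → Prop) (p : M) : Prop := atL ca (C + 2) p

/-- consecutive classes -/
def cons (ca : M → M → Prop) (p q : M) : Prop :=
  ca p q ∧ ¬ tw ca p q ∧ ∀ x, (∀ y, ca y p → ca y q → ca y x) →
    (∀ y, ca y x → ca y p ∨ ca y q) → tw ca x p ∨ tw ca x q

/-- oriented successor -/
def sc (C : ℕ) (ca : M → M → Prop) (p q : M) : Prop :=
  cons ca p q ∧ ((lab0 ca p ∧ lab1 C ca q) ∨ (lab1 C ca p ∧ lab2 C ca q) ∨
    (lab2 C ca p ∧ lab0 ca q))

def nN (C : ℕ) (ca : M → M → Prop) (p q : M) : Prop :=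
  ∃ x y, sc C ca p x ∧ sc C ca x y ∧ sc C ca y q

def nF (C : ℕ) (ca : M → M → Prop) (p q : M) : Prop :=
  ¬ ca p q ∧ ∃ y, sc C ca y q ∧ ca y p

def nK (C : ℕ) (ca : M → M → Prop) (e : ℕ) (p : M) : Prop :=
  ∃ x, sc C ca p x ∧ atL ca (e + 2) x ∧ ¬ atL ca (e + 3) x

/-- the axioms on classes -/
structure GrAx (C : ℕ) (ca : M → M → Prop) : Prop where
  first : ∀ p p', (∀ q, ¬ sc C ca q p) → (∀ q, ¬ sc C ca q p') → tw ca p p'
  first0 : ∀ p, (∀ q, ¬ sc C ca q p) → lab0 ca p
  last : ∀ p p', (∀ q, ¬ sc C ca p q) → (∀ q, ¬ sc C ca p' q) → tw ca p p'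
  last2 : ∀ p, (∀ q, ¬ sc C ca p q) → lab2 C ca p
  siz : ∀ x y, sc C ca x y → lab1 C ca x → ∀ e : Fin C, atL ca (e + 2) x →
    ¬ atL ca (e + 3) x → atL ca (2 * C + 1 - e) y ∧ ¬ atL ca (2 * C + 2 - e) y

/-- graphs whose classes are indexed -/
structure Ix (ca : M → M → Prop) (X : ℕ) (idx : M → ℕ) : Prop where
  refl : ∀ p, ca p p
  symm : ∀ p q, ca p q → ca q p
  umb : ∀ p q r, idx p ≤ idx q → idx q ≤ idx r → ca p r → ca p q ∧ ca q r
  tw : ∀ p q, tw ca p q ↔ idx p = idx q
  lt : ∀ p, idx p < X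
  surj : ∀ i, i < X → ∃ p, idx p = i

end Defs

section Generic

variable {M : Type} {ca : M → M → Prop} {X : ℕ} {idx : M → ℕ}

lemma cons_symm (hs : ∀ p q, ca p q → ca q p) {p q : M} (h : cons ca p q) : cons ca q p := by
  obtain ⟨h1, h2, h3⟩ := h
  refine ⟨hs _ _ h1, fun h4 => h2 (fun x => (h4 x).symm), fun x h4 h5 => ?_⟩
  exact (h3 x (fun y hp hq => h4 y hq hp) (fun y hy => (h5 y hy).symm)).symm

lemma Ix.cons_lt (h : Ix ca X idx) {p q : M} (hc : cons ca p q) (hpq : idx p < idx q) :
    idx q = idx p + 1 := by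
  obtain ⟨h1, _, h3⟩ := hc
  by_contra hne
  have hq := h.lt q
  obtain ⟨k, hk⟩ := h.surj (idx p + 1) (by omega)
  have hA : ∀ y, ca y p → ca y q → ca y k := by
    intro y hyp hyq
    rcases Nat.le_total (idx y) (idx k) with h5 | h5
    · exact (h.umb y k q h5 (by omega) hyq).1
    · exact h.symm _ _ (h.umb p k y (by omega) h5 (h.symm _ _ hyp)).2
  have hB : ∀ y, ca y k → ca y p ∨ ca y q := by
    intro y hyk
    rcases Nat.le_total (idx y) (idx p) with h5 | h5
    · exact Or.inl (h.umb y p k h5 (by omega) hyk).1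
    · rcases Nat.le_total (idx q) (idx y) with h6 | h6
      · exact Or.inr (h.symm _ _ (h.umb k q y (by omega) h6 (h.symm _ _ hyk)).2)
      · exact Or.inl (h.symm _ _ (h.umb p y q h5 h6 h1).1)
  rcases h3 k hA hB with h4 | h4
  · rw [h.tw] at h4; omega
  · rw [h.tw] at h4; omega

lemma Ix.cons_of (h : Ix ca X idx) {p q : M} (hc : ca p q) (hpq : idx q = idx p + 1) :
    cons ca p q := by
  refine ⟨hc, fun h1 => by rw [h.tw] at h1; omega, fun x h1 h2 => ?_⟩
  rw [h.tw, h.tw]
  by_contra hne
  push Not at hne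
  rcases Nat.lt_or_ge (idx q) (idx x) with h3 | h3
  · have hqx : ca q x := h1 q (h.symm _ _ hc) (h.refl q)
    apply hne.2
    rw [← h.tw]
    intro l
    constructor
    · intro hlx
      rcases h2 l hlx with h4 | h4
      · rcases Nat.le_total (idx l) (idx q) with h5 | h5
        · exact (h.umb l q x h5 h3.le hlx).1
        · exact h.symm _ _ (h.umb p q l (by omega) h5 (h.symm _ _ h4)).2
      · exact h4
    · intro hlq
      rcases le_or_gt (idx l) (idx p) with h5 | h5
      · exact h1 l (h.umb l p q h5 (by omega) hlq).1 hlq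
      · rcases Nat.le_total (idx l) (idx x) with h6 | h6
        · exact (h.umb q l x (by omega) h6 hqx).2
        · exact h.symm _ _ (h.umb q x l h3.le h6 (h.symm _ _ hlq)).2
  · have h3' : idx x < idx p := by omega
    have hpx : ca p x := h1 p (h.refl p) hc
    apply hne.1
    rw [← h.tw]
    intro l
    constructor
    · intro hlx
      rcases h2 l hlx with h4 | h4
      · exact h4
      · rcases Nat.le_total (idx p) (idx l) with h5 | h5
        · exact h.symm _ _ (h.umb x p l h3'.le h5 (h.symm _ _ hlx)).2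
        · exact (h.umb l p q h5 (by omega) h4).1
    · intro hlp
      rcases le_or_gt (idx q) (idx l) with h5 | h5
      · have h6 := (h.umb p q l (by omega) h5 (h.symm _ _ hlp)).2
        exact h1 l hlp (h.symm _ _ h6)
      · rcases Nat.le_total (idx x) (idx l) with h6 | h6
        · exact h.symm _ _ (h.umb x l p h6 (by omega) (h.symm _ _ hpx)).1
        · exact (h.umb l x p h6 h3'.le hlp).1

lemma Ix.cons_iff (h : Ix ca X idx) (p q : M) :
    cons ca p q ↔ ca p q ∧ (idx q = idx p + 1 ∨ idx p = idx q + 1) := by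
  constructor
  · intro hc
    refine ⟨hc.1, ?_⟩
    have hne : idx p ≠ idx q := fun h1 => hc.2.1 ((h.tw p q).2 h1)
    rcases Nat.lt_or_gt_of_ne hne with h1 | h1
    · exact Or.inl (h.cons_lt hc h1)
    · exact Or.inr (h.cons_lt (cons_symm h.symm hc) h1)
  · rintro ⟨h1, h2 | h2⟩
    · exact h.cons_of h1 h2
    · exact cons_symm h.symm (h.cons_of (h.symm _ _ h1) h2)

/-- size of a class -/
noncomputable def csz [Fintype M] (idx : M → ℕ) (i : ℕ) : ℕ :=
  (Finset.univ.filter (fun p => idx p = i)).card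

lemma Ix.atL_iff [Fintype M] (h : Ix ca X idx) (k : ℕ) (p : M) :
    atL ca k p ↔ k ≤ csz idx (idx p) := by
  classical
  unfold csz
  constructor
  · rintro ⟨z, hz1, hz2⟩
    have hinj : Function.Injective z := by
      intro t t' htt
      by_contra hne
      exact hz1 t t' hne htt
    have h1 : (Finset.univ.image z).card = k := by
      rw [Finset.card_image_of_injective _ hinj, Finset.card_univ, Fintype.card_fin]
    rw [← h1]
    apply Finset.card_le_card
    intro q hq
    rw [Finset.mem_image] at hq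
    obtain ⟨t, _, rfl⟩ := hq
    rw [Finset.mem_filter]
    exact ⟨Finset.mem_univ _, ((h.tw _ _).1 (hz2 t)).symm⟩
  · intro hk
    obtain ⟨t, ht, htc⟩ := Finset.exists_subset_card_eq hk
    let e := t.equivFinOfCardEq htc
    refine ⟨fun i => (e.symm i : M), ?_, ?_⟩
    · intro i j hij h1
      exact hij (e.symm.injective (Subtype.ext h1))
    · intro i
      rw [h.tw]
      have := ht (e.symm i).2
      rw [Finset.mem_filter] at this
      exact this.2.symm

lemma Ix.ca_congr (h : Ix ca X idx) {p p' q q' : M} (hp : idx p = idx p') (hq : idx q = idx q')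
    (hc : ca p q) : ca p' q' := by
  have h1 := (h.tw p p').2 hp
  have h2 := (h.tw q q').2 hq
  have h3 : ca p q' := (h2 p).1 hc
  have h4 : ca q' p' := (h1 q').1 (h.symm _ _ h3)
  exact h.symm _ _ h4

end Generic

section Labels

variable {M : Type} [Fintype M] {ca : M → M → Prop} {X C : ℕ} {idx : M → ℕ}

omit [Fintype M] in
lemma Ix.sc_idx (h : Ix ca X idx) {p q : M} (hc : sc C ca p q) :
    idx q = idx p + 1 ∨ idx p = idx q + 1 := ((h.cons_iff p q).1 hc.1).2

lemma csz_pos (idx : M → ℕ) (p : M) : 1 ≤ csz idx (idx p) := by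
  classical
  unfold csz
  exact Finset.card_pos.2 ⟨p, by simp⟩

lemma Ix.sc_congr (h : Ix ca X idx) {p p' q q' : M} (hp : idx p = idx p')
    (hq : idx q = idx q') (hc : sc C ca p q) : sc C ca p' q' := by
  unfold sc lab0 lab1 lab2 at hc ⊢
  rw [h.cons_iff] at hc ⊢
  simp only [h.atL_iff] at hc ⊢
  rw [← hp, ← hq]
  exact ⟨⟨h.ca_congr hp hq hc.1.1, hc.1.2⟩, hc.2⟩

lemma Ix.sc_asymm (hC : 1 ≤ C) (h : Ix ca X idx) {p q : M} (hc : sc C ca p q)
    (hc' : sc C ca q p) : False := by
  have h1 := hc.2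
  have h2 := hc'.2
  unfold lab0 lab1 lab2 at h1 h2
  simp only [h.atL_iff] at h1 h2
  omega

/-- orientation of the classes -/
lemma Ix.orient (hC : 1 ≤ C) (h : Ix ca X idx) (hG : GrAx C ca) (hM : Nonempty M) :
    ∃ idx' : M → ℕ, Ix ca X idx' ∧ 2 ≤ X ∧ ∀ p q, sc C ca p q ↔ idx' q = idx' p + 1 := by
  obtain ⟨m0⟩ := hM
  have hX1 : 1 ≤ X := by have := h.lt m0; omega
  -- a vertex cannot be both first and last
  have hfl : ∀ p, ¬ ((∀ q, ¬ sc C ca q p) ∧ (∀ q, ¬ sc C ca p q)) := by
    rintro p ⟨h1, h2⟩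
    have h3 := hG.first0 p h1
    have h4 := hG.last2 p h2
    unfold lab0 at h3
    unfold lab2 at h4
    rw [h.atL_iff] at h3 h4
    omega
  -- end classes
  have hend : ∀ p, (idx p = 0 ∨ idx p + 1 = X) → (∀ q, ¬ sc C ca q p) ∨ (∀ q, ¬ sc C ca p q) := by
    intro p hp
    by_contra hne
    push Not at hne
    obtain ⟨⟨q, hq⟩, ⟨r, hr⟩⟩ := hne
    have h1 := h.sc_idx hq
    have h2 := h.sc_idx hr
    have h3 := h.lt q
    have h4 := h.lt r
    have h5 : idx q = idx r := by omega
    exact h.sc_asymm hC (h.sc_congr rfl h5.symm hr) hq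
  obtain ⟨p0, hp0⟩ := h.surj 0 (by omega)
  obtain ⟨p1, hp1⟩ := h.surj (X - 1) (by omega)
  have hX2 : 2 ≤ X := by
    by_contra hlt
    have hX : X = 1 := by omega
    apply hfl p0
    constructor
    · intro q hq
      have h1 := h.sc_idx hq
      have h2 := h.lt q
      omega
    · intro q hq
      have h1 := h.sc_idx hq
      have h2 := h.lt q
      omega
  -- main claim, for an indexing whose class zero is first
  have main : ∀ idx' : M → ℕ, Ix ca X idx' → (∀ p, idx' p = 0 → ∀ q, ¬ sc C ca q p) →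
      (∀ p, (∀ q, ¬ sc C ca p q) → idx' p + 1 = X) →
      ∀ p q, sc C ca p q ↔ idx' q = idx' p + 1 := by
    intro idx' h' hfirst hlast
    have hstep : ∀ i, i + 1 < X → ∀ p q, idx' p = i → idx' q = i + 1 → sc C ca p q := by
      intro i
      induction i with
      | zero =>
        intro hi p q hp hq
        have hnl : ¬ ∀ q, ¬ sc C ca p q := fun h1 => by have := hlast p h1; omega
        push Not at hnl
        obtain ⟨r, hr⟩ := hnl
        have h1 := h'.sc_idx hr
        exact h'.sc_congr rfl (by omega) hr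
      | succ i ih =>
        intro hi p q hp hq
        have hnl : ¬ ∀ q, ¬ sc C ca p q := fun h1 => by have := hlast p h1; omega
        push Not at hnl
        obtain ⟨r, hr⟩ := hnl
        have h1 := h'.sc_idx hr
        rcases h1 with h1 | h1
        · exact h'.sc_congr rfl (by omega) hr
        · exact absurd hr (fun h2 => h'.sc_asymm hC h2 (ih (by omega) r p (by omega) (by omega)))
    intro p q
    constructor
    · intro hpq
      rcases h'.sc_idx hpq with h1 | h1
      · exact h1
      · have h2 := h'.lt p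
        exact absurd hpq (fun h3 => h'.sc_asymm hC h3 (hstep (idx' q) (by omega) q p rfl h1))
    · intro h1
      have h2 := h'.lt q
      exact hstep (idx' p) (by omega) p q rfl h1
  rcases hend p0 (Or.inl hp0) with hf | hl
  · -- class zero is first
    have hl1 : ∀ q, ¬ sc C ca p1 q := by
      rcases hend p1 (Or.inr (by omega)) with h1 | h1
      · have := (h.tw _ _).1 (hG.first p0 p1 hf h1)
        omega
      · exact h1
    refine ⟨idx, h, hX2, main idx h ?_ ?_⟩
    · intro p hp q hq
      exact hf q (h.sc_congr rfl (by omega) hq)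
    · intro p hp
      have := (h.tw _ _).1 (hG.last p p1 hp hl1)
      omega
  · -- class zero is last
    have hf1 : ∀ q, ¬ sc C ca q p1 := by
      rcases hend p1 (Or.inr (by omega)) with h1 | h1
      · exact h1
      · have := (h.tw _ _).1 (hG.last p0 p1 hl h1)
        omega
    have h' : Ix ca X (fun p => X - 1 - idx p) := by
      refine ⟨h.refl, h.symm, ?_, ?_, ?_, ?_⟩
      · intro p q r hpq hqr hpr
        have h1 := h.lt p
        have h2 := h.lt q
        have h3 := h.lt r
        have h4 := h.umb r q p (by omega) (by omega) (h.symm _ _ hpr)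
        exact ⟨h.symm _ _ h4.2, h.symm _ _ h4.1⟩
      · intro p q
        have h1 := h.lt p
        have h2 := h.lt q
        rw [h.tw]
        omega
      · intro p
        have h1 := h.lt p
        omega
      · intro i hi
        obtain ⟨p, hp⟩ := h.surj (X - 1 - i) (by omega)
        exact ⟨p, by omega⟩
    refine ⟨_, h', hX2, main _ h' ?_ ?_⟩
    · intro p hp q hq
      have h1 := h.lt p
      exact hf1 q (h.sc_congr rfl (by omega) hq)
    · intro p hp
      have := (h.tw _ _).1 (hG.last p p0 hp hl)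
      omega

end Labels

end Pool.Agent.Helper20.Spectra
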