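import Pool.Agent.Helper20.Spectra.UI

/-!
# Grids coded by unit interval graphs: decoding
-/

set_option autoImplicit false

namespace Pool.Agent.Helper20.Spectra

section Order

variable {M : Type} [LinearOrder M] {ca : M → M → Prop}

lemma tw_convex (hr : ∀ p, ca p p) (hs : ∀ p q, ca p q → ca q p)
    (hu : ∀ a b c, a ≤ b → b ≤ c → ca a c → ca a b ∧ ca b c) {p q r : M} (hpq : p ≤ q)
    (hqr : q ≤ r) (ht : tw ca p r) : tw ca p q := by
  have hpr : ca p r := hs _ _ ((ht r).2 (hr r))
  intro x
  constructor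
  · intro hx
    rcases le_total x q with h1 | h1
    · exact (hu x q r h1 hqr ((ht x).1 hx)).1
    · exact hs _ _ (hu p q x hpq h1 (hs _ _ hx)).2
  · intro hx
    rcases le_total x p with h1 | h1
    · exact (hu x p q h1 hpq hx).1
    · rcases le_total x r with h2 | h2
      · exact hs _ _ (hu p x r h1 h2 hpr).1
      · exact (ht x).2 (hs _ _ (hu q r x hqr h2 (hs _ _ hx)).2)

lemma exists_ix [Fintype M] (hr : ∀ p, ca p p) (hs : ∀ p q, ca p q → ca q p)
    (hu : ∀ a b c, a ≤ b → b ≤ c → ca a c → ca a b ∧ ca b c) :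
    ∃ (X : ℕ) (idx : M → ℕ), Ix ca X idx := by
  classical
  let st : Setoid M :=
    { r := tw ca
      iseqv :=
        { refl := fun _ _ => Iff.rfl
          symm := fun h x => (h x).symm
          trans := fun h h' x => (h x).trans (h' x) } }
  have htrans : ∀ {a b c : M}, tw ca a b → tw ca b c → tw ca a c :=
    fun h h' x => (h x).trans (h' x)
  have hsymm : ∀ {a b : M}, tw ca a b → tw ca b a := fun h x => (h x).symm
  have key : ∀ p q p' q' : M, tw ca p p' → tw ca q q' → (p < q ∧ ¬ tw ca p q) →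
      (p' < q' ∧ ¬ tw ca p' q') := by
    intro p q p' q' hp hq ⟨h1, h2⟩
    have h3 : ¬ tw ca p' q' := fun h4 => h2 (htrans hp (htrans h4 (hsymm hq)))
    refine ⟨?_, h3⟩
    by_contra h4
    rw [not_lt] at h4
    rcases le_total q' p with h5 | h5
    · -- q' ≤ p < q
      have h6 := tw_convex hr hs hu h5 h1.le (hsymm hq)
      exact h2 (htrans (hsymm h6) (hsymm hq))
    · -- p ≤ q' ≤ p'
      have h6 := tw_convex hr hs hu h5 h4 hp
      exact h2 (htrans h6 (hsymm hq))
  let r : Quotient st → Quotient st → Prop := Quotient.lift₂ (fun p q => p < q ∧ ¬ tw ca p q)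
    (fun p q p' q' hp hq => propext ⟨key p q p' q' hp hq,
      key p' q' p q (hsymm hp) (hsymm hq)⟩)
  have hmk : ∀ p q : M, r (Quotient.mk st p) (Quotient.mk st q) ↔ (p < q ∧ ¬ tw ca p q) :=
    fun _ _ => Iff.rfl
  have heq : ∀ p q : M, Quotient.mk st p = Quotient.mk st q ↔ tw ca p q := fun p q => Quotient.eq
  have hlin : SLin r := by
    refine ⟨?_, ?_, ?_⟩
    · intro x
      induction x using Quotient.inductionOn with
      | _ p =>
        rw [hmk]
        rintro ⟨h1, _⟩
        exact lt_irrefl _ h1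
    · intro x y z
      induction x using Quotient.inductionOn with
      | _ p =>
      induction y using Quotient.inductionOn with
      | _ q =>
      induction z using Quotient.inductionOn with
      | _ s =>
        rw [hmk, hmk, hmk]
        rintro ⟨h1, h2⟩ ⟨h3, h4⟩
        refine ⟨h1.trans h3, fun h5 => h2 (tw_convex hr hs hu h1.le h3.le h5)⟩
    · intro x y
      induction x using Quotient.inductionOn with
      | _ p =>
      induction y using Quotient.inductionOn with
      | _ q =>
        rw [hmk, hmk, heq]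
        by_cases ht : tw ca p q
        · exact Or.inr (Or.inl ht)
        · have hne : p ≠ q := fun h => ht (h ▸ fun _ => Iff.rfl)
          rcases lt_or_gt_of_ne hne with h1 | h1
          · exact Or.inl ⟨h1, ht⟩
          · exact Or.inr (Or.inr ⟨h1, fun h2 => ht (hsymm h2)⟩)
  have hfin : Fintype (Quotient st) := Fintype.ofFinite _
  obtain ⟨e, he⟩ := exists_enum hlin rfl
  refine ⟨Fintype.card (Quotient st), fun p => e (Quotient.mk st p), hr, hs, ?_, ?_, ?_, ?_⟩
  · intro p q s hpq hqs hps
    have hle : ∀ a b : M, (e (Quotient.mk st a) : ℕ) ≤ e (Quotient.mk st b) →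
        tw ca a b ∨ a < b := by
      intro a b hab
      rcases Nat.lt_or_eq_of_le hab with h1 | h1
      · exact Or.inr ((hmk a b).1 ((he _ _).2 h1)).1
      · exact Or.inl ((heq a b).1 (e.injective (Fin.ext h1)))
    rcases hle p q hpq with h1 | h1
    · exact ⟨hs _ _ ((h1 q).2 (hr q)), hs _ _ ((h1 s).1 (hs _ _ hps))⟩
    · rcases hle q s hqs with h2 | h2
      · exact ⟨(h2 p).2 hps, hs _ _ ((h2 s).2 (hr s))⟩
      · exact hu p q s h1.le h2.le hps
  · intro p q
    rw [← heq p q, ← Fin.ext_iff]
    exact ⟨fun h => congrArg e h, fun h => e.injective h⟩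
  · intro p
    exact (e _).is_lt
  · intro i hi
    obtain ⟨p, hp⟩ := Quotient.exists_rep (e.symm ⟨i, hi⟩)
    refine ⟨p, ?_⟩
    show ((e (Quotient.mk st p) : Fin _) : ℕ) = i
    have : Quotient.mk st p = e.symm ⟨i, hi⟩ := hp
    rw [this, Equiv.apply_symm_apply]

end Order

section Dec

lemma sum_three (g : ℕ → ℕ) (c L : ℕ)
    (h : ∀ u < L, g (3 * u) + g (3 * u + 1) + g (3 * u + 2) = c) :
    ∑ i ∈ Finset.range (3 * L), g i = L * c := by
  induction L with
  | zero => simp
  | succ L ih =>
    have e : 3 * (L + 1) = 3 * L + 1 + 1 + 1 := by ring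
    rw [e, Finset.sum_range_succ, Finset.sum_range_succ, Finset.sum_range_succ,
      ih (fun u hu => h u (by omega))]
    have := h L (by omega)
    have e2 : (L + 1) * c = L * c + c := by ring
    omega

theorem ui_decode {Θ : Finset (ℕ × ℕ × ℕ × ℕ)} {T n : ℕ} (hn : 1 ≤ n) {M : Type} [Fintype M]
    {ca : M → M → Prop} {X : ℕ} {idx : M → ℕ} (h0 : Ix ca X idx)
    (hc : Fintype.card M = (2 * nC T + 4) * ((n + 2) * (n + 2))) (hG : GrAx (nC T) ca)
    (hCell : CellAx Θ T (lab0 ca) (nN (nC T) ca) (nF (nC T) ca)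
      (fun γ => nK (nC T) ca (cK T γ))) : n ∈ squareSizes Θ := by
  classical
  have hC := nC_pos T
  set C := nC T with hCdef
  have hM : Nonempty M := by
    have h1 : 0 < (n + 2) * (n + 2) := Nat.mul_pos (by omega) (by omega)
    have : 0 < Fintype.card M := hc ▸ Nat.mul_pos (by omega) h1
    exact Fintype.card_pos_iff.1 this
  obtain ⟨id', h, hX2, hsc⟩ := h0.orient hC hG hM
  -- labels
  have hlab0 : ∀ p, lab0 ca p ↔ csz id' (id' p) < 2 := by
    intro p
    unfold lab0
    rw [h.atL_iff]
    omega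
  have hlab1 : ∀ p, lab1 C ca p ↔ 2 ≤ csz id' (id' p) ∧ csz id' (id' p) < C + 2 := by
    intro p
    unfold lab1
    rw [h.atL_iff, h.atL_iff]
    omega
  have hlab2 : ∀ p, lab2 C ca p ↔ C + 2 ≤ csz id' (id' p) := by
    intro p
    unfold lab2
    rw [h.atL_iff]
  have hP : ∀ i, i < X → (i % 3 = 0 → csz id' i = 1) ∧
      (i % 3 = 1 → 2 ≤ csz id' i ∧ csz id' i < C + 2) ∧ (i % 3 = 2 → C + 2 ≤ csz id' i) := by
    intro i
    induction i with
    | zero =>
      intro hi
      obtain ⟨p, hp⟩ := h.surj 0 hi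
      have h1 : lab0 ca p := hG.first0 p (fun q hq => by rw [hsc] at hq; omega)
      rw [hlab0, hp] at h1
      have h2 := csz_pos id' p
      rw [hp] at h2
      omega
    | succ i ih =>
      intro hi
      have h1 := ih (by omega)
      obtain ⟨p, hp⟩ := h.surj i (by omega)
      obtain ⟨q, hq⟩ := h.surj (i + 1) hi
      have h2 : sc C ca p q := (hsc p q).2 (by omega)
      have h3 := h2.2
      rw [hlab0, hlab0, hlab1, hlab1, hlab2, hlab2, hp, hq] at h3
      have h4 := csz_pos id' q
      rw [hq] at h4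
      omega
  have hXmod : X % 3 = 0 := by
    obtain ⟨p, hp⟩ := h.surj (X - 1) (by omega)
    have h1 : lab2 C ca p := hG.last2 p (fun q hq => by
      rw [hsc] at hq
      have := h.lt q
      omega)
    rw [hlab2, hp] at h1
    have h2 := hP (X - 1) (by omega)
    omega
  obtain ⟨L, rfl⟩ : ∃ L, X = 3 * L := ⟨X / 3, by omega⟩
  have hL : 1 ≤ L := by omega
  -- the cells
  have hc0 : ∀ u : Fin L, ∃ p, id' p = 3 * u := fun u => h.surj _ (by have := u.is_lt; omega)
  choose c hcu using hc0
  have hsingle : ∀ p q, id' p % 3 = 0 → id' p = id' q → p = q := by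
    intro p q hp hpq
    have h1 := (hP (id' p) (h.lt p)).1 hp
    unfold csz at h1
    have h2 := Finset.card_le_one.1 h1.le
    exact h2 p (by simp) q (by simp [hpq])
  have hDc : ∀ p, lab0 ca p ↔ ∃ u, c u = p := by
    intro p
    rw [hlab0]
    have h1 := hP (id' p) (h.lt p)
    have h2 := h.lt p
    constructor
    · intro h3
      have h4 : id' p % 3 = 0 := by
        rcases h1 with ⟨h5, h6, h7⟩
        have : id' p % 3 < 3 := Nat.mod_lt _ (by omega)
        by_contra h8
        rcases (by omega : id' p % 3 = 1 ∨ id' p % 3 = 2) with h9 | h9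
        · have := h6 h9; omega
        · have := h7 h9; omega
      refine ⟨⟨id' p / 3, by omega⟩, ?_⟩
      refine (hsingle p _ h4 ?_).symm
      rw [hcu]
      simp only
      omega
    · rintro ⟨u, rfl⟩
      have h4 := (hP (id' (c u)) h2).1 (by rw [hcu]; omega)
      omega
  have hinj : Function.Injective c := by
    intro u v huv
    have h1 := hcu u
    rw [huv, hcu v] at h1
    exact Fin.ext (by omega)
  have hNc : ∀ u v, nN C ca (c u) (c v) ↔ (v : ℕ) = u + 1 := by
    intro u v
    unfold nN
    simp only [hsc]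
    rw [hcu, hcu]
    constructor
    · rintro ⟨x, y, h1, h2, h3⟩
      omega
    · intro h1
      have h2 := v.is_lt
      obtain ⟨x, hx⟩ := h.surj (3 * u + 1) (by omega)
      obtain ⟨y, hy⟩ := h.surj (3 * u + 2) (by omega)
      exact ⟨x, y, by omega, by omega, by omega⟩
  obtain ⟨W, hW1, hW2⟩ := cell_decode hCell hL c hDc hinj hNc
  -- counting
  have hcard : Fintype.card M = L * (2 * C + 4) := by
    have h1 : Fintype.card M = ∑ i ∈ Finset.range (3 * L), csz id' i := by
      rw [← Finset.card_univ]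
      exact Finset.card_eq_sum_card_fiberwise
        (fun p _ => by simp only [Finset.coe_range, Set.mem_Iio]; exact h.lt p)
    rw [h1]
    apply sum_three
    intro u hu
    obtain ⟨x, hx⟩ := h.surj (3 * u + 1) (by omega)
    obtain ⟨y, hy⟩ := h.surj (3 * u + 2) (by omega)
    have h2 := (hP (3 * u) (by omega)).1 (by omega)
    have h3 := (hP (3 * u + 1) (by omega)).2.1 (by omega)
    have h4 := hG.siz x y ((hsc _ _).2 (by omega)) ((hlab1 x).2 (by rw [hx]; exact h3))
      ⟨csz id' (3 * u + 1) - 2, by omega⟩ (by rw [h.atL_iff, hx]; simp only; omega)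
      (by rw [h.atL_iff, hx]; simp only; omega)
    rw [h.atL_iff, h.atL_iff, hy] at h4
    simp only at h4
    omega
  have hLW : L = (n + 2) * (n + 2) := by
    rw [hcard, mul_comm] at hc
    exact Nat.eq_of_mul_eq_mul_left (by omega) hc
  have hWn : W = n + 2 := (Nat.mul_self_inj.1 (hLW.symm.trans hW1)).symm
  have := hW2 (by omega)
  rw [hWn] at this
  simpa using this

end Dec

end Pool.Agent.Helper20.Spectra
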