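import Pool.Agent.Helper20.Spectra.UIDec

/-!
# Grids coded by unit interval graphs: encoding
-/

set_option autoImplicit false

namespace Pool.Agent.Helper20.Spectra

/-- class of a vertex -/
def cls (st : ℕ) (kk : ℕ → ℕ) (x : ℕ) : ℕ :=
  3 * (x / st) + (if x % st = 0 then 0 else if x % st ≤ kk (x / st) + 2 then 1 else 2)

/-- closed adjacency -/
def cad (st W : ℕ) (kk : ℕ → ℕ) (L : ℕ) (v w : Fin (st * L)) : Prop :=
  cls st kk v < cls st kk w + 3 * W ∧ cls st kk w < cls st kk v + 3 * W

lemma cad_iff (st W : ℕ) (kk : ℕ → ℕ) (L : ℕ) (v w : Fin (st * L)) :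
    cad st W kk L v w ↔ cls st kk v < cls st kk w + 3 * W ∧
      cls st kk w < cls st kk v + 3 * W := Iff.rfl

/-- hypotheses of the coding -/
structure Uod (st W C L : ℕ) (kk : ℕ → ℕ) : Prop where
  hst : st = 2 * C + 4
  hC : 1 ≤ C
  hW : 3 ≤ W
  hL : L = W * W
  hk : ∀ i, kk i < C

section

variable {st W C L : ℕ} {kk : ℕ → ℕ}

lemma cls_off {u o : ℕ} (ho : o < st) :
    cls st kk (st * u + o) = 3 * u + (if o = 0 then 0 else if o ≤ kk u + 2 then 1 else 2) := by
  unfold cls
  have h1 := div_mod_block (s := st) (A := u) (r := o) ho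
  rw [h1.1, h1.2]

lemma cls_div (x : ℕ) : cls st kk x / 3 = x / st := by
  unfold cls
  split_ifs <;> omega

lemma cls_mod (x : ℕ) : cls st kk x % 3 =
    (if x % st = 0 then 0 else if x % st ≤ kk (x / st) + 2 then 1 else 2) := by
  unfold cls
  split_ifs <;> omega

variable (h : Uod st W C L kk)
include h

lemma Uod.st_pos : 0 < st := by have := h.hst; omega

lemma Uod.L_big : 3 * W ≤ L := by
  rw [h.hL]
  exact Nat.mul_le_mul_right _ h.hW

omit h in
lemma cls_ltL (v : Fin (st * L)) : cls st kk v < 3 * L := by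
  have h1 : (v : ℕ) / st < L := Nat.div_lt_of_lt_mul v.is_lt
  have h2 := cls_div (st := st) (kk := kk) (v : ℕ)
  omega

lemma Uod.surj (i : ℕ) (hi : i < 3 * L) : ∃ v : Fin (st * L), cls st kk v = i := by
  have hst := h.hst
  have hk := h.hk (i / 3)
  have hu : i / 3 < L := by omega
  have key : ∀ o, o < st → 3 * (i / 3) + (if o = 0 then 0 else if o ≤ kk (i / 3) + 2 then 1
      else 2) = i → ∃ v : Fin (st * L), cls st kk v = i := by
    intro o ho hi'
    refine ⟨⟨st * (i / 3) + o, block_lt ho hu⟩, ?_⟩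
    simp only
    rw [cls_off ho, hi']
  rcases (by omega : i % 3 = 0 ∨ i % 3 = 1 ∨ i % 3 = 2) with h1 | h1 | h1
  · refine key 0 (by omega) ?_
    rw [if_pos rfl]
    omega
  · refine key 1 (by omega) ?_
    rw [if_neg (by omega), if_pos (by omega)]
    omega
  · refine key (st - 1) (by omega) ?_
    rw [if_neg (by omega), if_neg (by omega)]
    omega

lemma Uod.ix : Ix (cad st W kk L) (3 * L) (fun v => cls st kk v) := by
  have hW := h.hW
  have hLb := h.L_big
  refine ⟨?_, ?_, ?_, ?_, ?_, ?_⟩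
  · intro p
    exact ⟨by omega, by omega⟩
  · rintro p q ⟨h1, h2⟩
    exact ⟨h2, h1⟩
  · rintro p q r hpq hqr ⟨h1, h2⟩
    beta_reduce at hpq hqr
    exact ⟨⟨by omega, by omega⟩, ⟨by omega, by omega⟩⟩
  · intro p q
    constructor
    · intro ht
      by_contra hne
      -- a distinguishing vertex
      have key : ∀ p q : Fin (st * L), cls st kk p < cls st kk q →
          ¬ tw (cad st W kk L) p q := by
        intro p q hpq ht
        have hp := cls_ltL (kk := kk) p
        have hq := cls_ltL (kk := kk) q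
        by_cases h1 : cls st kk p + 3 * W ≤ cls st kk q
        · have h2 := (ht q).2 ⟨by omega, by omega⟩
          have h3 := h2.1
          omega
        · by_cases h2 : cls st kk q + (3 * W - 1) < 3 * L
          · obtain ⟨x, hx⟩ := h.surj _ h2
            have h3 := (ht x).2 ⟨by omega, by omega⟩
            have h4 := h3.1
            omega
          · obtain ⟨x, hx⟩ := h.surj (cls st kk p - (3 * W - 1)) (by omega)
            have h3 := (ht x).1 ⟨by omega, by omega⟩
            have h4 := h3.2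
            omega
      rcases Nat.lt_or_gt_of_ne hne with h1 | h1
      · exact key p q h1 ht
      · exact key q p h1 (fun x => (ht x).symm)
    · intro heq x
      unfold cad
      rw [heq]
  · intro p
    exact cls_ltL (kk := kk) p
  · intro i hi
    exact h.surj i hi

lemma Uod.csz_eq (u t a b : ℕ) (hu : u < L) (hab : a ≤ b) (hb : b < st)
    (hcl : ∀ o, o < st → ((if o = 0 then 0 else if o ≤ kk u + 2 then 1 else 2) = t ↔
      a ≤ o ∧ o ≤ b)) (ht : t < 3) :
    csz (fun v : Fin (st * L) => cls st kk v) (3 * u + t) = b + 1 - a := by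
  have hst0 := h.st_pos
  unfold csz
  have e : (Finset.univ.filter (fun v : Fin (st * L) => cls st kk v = 3 * u + t)).map
      Fin.valEmbedding = Finset.Icc (st * u + a) (st * u + b) := by
    ext x
    rw [Finset.mem_map, Finset.mem_Icc]
    constructor
    · rintro ⟨v, hv, rfl⟩
      rw [Finset.mem_filter] at hv
      have hv1 := hv.2
      have hd := cls_div (st := st) (kk := kk) (v : ℕ)
      have hm := cls_mod (st := st) (kk := kk) (v : ℕ)
      have hvu : (v : ℕ) / st = u := by omega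
      have hdm := Nat.div_add_mod (v : ℕ) st
      rw [hvu] at hdm hm
      have h2 := (hcl _ (Nat.mod_lt (v : ℕ) hst0)).1 (by rw [← hm, hv1]; omega)
      show st * u + a ≤ (v : ℕ) ∧ (v : ℕ) ≤ st * u + b
      omega
    · rintro ⟨h1, h2⟩
      have hxb : x = st * u + (x - st * u) := by omega
      have ho : x - st * u < st := by omega
      have hlt : x < st * L := by
        rw [hxb]
        exact block_lt ho hu
      refine ⟨⟨x, hlt⟩, ?_, rfl⟩
      rw [Finset.mem_filter]
      refine ⟨Finset.mem_univ _, ?_⟩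
      simp only
      rw [hxb, cls_off ho, (hcl _ ho).2 (by omega)]
  rw [← Finset.card_map Fin.valEmbedding, e, Nat.card_Icc]
  omega

lemma Uod.csz0 (u : ℕ) (hu : u < L) :
    csz (fun v : Fin (st * L) => cls st kk v) (3 * u) = 1 := by
  have hst := h.hst
  refine h.csz_eq u 0 0 0 hu le_rfl (by omega) (fun o ho => ?_) (by omega)
  by_cases h1 : o = 0
  · rw [if_pos h1]; omega
  · rw [if_neg h1]
    by_cases h2 : o ≤ kk u + 2
    · rw [if_pos h2]; omega
    · rw [if_neg h2]; omega

lemma Uod.csz1 (u : ℕ) (hu : u < L) :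
    csz (fun v : Fin (st * L) => cls st kk v) (3 * u + 1) = kk u + 2 := by
  have hst := h.hst
  have hk := h.hk u
  refine h.csz_eq u 1 1 (kk u + 2) hu (by omega) (by omega) (fun o ho => ?_) (by omega)
  by_cases h1 : o = 0
  · rw [if_pos h1]; omega
  · rw [if_neg h1]
    by_cases h2 : o ≤ kk u + 2
    · rw [if_pos h2]; omega
    · rw [if_neg h2]; omega

lemma Uod.csz2 (u : ℕ) (hu : u < L) :
    csz (fun v : Fin (st * L) => cls st kk v) (3 * u + 2) = 2 * C + 1 - kk u := by
  have hst := h.hst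
  have hk := h.hk u
  have h1 := h.csz_eq u 2 (kk u + 3) (st - 1) hu (by omega) (by omega) (fun o ho => by
    by_cases h1 : o = 0
    · rw [if_pos h1]; omega
    · rw [if_neg h1]
      by_cases h2 : o ≤ kk u + 2
      · rw [if_pos h2]; omega
      · rw [if_neg h2]; omega) (by omega)
  rw [h1]
  omega

lemma Uod.lab (v : Fin (st * L)) :
    (lab0 (cad st W kk L) v ↔ cls st kk v % 3 = 0) ∧
    (lab1 C (cad st W kk L) v ↔ cls st kk v % 3 = 1) ∧
    (lab2 C (cad st W kk L) v ↔ cls st kk v % 3 = 2) := by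
  have hv := cls_ltL (kk := kk) v
  have hu : cls st kk v / 3 < L := by omega
  have h0 := h.csz0 _ hu
  have h1 := h.csz1 _ hu
  have h2 := h.csz2 _ hu
  have hk := h.hk (cls st kk v / 3)
  have hC := h.hC
  unfold lab0 lab1 lab2
  rw [h.ix.atL_iff, h.ix.atL_iff]
  rcases (by omega : cls st kk v = 3 * (cls st kk v / 3) ∨
    cls st kk v = 3 * (cls st kk v / 3) + 1 ∨ cls st kk v = 3 * (cls st kk v / 3) + 2)
    with h3 | h3 | h3
  · rw [← h3] at h0
    omega
  · rw [← h3] at h1
    omega
  · rw [← h3] at h2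
    omega

lemma Uod.sc_iff (v w : Fin (st * L)) :
    sc C (cad st W kk L) v w ↔ cls st kk w = cls st kk v + 1 := by
  have hW := h.hW
  unfold sc
  rw [h.ix.cons_iff, (h.lab v).1, (h.lab v).2.1, (h.lab v).2.2, (h.lab w).1, (h.lab w).2.1,
    (h.lab w).2.2]
  constructor
  · rintro ⟨⟨_, h1⟩, h2⟩
    omega
  · intro h1
    exact ⟨⟨⟨by omega, by omega⟩, Or.inl h1⟩, by omega⟩

lemma Uod.grAx : GrAx C (cad st W kk L) := by
  have hC := h.hC
  have hLb := h.L_big
  have hW := h.hW
  have hf : ∀ p : Fin (st * L), (∀ q, ¬ sc C (cad st W kk L) q p) → cls st kk p = 0 := by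
    intro p hp
    by_contra h0
    have := cls_ltL (kk := kk) p
    obtain ⟨q, hq⟩ := h.surj (cls st kk p - 1) (by omega)
    exact hp q ((h.sc_iff q p).2 (by omega))
  have hl : ∀ p : Fin (st * L), (∀ q, ¬ sc C (cad st W kk L) p q) →
      cls st kk p + 1 = 3 * L := by
    intro p hp
    by_contra h0
    have := cls_ltL (kk := kk) p
    obtain ⟨q, hq⟩ := h.surj (cls st kk p + 1) (by omega)
    exact hp q ((h.sc_iff p q).2 (by omega))
  refine ⟨?_, ?_, ?_, ?_, ?_⟩
  · intro p p' hp hp'
    rw [h.ix.tw]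
    rw [hf p hp, hf p' hp']
  · intro p hp
    rw [(h.lab p).1, hf p hp]
  · intro p p' hp hp'
    rw [h.ix.tw]
    have h1 := hl p hp
    have h2 := hl p' hp'
    omega
  · intro p hp
    rw [(h.lab p).2.2]
    have h1 := hl p hp
    omega
  · intro x y hxy hx e h1 h2
    rw [(h.lab x).2.1] at hx
    rw [h.sc_iff] at hxy
    rw [h.ix.atL_iff] at h1 h2 ⊢
    rw [h.ix.atL_iff]
    have hxl := cls_ltL (kk := kk) x
    obtain ⟨u, hu⟩ : ∃ u, cls st kk x = 3 * u + 1 := ⟨cls st kk x / 3, by omega⟩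
    have huL : u < L := by omega
    have h3 := h.csz1 u huL
    have h4 := h.csz2 u huL
    have hk := h.hk u
    rw [hu] at h1 h2
    rw [hxy, hu]
    have e1 : 3 * u + 1 + 1 = 3 * u + 2 := rfl
    rw [e1]
    omega

end

/-- encoding -/
theorem ui_encode {Θ : Finset (ℕ × ℕ × ℕ × ℕ)} {T n : ℕ}
    (hT : ∀ θ ∈ Θ, θ.1 ≤ T) (hn : n ∈ squareSizes Θ) :
    ∃ (kk : ℕ → ℕ), Uod (2 * nC T + 4) (n + 2) (nC T) ((n + 2) * (n + 2)) kk ∧
      GrAx (nC T) (cad (2 * nC T + 4) (n + 2) kk ((n + 2) * (n + 2))) ∧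
      CellAx Θ T (lab0 (cad (2 * nC T + 4) (n + 2) kk ((n + 2) * (n + 2))))
        (nN (nC T) (cad (2 * nC T + 4) (n + 2) kk ((n + 2) * (n + 2))))
        (nF (nC T) (cad (2 * nC T + 4) (n + 2) kk ((n + 2) * (n + 2))))
        (fun γ => nK (nC T) (cad (2 * nC T + 4) (n + 2) kk ((n + 2) * (n + 2))) (cK T γ)) := by
  obtain ⟨hn1, a, ha1, ha2⟩ := hn
  have haT : ∀ x y, a x y ≤ T := by
    intro x y
    by_cases h : x ≤ n ∧ y ≤ n
    · exact hT _ (ha2 x y h.1 h.2)
    · have : a x y = 0 := by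
        by_contra h1
        have := (ha1 x y).1 h1
        omega
      omega
  have hU : Uod (2 * nC T + 4) (n + 2) (nC T) ((n + 2) * (n + 2))
      (fun i => cK T (colr T (n + 2) a i)) :=
    ⟨rfl, nC_pos T, by omega, rfl, fun i => cK_lt T _⟩
  refine ⟨_, hU, hU.grAx, ?_⟩
  set W := n + 2 with hW
  set kk : ℕ → ℕ := fun i => cK T (colr T W a i) with hkk
  set st := 2 * nC T + 4 with hst
  have hst0 : 0 < st := by omega
  have hmul : ∀ i : Fin (W * W), st * (i : ℕ) < st * (W * W) :=
    fun i => Nat.mul_lt_mul_of_pos_left i.is_lt hst0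
  have hcl : ∀ i : Fin (W * W), cls st kk (st * (i : ℕ)) = 3 * i := by
    intro i
    have := cls_off (st := st) (kk := kk) (u := i) (o := 0) hst0
    rw [add_zero] at this
    rw [this, if_pos rfl, add_zero]
  refine cell_encode hW hn1 a ha1 ha2 haT (fun i => ⟨st * i, hmul i⟩) ?_ ?_ ?_ ?_
  · intro p
    rw [(hU.lab p).1]
    have hm := cls_mod (st := st) (kk := kk) (p : ℕ)
    have hdm := Nat.div_add_mod (p : ℕ) st
    constructor
    · intro h1
      have h2 : (p : ℕ) % st = 0 := by
        by_contra h3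
        rw [if_neg h3] at hm
        split_ifs at hm <;> omega
      refine ⟨⟨(p : ℕ) / st, Nat.div_lt_of_lt_mul p.is_lt⟩, Fin.ext ?_⟩
      simp only
      omega
    · rintro ⟨i, rfl⟩
      simp only
      rw [hcl]
      omega
  · intro i j
    unfold nN
    simp only [hU.sc_iff, hcl]
    constructor
    · rintro ⟨x, y, h1, h2, h3⟩
      omega
    · intro h1
      have hj := j.is_lt
      obtain ⟨x, hx⟩ := hU.surj (3 * i + 1) (by omega)
      obtain ⟨y, hy⟩ := hU.surj (3 * i + 2) (by omega)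
      exact ⟨x, y, by omega, by omega, by omega⟩
  · intro i j
    unfold nF
    simp only [hU.sc_iff, cad_iff, hcl]
    constructor
    · rintro ⟨h1, y, h2, h3, h4⟩
      omega
    · intro h1
      have hj := j.is_lt
      refine ⟨by omega, ?_⟩
      obtain ⟨y, hy⟩ := hU.surj (3 * j - 1) (by omega)
      exact ⟨y, by omega, by omega, by omega⟩
  · intro γ i
    unfold nK
    simp only [hU.sc_iff, hcl]
    have hi := i.is_lt
    have h1 := hU.csz1 i hi
    constructor
    · rintro ⟨x, hx, h2, h3⟩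
      rw [hU.ix.atL_iff] at h2 h3
      rw [hx] at h2 h3
      rw [h1] at h2 h3
      exact cK_inj (by show cK T γ = kk i; omega)
    · rintro rfl
      obtain ⟨x, hx⟩ := hU.surj (3 * i + 1) (by omega)
      refine ⟨x, hx, ?_, ?_⟩
      · rw [hU.ix.atL_iff]
        rw [hx, h1]
      · rw [hU.ix.atL_iff]
        rw [hx, h1]
        show ¬ cK T (colr T W a i) + 3 ≤ cK T (colr T W a i) + 2
        omega

end Pool.Agent.Helper20.Spectra
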