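import Pool.Agent.Helper20.Spectra.Bits
import Pool.Agent.Helper20.Spectra.UDef
import Pool.Agent.Helper20.Spectra.FOLoc

/-!
# The universal sentence
-/

set_option autoImplicit false

namespace Pool.Agent.Helper20.Spectra

open FirstOrder FirstOrder.Language

/-- function symbols -/
inductive UFn : ℕ → Type
  | tau : UFn 0
  | f1 : UFn 1
  | f2 : UFn 1
  | h : UFn 1
  | h' : UFn 1
  | pr : UFn 2
  | c : UFn 2

/-- relation symbols -/
inductive URl : ℕ → Type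
  | B : URl 1
  | X : URl 1
  | lt : URl 2
  | E : URl 2

/-- the vocabulary of the universal sentence -/
def LU : FirstOrder.Language.{0, 0} := ⟨UFn, URl⟩

instance : Finite (Σ l, LU.Functions l) := by
  apply Finite.of_surjective (fun i : Fin 7 => (![⟨0, UFn.tau⟩, ⟨1, UFn.f1⟩, ⟨1, UFn.f2⟩,
    ⟨1, UFn.h⟩, ⟨1, UFn.h'⟩, ⟨2, UFn.pr⟩, ⟨2, UFn.c⟩] : Fin 7 → Σ l, UFn l) i)
  rintro ⟨l, f⟩
  cases f
  · exact ⟨0, rfl⟩
  · exact ⟨1, rfl⟩
  · exact ⟨2, rfl⟩
  · exact ⟨3, rfl⟩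
  · exact ⟨4, rfl⟩
  · exact ⟨5, rfl⟩
  · exact ⟨6, rfl⟩

instance : Finite (Σ l, LU.Relations l) := by
  apply Finite.of_surjective (fun i : Fin 4 => (![⟨1, URl.B⟩, ⟨1, URl.X⟩, ⟨2, URl.lt⟩,
    ⟨2, URl.E⟩] : Fin 4 → Σ l, URl l) i)
  rintro ⟨l, f⟩
  cases f
  · exact ⟨0, rfl⟩
  · exact ⟨1, rfl⟩
  · exact ⟨2, rfl⟩
  · exact ⟨3, rfl⟩

section Acc

variable (M : Type) [LU.Structure M]

def tau : M := Structure.funMap (L := LU) (M := M) UFn.tau ![]

variable {M}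

def f1 (x : M) : M := Structure.funMap (L := LU) (M := M) UFn.f1 ![x]
def f2 (x : M) : M := Structure.funMap (L := LU) (M := M) UFn.f2 ![x]
def hh (x : M) : M := Structure.funMap (L := LU) (M := M) UFn.h ![x]
def hh' (x : M) : M := Structure.funMap (L := LU) (M := M) UFn.h' ![x]
def pr (x y : M) : M := Structure.funMap (L := LU) (M := M) UFn.pr ![x, y]
def cc (x y : M) : M := Structure.funMap (L := LU) (M := M) UFn.c ![x, y]
def BB (x : M) : Prop := Structure.RelMap (L := LU) (M := M) URl.B ![x]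
def XX (x : M) : Prop := Structure.RelMap (L := LU) (M := M) URl.X ![x]
def lt (x y : M) : Prop := Structure.RelMap (L := LU) (M := M) URl.lt ![x, y]
def EE (x y : M) : Prop := Structure.RelMap (L := LU) (M := M) URl.E ![x, y]

def Suc (x y : M) : Prop := lt x y ∧ ∀ z, ¬ (lt x z ∧ lt z y)
def Lst (x : M) : Prop := ∀ z, ¬ lt x z
def Grd (x : M) : Prop := BB x ∧ ¬ lt x (tau M)

variable (M)

/-- the axioms -/
structure Ax : Prop where
  o0 : ∀ x y : M, lt x y → BB x ∧ BB y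
  o1 : ∀ x : M, ¬ lt x x
  o2 : ∀ x y z : M, lt x y → lt y z → lt x z
  o3 : ∀ x y : M, BB x → BB y → (lt x y ∨ x = y ∨ lt y x)
  o4 : BB (tau M)
  p1 : ∀ x y : M, BB x → BB y → XX (pr x y) ∧ f1 (pr x y) = x ∧ f2 (pr x y) = y
  p2 : ∀ z : M, XX z → BB (f1 z) ∧ BB (f2 z) ∧ pr (f1 z) (f2 z) = z
  r1 : ∀ z : M, ¬ XX z → lt (hh z) (tau M) ∧ hh' (hh z) = z
  r2 : ∀ y : M, lt y (tau M) → ¬ XX (hh' y) ∧ hh (hh' y) = y
  e0 : ∀ x y : M, EE x y → BB x ∧ BB y
  e1 : ∀ y : M, (∀ z, ¬ lt z y) → ∀ x, ¬ EE x y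
  e2 : ∀ y y' : M, Suc y y' → ∃ i, ¬ EE i y ∧ EE i y' ∧ (∀ j, lt j i → EE j y ∧ ¬ EE j y') ∧
    (∀ j, lt i j → (EE j y ↔ EE j y'))
  g1 : ∀ x y : M, Grd x → Grd y → BB (cc x y) ∧ ((∃ z, lt z (cc x y)) ↔
    ¬ ((x = tau M ∨ Lst x) ∨ (y = tau M ∨ Lst y)))
  g2 : ∀ x x' y y' : M, Grd x → Grd x' → Grd y → Grd y' → Suc x x' → Suc y y' →
    Qd EE (tau M) (cc x y) (cc x' y) (cc x y') (cc x' y')
  g3 : ∃ x : M, Grd x ∧ x ≠ tau M ∧ ¬ Lst x

end Acc

lemma Ax_def : UDef LU 0 (fun M _ _ => Ax M) := by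
  have h0 : UDef LU 0 (fun M _ _ => ∀ x y : M, lt x y → BB x ∧ BB y) := by
    unfold lt BB
    repeat' (first
      | exact UTerm.var _ | exact UTerm.const (L := LU) _ | refine UTerm.fn1 (L := LU) _ ?_
      | refine UTerm.fn2 (L := LU) _ ?_ ?_ | refine UDef.all ?_ | refine UDef.ex ?_
      | refine UDef.and ?_ ?_ | refine UDef.or ?_ ?_ | refine UDef.iff ?_ ?_
      | refine UDef.not ?_ | refine UDef.imp ?_ ?_ | refine UDef.rel1 (L := LU) _ ?_
      | refine UDef.rel2 (L := LU) _ ?_ ?_ | refine UDef.eq ?_ ?_)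
  have h1 : UDef LU 0 (fun M _ _ => ∀ x : M, ¬ lt x x) := by
    unfold lt
    repeat' (first
      | exact UTerm.var _ | exact UTerm.const (L := LU) _ | refine UTerm.fn1 (L := LU) _ ?_
      | refine UTerm.fn2 (L := LU) _ ?_ ?_ | refine UDef.all ?_ | refine UDef.ex ?_
      | refine UDef.and ?_ ?_ | refine UDef.or ?_ ?_ | refine UDef.iff ?_ ?_
      | refine UDef.not ?_ | refine UDef.imp ?_ ?_ | refine UDef.rel1 (L := LU) _ ?_
      | refine UDef.rel2 (L := LU) _ ?_ ?_ | refine UDef.eq ?_ ?_)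
  have h2 : UDef LU 0 (fun M _ _ => ∀ x y z : M, lt x y → lt y z → lt x z) := by
    unfold lt
    repeat' (first
      | exact UTerm.var _ | exact UTerm.const (L := LU) _ | refine UTerm.fn1 (L := LU) _ ?_
      | refine UTerm.fn2 (L := LU) _ ?_ ?_ | refine UDef.all ?_ | refine UDef.ex ?_
      | refine UDef.and ?_ ?_ | refine UDef.or ?_ ?_ | refine UDef.iff ?_ ?_
      | refine UDef.not ?_ | refine UDef.imp ?_ ?_ | refine UDef.rel1 (L := LU) _ ?_
      | refine UDef.rel2 (L := LU) _ ?_ ?_ | refine UDef.eq ?_ ?_)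
  have h3 : UDef LU 0 (fun M _ _ => ∀ x y : M, BB x → BB y → (lt x y ∨ x = y ∨ lt y x)) := by
    unfold lt BB
    repeat' (first
      | exact UTerm.var _ | exact UTerm.const (L := LU) _ | refine UTerm.fn1 (L := LU) _ ?_
      | refine UTerm.fn2 (L := LU) _ ?_ ?_ | refine UDef.all ?_ | refine UDef.ex ?_
      | refine UDef.and ?_ ?_ | refine UDef.or ?_ ?_ | refine UDef.iff ?_ ?_
      | refine UDef.not ?_ | refine UDef.imp ?_ ?_ | refine UDef.rel1 (L := LU) _ ?_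
      | refine UDef.rel2 (L := LU) _ ?_ ?_ | refine UDef.eq ?_ ?_)
  have h4 : UDef LU 0 (fun M _ _ => BB (tau M)) := by
    unfold BB tau
    repeat' (first
      | exact UTerm.var _ | exact UTerm.const (L := LU) _ | refine UTerm.fn1 (L := LU) _ ?_
      | refine UTerm.fn2 (L := LU) _ ?_ ?_ | refine UDef.all ?_ | refine UDef.ex ?_
      | refine UDef.and ?_ ?_ | refine UDef.or ?_ ?_ | refine UDef.iff ?_ ?_
      | refine UDef.not ?_ | refine UDef.imp ?_ ?_ | refine UDef.rel1 (L := LU) _ ?_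
      | refine UDef.rel2 (L := LU) _ ?_ ?_ | refine UDef.eq ?_ ?_)
  have h5 : UDef LU 0 (fun M _ _ => ∀ x y : M, BB x → BB y → XX (pr x y) ∧ f1 (pr x y) = x ∧
      f2 (pr x y) = y) := by
    unfold BB XX f1 f2 pr
    repeat' (first
      | exact UTerm.var _ | exact UTerm.const (L := LU) _ | refine UTerm.fn1 (L := LU) _ ?_
      | refine UTerm.fn2 (L := LU) _ ?_ ?_ | refine UDef.all ?_ | refine UDef.ex ?_
      | refine UDef.and ?_ ?_ | refine UDef.or ?_ ?_ | refine UDef.iff ?_ ?_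
      | refine UDef.not ?_ | refine UDef.imp ?_ ?_ | refine UDef.rel1 (L := LU) _ ?_
      | refine UDef.rel2 (L := LU) _ ?_ ?_ | refine UDef.eq ?_ ?_)
  have h6 : UDef LU 0 (fun M _ _ => ∀ z : M, XX z → BB (f1 z) ∧ BB (f2 z) ∧
      pr (f1 z) (f2 z) = z) := by
    unfold BB XX f1 f2 pr
    repeat' (first
      | exact UTerm.var _ | exact UTerm.const (L := LU) _ | refine UTerm.fn1 (L := LU) _ ?_
      | refine UTerm.fn2 (L := LU) _ ?_ ?_ | refine UDef.all ?_ | refine UDef.ex ?_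
      | refine UDef.and ?_ ?_ | refine UDef.or ?_ ?_ | refine UDef.iff ?_ ?_
      | refine UDef.not ?_ | refine UDef.imp ?_ ?_ | refine UDef.rel1 (L := LU) _ ?_
      | refine UDef.rel2 (L := LU) _ ?_ ?_ | refine UDef.eq ?_ ?_)
  have h7 : UDef LU 0 (fun M _ _ => ∀ z : M, ¬ XX z → lt (hh z) (tau M) ∧ hh' (hh z) = z) := by
    unfold XX lt hh hh' tau
    repeat' (first
      | exact UTerm.var _ | exact UTerm.const (L := LU) _ | refine UTerm.fn1 (L := LU) _ ?_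
      | refine UTerm.fn2 (L := LU) _ ?_ ?_ | refine UDef.all ?_ | refine UDef.ex ?_
      | refine UDef.and ?_ ?_ | refine UDef.or ?_ ?_ | refine UDef.iff ?_ ?_
      | refine UDef.not ?_ | refine UDef.imp ?_ ?_ | refine UDef.rel1 (L := LU) _ ?_
      | refine UDef.rel2 (L := LU) _ ?_ ?_ | refine UDef.eq ?_ ?_)
  have h8 : UDef LU 0 (fun M _ _ => ∀ y : M, lt y (tau M) → ¬ XX (hh' y) ∧ hh (hh' y) = y) := by
    unfold XX lt hh hh' tau
    repeat' (first
      | exact UTerm.var _ | exact UTerm.const (L := LU) _ | refine UTerm.fn1 (L := LU) _ ?_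
      | refine UTerm.fn2 (L := LU) _ ?_ ?_ | refine UDef.all ?_ | refine UDef.ex ?_
      | refine UDef.and ?_ ?_ | refine UDef.or ?_ ?_ | refine UDef.iff ?_ ?_
      | refine UDef.not ?_ | refine UDef.imp ?_ ?_ | refine UDef.rel1 (L := LU) _ ?_
      | refine UDef.rel2 (L := LU) _ ?_ ?_ | refine UDef.eq ?_ ?_)
  have h9 : UDef LU 0 (fun M _ _ => ∀ x y : M, EE x y → BB x ∧ BB y) := by
    unfold EE BB
    repeat' (first
      | exact UTerm.var _ | exact UTerm.const (L := LU) _ | refine UTerm.fn1 (L := LU) _ ?_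
      | refine UTerm.fn2 (L := LU) _ ?_ ?_ | refine UDef.all ?_ | refine UDef.ex ?_
      | refine UDef.and ?_ ?_ | refine UDef.or ?_ ?_ | refine UDef.iff ?_ ?_
      | refine UDef.not ?_ | refine UDef.imp ?_ ?_ | refine UDef.rel1 (L := LU) _ ?_
      | refine UDef.rel2 (L := LU) _ ?_ ?_ | refine UDef.eq ?_ ?_)
  have h10 : UDef LU 0 (fun M _ _ => ∀ y : M, (∀ z, ¬ lt z y) → ∀ x, ¬ EE x y) := by
    unfold EE lt
    repeat' (first
      | exact UTerm.var _ | exact UTerm.const (L := LU) _ | refine UTerm.fn1 (L := LU) _ ?_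
      | refine UTerm.fn2 (L := LU) _ ?_ ?_ | refine UDef.all ?_ | refine UDef.ex ?_
      | refine UDef.and ?_ ?_ | refine UDef.or ?_ ?_ | refine UDef.iff ?_ ?_
      | refine UDef.not ?_ | refine UDef.imp ?_ ?_ | refine UDef.rel1 (L := LU) _ ?_
      | refine UDef.rel2 (L := LU) _ ?_ ?_ | refine UDef.eq ?_ ?_)
  have h11 : UDef LU 0 (fun M _ _ => ∀ y y' : M, Suc y y' → ∃ i, ¬ EE i y ∧ EE i y' ∧
      (∀ j, lt j i → EE j y ∧ ¬ EE j y') ∧ (∀ j, lt i j → (EE j y ↔ EE j y'))) := by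
    unfold Suc EE lt
    repeat' (first
      | exact UTerm.var _ | exact UTerm.const (L := LU) _ | refine UTerm.fn1 (L := LU) _ ?_
      | refine UTerm.fn2 (L := LU) _ ?_ ?_ | refine UDef.all ?_ | refine UDef.ex ?_
      | refine UDef.and ?_ ?_ | refine UDef.or ?_ ?_ | refine UDef.iff ?_ ?_
      | refine UDef.not ?_ | refine UDef.imp ?_ ?_ | refine UDef.rel1 (L := LU) _ ?_
      | refine UDef.rel2 (L := LU) _ ?_ ?_ | refine UDef.eq ?_ ?_)
  have h12 : UDef LU 0 (fun M _ _ => ∀ x y : M, Grd x → Grd y → BB (cc x y) ∧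
      ((∃ z, lt z (cc x y)) ↔ ¬ ((x = tau M ∨ Lst x) ∨ (y = tau M ∨ Lst y)))) := by
    unfold Grd Lst BB lt cc tau
    repeat' (first
      | exact UTerm.var _ | exact UTerm.const (L := LU) _ | refine UTerm.fn1 (L := LU) _ ?_
      | refine UTerm.fn2 (L := LU) _ ?_ ?_ | refine UDef.all ?_ | refine UDef.ex ?_
      | refine UDef.and ?_ ?_ | refine UDef.or ?_ ?_ | refine UDef.iff ?_ ?_
      | refine UDef.not ?_ | refine UDef.imp ?_ ?_ | refine UDef.rel1 (L := LU) _ ?_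
      | refine UDef.rel2 (L := LU) _ ?_ ?_ | refine UDef.eq ?_ ?_)
  have h13 : UDef LU 0 (fun M _ _ => ∀ x x' y y' : M, Grd x → Grd x' → Grd y → Grd y' →
      Suc x x' → Suc y y' →
      Qd EE (tau M) (cc x y) (cc x' y) (cc x y') (cc x' y')) := by
    unfold Grd Suc Qd Pr Db BB EE lt cc tau
    repeat' (first
      | exact UTerm.var _ | exact UTerm.const (L := LU) _ | refine UTerm.fn1 (L := LU) _ ?_
      | refine UTerm.fn2 (L := LU) _ ?_ ?_ | refine UDef.all ?_ | refine UDef.ex ?_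
      | refine UDef.and ?_ ?_ | refine UDef.or ?_ ?_ | refine UDef.iff ?_ ?_
      | refine UDef.not ?_ | refine UDef.imp ?_ ?_ | refine UDef.rel1 (L := LU) _ ?_
      | refine UDef.rel2 (L := LU) _ ?_ ?_ | refine UDef.eq ?_ ?_)
  have h14 : UDef LU 0 (fun M _ _ => ∃ x : M, Grd x ∧ x ≠ tau M ∧ ¬ Lst x) := by
    unfold Grd Lst BB lt tau Ne
    repeat' (first
      | exact UTerm.var _ | exact UTerm.const (L := LU) _ | refine UTerm.fn1 (L := LU) _ ?_
      | refine UTerm.fn2 (L := LU) _ ?_ ?_ | refine UDef.all ?_ | refine UDef.ex ?_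
      | refine UDef.and ?_ ?_ | refine UDef.or ?_ ?_ | refine UDef.iff ?_ ?_
      | refine UDef.not ?_ | refine UDef.imp ?_ ?_ | refine UDef.rel1 (L := LU) _ ?_
      | refine UDef.rel2 (L := LU) _ ?_ ?_ | refine UDef.eq ?_ ?_)
  obtain ⟨φ, hφ⟩ := h0.and (h1.and (h2.and (h3.and (h4.and (h5.and (h6.and (h7.and (h8.and
    (h9.and (h10.and (h11.and (h12.and (h13.and h14)))))))))))))
  refine ⟨φ, fun M _ v => (hφ M v).trans ?_⟩
  constructor
  · rintro ⟨a0, a1, a2, a3, a4, a5, a6, a7, a8, a9, a10, a11, a12, a13, a14⟩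
    exact ⟨a0, a1, a2, a3, a4, a5, a6, a7, a8, a9, a10, a11, a12, a13, a14⟩
  · rintro ⟨a0, a1, a2, a3, a4, a5, a6, a7, a8, a9, a10, a11, a12, a13, a14⟩
    exact ⟨a0, a1, a2, a3, a4, a5, a6, a7, a8, a9, a10, a11, a12, a13, a14⟩

end Pool.Agent.Helper20.Spectra
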