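import Pool.Agent.Helper20.Spectra.Univ

/-!
# The spectrum of the universal sentence
-/

set_option autoImplicit false

namespace Pool.Agent.Helper20.Spectra

open FirstOrder FirstOrder.Language

/-- `r` enumerates the base set, in increasing order, and `EE` is Ackermann membership -/
structure Base (M : Type) [LU.Structure M] (s : ℕ) (r : ℕ → M) : Prop where
  inj : ∀ i j, i < s → j < s → r i = r j → i = j
  B : ∀ x : M, BB x ↔ ∃ i, i < s ∧ x = r i
  lt : ∀ i j, i < s → j < s → (lt (r i) (r j) ↔ i < j)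
  E : ∀ i j, i < s → j < s → (EE (r i) (r j) ↔ natE i j)
  o0 : ∀ x y : M, Spectra.lt x y → BB x ∧ BB y
  e0 : ∀ x y : M, EE x y → BB x ∧ BB y

namespace Base

variable {M : Type} [LU.Structure M] {s : ℕ} {r : ℕ → M}

lemma Db_base (h : Base M s r) {w a b : ℕ} (hw : w < s) (ha : a < s) (hb : b < s) :
    Db EE (r w) (r a) (r b) ↔ Db natE w a b := by
  constructor
  · intro hD v
    constructor
    · intro hv
      have hvs : v < s := (natE_lt hv).trans hw
      rcases (hD (r v)).1 ((h.E v w hvs hw).2 hv) with e | e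
      · exact Or.inl (h.inj _ _ hvs ha e)
      · exact Or.inr (h.inj _ _ hvs hb e)
    · rintro (rfl | rfl)
      · exact (h.E _ _ ha hw).1 ((hD _).2 (Or.inl rfl))
      · exact (h.E _ _ hb hw).1 ((hD _).2 (Or.inr rfl))
  · intro hD v
    constructor
    · intro hv
      obtain ⟨i, hi, rfl⟩ := (h.B v).1 (h.e0 _ _ hv).1
      rcases (hD i).1 ((h.E i w hi hw).1 hv) with e | e
      · exact Or.inl (by rw [e])
      · exact Or.inr (by rw [e])
    · rintro (rfl | rfl)
      · exact (h.E _ _ ha hw).2 ((hD _).2 (Or.inl rfl))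
      · exact (h.E _ _ hb hw).2 ((hD _).2 (Or.inr rfl))

lemma Pr_base (h : Base M s r) {z a b : ℕ} (hz : z < s) (ha : a < s) (hb : b < s) :
    Pr EE (r z) (r a) (r b) ↔ Pr natE z a b := by
  constructor
  · rintro ⟨w₁, w₂, h1, h2, h3⟩
    obtain ⟨i, hi, rfl⟩ := (h.B w₁).1 (h.e0 _ _ ((h3 _).2 (Or.inl rfl))).1
    obtain ⟨j, hj, rfl⟩ := (h.B w₂).1 (h.e0 _ _ ((h3 _).2 (Or.inr rfl))).1
    exact ⟨i, j, (h.Db_base hi ha ha).1 h1, (h.Db_base hj ha hb).1 h2, (h.Db_base hz hi hj).1 h3⟩
  · rintro ⟨w₁, w₂, h1, h2, h3⟩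
    have hi : w₁ < s := (natE_lt ((h3 w₁).2 (Or.inl rfl))).trans hz
    have hj : w₂ < s := (natE_lt ((h3 w₂).2 (Or.inr rfl))).trans hz
    exact ⟨r w₁, r w₂, (h.Db_base hi ha ha).2 h1, (h.Db_base hj ha hb).2 h2,
      (h.Db_base hz hi hj).2 h3⟩

lemma Pr_base_mem (h : Base M s r) {z : M} {a b : M} (hP : Pr EE z a b) :
    BB a ∧ BB b := by
  obtain ⟨w₁, w₂, h1, h2, h3⟩ := hP
  exact ⟨(h.e0 _ _ ((h1 _).2 (Or.inl rfl))).1, (h.e0 _ _ ((h2 _).2 (Or.inr rfl))).1⟩

lemma Qd_base (h : Base M s r) {t p q r' s' : ℕ} (ht : t < s) (hp : p < s) (hq : q < s)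
    (hr : r' < s) (hs : s' < s) :
    Qd EE (r t) (r p) (r q) (r r') (r s') ↔ Qd natE t p q r' s' := by
  constructor
  · rintro ⟨z, u, w, h1, h2, h3, h4⟩
    have hzB := (h.e0 _ _ h1).1
    obtain ⟨huB, hwB⟩ := h.Pr_base_mem h2
    obtain ⟨z, hz, rfl⟩ := (h.B z).1 hzB
    obtain ⟨u, hu, rfl⟩ := (h.B u).1 huB
    obtain ⟨w, hw, rfl⟩ := (h.B w).1 hwB
    exact ⟨z, u, w, (h.E _ _ hz ht).1 h1, (h.Pr_base hz hu hw).1 h2, (h.Pr_base hu hp hq).1 h3,
      (h.Pr_base hw hr hs).1 h4⟩
  · rintro ⟨z, u, w, h1, h2, h3, h4⟩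
    have hz : z < s := (natE_lt h1).trans ht
    have h5 := lt_prc u w
    rw [← (Pr_iff z u w).1 h2] at h5
    exact ⟨r z, r u, r w, (h.E _ _ hz ht).2 h1, (h.Pr_base hz (by omega) (by omega)).2 h2,
      (h.Pr_base (by omega) hp hq).2 h3, (h.Pr_base (by omega) hr hs).2 h4⟩

lemma suc (h : Base M s r) {i : ℕ} (hi : i + 1 < s) : Suc (r i) (r (i + 1)) := by
  refine ⟨(h.lt _ _ (by omega) hi).2 (by omega), ?_⟩
  rintro z ⟨h1, h2⟩
  obtain ⟨j, hj, rfl⟩ := (h.B z).1 (h.o0 _ _ h2).1
  have h3 := (h.lt _ _ (by omega) hj).1 h1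
  have h4 := (h.lt _ _ hj hi).1 h2
  omega

lemma suc_iff (h : Base M s r) {i j : ℕ} (hi : i < s) (hj : j < s) :
    Suc (r i) (r j) ↔ j = i + 1 := by
  constructor
  · rintro ⟨h1, h2⟩
    have h3 := (h.lt _ _ hi hj).1 h1
    by_contra hne
    exact h2 (r (i + 1)) ⟨(h.lt _ _ hi (by omega)).2 (by omega),
      (h.lt _ _ (by omega) hj).2 (by omega)⟩
  · rintro rfl; exact h.suc hj

lemma lst_iff (h : Base M s r) {i : ℕ} (hi : i < s) : Lst (r i) ↔ i + 1 = s := by
  constructor
  · intro h1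
    by_contra hne
    exact h1 (r (i + 1)) ((h.lt _ _ hi (by omega)).2 (by omega))
  · intro h1 z hz
    obtain ⟨j, hj, rfl⟩ := (h.B z).1 (h.o0 _ _ hz).2
    have := (h.lt _ _ hi hj).1 hz
    omega

lemma pos_iff (h : Base M s r) {i : ℕ} (hi : i < s) : (∃ z, Spectra.lt z (r i)) ↔ i ≠ 0 := by
  constructor
  · rintro ⟨z, hz⟩ rfl
    obtain ⟨j, hj, rfl⟩ := (h.B z).1 (h.o0 _ _ hz).1
    have := (h.lt _ _ hj hi).1 hz
    omega
  · intro h1
    exact ⟨r 0, (h.lt _ _ (by omega) hi).2 (by omega)⟩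

lemma grd_iff (h : Base M s r) {t : ℕ} (ht : t < s) (hτ : tau M = r t) {i : ℕ} (hi : i < s) :
    Grd (r i) ↔ t ≤ i := by
  unfold Grd
  rw [hτ, h.lt _ _ hi ht, h.B]
  constructor
  · rintro ⟨-, h1⟩; omega
  · intro h1; exact ⟨⟨i, hi, rfl⟩, by omega⟩

end Base

/-- existence of a base enumeration -/
lemma exists_base (M : Type) [LU.Structure M] [Fintype M] (hA : Ax M) :
    ∃ (s t : ℕ) (r : ℕ → M), Base M s r ∧ t < s ∧ tau M = r t := by
  classical
  let Bs := {x : M // BB x}
  let R : Bs → Bs → Prop := fun x y => lt x.1 y.1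
  have hsto : IsStrictTotalOrder Bs R :=
    { trichotomous := fun x y => by
        rcases hA.o3 x.1 y.1 x.2 y.2 with h | h | h
        · intro h1 _; exact absurd h h1
        · intro _ _; exact Subtype.ext h
        · intro _ h1; exact absurd h h1
      irrefl := fun x => hA.o1 x.1
      trans := fun x y z => hA.o2 x.1 y.1 z.1 }
  let _ : LinearOrder Bs := linearOrderOfSTO R
  obtain ⟨s, hs⟩ : ∃ s, Fintype.card Bs = s := ⟨_, rfl⟩
  let e : Fin s ≃o Bs := Fintype.orderIsoFinOfCardEq Bs hs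
  let r : ℕ → M := fun i => if h : i < s then (e ⟨i, h⟩).1 else tau M
  have hr : ∀ i (h : i < s), r i = (e ⟨i, h⟩).1 := fun i h => by simp [r, h]
  have hinj : ∀ i j, i < s → j < s → r i = r j → i = j := by
    intro i j hi hj h
    rw [hr i hi, hr j hj] at h
    have := e.injective (Subtype.ext h)
    simpa using this
  have hB : ∀ x : M, BB x ↔ ∃ i, i < s ∧ x = r i := by
    intro x
    constructor
    · intro hx
      refine ⟨(e.symm ⟨x, hx⟩ : Fin s), (e.symm ⟨x, hx⟩).is_lt, ?_⟩
      rw [hr _ (e.symm ⟨x, hx⟩).is_lt]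
      simp
    · rintro ⟨i, hi, rfl⟩
      rw [hr i hi]
      exact (e ⟨i, hi⟩).2
  have hlt : ∀ i j, i < s → j < s → (lt (r i) (r j) ↔ i < j) := by
    intro i j hi hj
    rw [hr i hi, hr j hj]
    have h1 : lt (e ⟨i, hi⟩).1 (e ⟨j, hj⟩).1 ↔ e ⟨i, hi⟩ < e ⟨j, hj⟩ := Iff.rfl
    rw [h1, e.lt_iff_lt]
    simp
  have hE : ∀ j, j < s → ∀ i, i < s → (EE (r i) (r j) ↔ natE i j) := by
    intro j
    induction j with
    | zero =>
      intro hj i hi
      have h1 : ∀ z, ¬ lt z (r 0) := by
        intro z hz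
        obtain ⟨k, hk, rfl⟩ := (hB z).1 (hA.o0 _ _ hz).1
        have := (hlt _ _ hk hj).1 hz
        omega
      have h2 := hA.e1 (r 0) h1 (r i)
      simp [h2, natE]
    | succ j ih =>
      intro hj i hi
      have hsuc : Suc (r j) (r (j + 1)) := by
        refine ⟨(hlt _ _ (by omega) hj).2 (by omega), ?_⟩
        rintro z ⟨h1, h2⟩
        obtain ⟨k, hk, rfl⟩ := (hB z).1 (hA.o0 _ _ h2).1
        have h3 := (hlt _ _ (by omega) hk).1 h1
        have h4 := (hlt _ _ hk hj).1 h2
        omega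
      obtain ⟨i₀, h1, h2, h3, h4⟩ := hA.e2 _ _ hsuc
      obtain ⟨i₀, hi₀, rfl⟩ := (hB i₀).1 (hA.e0 _ _ h2).1
      have ih' := ih (by omega)
      have h5 := testBit_succ_of i₀ j (by
        have := (ih' i₀ hi₀).not.1 h1
        unfold natE at this
        simpa using this) (fun i hi => (ih' i (by omega)).1 (h3 (r i)
          ((hlt _ _ (by omega) hi₀).2 hi)).1) i
      unfold natE at ih' ⊢
      rw [h5]
      rcases Nat.lt_trichotomy i i₀ with h | h | h
      · rw [if_pos h]
        have := (h3 (r i) ((hlt _ _ hi hi₀).2 h)).2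
        simp [this]
      · subst h
        simp [h2]
      · rw [if_neg (by omega), if_neg (by omega), ← h4 (r i) ((hlt _ _ hi₀ hi).2 h)]
        exact ih' i hi
  obtain ⟨t, ht, hτ⟩ := (hB (tau M)).1 hA.o4
  exact ⟨s, t, r, ⟨hinj, hB, hlt, fun i j hi hj => hE j hj i hi, hA.o0, hA.e0⟩, ht, hτ⟩

/-- sizes of models of the axioms -/
lemma size_of_ax (M : Type) [LU.Structure M] [Fintype M] (hA : Ax M) :
    Fintype.card M ∈ univSizes := by
  classical
  obtain ⟨s, t, r, hb, ht, hτ⟩ := exists_base M hA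
  have hBr : ∀ i, i < s → BB (r i) := fun i hi => (hb.B _).2 ⟨i, hi, rfl⟩
  -- counting
  have hc1 : Fintype.card {x : M // XX x} = s * s := by
    have : Function.Bijective (fun p : Fin s × Fin s =>
        (⟨pr (r p.1) (r p.2), (hA.p1 _ _ (hBr _ p.1.is_lt) (hBr _ p.2.is_lt)).1⟩ :
          {x : M // XX x})) := by
      constructor
      · rintro ⟨i, j⟩ ⟨i', j'⟩ h
        have h0 : pr (r i) (r j) = pr (r i') (r j') := congrArg Subtype.val h
        obtain ⟨-, h1, h2⟩ := hA.p1 _ _ (hBr _ i.is_lt) (hBr _ j.is_lt)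
        obtain ⟨-, h3, h4⟩ := hA.p1 _ _ (hBr _ i'.is_lt) (hBr _ j'.is_lt)
        rw [h0] at h1 h2
        have h5 : (i : ℕ) = i' := hb.inj _ _ i.is_lt i'.is_lt (h1.symm.trans h3)
        have h6 : (j : ℕ) = j' := hb.inj _ _ j.is_lt j'.is_lt (h2.symm.trans h4)
        rw [Prod.mk.injEq]
        exact ⟨Fin.ext h5, Fin.ext h6⟩
      · rintro ⟨z, hz⟩
        obtain ⟨h1, h2, h3⟩ := hA.p2 z hz
        obtain ⟨i, hi, hi'⟩ := (hb.B _).1 h1
        obtain ⟨j, hj, hj'⟩ := (hb.B _).1 h2
        refine ⟨(⟨i, hi⟩, ⟨j, hj⟩), ?_⟩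
        apply Subtype.ext
        show pr (r i) (r j) = z
        rw [← hi', ← hj', h3]
    rw [← Fintype.card_of_bijective this]
    simp
  have hc2 : Fintype.card {x : M // ¬ XX x} = t := by
    have hlt : ∀ i, i < t → lt (r i) (tau M) := fun i hi => by
      rw [hτ]; exact (hb.lt _ _ (by omega) ht).2 hi
    have : Function.Bijective (fun p : Fin t =>
        (⟨hh' (r p), (hA.r2 _ (hlt _ p.is_lt)).1⟩ : {x : M // ¬ XX x})) := by
      constructor
      · rintro i j h
        have h0 : hh' (r i) = hh' (r j) := congrArg Subtype.val h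
        have h1 := (hA.r2 _ (hlt _ i.is_lt)).2
        have h2 := (hA.r2 _ (hlt _ j.is_lt)).2
        rw [h0] at h1
        exact Fin.ext (hb.inj _ _ (i.is_lt.trans ht) (j.is_lt.trans ht) (h1.symm.trans h2))
      · rintro ⟨z, hz⟩
        obtain ⟨h1, h2⟩ := hA.r1 z hz
        obtain ⟨i, hi, hi'⟩ := (hb.B _).1 (hA.o0 _ _ h1).1
        rw [hi', hτ] at h1
        have h3 := (hb.lt _ _ hi ht).1 h1
        refine ⟨⟨i, h3⟩, ?_⟩
        apply Subtype.ext
        show hh' (r i) = z
        rw [← hi', h2]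
    rw [← Fintype.card_of_bijective this]
    simp
  have hcard : Fintype.card M = s * s + t := by
    rw [← hc1, ← hc2]
    rw [← Fintype.card_sum]
    exact Fintype.card_congr (Equiv.sumCompl (fun x : M => XX x)).symm
  -- number of grid positions
  have hs3 : t + 3 ≤ s := by
    obtain ⟨x, h1, h2, h3⟩ := hA.g3
    obtain ⟨i, hi, rfl⟩ := (hb.B _).1 h1.1
    have h4 := (hb.grd_iff ht hτ hi).1 h1
    have h5 : i ≠ t := by
      rintro rfl; exact h2 hτ.symm
    have h6 := (hb.lst_iff hi).not.1 h3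
    omega
  obtain ⟨N, hN⟩ : ∃ N, s = N + 2 + t := ⟨s - 2 - t, by omega⟩
  -- the array
  have hex : ∀ x y, x ≤ N + 1 → y ≤ N + 1 → ∃ v, v < s ∧ cc (r (t + x)) (r (t + y)) = r v := by
    intro x y hx hy
    exact (hb.B _).1 (hA.g1 _ _ ((hb.grd_iff ht hτ (by omega)).2 (by omega))
      ((hb.grd_iff ht hτ (by omega)).2 (by omega))).1
  let a : ℕ → ℕ → ℕ := fun x y => if h : x ≤ N + 1 ∧ y ≤ N + 1 then (hex x y h.1 h.2).choose else 0
  have ha : ∀ x y, x ≤ N + 1 → y ≤ N + 1 → a x y < s ∧ cc (r (t + x)) (r (t + y)) = r (a x y) := by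
    intro x y hx hy
    simp only [a, hx, hy, and_self, dif_pos]
    exact (hex x y hx hy).choose_spec
  refine ⟨t, N, ⟨by omega, a, ?_, ?_⟩, ?_⟩
  · intro x y
    by_cases hxy : x ≤ N + 1 ∧ y ≤ N + 1
    · obtain ⟨h1, h2⟩ := ha x y hxy.1 hxy.2
      have h3 := (hA.g1 _ _ ((hb.grd_iff ht hτ (i := t + x) (by omega)).2 (by omega))
        ((hb.grd_iff ht hτ (i := t + y) (by omega)).2 (by omega))).2
      rw [h2, hb.pos_iff h1, hb.lst_iff (by omega), hb.lst_iff (by omega), hτ] at h3
      rw [h3]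
      have h4 : r (t + x) = r t ↔ x = 0 := by
        constructor
        · intro h
          have := hb.inj _ _ (by omega) (by omega) h
          omega
        · rintro rfl; rfl
      have h5 : r (t + y) = r t ↔ y = 0 := by
        constructor
        · intro h
          have := hb.inj _ _ (by omega) (by omega) h
          omega
        · rintro rfl; rfl
      rw [h4, h5]
      omega
    · have : a x y = 0 := by simp only [a, dif_neg hxy]
      simp only [this, ne_eq, not_true, false_iff]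
      omega
  · intro x y hx hy
    rw [mem_blk]
    obtain ⟨h1, h1'⟩ := ha x y (by omega) (by omega)
    obtain ⟨h2, h2'⟩ := ha (x + 1) y (by omega) (by omega)
    obtain ⟨h3, h3'⟩ := ha x (y + 1) (by omega) (by omega)
    obtain ⟨h4, h4'⟩ := ha (x + 1) (y + 1) (by omega) (by omega)
    have hg : ∀ i, t ≤ i → i < s → Grd (r i) := fun i hi hi' => (hb.grd_iff ht hτ hi').2 hi
    have h5 := hA.g2 (r (t + x)) (r (t + (x + 1))) (r (t + y)) (r (t + (y + 1)))
      (hg _ (by omega) (by omega)) (hg _ (by omega) (by omega)) (hg _ (by omega) (by omega))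
      (hg _ (by omega) (by omega)) (hb.suc (i := t + x) (by omega)) (hb.suc (i := t + y) (by omega))
    rw [h1', h2', h3', h4', hτ, hb.Qd_base ht h1 h2 h3 h4] at h5
    exact h5
  · rw [hcard, hN]; ring

/-! ### Construction of models -/

/-- carrier of the model -/
abbrev UM (s t : ℕ) : Type := (Fin s × Fin s) ⊕ Fin t

section Model

variable (s t : ℕ) [NeZero s] (a : ℕ → ℕ → ℕ)

/-- number to element of `Fin s` -/
def fin (n : ℕ) : Fin s := if h : n < s then ⟨n, h⟩ else 0

lemma fin_val {n : ℕ} (h : n < s) : (fin s n : ℕ) = n := by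
  unfold fin
  rw [dif_pos h]

/-- enumeration of the base set -/
def rr (n : ℕ) : UM s t := Sum.inl (fin s n, 0)

/-- index of an element of the base set; `s` for other elements -/
def idx : UM s t → ℕ
  | Sum.inl (i, j) => if (j : ℕ) = 0 then i else s
  | Sum.inr _ => s

lemma idx_rr {n : ℕ} (h : n < s) : idx s t (rr s t n) = n := by
  unfold idx rr
  simp [fin_val s h]

lemma rr_idx {x : UM s t} (h : idx s t x < s) : rr s t (idx s t x) = x := by
  rcases x with ⟨i, j⟩ | x
  · by_cases hj : (j : ℕ) = 0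
    · have hj' : j = 0 := Fin.ext (by simpa using hj)
      subst hj'
      have : idx s t (Sum.inl (i, 0)) = i := by simp [idx]
      rw [this]
      unfold rr
      congr 2
      apply Fin.ext
      exact fin_val s i.is_lt
    · simp [idx, hj] at h
  · simp [idx] at h

/-- the structure -/
@[reducible] def UStr : LU.Structure (UM s t) where
  funMap := fun {_} f => match f with
    | UFn.tau => fun _ => rr s t t
    | UFn.f1 => fun v => match v 0 with
      | Sum.inl (i, _) => rr s t i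
      | Sum.inr _ => rr s t 0
    | UFn.f2 => fun v => match v 0 with
      | Sum.inl (_, j) => rr s t j
      | Sum.inr _ => rr s t 0
    | UFn.h => fun v => match v 0 with
      | Sum.inl _ => rr s t 0
      | Sum.inr i => rr s t i
    | UFn.h' => fun v => if h : idx s t (v 0) < t then Sum.inr ⟨idx s t (v 0), h⟩ else rr s t 0
    | UFn.pr => fun v => Sum.inl (fin s (idx s t (v 0)), fin s (idx s t (v 1)))
    | UFn.c => fun v => rr s t (a (idx s t (v 0) - t) (idx s t (v 1) - t))
  RelMap := fun {_} r => match r with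
    | URl.B => fun v => idx s t (v 0) < s
    | URl.X => fun v => (v 0).isLeft = true
    | URl.lt => fun v => idx s t (v 0) < idx s t (v 1) ∧ idx s t (v 1) < s
    | URl.E => fun v => natE (idx s t (v 0)) (idx s t (v 1)) ∧ idx s t (v 1) < s

end Model

lemma exists_model (t N : ℕ) (hN : N ∈ squareSizes (blk t)) :
    ∃ (M : Type) (_ : LU.Structure M) (_ : Fintype M), Fintype.card M = (N + 2 + t) ^ 2 + t ∧
      Ax M := by
  obtain ⟨hN1, a, ha0, ha⟩ := hN
  obtain ⟨s, hs⟩ : ∃ s, s = N + 2 + t := ⟨_, rfl⟩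
  have : NeZero s := ⟨by omega⟩
  let _ : LU.Structure (UM s t) := UStr s t a
  have eB : ∀ x : UM s t, BB x ↔ idx s t x < s := fun x => Iff.rfl
  have eX : ∀ x : UM s t, XX x ↔ x.isLeft = true := fun x => Iff.rfl
  have elt : ∀ x y : UM s t, lt x y ↔ idx s t x < idx s t y ∧ idx s t y < s := fun x y => Iff.rfl
  have eE : ∀ x y : UM s t, EE x y ↔ natE (idx s t x) (idx s t y) ∧ idx s t y < s :=
    fun x y => Iff.rfl
  have etau : tau (UM s t) = rr s t t := rfl
  have ef1 : ∀ i j, f1 (Sum.inl (i, j) : UM s t) = rr s t i := fun i j => rfl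
  have ef2 : ∀ i j, f2 (Sum.inl (i, j) : UM s t) = rr s t j := fun i j => rfl
  have eh : ∀ i, hh (Sum.inr i : UM s t) = rr s t i := fun i => rfl
  have eh' : ∀ x : UM s t, hh' x = if h : idx s t x < t then Sum.inr ⟨idx s t x, h⟩
      else rr s t 0 := fun x => rfl
  have epr : ∀ x y : UM s t, pr x y = Sum.inl (fin s (idx s t x), fin s (idx s t y)) :=
    fun x y => rfl
  have ec : ∀ x y : UM s t, cc x y = rr s t (a (idx s t x - t) (idx s t y - t)) :=
    fun x y => rfl
  have hts : t < s := by omega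
  have hidx : ∀ {n}, n < s → idx s t (rr s t n) = n := fun h => idx_rr s t h
  have hrr : ∀ {x}, idx s t x < s → rr s t (idx s t x) = x := fun h => rr_idx s t h
  have hbase : Base (UM s t) s (rr s t) := by
    refine ⟨?_, ?_, ?_, ?_, ?_, ?_⟩
    · intro i j hi hj h
      rw [← hidx hi, ← hidx hj, h]
    · intro x
      rw [eB]
      constructor
      · intro h; exact ⟨_, h, (hrr h).symm⟩
      · rintro ⟨i, hi, rfl⟩; rw [hidx hi]; exact hi
    · intro i j hi hj
      rw [elt, hidx hi, hidx hj]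
      exact ⟨fun h => h.1, fun h => ⟨h, hj⟩⟩
    · intro i j hi hj
      rw [eE, hidx hi, hidx hj]
      exact ⟨fun h => h.1, fun h => ⟨h, hj⟩⟩
    · intro x y h
      rw [elt] at h
      rw [eB, eB]
      exact ⟨h.1.trans h.2, h.2⟩
    · intro x y h
      rw [eE] at h
      rw [eB, eB]
      exact ⟨(natE_lt h.1).trans h.2, h.2⟩
  have hBB : ∀ {x : UM s t}, BB x → ∃ i, i < s ∧ x = rr s t i := fun h => (hbase.B _).1 h
  -- values of the array
  have hav : ∀ x y, x ≤ N → y ≤ N → a x y < t ∧ a (x + 1) y < t ∧ a x (y + 1) < t ∧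
      a (x + 1) (y + 1) < t := by
    intro x y hx hy
    have := ha x y hx hy
    rw [mem_blk] at this
    exact Qd_lt this
  have hav' : ∀ x y, x ≤ N + 1 → y ≤ N + 1 → a x y < t := by
    intro x y hx hy
    rcases Nat.eq_zero_or_pos x with h1 | h1 <;> rcases Nat.eq_zero_or_pos y with h2 | h2
    · subst h1; subst h2; exact (hav 0 0 (by omega) (by omega)).1
    · have := (hav x (y - 1) (by omega) (by omega)).2.2.1
      rwa [show y - 1 + 1 = y by omega] at this
    · have := (hav (x - 1) y (by omega) (by omega)).2.1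
      rwa [show x - 1 + 1 = x by omega] at this
    · have := (hav (x - 1) (y - 1) (by omega) (by omega)).2.2.2
      rwa [show x - 1 + 1 = x by omega, show y - 1 + 1 = y by omega] at this
  refine ⟨UM s t, inferInstance, inferInstance, ?_, ?_⟩
  · simp only [Fintype.card_sum, Fintype.card_prod, Fintype.card_fin, hs]; ring
  · refine ⟨hbase.o0, ?_, ?_, ?_, ?_, ?_, ?_, ?_, ?_, hbase.e0, ?_, ?_, ?_, ?_, ?_⟩
    · intro x h
      rw [elt] at h; omega
    · intro x y z h1 h2
      rw [elt] at *; omega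
    · intro x y hx hy
      obtain ⟨i, hi, rfl⟩ := hBB hx
      obtain ⟨j, hj, rfl⟩ := hBB hy
      rw [hbase.lt _ _ hi hj, hbase.lt _ _ hj hi]
      rcases Nat.lt_trichotomy i j with h | h | h
      · exact Or.inl h
      · subst h; exact Or.inr (Or.inl rfl)
      · exact Or.inr (Or.inr h)
    · rw [etau, eB, hidx hts]; exact hts
    · intro x y hx hy
      rw [eB] at hx hy
      refine ⟨by rw [epr, eX]; rfl, ?_, ?_⟩
      · rw [epr, ef1, fin_val s hx, hrr hx]
      · rw [epr, ef2, fin_val s hy, hrr hy]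
    · intro z hz
      rw [eX] at hz
      rcases z with ⟨i, j⟩ | z
      · refine ⟨?_, ?_, ?_⟩
        · rw [ef1, eB, hidx i.is_lt]; exact i.is_lt
        · rw [ef2, eB, hidx j.is_lt]; exact j.is_lt
        · rw [ef1, ef2, epr, hidx i.is_lt, hidx j.is_lt]
          congr 2 <;> apply Fin.ext
          · exact fin_val s i.is_lt
          · exact fin_val s j.is_lt
      · simp at hz
    · intro z hz
      rw [eX] at hz
      rcases z with ⟨i, j⟩ | z
      · simp at hz
      · have hz' : (z : ℕ) < s := z.is_lt.trans hts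
        refine ⟨?_, ?_⟩
        · rw [eh, etau, hbase.lt _ _ hz' hts]; exact z.is_lt
        · rw [eh, eh']
          have : idx s t (rr s t z) < t := by rw [hidx hz']; exact z.is_lt
          rw [dif_pos this]
          congr 1
          apply Fin.ext
          exact hidx hz'
    · intro y hy
      rw [etau, elt, hidx hts] at hy
      rw [eh', dif_pos hy.1, eX]
      refine ⟨by simp, ?_⟩
      rw [eh]
      exact hrr (hy.1.trans hts)
    · intro y hy x hx
      have hyB := (hbase.e0 _ _ hx).2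
      obtain ⟨j, hj, rfl⟩ := hBB hyB
      have h0 : ¬ (j ≠ 0) := by
        rw [← hbase.pos_iff hj]
        rintro ⟨z, hz⟩
        exact hy z hz
      have h0' : j = 0 := by omega
      subst h0'
      rw [eE, hidx hj] at hx
      have := natE_lt hx.1
      omega
    · intro y y' hyy
      obtain ⟨hyB, hyB'⟩ := hbase.o0 _ _ hyy.1
      obtain ⟨j, hj, rfl⟩ := hBB hyB
      obtain ⟨j', hj', rfl⟩ := hBB hyB'
      have h1 := (hbase.suc_iff hj hj').1 hyy
      subst h1
      -- lowest zero bit of j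
      have hex : ∃ i, j.testBit i = false := ⟨j, by
        rw [Nat.testBit_eq_false_of_lt]
        exact Nat.lt_two_pow_self⟩
      obtain ⟨i₀, hi₀, hmin⟩ : ∃ i₀, j.testBit i₀ = false ∧ ∀ i < i₀, j.testBit i = true := by
        refine ⟨Nat.find hex, Nat.find_spec hex, fun i hi => ?_⟩
        have := Nat.find_min hex hi
        simpa using this
      have hb := testBit_succ_of i₀ j hi₀ hmin
      have hnat : ∀ i, natE i (j + 1) ↔ (if i < i₀ then false else if i = i₀ then true
          else j.testBit i) = true := by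
        intro i; unfold natE; rw [hb i]
      have h2 : natE i₀ (j + 1) := by rw [hnat]; simp
      have hi₀s : i₀ < s := (natE_lt h2).trans hj'
      refine ⟨rr s t i₀, ?_, ?_, ?_, ?_⟩
      · rw [hbase.E _ _ hi₀s hj]; unfold natE; rw [hi₀]; simp
      · rw [hbase.E _ _ hi₀s hj']; exact h2
      · intro z hz
        obtain ⟨i, hi, rfl⟩ := hBB (hbase.o0 _ _ hz).1
        have h3 := (hbase.lt _ _ hi hi₀s).1 hz
        rw [hbase.E _ _ hi hj, hbase.E _ _ hi hj', hnat, if_pos h3]
        exact ⟨hmin i h3, by simp⟩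
      · intro z hz
        obtain ⟨i, hi, rfl⟩ := hBB (hbase.o0 _ _ hz).2
        have h3 := (hbase.lt _ _ hi₀s hi).1 hz
        rw [hbase.E _ _ hi hj, hbase.E _ _ hi hj', hnat, if_neg (by omega), if_neg (by omega)]
        rfl
    · intro x y hx hy
      obtain ⟨i, hi, rfl⟩ := hBB hx.1
      obtain ⟨j, hj, rfl⟩ := hBB hy.1
      rw [hbase.grd_iff hts etau hi] at hx
      rw [hbase.grd_iff hts etau hj] at hy
      have h1 : a (i - t) (j - t) < s := (hav' _ _ (by omega) (by omega)).trans hts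
      rw [ec, hidx hi, hidx hj]
      refine ⟨by rw [eB, hidx h1]; exact h1, ?_⟩
      rw [hbase.pos_iff h1, ha0, hbase.lst_iff hi, hbase.lst_iff hj, etau]
      have h4 : rr s t i = rr s t t ↔ i = t := by
        constructor
        · intro h; exact hbase.inj _ _ hi hts h
        · rintro rfl; rfl
      have h5 : rr s t j = rr s t t ↔ j = t := by
        constructor
        · intro h; exact hbase.inj _ _ hj hts h
        · rintro rfl; rfl
      rw [h4, h5]
      omega
    · intro x x' y y' hx hx' hy hy' hxx hyy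
      obtain ⟨i, hi, rfl⟩ := hBB hx.1
      obtain ⟨i', hi', rfl⟩ := hBB hx'.1
      obtain ⟨j, hj, rfl⟩ := hBB hy.1
      obtain ⟨j', hj', rfl⟩ := hBB hy'.1
      have h1 := (hbase.suc_iff hi hi').1 hxx
      have h2 := (hbase.suc_iff hj hj').1 hyy
      subst h1
      subst h2
      rw [hbase.grd_iff hts etau hi] at hx
      rw [hbase.grd_iff hts etau hj] at hy
      rw [ec, ec, ec, ec, hidx hi, hidx hj, hidx hi', hidx hj', etau]
      have h3 := ha (i - t) (j - t) (by omega) (by omega)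
      rw [mem_blk] at h3
      obtain ⟨h4, h5, h6, h7⟩ := Qd_lt h3
      rw [show i + 1 - t = i - t + 1 by omega, show j + 1 - t = j - t + 1 by omega,
        hbase.Qd_base hts (h4.trans hts) (h5.trans hts) (h6.trans hts) (h7.trans hts)]
      exact h3
    · refine ⟨rr s t (t + 1), ?_, ?_, ?_⟩
      · rw [hbase.grd_iff hts etau (by omega)]; omega
      · rw [etau]
        intro h
        have := hbase.inj _ _ (by omega) hts h
        omega
      · rw [hbase.lst_iff (by omega)]; omega

/-- the universal set of sizes is a spectrum -/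
theorem univSizes_spectrum : IsSpectrum univSizes := by
  obtain ⟨φ, hφ⟩ := Ax_def
  refine ⟨LU, inferInstance, inferInstance, φ, ?_⟩
  ext m
  constructor
  · rintro ⟨t, N, hN, rfl⟩
    obtain ⟨M, hM, hf, hc, hA⟩ := exists_model t N hN
    refine ⟨?_, M, hM, hf, hc, ?_⟩
    · have : 1 ≤ (N + 2 + t) ^ 2 := Nat.one_le_pow _ _ (by omega)
      omega
    · exact (real_iff hM φ default default).1 ((hφ M default).2 hA)
  · rintro ⟨-, M, hM, hf, rfl, hr⟩
    exact size_of_ax M ((hφ M default).1 ((real_iff hM φ default default).2 hr))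

end Pool.Agent.Helper20.Spectra
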